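import Mathlib
set_option autoImplicit false
open Finset

namespace Pool.Agent.Helper992.Radon

section Abstract

variable {ι H : Type*} [DecidableEq ι] [AddCommGroup H] [Module ℝ H]

/-- Some vector vanishes on `Z`, is positive on `P` and negative on `N`. -/
def Rz (L : ι → H →ₗ[ℝ] ℝ) (Z P N : Finset ι) : Prop :=
  ∃ h : H, (∀ x ∈ Z, L x h = 0) ∧ (∀ x ∈ P, 0 < L x h) ∧ (∀ x ∈ N, L x h < 0)

/-- The family behaves on `S` like vectors in general position in dimension `D`. -/
structure GP (L : ι → H →ₗ[ℝ] ℝ) (D : ℕ) (S : Finset ι) : Prop where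
  indep : ∀ Z ⊆ S, ∀ x ∈ S, x ∉ Z → Z.card < D → ∃ g : H, (∀ y ∈ Z, L y g = 0) ∧ L x g ≠ 0
  dep : ∀ Z ⊆ S, D ≤ Z.card → ∀ g : H, (∀ y ∈ Z, L y g = 0) → ∀ x ∈ S, L x g = 0

theorem exists_small {κ : Type*} (F : Finset κ) (u v : κ → ℝ) (hu : ∀ x ∈ F, 0 < u x) :
    ∃ e : ℝ, 0 < e ∧ ∀ x ∈ F, e * |v x| < u x := by
  classical
  induction F using Finset.induction_on with
  | empty => exact ⟨1, one_pos, by simp⟩
  | insert a F ha ih =>
    obtain ⟨e, he, h⟩ := ih (fun x hx => hu x (mem_insert_of_mem hx))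
    have hua := hu a (mem_insert_self a F)
    have hv : 0 < |v a| + 1 := by positivity
    refine ⟨min e (u a / (|v a| + 1)), lt_min he (by positivity), ?_⟩
    intro x hx
    rcases mem_insert.1 hx with rfl | hx
    · calc min e (u x / (|v x| + 1)) * |v x| ≤ u x / (|v x| + 1) * |v x| :=
            mul_le_mul_of_nonneg_right (min_le_right _ _) (abs_nonneg _)
        _ < u x / (|v x| + 1) * (|v x| + 1) := by
            apply mul_lt_mul_of_pos_left (by linarith) (by positivity)
        _ = u x := by field_simp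
    · exact lt_of_le_of_lt (mul_le_mul_of_nonneg_right (min_le_left _ _) (abs_nonneg _)) (h x hx)

theorem Rz_perturb (L : ι → H →ₗ[ℝ] ℝ) (Z P N : Finset ι) (h g : H)
    (hP : ∀ x ∈ P, 0 < L x h) (hN : ∀ x ∈ N, L x h < 0) :
    ∃ e : ℝ, 0 < e ∧ ∀ t : ℝ, |t| ≤ e →
      (∀ x ∈ P, 0 < L x (h + t • g)) ∧ (∀ x ∈ N, L x (h + t • g) < 0) := by
  obtain ⟨e, he, hs⟩ := exists_small (P ∪ N) (fun x => |L x h|) (fun x => L x g) (by
    intro x hx
    rcases mem_union.1 hx with hx | hx
    · exact abs_pos.2 (hP x hx).ne'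
    · exact abs_pos.2 (hN x hx).ne)
  refine ⟨e, he, fun t ht => ⟨?_, ?_⟩⟩
  · intro x hx
    have h1 := hs x (mem_union_left _ hx)
    rw [abs_of_pos (hP x hx)] at h1
    have h2 : |t * L x g| ≤ e * |L x g| := by
      rw [abs_mul]; exact mul_le_mul_of_nonneg_right ht (abs_nonneg _)
    rw [map_add, map_smul, smul_eq_mul]
    have := neg_abs_le (t * L x g)
    linarith
  · intro x hx
    have h1 := hs x (mem_union_right _ hx)
    rw [abs_of_neg (hN x hx)] at h1
    have h2 : |t * L x g| ≤ e * |L x g| := by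
      rw [abs_mul]; exact mul_le_mul_of_nonneg_right ht (abs_nonneg _)
    rw [map_add, map_smul, smul_eq_mul]
    have := le_abs_self (t * L x g)
    linarith

theorem Rz_split_or (L : ι → H →ₗ[ℝ] ℝ) (Z P N : Finset ι) (x : ι) (g : H)
    (hg : ∀ y ∈ Z, L y g = 0) (hx : L x g ≠ 0) :
    Rz L Z P N ↔ Rz L Z (insert x P) N ∨ Rz L Z P (insert x N) := by
  constructor
  · rintro ⟨h, hZ, hP, hN⟩
    rcases lt_trichotomy (L x h) 0 with h0 | h0 | h0
    · right
      refine ⟨h, hZ, hP, ?_⟩
      intro y hy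
      rcases mem_insert.1 hy with rfl | hy
      · exact h0
      · exact hN y hy
    · obtain ⟨e, he, hs⟩ := Rz_perturb L Z P N h g hP hN
      left
      rcases lt_or_gt_of_ne hx with hx0 | hx0
      · obtain ⟨h1, h2⟩ := hs (-e) (by rw [abs_neg, abs_of_pos he])
        refine ⟨h + (-e) • g, ?_, ?_, h2⟩
        · intro y hy
          rw [map_add, map_smul, hZ y hy, hg y hy]; simp
        · intro y hy
          rcases mem_insert.1 hy with rfl | hy
          · rw [map_add, map_smul, h0, smul_eq_mul, zero_add]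
            nlinarith
          · exact h1 y hy
      · obtain ⟨h1, h2⟩ := hs e (by rw [abs_of_pos he])
        refine ⟨h + e • g, ?_, ?_, h2⟩
        · intro y hy
          rw [map_add, map_smul, hZ y hy, hg y hy]; simp
        · intro y hy
          rcases mem_insert.1 hy with rfl | hy
          · rw [map_add, map_smul, h0, smul_eq_mul, zero_add]
            positivity
          · exact h1 y hy
    · left
      refine ⟨h, hZ, ?_, hN⟩
      intro y hy
      rcases mem_insert.1 hy with rfl | hy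
      · exact h0
      · exact hP y hy
  · rintro (⟨h, hZ, hP, hN⟩ | ⟨h, hZ, hP, hN⟩)
    · exact ⟨h, hZ, fun y hy => hP y (mem_insert_of_mem hy), hN⟩
    · exact ⟨h, hZ, hP, fun y hy => hN y (mem_insert_of_mem hy)⟩

theorem Rz_split_and (L : ι → H →ₗ[ℝ] ℝ) (Z P N : Finset ι) (x : ι) (g : H)
    (hg : ∀ y ∈ Z, L y g = 0) (hx : L x g ≠ 0) :
    Rz L (insert x Z) P N ↔ Rz L Z (insert x P) N ∧ Rz L Z P (insert x N) := by
  constructor
  · rintro ⟨h, hZ, hP, hN⟩
    have h0 : L x h = 0 := hZ x (mem_insert_self _ _)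
    obtain ⟨e, he, hs⟩ := Rz_perturb L Z P N h g hP hN
    have key : ∀ t : ℝ, |t| ≤ e → ∀ y ∈ Z, L y (h + t • g) = 0 := by
      intro t _ y hy
      rw [map_add, map_smul, hZ y (mem_insert_of_mem hy), hg y hy]; simp
    have hLx : ∀ t : ℝ, L x (h + t • g) = t * L x g := by
      intro t; rw [map_add, map_smul, h0, smul_eq_mul, zero_add]
    have he' : |e| ≤ e := by rw [abs_of_pos he]
    have hne : |-e| ≤ e := by rw [abs_neg, abs_of_pos he]
    rcases lt_or_gt_of_ne hx with hx0 | hx0
    · constructor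
      · refine ⟨h + (-e) • g, key _ hne, ?_, (hs _ hne).2⟩
        intro y hy
        rcases mem_insert.1 hy with rfl | hy
        · rw [hLx]; nlinarith
        · exact (hs _ hne).1 y hy
      · refine ⟨h + e • g, key _ he', (hs _ he').1, ?_⟩
        intro y hy
        rcases mem_insert.1 hy with rfl | hy
        · rw [hLx]; nlinarith
        · exact (hs _ he').2 y hy
    · constructor
      · refine ⟨h + e • g, key _ he', ?_, (hs _ he').2⟩
        intro y hy
        rcases mem_insert.1 hy with rfl | hy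
        · rw [hLx]; nlinarith
        · exact (hs _ he').1 y hy
      · refine ⟨h + (-e) • g, key _ hne, (hs _ hne).1, ?_⟩
        intro y hy
        rcases mem_insert.1 hy with rfl | hy
        · rw [hLx]; nlinarith
        · exact (hs _ hne).2 y hy
  · rintro ⟨⟨h1, hZ1, hP1, hN1⟩, ⟨h2, hZ2, hP2, hN2⟩⟩
    have ha : 0 < L x h1 := hP1 x (mem_insert_self _ _)
    have hb : L x h2 < 0 := hN2 x (mem_insert_self _ _)
    refine ⟨(-(L x h2)) • h1 + (L x h1) • h2, ?_, ?_, ?_⟩
    · intro y hy
      rw [map_add, map_smul, map_smul, smul_eq_mul, smul_eq_mul]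
      rcases mem_insert.1 hy with rfl | hy
      · ring
      · rw [hZ1 y hy, hZ2 y hy]; ring
    · intro y hy
      rw [map_add, map_smul, map_smul, smul_eq_mul, smul_eq_mul]
      have e1 := hP1 y (mem_insert_of_mem hy)
      have e2 := hP2 y hy
      have : 0 < -(L x h2) * L y h1 := mul_pos (by linarith) e1
      have : 0 < L x h1 * L y h2 := mul_pos ha e2
      linarith
    · intro y hy
      rw [map_add, map_smul, map_smul, smul_eq_mul, smul_eq_mul]
      have e1 := hN1 y hy
      have e2 := hN2 y (mem_insert_of_mem hy)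
      have : -(L x h2) * L y h1 < 0 := mul_neg_of_pos_of_neg (by linarith) e1
      have : L x h1 * L y h2 < 0 := mul_neg_of_pos_of_neg ha e2
      linarith

open Classical in
/-- The corrected indicator. -/
noncomputable def rho (L : ι → H →ₗ[ℝ] ℝ) (D : ℕ) (Z P N : Finset ι) : ℤ :=
  if P = ∅ ∧ N = ∅ ∧ D ≤ Z.card then (-1) ^ (Z.card - D) else if Rz L Z P N then 1 else 0

theorem rho_of_ne (L : ι → H →ₗ[ℝ] ℝ) (D : ℕ) (Z P N : Finset ι) (h : ¬ (P = ∅ ∧ N = ∅)) :
    rho L D Z P N = by classical exact if Rz L Z P N then 1 else 0 := by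
  unfold rho
  rw [if_neg]
  intro h'
  exact h ⟨h'.1, h'.2.1⟩

theorem rho_small (L : ι → H →ₗ[ℝ] ℝ) (D : ℕ) (Z : Finset ι) (h : Z.card < D) :
    rho L D Z ∅ ∅ = 1 := by
  unfold rho
  rw [if_neg (by omega), if_pos]
  exact ⟨0, by simp, by simp, by simp⟩

theorem rho_big (L : ι → H →ₗ[ℝ] ℝ) (D : ℕ) (Z : Finset ι) (h : D ≤ Z.card) :
    rho L D Z ∅ ∅ = (-1) ^ (Z.card - D) := by
  unfold rho
  rw [if_pos ⟨rfl, rfl, h⟩]

theorem rho_eq_one (L : ι → H →ₗ[ℝ] ℝ) (D : ℕ) (Z P N : Finset ι) (h : ¬ (P = ∅ ∧ N = ∅))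
    (hr : Rz L Z P N) : rho L D Z P N = 1 := by
  classical
  rw [rho_of_ne L D Z P N h]
  simp [hr]

theorem rho_eq_zero (L : ι → H →ₗ[ℝ] ℝ) (D : ℕ) (Z P N : Finset ι) (h : ¬ (P = ∅ ∧ N = ∅))
    (hr : ¬ Rz L Z P N) : rho L D Z P N = 0 := by
  classical
  rw [rho_of_ne L D Z P N h]
  simp [hr]

variable {L : ι → H →ₗ[ℝ] ℝ} {D : ℕ} {S : Finset ι}

theorem GP.not_Rz (hG : GP L D S) {Z P N : Finset ι} (hZ : Z ⊆ S) (hP : P ⊆ S) (hN : N ⊆ S)
    (hc : D ≤ Z.card) (hne : ¬ (P = ∅ ∧ N = ∅)) : ¬ Rz L Z P N := by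
  rintro ⟨h, h0, h1, h2⟩
  have key := hG.dep Z hZ hc h h0
  by_cases hPe : P = ∅
  · have : N ≠ ∅ := fun hN => hne ⟨hPe, hN⟩
    obtain ⟨y, hy⟩ := nonempty_iff_ne_empty.2 this
    have a1 := h2 y hy
    rw [key y (hN hy)] at a1
    exact lt_irrefl _ a1
  · obtain ⟨y, hy⟩ := nonempty_iff_ne_empty.2 hPe
    have a1 := h1 y hy
    rw [key y (hP hy)] at a1
    exact lt_irrefl _ a1

/-- The basic relation. -/
theorem GP.split (hG : GP L D S) {Z P N : Finset ι} (hZ : Z ⊆ S) (hP : P ⊆ S) (hN : N ⊆ S)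
    {x : ι} (hx : x ∈ S) (hxZ : x ∉ Z) :
    rho L D Z P N + rho L D (insert x Z) P N
      = rho L D Z (insert x P) N + rho L D Z P (insert x N) := by
  classical
  have hi1 : ¬ (insert x P = ∅ ∧ N = ∅) := fun h => insert_ne_empty _ _ h.1
  have hi2 : ¬ (P = ∅ ∧ insert x N = ∅) := fun h => insert_ne_empty _ _ h.2
  have hxP : insert x P ⊆ S := insert_subset hx hP
  have hxN : insert x N ⊆ S := insert_subset hx hN
  have hxZ' : insert x Z ⊆ S := insert_subset hx hZ
  have hcard : (insert x Z).card = Z.card + 1 := card_insert_of_notMem hxZ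
  rcases lt_or_ge Z.card D with hlt | hge
  · obtain ⟨g, hg, hgx⟩ := hG.indep Z hZ x hx hxZ hlt
    by_cases hne : P = ∅ ∧ N = ∅
    · obtain ⟨rfl, rfl⟩ := hne
      have e0 : rho L D Z ∅ ∅ = 1 := rho_small L D Z hlt
      have e1 : rho L D (insert x Z) ∅ ∅ = 1 := by
        rcases lt_or_ge (insert x Z).card D with h | h
        · exact rho_small L D _ h
        · rw [rho_big L D _ h]
          have : (insert x Z).card - D = 0 := by omega
          rw [this, pow_zero]
      have hz : Rz L (insert x Z) ∅ ∅ := ⟨0, by simp, by simp, by simp⟩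
      have hb := (Rz_split_and L Z ∅ ∅ x g hg hgx).1 hz
      rw [e0, e1, rho_eq_one L D _ _ _ hi1 hb.1, rho_eq_one L D _ _ _ hi2 hb.2]
    · rw [rho_of_ne L D _ _ _ hne, rho_of_ne L D _ _ _ hne, rho_of_ne L D _ _ _ hi1,
        rho_of_ne L D _ _ _ hi2]
      have h1 := Rz_split_or L Z P N x g hg hgx
      have h2 := Rz_split_and L Z P N x g hg hgx
      by_cases a : Rz L Z (insert x P) N <;> by_cases b : Rz L Z P (insert x N) <;>
        simp [a, b, h1, h2]
  · have n1 : rho L D Z (insert x P) N = 0 :=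
      rho_eq_zero L D _ _ _ hi1 (hG.not_Rz hZ hxP hN hge hi1)
    have n2 : rho L D Z P (insert x N) = 0 :=
      rho_eq_zero L D _ _ _ hi2 (hG.not_Rz hZ hP hxN hge hi2)
    rw [n1, n2]
    by_cases hne : P = ∅ ∧ N = ∅
    · obtain ⟨rfl, rfl⟩ := hne
      rw [rho_big L D Z hge, rho_big L D (insert x Z) (by omega), hcard]
      have : Z.card + 1 - D = (Z.card - D) + 1 := by omega
      rw [this, pow_succ]; ring
    · rw [rho_eq_zero L D _ _ _ hne (hG.not_Rz hZ hP hN hge hne),
        rho_eq_zero L D _ _ _ hne (hG.not_Rz hxZ' hP hN (by omega) hne)]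

/-- Counting cells. -/
theorem GP.cells (hG : GP L D S) (S' : Finset ι) (hS' : S' ⊆ S) :
    ∀ Z P N : Finset ι, Z ⊆ S → P ⊆ S → N ⊆ S → Disjoint S' Z →
      ∑ T ∈ S'.powerset, rho L D Z (P ∪ T) (N ∪ (S' \ T))
        = ∑ F ∈ S'.powerset, rho L D (Z ∪ F) P N := by
  classical
  induction S' using Finset.induction_on with
  | empty => intro Z P N _ _ _ _; simp
  | insert x S' hx ih =>
    intro Z P N hZ hP hN hd
    have hxS : x ∈ S := hS' (mem_insert_self _ _)
    have hS'' : S' ⊆ S := fun y hy => hS' (mem_insert_of_mem hy)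
    have hxZ : x ∉ Z := fun h => disjoint_left.1 hd (mem_insert_self _ _) h
    have hdZ : Disjoint S' Z := disjoint_of_subset_left (subset_insert _ _) hd
    have hdZ' : Disjoint S' (insert x Z) := by
      rw [disjoint_left]
      intro y hy hy'
      rcases mem_insert.1 hy' with rfl | hy'
      · exact hx hy
      · exact disjoint_left.1 hdZ hy hy'
    have ih1 := ih hS'' Z P N hZ hP hN hdZ
    have ih2 := ih hS'' (insert x Z) P N (insert_subset hxS hZ) hP hN hdZ'
    rw [sum_powerset_insert hx, sum_powerset_insert hx, ← sum_add_distrib]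
    have e1 : ∀ F ∈ S'.powerset, rho L D (Z ∪ insert x F) P N = rho L D (insert x Z ∪ F) P N := by
      intro F _
      rw [union_insert, insert_union]
    rw [sum_congr rfl e1, ← ih1, ← ih2, ← sum_add_distrib]
    apply sum_congr rfl
    intro T hT
    have hTS := mem_powerset.1 hT
    have hxT : x ∉ T := fun h => hx (hTS h)
    have a1 : insert x S' \ T = insert x (S' \ T) := by
      rw [insert_sdiff_of_notMem _ hxT]
    have a2 : insert x S' \ insert x T = S' \ T := by
      rw [insert_sdiff_insert, sdiff_insert_of_notMem hx]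
    rw [a1, a2, union_insert, union_insert]
    have := hG.split (Z := Z) (P := P ∪ T) (N := N ∪ (S' \ T)) hZ
      (union_subset hP (hTS.trans hS'')) (union_subset hN (sdiff_subset.trans hS'')) hxS hxZ
    rw [this]
    ring

/-- Euler type expansion. -/
theorem GP.euler (hG : GP L D S) (σ : ι → Prop) [DecidablePred σ] (S' : Finset ι) (hS' : S' ⊆ S) :
    ∀ Z P N : Finset ι, Z ⊆ S → P ⊆ S → N ⊆ S → Disjoint S' Z →
      ∑ F ∈ S'.powerset, (-1) ^ F.card * rho L D (Z ∪ F) (P ∪ (S' \ F).filter σ)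
          (N ∪ (S' \ F).filter (fun y => ¬ σ y))
        = ∑ B ∈ S'.powerset, (-1) ^ B.card * rho L D Z (P ∪ B.filter (fun y => ¬ σ y))
          (N ∪ B.filter σ) := by
  classical
  induction S' using Finset.induction_on with
  | empty => intro Z P N _ _ _ _; simp
  | insert x S' hx ih =>
    intro Z P N hZ hP hN hd
    have hxS : x ∈ S := hS' (mem_insert_self _ _)
    have hS'' : S' ⊆ S := fun y hy => hS' (mem_insert_of_mem hy)
    have hxZ : x ∉ Z := fun h => disjoint_left.1 hd (mem_insert_self _ _) h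
    have hdZ : Disjoint S' Z := disjoint_of_subset_left (subset_insert _ _) hd
    have hdZ' : Disjoint S' (insert x Z) := by
      rw [disjoint_left]
      intro y hy hy'
      rcases mem_insert.1 hy' with rfl | hy'
      · exact hx hy
      · exact disjoint_left.1 hdZ hy hy'
    have ih2 := ih hS'' (insert x Z) P N (insert_subset hxS hZ) hP hN hdZ'
    rw [sum_powerset_insert hx, sum_powerset_insert hx]
    have sub : ∀ F ∈ S'.powerset, x ∉ F := fun F hF h => hx (mem_powerset.1 hF h)
    have e2 : ∑ F ∈ S'.powerset, (-1 : ℤ) ^ (insert x F).card * rho L D (Z ∪ insert x F)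
        (P ∪ (insert x S' \ insert x F).filter σ) (N ∪ (insert x S' \ insert x F).filter
          (fun y => ¬ σ y))
        = - ∑ B ∈ S'.powerset, (-1) ^ B.card * rho L D (insert x Z)
          (P ∪ B.filter (fun y => ¬ σ y)) (N ∪ B.filter σ) := by
      rw [← ih2, ← sum_neg_distrib]
      apply sum_congr rfl
      intro F hF
      rw [card_insert_of_notMem (sub F hF), insert_sdiff_insert, sdiff_insert_of_notMem hx,
        union_insert, insert_union, pow_succ]
      ring
    rw [e2]
    by_cases hσ : σ x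
    · have ih1 := ih hS'' Z (insert x P) N hZ (insert_subset hxS hP) hN hdZ
      have e1 : ∑ F ∈ S'.powerset, (-1 : ℤ) ^ F.card * rho L D (Z ∪ F)
          (P ∪ (insert x S' \ F).filter σ) (N ∪ (insert x S' \ F).filter (fun y => ¬ σ y))
          = ∑ B ∈ S'.powerset, (-1) ^ B.card * rho L D Z
            (insert x P ∪ B.filter (fun y => ¬ σ y)) (N ∪ B.filter σ) := by
        rw [← ih1]
        apply sum_congr rfl
        intro F hF
        rw [insert_sdiff_of_notMem _ (sub F hF), filter_insert, filter_insert, if_pos hσ,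
          if_neg (not_not.2 hσ), union_insert, insert_union]
      rw [e1, ← sum_neg_distrib, ← sum_add_distrib, ← sum_add_distrib]
      apply sum_congr rfl
      intro B hB
      have hBS := (mem_powerset.1 hB).trans hS''
      rw [card_insert_of_notMem (sub B hB), filter_insert, filter_insert, if_pos hσ,
          if_neg (not_not.2 hσ), union_insert, insert_union, pow_succ]
      have := hG.split (Z := Z) (P := P ∪ B.filter (fun y => ¬ σ y)) (N := N ∪ B.filter σ) hZ
        (union_subset hP ((filter_subset _ _).trans hBS))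
        (union_subset hN ((filter_subset _ _).trans hBS)) hxS hxZ
      linear_combination (-(-1 : ℤ) ^ B.card) * this
    · have ih1 := ih hS'' Z P (insert x N) hZ hP (insert_subset hxS hN) hdZ
      have e1 : ∑ F ∈ S'.powerset, (-1 : ℤ) ^ F.card * rho L D (Z ∪ F)
          (P ∪ (insert x S' \ F).filter σ) (N ∪ (insert x S' \ F).filter (fun y => ¬ σ y))
          = ∑ B ∈ S'.powerset, (-1) ^ B.card * rho L D Z
            (P ∪ B.filter (fun y => ¬ σ y)) (insert x N ∪ B.filter σ) := by
        rw [← ih1]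
        apply sum_congr rfl
        intro F hF
        rw [insert_sdiff_of_notMem _ (sub F hF), filter_insert, filter_insert, if_neg hσ,
          if_pos hσ, union_insert, insert_union]
      rw [e1, ← sum_neg_distrib, ← sum_add_distrib, ← sum_add_distrib]
      apply sum_congr rfl
      intro B hB
      have hBS := (mem_powerset.1 hB).trans hS''
      rw [card_insert_of_notMem (sub B hB), filter_insert, filter_insert, if_neg hσ,
          if_pos hσ, union_insert, insert_union, pow_succ]
      have := hG.split (Z := Z) (P := P ∪ B.filter (fun y => ¬ σ y)) (N := N ∪ B.filter σ) hZ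
        (union_subset hP ((filter_subset _ _).trans hBS))
        (union_subset hN ((filter_subset _ _).trans hBS)) hxS hxZ
      linear_combination (-(-1 : ℤ) ^ B.card) * this

end Abstract

end Pool.Agent.Helper992.Radon
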