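import Mathlib
import Pool.Agent.Helper992.Radon1
set_option autoImplicit false
open Finset

namespace Pool.Agent.Helper992.Radon

section Sums

variable {ι H : Type*} [DecidableEq ι] [AddCommGroup H] [Module ℝ H]

omit [DecidableEq ι] in
theorem card_small (S' : Finset ι) (D : ℕ) :
    ∑ F ∈ S'.powerset, (if F.card < D then (1 : ℤ) else 0)
      = ∑ k ∈ range D, ((S'.card).choose k : ℤ) := by
  have h1 := Finset.sum_powerset_apply_card (x := S') (fun m => if m < D then (1 : ℤ) else 0)
  rw [h1]
  have e1 : ∀ m ∈ range (S'.card + 1), (S'.card).choose m • (if m < D then (1 : ℤ) else 0)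
      = if m < D then ((S'.card).choose m : ℤ) else 0 := by
    intro m _
    split_ifs <;> simp
  rw [sum_congr rfl e1, ← sum_filter]
  apply sum_subset
  · intro m hm
    simp only [mem_filter, mem_range] at hm
    exact mem_range.2 hm.2
  · intro m hm hm'
    simp only [mem_filter, mem_range, not_and, not_lt] at hm hm'
    have : S'.card < m := by
      by_contra h
      have := hm' (by omega)
      omega
    rw [Nat.choose_eq_zero_of_lt this]; rfl

variable {L : ι → H →ₗ[ℝ] ℝ} {D : ℕ} {S : Finset ι}

open Classical in
/-- Realised sign patterns. -/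
noncomputable def Top (L : ι → H →ₗ[ℝ] ℝ) (S : Finset ι) : Finset (Finset ι) :=
  S.powerset.filter (fun T => Rz L ∅ T (S \ T))

theorem mem_Top (T : Finset ι) : T ∈ Top L S ↔ T ⊆ S ∧ Rz L ∅ T (S \ T) := by
  classical
  simp [Top]

theorem ne_pair (hS : S.Nonempty) (T : Finset ι) : ¬ (T = ∅ ∧ S \ T = ∅) := by
  rintro ⟨rfl, h⟩
  rw [sdiff_empty] at h
  exact hS.ne_empty h

theorem sum_Top (hS : S.Nonempty) (f : Finset ι → ℤ) :
    ∑ T ∈ S.powerset, f T * rho L D ∅ T (S \ T) = ∑ T ∈ Top L S, f T := by
  classical
  unfold Top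
  rw [sum_filter]
  apply sum_congr rfl
  intro T _
  by_cases h : Rz L ∅ T (S \ T)
  · rw [rho_eq_one L D _ _ _ (ne_pair hS T) h, if_pos h, mul_one]
  · rw [rho_eq_zero L D _ _ _ (ne_pair hS T) h, if_neg h, mul_zero]

theorem tope_card (hG : GP L D S) (hS : S.Nonempty) :
    ((Top L S).card : ℤ) = 2 * ∑ k ∈ range D, ((S.card - 1).choose k : ℤ) := by
  classical
  have h1 := hG.cells S (Subset.refl _) ∅ ∅ ∅ (empty_subset _) (empty_subset _) (empty_subset _)
    (disjoint_empty_right _)
  have h2 := sum_Top (L := L) (D := D) hS (fun _ => 1)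
  simp only [one_mul, sum_const, mul_one, Int.nsmul_eq_mul] at h2
  simp only [empty_union] at h1
  rw [h1] at h2
  rw [← h2]
  obtain ⟨a, ha⟩ := hS
  have hSa : S = insert a (S.erase a) := (insert_erase ha).symm
  have hna : a ∉ S.erase a := notMem_erase a S
  have hcard : (S.erase a).card = S.card - 1 := card_erase_of_mem ha
  rw [hSa, sum_powerset_insert hna, ← sum_add_distrib, ← hSa, ← hcard, ← card_small, mul_sum]
  apply sum_congr rfl
  intro F hF
  have haF : a ∉ F := fun h => hna (mem_powerset.1 hF h)
  have hc : (insert a F).card = F.card + 1 := card_insert_of_notMem haF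
  split_ifs with h
  · rw [rho_small L D F h]
    rcases lt_or_ge (insert a F).card D with h' | h'
    · rw [rho_small L D _ h']; norm_num
    · rw [rho_big L D _ h']
      have : (insert a F).card - D = 0 := by omega
      rw [this]; norm_num
  · rw [rho_big L D F (by omega), rho_big L D _ (by omega), hc]
    have : F.card + 1 - D = (F.card - D) + 1 := by omega
    rw [this, pow_succ]; ring

/-- Euler relation for a realised pattern. -/
theorem euler_tope (hG : GP L D S) (hD : 1 ≤ D) (hS : S.Nonempty) (T : Finset ι)
    (hT : T ∈ Top L S) :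
    ∑ F ∈ S.powerset, (-1) ^ F.card * rho L D F ((S \ F).filter (fun y => y ∈ T))
      ((S \ F).filter (fun y => ¬ y ∈ T)) = 0 := by
  classical
  have h1 := hG.euler (fun y => y ∈ T) S (Subset.refl _) ∅ ∅ ∅ (empty_subset _) (empty_subset _)
    (empty_subset _) (disjoint_empty_right _)
  simp only [empty_union] at h1
  rw [h1]
  have : ∀ B ∈ S.powerset, (-1 : ℤ) ^ B.card * rho L D ∅ (B.filter (fun y => ¬ y ∈ T))
      (B.filter (fun y => y ∈ T)) = (-1) ^ B.card := by
    intro B hB
    obtain ⟨hTS, h, -, hP, hN⟩ := (mem_Top T).1 hT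
    have hr : Rz L ∅ (B.filter (fun y => ¬ y ∈ T)) (B.filter (fun y => y ∈ T)) := by
      refine ⟨-h, by simp, ?_, ?_⟩
      · intro x hx
        rw [mem_filter] at hx
        rw [map_neg]
        have := hN x (mem_sdiff.2 ⟨mem_powerset.1 hB hx.1, hx.2⟩)
        linarith
      · intro x hx
        rw [mem_filter] at hx
        rw [map_neg]
        have := hP x hx.2
        linarith
    by_cases hne : B.filter (fun y => ¬ y ∈ T) = ∅ ∧ B.filter (fun y => y ∈ T) = ∅
    · rw [hne.1, hne.2, rho_small L D ∅ (by rw [card_empty]; omega), mul_one]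
    · rw [rho_eq_one L D _ _ _ hne hr, mul_one]
  rw [sum_congr rfl this]
  exact Finset.sum_powerset_neg_one_pow_card_of_nonempty hS

theorem Rz_extend (hG : GP L D S) (F : Finset ι) (T : Finset ι) :
    ∀ Z P N : Finset ι, Z ⊆ S → P ⊆ S → N ⊆ S → F ⊆ S → Disjoint F Z → ¬ (P = ∅ ∧ N = ∅) →
      Rz L (Z ∪ F) P N →
      Rz L Z (P ∪ F.filter (fun y => y ∈ T)) (N ∪ F.filter (fun y => ¬ y ∈ T)) := by
  classical
  induction F using Finset.induction_on with
  | empty => intro Z P N _ _ _ _ _ _ h; simpa using h
  | insert x F hx ih =>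
    intro Z P N hZ hP hN hF hd hne hr
    have hxS : x ∈ S := hF (mem_insert_self _ _)
    have hFS : F ⊆ S := fun y hy => hF (mem_insert_of_mem hy)
    have hxZ : x ∉ Z := fun h => disjoint_left.1 hd (mem_insert_self _ _) h
    have hdF : Disjoint F Z := disjoint_of_subset_left (subset_insert _ _) hd
    have hxZF : x ∉ Z ∪ F := by
      rw [mem_union]; rintro (h | h)
      · exact hxZ h
      · exact hx h
    have hZF : Z ∪ F ⊆ S := union_subset hZ hFS
    rw [union_insert] at hr
    have hlt : (Z ∪ F).card < D := by
      by_contra hcon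
      push Not at hcon
      exact hG.not_Rz (insert_subset hxS hZF) hP hN (by
        rw [card_insert_of_notMem hxZF]; omega) hne hr
    obtain ⟨g, hg, hgx⟩ := hG.indep (Z ∪ F) hZF x hxS hxZF hlt
    obtain ⟨r1, r2⟩ := (Rz_split_and L (Z ∪ F) P N x g hg hgx).1 hr
    by_cases hxT : x ∈ T
    · have := ih Z (insert x P) N hZ (insert_subset hxS hP) hN hFS hdF
        (fun h => insert_ne_empty _ _ h.1) r1
      rw [filter_insert, filter_insert, if_pos hxT, if_neg (not_not.2 hxT), union_insert]
      rwa [insert_union] at this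
    · have := ih Z P (insert x N) hZ hP (insert_subset hxS hN) hFS hdF
        (fun h => insert_ne_empty _ _ h.2) r2
      rw [filter_insert, filter_insert, if_neg hxT, if_pos hxT, union_insert]
      rwa [insert_union] at this

theorem tope_alt (hG : GP L D S) (hD : 1 ≤ D) (hev : Even D) (hS : S.Nonempty)
    (hDS : D ≤ S.card) : ∑ T ∈ Top L S, (-1 : ℤ) ^ T.card = 0 := by
  classical
  set E : Finset ι → ℤ := fun T => ∑ F ∈ S.powerset, (-1) ^ F.card *
    rho L D F ((S \ F).filter (fun y => y ∈ T)) ((S \ F).filter (fun y => ¬ y ∈ T)) with hE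
  -- first evaluation
  have hEtop : ∀ T ∈ S.powerset, E T = if T ∈ Top L S then 0 else 1 := by
    intro T hT
    by_cases hTt : T ∈ Top L S
    · rw [if_pos hTt]
      exact euler_tope hG hD hS T hTt
    · rw [if_neg hTt]
      show ∑ F ∈ S.powerset, _ = _
      rw [sum_eq_single S]
      · rw [Finset.sdiff_self, filter_empty, filter_empty, rho_big L D S hDS, ← pow_add]
        have : S.card + (S.card - D) = 2 * (S.card - D) + D := by omega
        rw [this, pow_add, pow_mul, hev.neg_one_pow]; norm_num
      · intro F hF hFS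
        have hFs := mem_powerset.1 hF
        have hne : ¬ ((S \ F).filter (fun y => y ∈ T) = ∅ ∧
            (S \ F).filter (fun y => ¬ y ∈ T) = ∅) := by
          rintro ⟨h1, h2⟩
          apply hFS
          apply Subset.antisymm hFs
          intro y hy
          by_contra hyF
          by_cases hyT : y ∈ T
          · have : y ∈ (S \ F).filter (fun y => y ∈ T) :=
              mem_filter.2 ⟨mem_sdiff.2 ⟨hy, hyF⟩, hyT⟩
            rw [h1] at this; simp at this
          · have : y ∈ (S \ F).filter (fun y => ¬ y ∈ T) :=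
              mem_filter.2 ⟨mem_sdiff.2 ⟨hy, hyF⟩, hyT⟩
            rw [h2] at this; simp at this
        rw [rho_eq_zero L D _ _ _ hne, mul_zero]
        intro hr
        apply hTt
        rw [mem_Top]
        refine ⟨mem_powerset.1 hT, ?_⟩
        have := Rz_extend hG F T ∅ _ _ (empty_subset _)
          ((filter_subset _ _).trans sdiff_subset) ((filter_subset _ _).trans sdiff_subset) hFs
          (disjoint_empty_right _) hne (by rwa [empty_union])
        have e1 : (S \ F).filter (fun y => y ∈ T) ∪ F.filter (fun y => y ∈ T) = T := by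
          ext y
          simp only [mem_union, mem_filter, mem_sdiff]
          constructor
          · rintro (h | h)
            · exact h.2
            · exact h.2
          · intro h
            by_cases hyF : y ∈ F
            · exact Or.inr ⟨hyF, h⟩
            · exact Or.inl ⟨⟨mem_powerset.1 hT h, hyF⟩, h⟩
        have e2 : (S \ F).filter (fun y => ¬ y ∈ T) ∪ F.filter (fun y => ¬ y ∈ T) = S \ T := by
          ext y
          simp only [mem_union, mem_filter, mem_sdiff]
          constructor
          · rintro (h | h)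
            · exact ⟨h.1.1, h.2⟩
            · exact ⟨hFs h.1, h.2⟩
          · intro h
            by_cases hyF : y ∈ F
            · exact Or.inr ⟨hyF, h.2⟩
            · exact Or.inl ⟨⟨h.1, hyF⟩, h.2⟩
        rwa [e1, e2] at this
      · intro h
        exact absurd (mem_powerset_self S) h
  -- second evaluation
  have hswap : ∑ T ∈ S.powerset, (-1 : ℤ) ^ T.card * E T = ∑ T ∈ Top L S, (-1 : ℤ) ^ T.card := by
    simp only [hE, mul_sum]
    rw [sum_comm, sum_eq_single ∅]
    · rw [← sum_Top (L := L) (D := D) hS (fun T => (-1) ^ T.card)]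
      apply sum_congr rfl
      intro T hT
      have e1 : (S \ ∅).filter (fun y => y ∈ T) = T := by
        ext y
        simp only [sdiff_empty, mem_filter]
        exact ⟨fun h => h.2, fun h => ⟨mem_powerset.1 hT h, h⟩⟩
      have e2 : (S \ ∅).filter (fun y => ¬ y ∈ T) = S \ T := by
        ext y
        simp only [sdiff_empty, mem_filter, mem_sdiff]
      rw [e1, e2]; simp
    · intro F hF hFne
      obtain ⟨x, hx⟩ := nonempty_iff_ne_empty.2 hFne
      have hxS : x ∈ S := mem_powerset.1 hF hx
      have hSx : S = insert x (S.erase x) := (insert_erase hxS).symm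
      have hnx : x ∉ S.erase x := notMem_erase x S
      have : ∑ T ∈ S.powerset, (-1 : ℤ) ^ T.card * ((-1) ^ F.card *
          rho L D F ((S \ F).filter (fun y => y ∈ T)) ((S \ F).filter (fun y => ¬ y ∈ T)))
          = ∑ T ∈ (insert x (S.erase x)).powerset, (-1 : ℤ) ^ T.card * ((-1) ^ F.card *
          rho L D F ((S \ F).filter (fun y => y ∈ T)) ((S \ F).filter (fun y => ¬ y ∈ T))) := by
        rw [← hSx]
      rw [this, sum_powerset_insert hnx, ← sum_add_distrib]
      apply sum_eq_zero
      intro T hT
      have hxT : x ∉ T := fun h => hnx (mem_powerset.1 hT h)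
      have e1 : (S \ F).filter (fun y => y ∈ insert x T) = (S \ F).filter (fun y => y ∈ T) := by
        apply filter_congr
        intro y hy
        have : y ≠ x := by
          rintro rfl
          exact (mem_sdiff.1 hy).2 hx
        simp [this]
      have e2 : (S \ F).filter (fun y => ¬ y ∈ insert x T)
          = (S \ F).filter (fun y => ¬ y ∈ T) := by
        apply filter_congr
        intro y hy
        have : y ≠ x := by
          rintro rfl
          exact (mem_sdiff.1 hy).2 hx
        simp [this]
      rw [e1, e2, card_insert_of_notMem hxT, pow_succ]; ring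
    · intro h
      exact absurd (empty_mem_powerset S) h
  rw [sum_congr rfl (fun T hT => by rw [hEtop T hT])] at hswap
  have hall : ∑ T ∈ S.powerset, (-1 : ℤ) ^ T.card = 0 :=
    Finset.sum_powerset_neg_one_pow_card_of_nonempty hS
  have hsplit : ∑ T ∈ S.powerset, (-1 : ℤ) ^ T.card * (if T ∈ Top L S then 0 else 1)
      = ∑ T ∈ S.powerset, (-1 : ℤ) ^ T.card - ∑ T ∈ Top L S, (-1 : ℤ) ^ T.card := by
    have hsub : Top L S ⊆ S.powerset := by unfold Top; exact filter_subset _ _
    have h3 : ∑ T ∈ Top L S, (-1 : ℤ) ^ T.card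
        = ∑ T ∈ S.powerset, (if T ∈ Top L S then (-1 : ℤ) ^ T.card else 0) := by
      rw [← sum_filter]
      congr 1
      ext T
      simp only [mem_filter]
      exact ⟨fun h => ⟨hsub h, h⟩, fun h => h.2⟩
    rw [h3, ← sum_sub_distrib]
    apply sum_congr rfl
    intro T _
    split_ifs <;> simp
  rw [hsplit, hall] at hswap
  linarith

theorem tope_pair (hG : GP L D S) (hD : 1 ≤ D) {a b : ι} (ha : a ∈ S) (hb : b ∈ S) (hab : a ≠ b) :
    (((Top L S).filter (fun T => a ∈ T ∧ b ∉ T)).card : ℤ)
      = ∑ F ∈ ((S.erase a).erase b).powerset, rho L D F {a} {b} := by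
  classical
  set S' := (S.erase a).erase b with hS'
  have haS' : a ∉ S' := by simp [hS']
  have hbS' : b ∉ S' := by simp [hS']
  have hsub : S' ⊆ S := (erase_subset _ _).trans (erase_subset _ _)
  have h1 := hG.cells S' hsub ∅ {a} {b} (empty_subset _) (singleton_subset_iff.2 ha)
    (singleton_subset_iff.2 hb) (disjoint_empty_right _)
  simp only [empty_union] at h1
  rw [← h1]
  have hset : ∀ y, y ∈ S ↔ y = a ∨ y = b ∨ y ∈ S' := by
    intro y
    simp only [hS', mem_erase]
    constructor
    · intro h
      by_cases h1 : y = a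
      · exact Or.inl h1
      · by_cases h2 : y = b
        · exact Or.inr (Or.inl h2)
        · exact Or.inr (Or.inr ⟨h2, h1, h⟩)
    · rintro (rfl | rfl | h)
      · exact ha
      · exact hb
      · exact h.2.2
  have key : (Top L S).filter (fun T => a ∈ T ∧ b ∉ T)
      = (S'.powerset.filter (fun T => Rz L ∅ ({a} ∪ T) ({b} ∪ (S' \ T)))).image
        (fun T => {a} ∪ T) := by
    ext T
    simp only [mem_filter, mem_image, mem_Top, mem_powerset]
    constructor
    · rintro ⟨⟨hTS, hr⟩, haT, hbT⟩
      have hT : {a} ∪ T.erase a = T := by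
        rw [← insert_eq]; exact insert_erase haT
      refine ⟨T.erase a, ⟨?_, ?_⟩, hT⟩
      · intro y hy
        rw [mem_erase] at hy
        rcases (hset y).1 (hTS hy.2) with h | h | h
        · exact absurd h hy.1
        · subst h; exact absurd hy.2 hbT
        · exact h
      · have e2 : {b} ∪ (S' \ T.erase a) = S \ T := by
          ext y
          simp only [mem_union, mem_singleton, mem_sdiff, mem_erase, hset y]
          constructor
          · rintro (rfl | ⟨h1, h2⟩)
            · exact ⟨Or.inr (Or.inl rfl), hbT⟩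
            · refine ⟨Or.inr (Or.inr h1), fun h => h2 ⟨?_, h⟩⟩
              rintro rfl; exact haS' h1
          · rintro ⟨h1 | h1 | h1, h2⟩
            · subst h1; exact absurd haT h2
            · exact Or.inl h1
            · exact Or.inr ⟨h1, fun h => h2 h.2⟩
        rw [hT, e2]; exact hr
    · rintro ⟨T', ⟨hT', hr⟩, rfl⟩
      have haT' : a ∉ T' := fun h => haS' (hT' h)
      have hbT' : b ∉ T' := fun h => hbS' (hT' h)
      refine ⟨⟨?_, ?_⟩, by simp, ?_⟩
      · intro y hy
        rcases mem_union.1 hy with h | h
        · rw [mem_singleton.1 h]; exact ha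
        · exact hsub (hT' h)
      · have e2 : {b} ∪ (S' \ T') = S \ ({a} ∪ T') := by
          ext y
          simp only [mem_union, mem_singleton, mem_sdiff, hset y]
          constructor
          · rintro (rfl | ⟨h1, h2⟩)
            · exact ⟨Or.inr (Or.inl rfl), by rintro (h | h); exact hab h.symm; exact hbT' h⟩
            · refine ⟨Or.inr (Or.inr h1), ?_⟩
              rintro (rfl | h)
              · exact haS' h1
              · exact h2 h
          · rintro ⟨h1 | h1 | h1, h2⟩
            · exact absurd (Or.inl h1) h2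
            · exact Or.inl h1
            · exact Or.inr ⟨h1, fun h => h2 (Or.inr h)⟩
        rw [← e2]; exact hr
      · rw [mem_union, mem_singleton]
        rintro (h | h)
        · exact hab h.symm
        · exact hbT' h
  rw [key, card_image_of_injOn, card_filter]
  · push_cast
    apply sum_congr rfl
    intro T _
    have hne : ¬ ({a} ∪ T = ∅ ∧ {b} ∪ (S' \ T) = ∅) := by
      rintro ⟨h, -⟩
      have : a ∈ ({a} ∪ T : Finset ι) := by simp
      rw [h] at this; simp at this
    split_ifs with h
    · rw [rho_eq_one L D _ _ _ hne h]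
    · rw [rho_eq_zero L D _ _ _ hne h]
  · intro T1 h1 T2 h2 h
    simp only [coe_filter, mem_powerset, Set.mem_ofPred_eq] at h1 h2
    have a1 : a ∉ T1 := fun h => haS' (h1.1 h)
    have a2 : a ∉ T2 := fun h => haS' (h2.1 h)
    have h' : insert a T1 = insert a T2 := by
      rw [insert_eq a T1, insert_eq a T2]; exact h
    have h3 : (insert a T1).erase a = (insert a T2).erase a := by rw [h']
    rwa [erase_insert a1, erase_insert a2] at h3

end Sums

end Pool.Agent.Helper992.Radon
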