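import Mathlib
import Pool.Agent.Helper992.Radon2
set_option autoImplicit false
open Finset

namespace Pool.Agent.Helper992.Radon

section Circuits

variable {ι H : Type*} [DecidableEq ι] [AddCommGroup H] [Module ℝ H]

theorem card_eq_sum_ones_int {κ : Type*} (s : Finset κ) :
    (s.card : ℤ) = ∑ _x ∈ s, (1 : ℤ) := by simp

/-- `c` is a linear dependency of the family over `U`. -/
def Dep (L : ι → H →ₗ[ℝ] ℝ) (U : Finset ι) (c : ι → ℝ) : Prop :=
  ∀ h : H, ∑ x ∈ U, c x * L x h = 0

/-- `(A, B)` are the positive and the negative part of a dependency. -/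
def Circ (L : ι → H →ₗ[ℝ] ℝ) (A B : Finset ι) : Prop :=
  ∃ c : ι → ℝ, (∀ x ∈ A, 0 < c x) ∧ (∀ x ∈ B, c x < 0) ∧ Dep L (A ∪ B) c

/-- Every `D + 1` members of the family over `S` are dependent. -/
def Rel (L : ι → H →ₗ[ℝ] ℝ) (D : ℕ) (S : Finset ι) : Prop :=
  ∀ U ⊆ S, U.card = D + 1 → ∃ c : ι → ℝ, (∃ x ∈ U, c x ≠ 0) ∧ Dep L U c

open Classical in
/-- Ordered circuits. -/
noncomputable def Cs (L : ι → H →ₗ[ℝ] ℝ) (D : ℕ) (S : Finset ι) : Finset (Finset ι × Finset ι) :=
  (S.powerset ×ˢ S.powerset).filter (fun q => q.1.card + q.2.card = D + 1 ∧ Circ L q.1 q.2)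

variable {L : ι → H →ₗ[ℝ] ℝ} {D : ℕ} {S : Finset ι}

theorem mem_Cs (q : Finset ι × Finset ι) : q ∈ Cs L D S ↔
    q.1 ⊆ S ∧ q.2 ⊆ S ∧ q.1.card + q.2.card = D + 1 ∧ Circ L q.1 q.2 := by
  classical
  unfold Cs
  rw [mem_filter, mem_product, mem_powerset, mem_powerset]
  tauto

theorem Circ.disj {A B : Finset ι} (h : Circ L A B) : Disjoint A B := by
  obtain ⟨c, hA, hB, -⟩ := h
  rw [disjoint_left]
  intro x hx hx'
  linarith [hA x hx, hB x hx']

theorem Circ.symm {A B : Finset ι} (h : Circ L A B) : Circ L B A := by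
  obtain ⟨c, hA, hB, hd⟩ := h
  refine ⟨fun x => -c x, fun x hx => by linarith [hB x hx], fun x hx => by linarith [hA x hx], ?_⟩
  intro g
  rw [union_comm B A]
  have := hd g
  simp only [neg_mul, sum_neg_distrib, this, neg_zero]

theorem dep_small (hG : GP L D S) {U : Finset ι} (hU : U ⊆ S) (hc : U.card ≤ D) {c : ι → ℝ}
    (hd : Dep L U c) : ∀ x ∈ U, c x = 0 := by
  intro x hx
  have hcard := card_erase_of_mem hx
  have hpos : 0 < U.card := card_pos.2 ⟨x, hx⟩
  obtain ⟨g, hg, hgx⟩ := hG.indep (U.erase x) ((erase_subset _ _).trans hU) x (hU hx)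
    (notMem_erase x U) (by omega)
  have h := hd g
  rw [← add_sum_erase U _ hx, sum_eq_zero (s := U.erase x) (fun y hy => by rw [hg y hy, mul_zero]),
    add_zero] at h
  exact (mul_eq_zero.1 h).resolve_right hgx

theorem dep_full (hG : GP L D S) {U : Finset ι} (hU : U ⊆ S) (hc : U.card = D + 1) {c : ι → ℝ}
    (hd : Dep L U c) (hne : ∃ x ∈ U, c x ≠ 0) : ∀ x ∈ U, c x ≠ 0 := by
  intro x hx h0
  have hcard := card_erase_of_mem hx
  have hd' : Dep L (U.erase x) c := by
    intro h
    have := hd h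
    rw [← add_sum_erase U _ hx, h0, zero_mul, zero_add] at this
    exact this
  have hz := dep_small hG ((erase_subset _ _).trans hU) (by omega) hd'
  obtain ⟨y, hy, hy0⟩ := hne
  by_cases hyx : y = x
  · subst hyx; exact hy0 h0
  · exact hy0 (hz y (mem_erase.2 ⟨hyx, hy⟩))

theorem dep_unique (hG : GP L D S) {U : Finset ι} (hU : U ⊆ S) (hc : U.card = D + 1)
    {c c' : ι → ℝ} (hd : Dep L U c) (hd' : Dep L U c') {x : ι} (hx : x ∈ U) :
    ∀ y ∈ U, c' x * c y = c x * c' y := by
  intro y hy
  by_contra hne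
  have hd'' : Dep L U (fun z => c' x * c z - c x * c' z) := by
    intro h
    have h1 := hd h
    have h2 := hd' h
    have : ∑ z ∈ U, (c' x * c z - c x * c' z) * L z h
        = c' x * ∑ z ∈ U, c z * L z h - c x * ∑ z ∈ U, c' z * L z h := by
      rw [mul_sum, mul_sum, ← sum_sub_distrib]
      exact sum_congr rfl (fun z _ => by ring)
    rw [this, h1, h2]; ring
  have := dep_full hG hU hc hd'' ⟨y, hy, fun h => hne (by linarith)⟩ x hx
  apply this
  ring

/-- Two circuits on the same support agree up to exchange. -/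
theorem circ_unique (hG : GP L D S) {A B A' B' : Finset ι} (hU : A ∪ B ⊆ S)
    (hc : A.card + B.card = D + 1) (h : Circ L A B) (h' : Circ L A' B') (hs : A' ∪ B' = A ∪ B) :
    (A' = A ∧ B' = B) ∨ (A' = B ∧ B' = A) := by
  have hdj := h.disj
  have hdj' := h'.disj
  have hcard : (A ∪ B).card = D + 1 := by rw [card_union_of_disjoint hdj, hc]
  obtain ⟨c, hA, hB, hd⟩ := h
  obtain ⟨c', hA', hB', hd'⟩ := h'
  rw [hs] at hd'
  obtain ⟨x, hx⟩ : (A ∪ B).Nonempty := card_pos.1 (by omega)
  have key := dep_unique hG hU hcard hd hd' hx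
  have c0 : ∀ y ∈ A ∪ B, (y ∈ A ∧ 0 < c y ∧ y ∉ B) ∨ (y ∈ B ∧ c y < 0 ∧ y ∉ A) := by
    intro y hy
    rcases mem_union.1 hy with h | h
    · exact Or.inl ⟨h, hA y h, disjoint_left.1 hdj h⟩
    · exact Or.inr ⟨h, hB y h, disjoint_right.1 hdj h⟩
  have c0' : ∀ y ∈ A ∪ B, (y ∈ A' ∧ 0 < c' y ∧ y ∉ B') ∨ (y ∈ B' ∧ c' y < 0 ∧ y ∉ A') := by
    intro y hy
    rw [← hs] at hy
    rcases mem_union.1 hy with h | h
    · exact Or.inl ⟨h, hA' y h, disjoint_left.1 hdj' h⟩
    · exact Or.inr ⟨h, hB' y h, disjoint_right.1 hdj' h⟩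
  have sA : ∀ y, y ∈ A → y ∈ A ∪ B := fun y h => mem_union_left _ h
  have sB : ∀ y, y ∈ B → y ∈ A ∪ B := fun y h => mem_union_right _ h
  have sA' : ∀ y, y ∈ A' → y ∈ A ∪ B := fun y h => hs ▸ mem_union_left _ h
  have sB' : ∀ y, y ∈ B' → y ∈ A ∪ B := fun y h => hs ▸ mem_union_right _ h
  by_cases hsame : 0 < c x * c' x
  · left
    have hy : ∀ y ∈ A ∪ B, 0 < c y * c' y := by
      intro y hy
      have h1 := key y hy
      have hcy : c y ≠ 0 := by rcases c0 y hy with h | h <;> [exact h.2.1.ne'; exact h.2.1.ne]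
      have hcy' : c' y ≠ 0 := by rcases c0' y hy with h | h <;> [exact h.2.1.ne'; exact h.2.1.ne]
      have hcx : c x ≠ 0 := left_ne_zero_of_mul hsame.ne'
      have h2 : c x * c' x * (c y * c' y) = (c x * c' y) ^ 2 := by
        linear_combination (c x * c' y) * h1
      have h3 : 0 < (c x * c' y) ^ 2 := by positivity
      rw [← h2] at h3
      exact (pos_iff_pos_of_mul_pos h3).1 hsame
    constructor
    · ext y
      constructor
      · intro h
        rcases c0 y (sA' y h) with h1 | h1
        · exact h1.1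
        · have := hy y (sA' y h)
          nlinarith [hA' y h, h1.2.1]
      · intro h
        rcases c0' y (sA y h) with h1 | h1
        · exact h1.1
        · have := hy y (sA y h)
          nlinarith [hA y h, h1.2.1]
    · ext y
      constructor
      · intro h
        rcases c0 y (sB' y h) with h1 | h1
        · have := hy y (sB' y h)
          nlinarith [hB' y h, h1.2.1]
        · exact h1.1
      · intro h
        rcases c0' y (sB y h) with h1 | h1
        · have := hy y (sB y h)
          nlinarith [hB y h, h1.2.1]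
        · exact h1.1
  · right
    have hcx : c x ≠ 0 := by rcases c0 x hx with h | h <;> [exact h.2.1.ne'; exact h.2.1.ne]
    have hcx' : c' x ≠ 0 := by rcases c0' x hx with h | h <;> [exact h.2.1.ne'; exact h.2.1.ne]
    have hneg : c x * c' x < 0 := lt_of_le_of_ne (not_lt.1 hsame) (mul_ne_zero hcx hcx')
    have hy : ∀ y ∈ A ∪ B, c y * c' y < 0 := by
      intro y hy
      have h1 := key y hy
      have hcy : c y ≠ 0 := by rcases c0 y hy with h | h <;> [exact h.2.1.ne'; exact h.2.1.ne]
      have hcy' : c' y ≠ 0 := by rcases c0' y hy with h | h <;> [exact h.2.1.ne'; exact h.2.1.ne]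
      have h2 : c x * c' x * (c y * c' y) = (c x * c' y) ^ 2 := by
        linear_combination (c x * c' y) * h1
      have h3 : 0 < (c x * c' y) ^ 2 := by positivity
      rw [← h2] at h3
      by_contra h4
      push Not at h4
      nlinarith
    constructor
    · ext y
      constructor
      · intro h
        rcases c0 y (sA' y h) with h1 | h1
        · have := hy y (sA' y h)
          nlinarith [hA' y h, h1.2.1]
        · exact h1.1
      · intro h
        rcases c0' y (sB y h) with h1 | h1
        · exact h1.1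
        · have := hy y (sB y h)
          nlinarith [hB y h, h1.2.1]
    · ext y
      constructor
      · intro h
        rcases c0 y (sB' y h) with h1 | h1
        · exact h1.1
        · have := hy y (sB' y h)
          nlinarith [hB' y h, h1.2.1]
      · intro h
        rcases c0' y (sA y h) with h1 | h1
        · have := hy y (sA y h)
          nlinarith [hA y h, h1.2.1]
        · exact h1.1

/-- Each `D + 1` subset carries a circuit. -/
theorem exists_circ (hG : GP L D S) (hR : Rel L D S) {U : Finset ι} (hU : U ⊆ S)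
    (hc : U.card = D + 1) (a : ι) (ha : a ∈ U) :
    ∃ A B : Finset ι, A ∪ B = U ∧ A.card + B.card = D + 1 ∧ Circ L A B ∧ a ∈ A := by
  classical
  obtain ⟨c, hne, hd⟩ := hR U hU hc
  have hfull := dep_full hG hU hc hd hne
  have hun : U.filter (fun x => 0 < c x) ∪ U.filter (fun x => c x < 0) = U := by
    ext y
    simp only [mem_union, mem_filter]
    constructor
    · rintro (h | h) <;> exact h.1
    · intro h
      rcases lt_or_gt_of_ne (hfull y h) with h1 | h1
      · exact Or.inr ⟨h, h1⟩
      · exact Or.inl ⟨h, h1⟩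
  have hC : Circ L (U.filter (fun x => 0 < c x)) (U.filter (fun x => c x < 0)) := by
    refine ⟨c, fun x hx => (mem_filter.1 hx).2, fun x hx => (mem_filter.1 hx).2, ?_⟩
    rw [hun]; exact hd
  have hcard : (U.filter (fun x => 0 < c x)).card + (U.filter (fun x => c x < 0)).card = D + 1 := by
    rw [← card_union_of_disjoint hC.disj, hun, hc]
  rcases lt_or_gt_of_ne (hfull a ha) with h1 | h1
  · exact ⟨_, _, by rw [union_comm]; exact hun, by rw [add_comm]; exact hcard, hC.symm,
      mem_filter.2 ⟨ha, h1⟩⟩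
  · exact ⟨_, _, hun, hcard, hC, mem_filter.2 ⟨ha, h1⟩⟩

theorem Cs_card (hG : GP L D S) (hR : Rel L D S) :
    (Cs L D S).card = 2 * S.card.choose (D + 1) := by
  classical
  have hmaps : ∀ q ∈ Cs L D S, q.1 ∪ q.2 ∈ S.powersetCard (D + 1) := by
    intro q hq
    obtain ⟨h1, h2, h3, h4⟩ := (mem_Cs q).1 hq
    rw [mem_powersetCard]
    exact ⟨union_subset h1 h2, by rw [card_union_of_disjoint h4.disj, h3]⟩
  rw [card_eq_sum_card_fiberwise hmaps]
  have : ∀ U ∈ S.powersetCard (D + 1), ((Cs L D S).filter (fun q => q.1 ∪ q.2 = U)).card = 2 := by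
    intro U hU
    rw [mem_powersetCard] at hU
    obtain ⟨a, ha⟩ : U.Nonempty := card_pos.1 (by omega)
    obtain ⟨A, B, hAB, hc, hC, haA⟩ := exists_circ hG hR hU.1 hU.2 a ha
    have hAS : A ⊆ S := (subset_union_left.trans hAB.subset).trans hU.1
    have hBS : B ⊆ S := (subset_union_right.trans hAB.subset).trans hU.1
    have heq : (Cs L D S).filter (fun q => q.1 ∪ q.2 = U) = {(A, B), (B, A)} := by
      ext q
      rw [mem_filter, mem_Cs, mem_insert, mem_singleton]
      constructor
      · rintro ⟨⟨h1, h2, h3, h4⟩, h5⟩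
        rcases circ_unique hG (hAB.subset.trans hU.1) hc hC h4 (by rw [h5, hAB]) with h | h
        · exact Or.inl (Prod.ext h.1 h.2)
        · exact Or.inr (Prod.ext h.1 h.2)
      · rintro (rfl | rfl)
        · exact ⟨⟨hAS, hBS, hc, hC⟩, hAB⟩
        · exact ⟨⟨hBS, hAS, by rw [add_comm]; exact hc, hC.symm⟩, by rw [union_comm]; exact hAB⟩
    rw [heq, card_pair]
    intro h
    have h1 : A = B := congrArg Prod.fst h
    have h2 := hC.disj
    rw [← h1] at h2
    exact disjoint_left.1 h2 haA haA
  rw [sum_congr rfl this, sum_const, card_powersetCard, smul_eq_mul, mul_comm]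

theorem circ_pair (hG : GP L D S) (hR : Rel L D S) (hD : 1 ≤ D) {a b : ι} (ha : a ∈ S)
    (hb : b ∈ S) (hab : a ≠ b) :
    (((Cs L D S).filter (fun q => a ∈ q.1 ∧ b ∈ q.2)).card : ℤ)
      = ∑ F ∈ ((S.erase a).erase b).powerset,
        (by classical exact if F.card + 1 = D ∧ ¬ Rz L F {a} {b} then (1 : ℤ) else 0) := by
  classical
  set S' := (S.erase a).erase b with hS'
  have haS' : a ∉ S' := by simp [hS']
  have hbS' : b ∉ S' := by simp [hS']
  have hsub : S' ⊆ S := (erase_subset _ _).trans (erase_subset _ _)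
  have hmemS' : ∀ y, y ∈ S' ↔ y ≠ b ∧ y ≠ a ∧ y ∈ S := by
    intro y; simp [hS', mem_erase]
  rw [← sum_filter, ← card_eq_sum_ones_int]
  norm_cast
  apply card_bij (fun q _ => ((q.1 ∪ q.2).erase a).erase b)
  · intro q hq
    rw [mem_filter, mem_Cs] at hq
    obtain ⟨⟨h1, h2, h3, h4⟩, haq, hbq⟩ := hq
    have hbA : b ∉ q.1 := disjoint_right.1 h4.disj hbq
    have haU : a ∈ q.1 ∪ q.2 := mem_union_left _ haq
    have hbU : b ∈ (q.1 ∪ q.2).erase a := mem_erase.2 ⟨hab.symm, mem_union_right _ hbq⟩
    rw [mem_filter, mem_powerset]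
    refine ⟨?_, ?_, ?_⟩
    · intro y hy
      rw [mem_erase, mem_erase, mem_union] at hy
      rw [hmemS']
      refine ⟨hy.1, hy.2.1, ?_⟩
      rcases hy.2.2 with h | h
      · exact h1 h
      · exact h2 h
    · rw [card_erase_of_mem hbU, card_erase_of_mem haU, card_union_of_disjoint h4.disj, h3]
      omega
    · rintro ⟨g, hg, hga, hgb⟩
      obtain ⟨c, hA, hB, hd⟩ := h4
      have h := hd g
      rw [← add_sum_erase _ _ haU, ← add_sum_erase _ _ hbU, sum_eq_zero
        (fun y hy => by rw [hg y hy, mul_zero]), add_zero] at h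
      have p1 := mul_pos (hA a haq) (hga a (mem_singleton_self a))
      have p2 := mul_pos_of_neg_of_neg (hB b hbq) (hgb b (mem_singleton_self b))
      linarith
  · intro q hq q' hq' heq
    rw [mem_filter, mem_Cs] at hq hq'
    obtain ⟨⟨h1, h2, h3, h4⟩, haq, hbq⟩ := hq
    obtain ⟨⟨h1', h2', h3', h4'⟩, haq', hbq'⟩ := hq'
    have hU : q'.1 ∪ q'.2 = q.1 ∪ q.2 := by
      ext y
      by_cases hya : y = a
      · subst hya
        exact ⟨fun _ => mem_union_left _ haq, fun _ => mem_union_left _ haq'⟩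
      · by_cases hyb : y = b
        · subst hyb
          exact ⟨fun _ => mem_union_right _ hbq, fun _ => mem_union_right _ hbq'⟩
        · have := Finset.ext_iff.1 heq y
          simp only [mem_erase] at this
          constructor
          · intro h; exact (this.2 ⟨hyb, hya, h⟩).2.2
          · intro h; exact (this.1 ⟨hyb, hya, h⟩).2.2
    rcases circ_unique hG (union_subset h1 h2) h3 h4 h4' hU with h | h
    · exact Prod.ext h.1.symm h.2.symm
    · exfalso
      rw [h.1] at haq'
      exact disjoint_left.1 h4.disj haq haq'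
  · intro F hF
    rw [mem_filter, mem_powerset] at hF
    obtain ⟨hFS, hFc, hnR⟩ := hF
    have haF : a ∉ F := fun h => haS' (hFS h)
    have hbF : b ∉ F := fun h => hbS' (hFS h)
    have hbaF : b ∉ insert a F := by
      rw [mem_insert]; rintro (h | h)
      · exact hab h.symm
      · exact hbF h
    have hUS : insert b (insert a F) ⊆ S :=
      insert_subset hb (insert_subset ha (hFS.trans hsub))
    have hUc : (insert b (insert a F)).card = D + 1 := by
      rw [card_insert_of_notMem hbaF, card_insert_of_notMem haF]; omega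
    obtain ⟨A, B, hAB, hc, hC, haA⟩ := exists_circ hG hR hUS hUc a (by simp)
    have hAS : A ⊆ S := (subset_union_left.trans hAB.subset).trans hUS
    have hBS : B ⊆ S := (subset_union_right.trans hAB.subset).trans hUS
    have hbU : b ∈ A ∪ B := by rw [hAB]; simp
    have hbB : b ∈ B := by
      rcases mem_union.1 hbU with hbA | h
      · exfalso
        apply hnR
        obtain ⟨c, hA, hB, hd⟩ := hC
        obtain ⟨g, hg, hga⟩ := hG.indep F (hFS.trans hsub) a ha haF (by omega)
        have hrel : ∀ g : H, (∀ y ∈ F, L y g = 0) → c a * L a g + c b * L b g = 0 := by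
          intro g hg
          have h := hd g
          rw [hAB, sum_insert hbaF, sum_insert haF,
            sum_eq_zero (fun y hy => by rw [hg y hy, mul_zero]), add_zero] at h
          linarith
        have hca := hA a haA
        have hcb := hA b hbA
        rcases lt_or_gt_of_ne hga with h1 | h1
        · refine ⟨-g, ?_, ?_, ?_⟩
          · intro y hy; rw [map_neg, hg y hy, neg_zero]
          · intro y hy; rw [mem_singleton.1 hy, map_neg]; linarith
          · intro y hy; rw [mem_singleton.1 hy, map_neg]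
            have := hrel g hg
            have h2 : 0 < L b g := by
              by_contra h3
              push Not at h3
              nlinarith
            linarith
        · refine ⟨g, hg, ?_, ?_⟩
          · intro y hy; rw [mem_singleton.1 hy]; exact h1
          · intro y hy; rw [mem_singleton.1 hy]
            have := hrel g hg
            by_contra h3
            push Not at h3
            nlinarith
      · exact h
    refine ⟨(A, B), ?_, ?_⟩
    · rw [mem_filter, mem_Cs]
      exact ⟨⟨hAS, hBS, hc, hC⟩, haA, hbB⟩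
    · show ((A ∪ B).erase a).erase b = F
      rw [hAB, erase_insert_of_ne hab.symm, erase_insert haF, erase_insert hbF]

/-- The pair relation. -/
theorem pair_rel (hG : GP L D S) (hR : Rel L D S) (hD : 1 ≤ D) {a b : ι} (ha : a ∈ S)
    (hb : b ∈ S) (hab : a ≠ b) :
    (((Top L S).filter (fun T => a ∈ T ∧ b ∉ T)).card : ℤ)
      + (((Cs L D S).filter (fun q => a ∈ q.1 ∧ b ∈ q.2)).card : ℤ)
      = ∑ k ∈ range D, ((S.card - 2).choose k : ℤ) := by
  classical
  rw [tope_pair hG hD ha hb hab, circ_pair hG hR hD ha hb hab, ← sum_add_distrib]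
  set S' := (S.erase a).erase b with hS'
  have hcard : S'.card = S.card - 2 := by
    rw [hS', card_erase_of_mem (mem_erase.2 ⟨hab.symm, hb⟩), card_erase_of_mem ha]; omega
  rw [← hcard, ← card_small]
  apply sum_congr rfl
  intro F hF
  have haS' : a ∉ S' := by simp [hS']
  have hbS' : b ∉ S' := by simp [hS']
  have hFS' := mem_powerset.1 hF
  have haF : a ∉ F := fun h => haS' (hFS' h)
  have hbF : b ∉ F := fun h => hbS' (hFS' h)
  have hsub : S' ⊆ S := (erase_subset _ _).trans (erase_subset _ _)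
  have hFS : F ⊆ S := hFS'.trans hsub
  have hne : ¬ (({a} : Finset ι) = ∅ ∧ ({b} : Finset ι) = ∅) := by
    rintro ⟨h, -⟩; exact singleton_ne_empty _ h
  rcases lt_trichotomy (F.card + 1) D with h | h | h
  · have hr : Rz L F {a} {b} := by
      obtain ⟨g1, hg1, hg1a⟩ := hG.indep (insert b F) (insert_subset hb hFS) a ha (by
        rw [mem_insert]; rintro (h | h)
        · exact hab h
        · exact haF h) (by rw [card_insert_of_notMem hbF]; exact h)
      obtain ⟨g2, hg2, hg2b⟩ := hG.indep (insert a F) (insert_subset ha hFS) b hb (by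
        rw [mem_insert]; rintro (h | h)
        · exact hab h.symm
        · exact hbF h) (by rw [card_insert_of_notMem haF]; exact h)
      refine ⟨(L a g1)⁻¹ • g1 - (L b g2)⁻¹ • g2, ?_, ?_, ?_⟩
      · intro y hy
        rw [map_sub, map_smul, map_smul, hg1 y (mem_insert_of_mem hy),
          hg2 y (mem_insert_of_mem hy)]; simp
      · intro y hy
        rw [mem_singleton.1 hy, map_sub, map_smul, map_smul, hg2 a (mem_insert_self _ _),
          smul_eq_mul, inv_mul_cancel₀ hg1a]; simp
      · intro y hy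
        rw [mem_singleton.1 hy, map_sub, map_smul, map_smul, hg1 b (mem_insert_self _ _),
          smul_eq_mul, smul_eq_mul, inv_mul_cancel₀ hg2b]; simp
    rw [rho_eq_one L D _ _ _ hne hr, if_neg (by omega), if_pos (by omega)]; norm_num
  · by_cases hr : Rz L F {a} {b}
    · rw [rho_eq_one L D _ _ _ hne hr, if_neg (fun h' => h'.2 hr), if_pos (by omega)]; norm_num
    · rw [rho_eq_zero L D _ _ _ hne hr, if_pos ⟨h, hr⟩, if_pos (by omega)]; norm_num
  · rw [rho_eq_zero L D _ _ _ hne (hG.not_Rz hFS (singleton_subset_iff.2 ha)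
      (singleton_subset_iff.2 hb) (by omega) hne), if_neg (by omega), if_neg (by omega)]
    norm_num

theorem quad_rel (hG : GP L D S) (hR : Rel L D S) (hD : 1 ≤ D) (hS : 1 ≤ S.card) :
    ∑ T ∈ Top L S, (T.card : ℤ) * ((S.card : ℤ) - T.card)
      + ∑ q ∈ Cs L D S, (q.1.card : ℤ) * q.2.card
      = (S.card : ℤ) * ((S.card : ℤ) - 1) * ∑ k ∈ range D, ((S.card - 2).choose k : ℤ) := by
  classical
  have e1 : ∀ T ∈ Top L S, (T.card : ℤ) * ((S.card : ℤ) - T.card)
      = ∑ a ∈ S, ∑ b ∈ S.erase a, (if a ∈ T ∧ b ∉ T then (1 : ℤ) else 0) := by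
    intro T hT
    have hTS := ((mem_Top T).1 hT).1
    have h1 : ∀ a ∈ S, ∑ b ∈ S.erase a, (if a ∈ T ∧ b ∉ T then (1 : ℤ) else 0)
        = if a ∈ T then ((S \ T).card : ℤ) else 0 := by
      intro a _
      by_cases ha : a ∈ T
      · simp only [ha, true_and, if_true]
        rw [← sum_filter, ← card_eq_sum_ones_int]
        congr 2
        ext y
        simp only [mem_filter, mem_erase, mem_sdiff]
        constructor
        · rintro ⟨⟨h1, h2⟩, h3⟩; exact ⟨h2, h3⟩
        · rintro ⟨h1, h2⟩
          refine ⟨⟨?_, h1⟩, h2⟩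
          rintro rfl; exact h2 ha
      · simp [ha]
    rw [sum_congr rfl h1, ← sum_filter, sum_const]
    have h2 : S.filter (fun a => a ∈ T) = T := by
      ext y
      simp only [mem_filter]
      exact ⟨fun h => h.2, fun h => ⟨hTS h, h⟩⟩
    rw [h2, card_sdiff_of_subset hTS, Nat.cast_sub (card_le_card hTS)]
    simp
  have e2 : ∀ q ∈ Cs L D S, (q.1.card : ℤ) * q.2.card
      = ∑ a ∈ S, ∑ b ∈ S.erase a, (if a ∈ q.1 ∧ b ∈ q.2 then (1 : ℤ) else 0) := by
    intro q hq
    obtain ⟨hq1, hq2, -, hq4⟩ := (mem_Cs q).1 hq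
    have h1 : ∀ a ∈ S, ∑ b ∈ S.erase a, (if a ∈ q.1 ∧ b ∈ q.2 then (1 : ℤ) else 0)
        = if a ∈ q.1 then (q.2.card : ℤ) else 0 := by
      intro a _
      by_cases ha : a ∈ q.1
      · simp only [ha, true_and, if_true]
        rw [← sum_filter, ← card_eq_sum_ones_int]
        congr 2
        ext y
        simp only [mem_filter, mem_erase]
        constructor
        · rintro ⟨⟨h1, h2⟩, h3⟩; exact h3
        · intro h2
          refine ⟨⟨?_, hq2 h2⟩, h2⟩
          rintro rfl; exact disjoint_left.1 hq4.disj ha h2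
      · simp [ha]
    rw [sum_congr rfl h1, ← sum_filter, sum_const]
    have h2 : S.filter (fun a => a ∈ q.1) = q.1 := by
      ext y
      simp only [mem_filter]
      exact ⟨fun h => h.2, fun h => ⟨hq1 h, h⟩⟩
    rw [h2]
    simp
  rw [sum_congr rfl e1, sum_congr rfl e2, sum_comm, sum_comm (s := Cs L D S), ← sum_add_distrib]
  have e3 : ∀ a ∈ S, (∑ T ∈ Top L S, ∑ b ∈ S.erase a, (if a ∈ T ∧ b ∉ T then (1 : ℤ) else 0))
      + ∑ q ∈ Cs L D S, ∑ b ∈ S.erase a, (if a ∈ q.1 ∧ b ∈ q.2 then (1 : ℤ) else 0)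
      = ((S.card : ℤ) - 1) * ∑ k ∈ range D, ((S.card - 2).choose k : ℤ) := by
    intro a ha
    rw [sum_comm, sum_comm (s := Cs L D S), ← sum_add_distrib]
    have e4 : ∀ b ∈ S.erase a, (∑ T ∈ Top L S, (if a ∈ T ∧ b ∉ T then (1 : ℤ) else 0))
        + ∑ q ∈ Cs L D S, (if a ∈ q.1 ∧ b ∈ q.2 then (1 : ℤ) else 0)
        = ∑ k ∈ range D, ((S.card - 2).choose k : ℤ) := by
      intro b hb
      rw [mem_erase] at hb
      rw [← pair_rel hG hR hD ha hb.2 hb.1.symm, ← sum_filter, ← sum_filter,
        ← card_eq_sum_ones_int, ← card_eq_sum_ones_int]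
    rw [sum_congr rfl e4, sum_const, card_erase_of_mem ha]
    rw [nsmul_eq_mul, Nat.cast_sub hS]
    simp
  rw [sum_congr rfl e3, sum_const, nsmul_eq_mul]
  ring

end Circuits

end Pool.Agent.Helper992.Radon
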