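import Mathlib
import Pool.Agent.Helper992.Radon3
set_option autoImplicit false
open Finset

namespace Pool.Agent.Helper992.Radon

section Red

variable {ι H : Type*} [DecidableEq ι] [AddCommGroup H] [Module ℝ H]
variable {L : ι → H →ₗ[ℝ] ℝ} {D : ℕ} {S : Finset ι}

/-- A dependency with prescribed weak signs contains a circuit. -/
theorem reduce (hG : GP L D S) (hR : Rel L D S) {A B : Finset ι} (hA : A ⊆ S) (hB : B ⊆ S)
    (hdj : Disjoint A B) (n : ℕ) :
    ∀ c : ι → ℝ, ((A ∪ B).filter (fun x => c x ≠ 0)).card = n → (∀ x ∈ A, 0 ≤ c x) →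
      (∀ x ∈ B, c x ≤ 0) → Dep L (A ∪ B) c → (∃ x ∈ A ∪ B, c x ≠ 0) →
      ∃ A' ⊆ A, ∃ B' ⊆ B, A'.card + B'.card = D + 1 ∧ Circ L A' B' := by
  classical
  induction n using Nat.strong_induction_on with
  | _ n ih =>
    intro c hn hcA hcB hdep hne
    set Q := (A ∪ B).filter (fun x => c x ≠ 0) with hQ
    have hQAB : Q ⊆ A ∪ B := filter_subset _ _
    have hQS : Q ⊆ S := hQAB.trans (union_subset hA hB)
    have hQne : ∀ x ∈ Q, c x ≠ 0 := fun x hx => (mem_filter.1 hx).2
    have hdQ : Dep L Q c := by
      intro h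
      rw [← hdep h]
      apply sum_subset hQAB
      intro x hx hxQ
      have : c x = 0 := by
        by_contra h0
        exact hxQ (mem_filter.2 ⟨hx, h0⟩)
      rw [this, zero_mul]
    obtain ⟨x0, hx0, hx0c⟩ := hne
    have hx0Q : x0 ∈ Q := mem_filter.2 ⟨hx0, hx0c⟩
    have hQc : D + 1 ≤ Q.card := by
      by_contra hcon
      push Not at hcon
      exact hQne x0 hx0Q (dep_small hG hQS (by omega) hdQ x0 hx0Q)
    rcases Nat.eq_or_lt_of_le hQc with heq | hlt
    · refine ⟨A.filter (fun x => c x ≠ 0), filter_subset _ _, B.filter (fun x => c x ≠ 0),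
        filter_subset _ _, ?_, ?_⟩
      · rw [← card_union_of_disjoint (disjoint_of_subset_left (filter_subset _ _)
          (disjoint_of_subset_right (filter_subset _ _) hdj)), ← filter_union, heq]
      · refine ⟨c, ?_, ?_, ?_⟩
        · intro x hx
          rw [mem_filter] at hx
          exact lt_of_le_of_ne (hcA x hx.1) (Ne.symm hx.2)
        · intro x hx
          rw [mem_filter] at hx
          exact lt_of_le_of_ne (hcB x hx.1) hx.2
        · rw [← filter_union]; exact hdQ
    · obtain ⟨U, hUQ, hUc⟩ := exists_subset_card_eq hQc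
      obtain ⟨c', hne', hd'⟩ := hR U (hUQ.trans hQS) hUc
      have hfull := dep_full hG (hUQ.trans hQS) hUc hd' hne'
      have hUne : U.Nonempty := card_pos.1 (by omega)
      obtain ⟨x, hxU, hmin⟩ := exists_min_image U (fun y => |c y| / |c' y|) hUne
      set t := c x / c' x with ht
      have hbound : ∀ y ∈ U, |t * c' y| ≤ |c y| := by
        intro y hy
        have h1 := hmin y hy
        have hy' : 0 < |c' y| := abs_pos.2 (hfull y hy)
        rw [abs_mul, ht, abs_div]
        exact (le_div_iff₀ hy').1 h1
      have hUAB : U ⊆ A ∪ B := hUQ.trans hQAB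
      set c'' : ι → ℝ := fun y => c y - (if y ∈ U then t * c' y else 0) with hc''
      have hsubset : (A ∪ B).filter (fun y => c'' y ≠ 0) ⊂ Q := by
        rw [ssubset_iff_of_subset]
        · refine ⟨x, hUQ hxU, ?_⟩
          rw [mem_filter, not_and, not_not]
          intro _
          show c x - (if x ∈ U then t * c' x else 0) = 0
          rw [if_pos hxU, ht, div_mul_cancel₀ _ (hfull x hxU), sub_self]
        · intro y hy
          rw [mem_filter] at hy
          refine mem_filter.2 ⟨hy.1, ?_⟩
          intro h0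
          apply hy.2
          show c y - (if y ∈ U then t * c' y else 0) = 0
          rw [h0, if_neg, sub_zero]
          intro hyU
          exact hQne y (hUQ hyU) h0
      refine ih _ (by rw [← hn]; exact card_lt_card hsubset) c'' rfl ?_ ?_ ?_ ?_
      · intro y hy
        show 0 ≤ c y - (if y ∈ U then t * c' y else 0)
        split_ifs with h
        · have h1 := hbound y h
          rw [abs_of_nonneg (hcA y hy)] at h1
          linarith [le_abs_self (t * c' y)]
        · rw [sub_zero]; exact hcA y hy
      · intro y hy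
        show c y - (if y ∈ U then t * c' y else 0) ≤ 0
        split_ifs with h
        · have h1 := hbound y h
          rw [abs_of_nonpos (hcB y hy)] at h1
          linarith [neg_abs_le (t * c' y)]
        · rw [sub_zero]; exact hcB y hy
      · intro h
        have e1 : ∑ y ∈ A ∪ B, c'' y * L y h
            = ∑ y ∈ A ∪ B, c y * L y h - ∑ y ∈ A ∪ B, (if y ∈ U then t * (c' y * L y h) else 0) := by
          rw [← sum_sub_distrib]
          apply sum_congr rfl
          intro y _
          show (c y - (if y ∈ U then t * c' y else 0)) * L y h = _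
          split_ifs <;> ring
        have e2 : ∑ y ∈ A ∪ B, (if y ∈ U then t * (c' y * L y h) else 0)
            = t * ∑ y ∈ U, c' y * L y h := by
          rw [← sum_filter, mul_sum]
          congr 1
          ext y
          rw [mem_filter]
          exact ⟨fun h => h.2, fun h => ⟨hUAB h, h⟩⟩
        rw [e1, e2, hdep h, hd' h]; ring
      · obtain ⟨y, hyQ, hyU⟩ : ∃ y ∈ Q, y ∉ U := by
          by_contra hcon
          push Not at hcon
          have := card_le_card (show Q ⊆ U from hcon)
          omega
        refine ⟨y, hQAB hyQ, ?_⟩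
        show c y - (if y ∈ U then t * c' y else 0) ≠ 0
        rw [if_neg hyU, sub_zero]
        exact hQne y hyQ

/-- The space of dependencies. -/
def Lam (L : ι → H →ₗ[ℝ] ℝ) (S : Finset ι) : Submodule ℝ (ι → ℝ) where
  carrier := {c | Dep L S c}
  add_mem' := by
    intro a b ha hb h
    have h1 := ha h
    have h2 := hb h
    simp only [Pi.add_apply, add_mul, sum_add_distrib, h1, h2, add_zero]
  zero_mem' := by intro h; simp
  smul_mem' := by
    intro r a ha h
    have h1 := ha h
    simp only [Pi.smul_apply, smul_eq_mul, mul_assoc, ← mul_sum, h1, mul_zero]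

/-- Coordinates on the space of dependencies. -/
def coM (L : ι → H →ₗ[ℝ] ℝ) (S : Finset ι) (x : ι) : Lam L S →ₗ[ℝ] ℝ :=
  (LinearMap.proj x).comp (Lam L S).subtype

omit [DecidableEq ι] in
theorem coM_apply (x : ι) (c : Lam L S) : coM L S x c = c.1 x := rfl

theorem dep_ext {U : Finset ι} (hU : U ⊆ S) {c : ι → ℝ} (hd : Dep L U c) :
    Dep L S (fun y => by classical exact if y ∈ U then c y else 0) := by
  classical
  intro h
  have e : ∑ y ∈ S, (if y ∈ U then c y else 0) * L y h = ∑ y ∈ U, c y * L y h := by
    rw [← sum_subset hU (f := fun y => (if y ∈ U then c y else 0) * L y h)]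
    · apply sum_congr rfl
      intro y hy
      simp [hy]
    · intro y _ hy
      simp [hy]
  exact e.trans (hd h)

omit [DecidableEq ι] in
theorem dep_res {U : Finset ι} (hU : U ⊆ S) {c : ι → ℝ} (hd : Dep L S c)
    (h0 : ∀ y ∈ S, y ∉ U → c y = 0) : Dep L U c := by
  intro h
  rw [← hd h]
  apply sum_subset hU
  intro y hy hyU
  rw [h0 y hy hyU, zero_mul]

theorem GP_coM (hG : GP L D S) (hR : Rel L D S) (hs : S.card = D + 2) : GP (coM L S) 2 S := by
  classical
  constructor
  · intro Z hZ x hx hxZ hZc
    obtain ⟨z, hzS, hzx, hZz⟩ : ∃ z ∈ S, z ≠ x ∧ Z ⊆ {z} := by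
      rcases Nat.lt_or_ge Z.card 1 with h | h
      · have hZ0 : Z = ∅ := card_eq_zero.1 (by omega)
        obtain ⟨z, hz⟩ : (S.erase x).Nonempty := card_pos.1 (by rw [card_erase_of_mem hx]; omega)
        rw [mem_erase] at hz
        exact ⟨z, hz.2, hz.1, by rw [hZ0]; exact empty_subset _⟩
      · obtain ⟨z, rfl⟩ := card_eq_one.1 (show Z.card = 1 by omega)
        refine ⟨z, hZ (mem_singleton_self z), ?_, Subset.refl _⟩
        rintro rfl
        exact hxZ (mem_singleton_self _)
    have hUS : S.erase z ⊆ S := erase_subset _ _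
    obtain ⟨c, hne, hd⟩ := hR (S.erase z) hUS (by rw [card_erase_of_mem hzS]; omega)
    have hfull := dep_full hG hUS (by rw [card_erase_of_mem hzS]; omega) hd hne
    refine ⟨⟨_, dep_ext hUS hd⟩, ?_, ?_⟩
    · intro y hy
      have : y = z := mem_singleton.1 (hZz hy)
      subst this
      rw [coM_apply]
      simp
    · rw [coM_apply]
      have hxU : x ∈ S.erase z := mem_erase.2 ⟨hzx.symm, hx⟩
      simp only [hxU, if_true]
      exact hfull x hxU
  · intro Z hZ hZc g hg x hx
    rw [coM_apply]
    by_cases hxZ : x ∈ Z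
    · exact hg x hxZ
    · have hd : Dep L (S \ Z) g.1 := by
        apply dep_res sdiff_subset g.2
        intro y hy hy'
        have : y ∈ Z := by
          by_contra h
          exact hy' (mem_sdiff.2 ⟨hy, h⟩)
        exact hg y this
      exact dep_small hG sdiff_subset (by rw [card_sdiff_of_subset hZ]; omega) hd x
        (mem_sdiff.2 ⟨hx, hxZ⟩)

open Classical in
/-- Circuits conformal to the partition `(T, S \ T)`. -/
noncomputable def conf (L : ι → H →ₗ[ℝ] ℝ) (D : ℕ) (S T : Finset ι) :
    Finset (Finset ι × Finset ι) :=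
  (Cs L D S).filter (fun q => q.1 ⊆ T ∧ q.2 ⊆ S \ T)

theorem mem_conf (T : Finset ι) (q : Finset ι × Finset ι) :
    q ∈ conf L D S T ↔ q ∈ Cs L D S ∧ q.1 ⊆ T ∧ q.2 ⊆ S \ T := by
  classical
  simp [conf]

/-- With `D + 2` elements, a partition that has a conformal circuit has exactly two. -/
theorem conf_card (hG : GP L D S) (hR : Rel L D S) (hD : 1 ≤ D) (hs : S.card = D + 2)
    (T : Finset ι) (hT : T ⊆ S) (hne : (conf L D S T).Nonempty) : (conf L D S T).card = 2 := by
  classical
  have hGM := GP_coM hG hR hs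
  have hSne : S.Nonempty := card_pos.1 (by omega)
  set X := S.powerset.filter (fun F => F.card = 1 ∧
    Rz (coM L S) F ((S \ F).filter (fun y => y ∈ T)) ((S \ F).filter (fun y => ¬ y ∈ T))) with hX
  have hrec : ∀ q ∈ conf L D S T, S \ (S \ (q.1 ∪ q.2)) = q.1 ∪ q.2 ∧
      (q.1 ∪ q.2).filter (fun y => y ∈ T) = q.1 ∧
      (q.1 ∪ q.2).filter (fun y => ¬ y ∈ T) = q.2 := by
    intro q hq
    obtain ⟨hqC, h1, h2⟩ := (mem_conf T q).1 hq
    obtain ⟨h3, h4, h5, h6⟩ := (mem_Cs q).1 hqC
    refine ⟨Finset.sdiff_sdiff_eq_self (union_subset h3 h4), ?_, ?_⟩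
    · ext y
      rw [mem_filter, mem_union]
      constructor
      · rintro ⟨h | h, hy⟩
        · exact h
        · exact absurd hy (mem_sdiff.1 (h2 h)).2
      · intro h; exact ⟨Or.inl h, h1 h⟩
    · ext y
      rw [mem_filter, mem_union]
      constructor
      · rintro ⟨h | h, hy⟩
        · exact absurd (h1 h) hy
        · exact h
      · intro h; exact ⟨Or.inr h, (mem_sdiff.1 (h2 h)).2⟩
  have hcard : (conf L D S T).card = X.card := by
    apply card_bij (fun q _ => S \ (q.1 ∪ q.2))
    · intro q hq
      obtain ⟨r1, r2, r3⟩ := hrec q hq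
      obtain ⟨hqC, h1, h2⟩ := (mem_conf T q).1 hq
      obtain ⟨h3, h4, h5, h6⟩ := (mem_Cs q).1 hqC
      have hU : q.1 ∪ q.2 ⊆ S := union_subset h3 h4
      rw [hX, mem_filter, mem_powerset, r1, r2, r3]
      refine ⟨sdiff_subset, ?_, ?_⟩
      · rw [card_sdiff_of_subset hU, card_union_of_disjoint h6.disj, h5, hs]; omega
      · obtain ⟨c, hA, hB, hd⟩ := h6
        refine ⟨⟨_, dep_ext hU hd⟩, ?_, ?_, ?_⟩
        · intro y hy
          rw [mem_sdiff] at hy
          rw [coM_apply]
          simp only [hy.2, if_false]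
        · intro y hy
          rw [coM_apply]
          have : y ∈ q.1 ∪ q.2 := mem_union_left _ hy
          simp only [this, if_true]
          exact hA y hy
        · intro y hy
          rw [coM_apply]
          have : y ∈ q.1 ∪ q.2 := mem_union_right _ hy
          simp only [this, if_true]
          exact hB y hy
    · intro q hq q' hq' heq
      obtain ⟨r1, r2, r3⟩ := hrec q hq
      obtain ⟨r1', r2', r3'⟩ := hrec q' hq'
      have hU : q.1 ∪ q.2 = q'.1 ∪ q'.2 := by
        have h : S \ (q.1 ∪ q.2) = S \ (q'.1 ∪ q'.2) := heq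
        rw [← r1, ← r1', h]
      apply Prod.ext
      · rw [← r2, ← r2', hU]
      · rw [← r3, ← r3', hU]
    · intro F hF
      rw [hX, mem_filter, mem_powerset] at hF
      obtain ⟨hFS, hFc, c, hz, hP, hN⟩ := hF
      have hun : (S \ F).filter (fun y => y ∈ T) ∪ (S \ F).filter (fun y => ¬ y ∈ T) = S \ F := by
        exact filter_union_filter_not_eq _ _
      refine ⟨((S \ F).filter (fun y => y ∈ T), (S \ F).filter (fun y => ¬ y ∈ T)), ?_, ?_⟩
      · rw [mem_conf, mem_Cs]
        refine ⟨⟨(filter_subset _ _).trans sdiff_subset, (filter_subset _ _).trans sdiff_subset,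
          ?_, ?_⟩, ?_, ?_⟩
        · show ((S \ F).filter (fun y => y ∈ T)).card + ((S \ F).filter (fun y => ¬ y ∈ T)).card = _
          rw [card_filter_add_card_filter_not, card_sdiff_of_subset hFS, hs, hFc]; omega
        · refine ⟨c.1, hP, hN, ?_⟩
          show Dep L ((S \ F).filter (fun y => y ∈ T) ∪ (S \ F).filter (fun y => ¬ y ∈ T)) c.1
          rw [hun]
          apply dep_res sdiff_subset c.2
          intro y hy hy'
          apply hz y
          by_contra h
          exact hy' (mem_sdiff.2 ⟨hy, h⟩)
        · intro y hy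
          exact (mem_filter.1 hy).2
        · intro y hy
          have h1 := mem_filter.1 hy
          exact mem_sdiff.2 ⟨(mem_sdiff.1 h1.1).1, h1.2⟩
      · show S \ ((S \ F).filter (fun y => y ∈ T) ∪ (S \ F).filter (fun y => ¬ y ∈ T)) = F
        rw [hun]
        exact Finset.sdiff_sdiff_eq_self hFS
  -- the partition is realised in the space of dependencies
  have hTop : T ∈ Top (coM L S) S := by
    rw [mem_Top]
    refine ⟨hT, ?_⟩
    have hXne : X.Nonempty := card_pos.1 (by rw [← hcard]; exact card_pos.2 hne)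
    obtain ⟨F, hF⟩ := hXne
    rw [hX, mem_filter, mem_powerset] at hF
    obtain ⟨hFS, hFc, hr⟩ := hF
    have hne2 : ¬ ((S \ F).filter (fun y => y ∈ T) = ∅ ∧
        (S \ F).filter (fun y => ¬ y ∈ T) = ∅) := by
      rintro ⟨h1, h2⟩
      have h3 : ((S \ F).filter (fun y => y ∈ T)).card + ((S \ F).filter (fun y => ¬ y ∈ T)).card
        = (S \ F).card := card_filter_add_card_filter_not _
      rw [h1, h2, card_sdiff_of_subset hFS, hs, hFc] at h3
      simp at h3
    have := Rz_extend hGM F T ∅ _ _ (empty_subset _)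
      ((filter_subset _ _).trans sdiff_subset) ((filter_subset _ _).trans sdiff_subset) hFS
      (disjoint_empty_right _) hne2 (by rwa [empty_union])
    have e1 : (S \ F).filter (fun y => y ∈ T) ∪ F.filter (fun y => y ∈ T) = T := by
      rw [← filter_union, sdiff_union_of_subset hFS]
      ext y
      rw [mem_filter]
      exact ⟨fun h => h.2, fun h => ⟨hT h, h⟩⟩
    have e2 : (S \ F).filter (fun y => ¬ y ∈ T) ∪ F.filter (fun y => ¬ y ∈ T) = S \ T := by
      rw [← filter_union, sdiff_union_of_subset hFS]
      ext y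
      rw [mem_filter, mem_sdiff]
    rwa [e1, e2] at this
  have heul := euler_tope hGM (by norm_num) hSne T hTop
  have hterm : ∀ F ∈ S.powerset, (-1 : ℤ) ^ F.card *
      rho (coM L S) 2 F ((S \ F).filter (fun y => y ∈ T)) ((S \ F).filter (fun y => ¬ y ∈ T))
      = (if F = ∅ then 1 else 0) + (if F = S then 1 else 0)
        - (if F.card = 1 ∧ Rz (coM L S) F ((S \ F).filter (fun y => y ∈ T))
          ((S \ F).filter (fun y => ¬ y ∈ T)) then (1 : ℤ) else 0) := by
    intro F hF
    have hFS := mem_powerset.1 hF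
    have hpair : ∀ F ⊆ S, F ≠ S → ¬ ((S \ F).filter (fun y => y ∈ T) = ∅ ∧
        (S \ F).filter (fun y => ¬ y ∈ T) = ∅) := by
      rintro F hFS hFne ⟨h1, h2⟩
      have h3 : ((S \ F).filter (fun y => y ∈ T)).card + ((S \ F).filter (fun y => ¬ y ∈ T)).card
        = (S \ F).card := card_filter_add_card_filter_not _
      rw [h1, h2] at h3
      simp only [card_empty] at h3
      have h4 := card_sdiff_of_subset hFS
      have h5 : F = S := eq_of_subset_of_card_le hFS (by omega)
      exact hFne h5
    by_cases h0 : F = ∅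
    · subst h0
      have hES : (∅ : Finset ι) ≠ S := fun h => by rw [← h] at hs; simp at hs
      have hr : Rz (coM L S) ∅ ((S \ ∅).filter (fun y => y ∈ T))
          ((S \ ∅).filter (fun y => ¬ y ∈ T)) := by
        obtain ⟨-, h⟩ := (mem_Top T).1 hTop
        have e1 : (S \ ∅).filter (fun y => y ∈ T) = T := by
          ext y
          simp only [sdiff_empty, mem_filter]
          exact ⟨fun h => h.2, fun h => ⟨hT h, h⟩⟩
        have e2 : (S \ ∅).filter (fun y => ¬ y ∈ T) = S \ T := by
          ext y
          simp only [sdiff_empty, mem_filter, mem_sdiff]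
        rwa [e1, e2]
      rw [rho_eq_one _ _ _ _ _ (hpair ∅ (empty_subset _) hES) hr, if_pos rfl, if_neg hES,
        if_neg (by simp)]
      simp
    · by_cases h1 : F = S
      · subst h1
        rw [if_neg h0, if_pos rfl, if_neg (by rintro ⟨h, -⟩; omega), Finset.sdiff_self,
          filter_empty, filter_empty, rho_big _ _ _ (by omega), ← pow_add]
        have : F.card + (F.card - 2) = 2 * (F.card - 1) := by omega
        rw [this, pow_mul]; norm_num
      · rw [if_neg h0, if_neg h1]
        have hp := hpair F hFS h1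
        have hcpos : 0 < F.card := card_pos.2 (nonempty_iff_ne_empty.2 h0)
        rcases Nat.lt_or_ge 1 F.card with h2 | h2
        · rw [rho_eq_zero _ _ _ _ _ hp (hGM.not_Rz hFS ((filter_subset _ _).trans sdiff_subset)
            ((filter_subset _ _).trans sdiff_subset) h2 hp), if_neg (by rintro ⟨h, -⟩; omega)]
          simp
        · have hF1 : F.card = 1 := by omega
          by_cases hr : Rz (coM L S) F ((S \ F).filter (fun y => y ∈ T))
            ((S \ F).filter (fun y => ¬ y ∈ T))
          · rw [rho_eq_one _ _ _ _ _ hp hr, if_pos ⟨hF1, hr⟩, hF1]; norm_num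
          · rw [rho_eq_zero _ _ _ _ _ hp hr, if_neg (fun h => hr h.2)]; norm_num
  rw [sum_congr rfl hterm, sum_sub_distrib, sum_add_distrib, sum_ite_eq' S.powerset ∅,
    sum_ite_eq' S.powerset S, if_pos (empty_mem_powerset S), if_pos (mem_powerset_self S),
    ← sum_filter, ← card_eq_sum_ones_int] at heul
  rw [hcard, hX]
  have h2 : ((S.powerset.filter (fun F => F.card = 1 ∧
    Rz (coM L S) F ((S \ F).filter (fun y => y ∈ T)) ((S \ F).filter (fun y => ¬ y ∈ T)))).card : ℤ)
    = 2 := by linarith
  exact_mod_cast h2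

/-- Number of partitions of first size `j` with a conformal circuit. -/
noncomputable def radC (L : ι → H →ₗ[ℝ] ℝ) (D : ℕ) (S : Finset ι) (j : ℕ) : ℕ := by
  classical exact ((S.powersetCard j).filter (fun T => (conf L D S T).Nonempty)).card

/-- Number of ordered circuits with first size `i`. -/
noncomputable def cirC (L : ι → H →ₗ[ℝ] ℝ) (D : ℕ) (S : Finset ι) (i : ℕ) : ℕ := by
  classical exact ((Cs L D S).filter (fun q => q.1.card = i)).card

theorem rel_two (hG : GP L D S) (hR : Rel L D S) (hD : 1 ≤ D) (hs : S.card = D + 2) (j : ℕ) :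
    2 * radC L D S (j + 1) = cirC L D S (j + 1) + cirC L D S j := by
  classical
  have h1 : 2 * radC L D S (j + 1) = ∑ T ∈ S.powersetCard (j + 1), (conf L D S T).card := by
    unfold radC
    rw [← sum_filter_add_sum_filter_not (S.powersetCard (j + 1))
      (fun T => (conf L D S T).Nonempty)]
    have e1 : ∑ T ∈ (S.powersetCard (j + 1)).filter (fun T => ¬ (conf L D S T).Nonempty),
        (conf L D S T).card = 0 := by
      apply sum_eq_zero
      intro T hT
      rw [mem_filter, not_nonempty_iff_eq_empty] at hT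
      rw [hT.2, card_empty]
    have e2 : ∑ T ∈ (S.powersetCard (j + 1)).filter (fun T => (conf L D S T).Nonempty),
        (conf L D S T).card = ∑ T ∈ (S.powersetCard (j + 1)).filter
        (fun T => (conf L D S T).Nonempty), 2 := by
      apply sum_congr rfl
      intro T hT
      rw [mem_filter, mem_powersetCard] at hT
      exact conf_card hG hR hD hs T hT.1.1 hT.2
    rw [e1, e2, sum_const, smul_eq_mul, add_zero]
    ring
  have h2 : ∑ T ∈ S.powersetCard (j + 1), (conf L D S T).card
      = ∑ q ∈ Cs L D S, ((S.powersetCard (j + 1)).filter (fun T => q.1 ⊆ T ∧ q.2 ⊆ S \ T)).card := by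
    simp only [conf, card_filter]
    rw [sum_comm]
  rw [h1, h2]
  have h3 : ∀ q ∈ Cs L D S,
      ((S.powersetCard (j + 1)).filter (fun T => q.1 ⊆ T ∧ q.2 ⊆ S \ T)).card
      = (if q.1.card = j + 1 then 1 else 0) + (if q.1.card = j then 1 else 0) := by
    intro q hq
    obtain ⟨h3, h4, h5, h6⟩ := (mem_Cs q).1 hq
    have hU : q.1 ∪ q.2 ⊆ S := union_subset h3 h4
    obtain ⟨x, hx⟩ : ∃ x, S \ (q.1 ∪ q.2) = {x} := by
      rw [← card_eq_one, card_sdiff_of_subset hU, card_union_of_disjoint h6.disj]; omega
    have hxS : x ∈ S \ (q.1 ∪ q.2) := by rw [hx]; exact mem_singleton_self x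
    rw [mem_sdiff, mem_union, not_or] at hxS
    have hmem : ∀ y ∈ S, y ∈ q.1 ∨ y ∈ q.2 ∨ y = x := by
      intro y hy
      by_cases h : y ∈ q.1 ∪ q.2
      · rcases mem_union.1 h with h | h
        · exact Or.inl h
        · exact Or.inr (Or.inl h)
      · have : y ∈ S \ (q.1 ∪ q.2) := mem_sdiff.2 ⟨hy, h⟩
        rw [hx] at this
        exact Or.inr (Or.inr (mem_singleton.1 this))
    have hset : (S.powersetCard (j + 1)).filter (fun T => q.1 ⊆ T ∧ q.2 ⊆ S \ T)
        = ({q.1, insert x q.1} : Finset (Finset ι)).filter (fun T => T.card = j + 1) := by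
      ext T
      rw [mem_filter, mem_powersetCard, mem_filter, mem_insert, mem_singleton]
      constructor
      · rintro ⟨⟨hTS, hTc⟩, hA, hB⟩
        refine ⟨?_, hTc⟩
        by_cases hxT : x ∈ T
        · right
          ext y
          rw [mem_insert]
          constructor
          · intro hy
            rcases hmem y (hTS hy) with h | h | h
            · exact Or.inr h
            · exact absurd hy (mem_sdiff.1 (hB h)).2
            · exact Or.inl h
          · rintro (rfl | h)
            · exact hxT
            · exact hA h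
        · left
          ext y
          constructor
          · intro hy
            rcases hmem y (hTS hy) with h | h | h
            · exact h
            · exact absurd hy (mem_sdiff.1 (hB h)).2
            · subst h; exact absurd hy hxT
          · intro h; exact hA h
      · rintro ⟨rfl | rfl, hTc⟩
        · exact ⟨⟨h3, hTc⟩, Subset.refl _, fun y hy => mem_sdiff.2 ⟨h4 hy,
            disjoint_right.1 h6.disj hy⟩⟩
        · refine ⟨⟨insert_subset hxS.1 h3, hTc⟩, subset_insert _ _, fun y hy =>
            mem_sdiff.2 ⟨h4 hy, ?_⟩⟩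
          rw [mem_insert]
          rintro (rfl | h)
          · exact hxS.2.2 hy
          · exact disjoint_right.1 h6.disj hy h
    have hne : q.1 ≠ insert x q.1 := by
      intro h
      have : x ∈ q.1 := by rw [h]; exact mem_insert_self _ _
      exact hxS.2.1 this
    rw [hset, card_filter, sum_pair hne, card_insert_of_notMem hxS.2.1]
    simp
  rw [sum_congr rfl h3, sum_add_distrib]
  unfold cirC
  rw [card_filter, card_filter]

theorem rel_one (hs : S.card = D + 1) (j : ℕ) : radC L D S j = cirC L D S j := by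
  classical
  unfold radC cirC
  symm
  apply card_bij (fun q _ => q.1)
  · intro q hq
    rw [mem_filter, mem_Cs] at hq
    obtain ⟨⟨h3, h4, h5, h6⟩, hj⟩ := hq
    rw [mem_filter, mem_powersetCard]
    refine ⟨⟨h3, hj⟩, q, ?_⟩
    rw [mem_conf, mem_Cs]
    exact ⟨⟨h3, h4, h5, h6⟩, Subset.refl _, fun y hy => mem_sdiff.2 ⟨h4 hy,
      disjoint_right.1 h6.disj hy⟩⟩
  · intro q hq q' hq' heq
    rw [mem_filter, mem_Cs] at hq hq'
    obtain ⟨⟨h3, h4, h5, h6⟩, hj⟩ := hq
    obtain ⟨⟨h3', h4', h5', h6'⟩, hj'⟩ := hq'
    have key : ∀ (A B : Finset ι), A ⊆ S → B ⊆ S → A.card + B.card = D + 1 → Disjoint A B →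
        B = S \ A := by
      intro A B hA hB hc hd
      have hu : A ∪ B = S := by
        apply eq_of_subset_of_card_le (union_subset hA hB)
        rw [card_union_of_disjoint hd]; omega
      ext y
      rw [mem_sdiff, ← hu, mem_union]
      constructor
      · intro h; exact ⟨Or.inr h, disjoint_right.1 hd h⟩
      · rintro ⟨h | h, h'⟩
        · exact absurd h h'
        · exact h
    have h1 := key q.1 q.2 h3 h4 h5 h6.disj
    have h2 := key q'.1 q'.2 h3' h4' h5' h6'.disj
    have heq' : q.1 = q'.1 := heq
    exact Prod.ext heq' (by rw [h1, h2, heq'])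
  · intro T hT
    rw [mem_filter, mem_powersetCard] at hT
    obtain ⟨⟨hTS, hTc⟩, q, hq⟩ := hT
    rw [mem_conf, mem_Cs] at hq
    obtain ⟨⟨h3, h4, h5, h6⟩, hA, hB⟩ := hq
    have h7 : q.1 = T := by
      apply eq_of_subset_of_card_le hA
      have := card_le_card hB
      rw [card_sdiff_of_subset hTS] at this
      have := card_le_card hTS
      omega
    refine ⟨q, ?_, h7⟩
    rw [mem_filter, mem_Cs]
    exact ⟨⟨h3, h4, h5, h6⟩, by rw [h7]; exact hTc⟩

end Red

end Pool.Agent.Helper992.Radon
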