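import Mathlib
import Pool.Agent.Helper992.Radon4
set_option autoImplicit false
open Finset

namespace Pool.Agent.Helper992.Radon

/-- Points of `d`-space. -/
abbrev Pt (d : ℕ) := Fin d → ℝ

/-- No `d + 1` points of `S` lie on an affine hyperplane. -/
def GenPos (d : ℕ) (S : Finset (Pt d)) : Prop :=
  ∀ (w : Pt d) (b : ℝ), w ≠ 0 → {x | x ∈ S ∧ w ⬝ᵥ x = b}.ncard ≤ d

/-- `A` and `B` are nonempty, disjoint and their convex hulls intersect. -/
def RadonPair {d : ℕ} (A B : Finset (Pt d)) : Prop :=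
  A.Nonempty ∧ B.Nonempty ∧ (∀ x ∈ A, x ∉ B) ∧
    (convexHull ℝ (A : Set (Pt d)) ∩ convexHull ℝ (B : Set (Pt d))).Nonempty

/-- Minimal such pairs. -/
def PrimPair {d : ℕ} (A B : Finset (Pt d)) : Prop :=
  RadonPair A B ∧ ∀ A' ⊆ A, ∀ B' ⊆ B, RadonPair A' B' → A' = A ∧ B' = B

/-- Number of unordered Radon partitions of `S` of type `{i, |S| - i}`. -/
noncomputable def radonNum {d : ℕ} (S : Finset (Pt d)) (i : ℕ) : ℕ :=
  {q : Sym2 (Finset (Pt d)) | ∃ A B, q = s(A, B) ∧ RadonPair A B ∧ (A : Set (Pt d)) ∪ B = S ∧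
    A.card = i}.ncard

/-- Number of unordered primitive Radon partitions in `S` of type `{i, d + 2 - i}`. -/
noncomputable def primNum {d : ℕ} (S : Finset (Pt d)) (i : ℕ) : ℕ :=
  {q : Sym2 (Finset (Pt d)) | ∃ A B, q = s(A, B) ∧ PrimPair A B ∧ A ⊆ S ∧ B ⊆ S ∧
    A.card = i ∧ A.card + B.card = d + 2}.ncard

section Lin

variable {ι H : Type*} [DecidableEq ι] [AddCommGroup H] [Module ℝ H] [FiniteDimensional ℝ H]
variable {L : ι → H →ₗ[ℝ] ℝ} {D : ℕ} {S : Finset ι}

theorem GP_of_strong (hD : Module.finrank ℝ H = D) (hS : D ≤ S.card)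
    (hst : ∀ Z ⊆ S, Z.card = D → ∀ g : H, (∀ x ∈ Z, L x g = 0) → g = 0) : GP L D S := by
  classical
  constructor
  · intro Z hZ x hx hxZ hZc
    obtain ⟨Z', hZZ', hZ'S, hZ'c⟩ := exists_subsuperset_card_eq (insert_subset hx hZ)
      (n := D) (by rw [card_insert_of_notMem hxZ]; omega) hS
    let Φ : H →ₗ[ℝ] (Z' → ℝ) := LinearMap.pi (fun y => L y.1)
    have hinj : Function.Injective Φ := by
      rw [← LinearMap.ker_eq_bot, LinearMap.ker_eq_bot']
      intro g hg
      apply hst Z' hZ'S hZ'c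
      intro y hy
      exact congrFun hg ⟨y, hy⟩
    have hsur : Function.Surjective Φ := by
      apply (LinearMap.injective_iff_surjective_of_finrank_eq_finrank _).1 hinj
      rw [hD, Module.finrank_fintype_fun_eq_card, Fintype.card_coe, hZ'c]
    have hxZ' : x ∈ Z' := hZZ' (mem_insert_self _ _)
    obtain ⟨g, hg⟩ := hsur (Pi.single ⟨x, hxZ'⟩ 1)
    refine ⟨g, ?_, ?_⟩
    · intro y hy
      have hyZ' : y ∈ Z' := hZZ' (mem_insert_of_mem hy)
      have : L y g = (Pi.single (⟨x, hxZ'⟩ : Z') (1 : ℝ) : Z' → ℝ) ⟨y, hyZ'⟩ := by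
        rw [← hg]; rfl
      rw [this, Pi.single_apply, if_neg]
      intro h
      have h' := congrArg Subtype.val h
      have h'' : y = x := h'
      subst h''
      exact hxZ hy
    · have : L x g = (Pi.single (⟨x, hxZ'⟩ : Z') (1 : ℝ) : Z' → ℝ) ⟨x, hxZ'⟩ := by
        rw [← hg]; rfl
      rw [this, Pi.single_eq_same]
      exact one_ne_zero
  · intro Z hZ hZc g hg x _
    obtain ⟨Z', hZ'Z, hZ'c⟩ := exists_subset_card_eq hZc
    rw [hst Z' (hZ'Z.trans hZ) hZ'c g (fun y hy => hg y (hZ'Z hy)), map_zero]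

theorem Rel_of_finrank (hD : Module.finrank ℝ H = D) : Rel L D S := by
  classical
  intro U _ hUc
  have hnot : ¬ LinearIndependent ℝ (fun x : U => L x.1) := by
    intro hli
    have h1 := hli.fintype_card_le_finrank
    rw [Fintype.card_coe, hUc, Subspace.dual_finrank_eq, hD] at h1
    omega
  rw [Fintype.not_linearIndependent_iff] at hnot
  obtain ⟨g, hg, ⟨x, hx⟩, hgx⟩ := hnot
  refine ⟨fun y => if h : y ∈ U then g ⟨y, h⟩ else 0, ⟨x, hx, by simpa [hx] using hgx⟩, ?_⟩
  intro h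
  have h2 := congrArg (fun f : H →ₗ[ℝ] ℝ => f h) hg
  simp only [LinearMap.sum_apply, LinearMap.smul_apply, smul_eq_mul, LinearMap.zero_apply] at h2
  rw [← h2, ← sum_attach U]
  apply sum_congr rfl
  intro y _
  simp

end Lin

/-- Evaluation of affine functionals. -/
def ev {d : ℕ} (x : Pt d) : (ℝ × Pt d) →ₗ[ℝ] ℝ where
  toFun h := h.1 + h.2 ⬝ᵥ x
  map_add' a b := by simp [add_dotProduct]; ring
  map_smul' r a := by simp [smul_dotProduct]; ring

theorem ev_apply {d : ℕ} (x : Pt d) (h : ℝ × Pt d) : ev x h = h.1 + h.2 ⬝ᵥ x := rfl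

theorem finrank_H (d : ℕ) : Module.finrank ℝ (ℝ × Pt d) = d + 1 := by
  rw [Module.finrank_prod, Module.finrank_self, Module.finrank_fin_fun]; ring

theorem strong_of_GenPos {d : ℕ} {S : Finset (Pt d)} (h : GenPos d S) :
    ∀ Z ⊆ S, Z.card = d + 1 → ∀ g : ℝ × Pt d, (∀ x ∈ Z, ev x g = 0) → g = 0 := by
  classical
  intro Z hZ hc g hg
  have hw : g.2 = 0 := by
    by_contra hne
    have h1 := h g.2 (-g.1) hne
    obtain ⟨F, hF⟩ : ∃ F : Finset (Pt d), ∀ x, x ∈ F ↔ x ∈ S ∧ g.2 ⬝ᵥ x = -g.1 :=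
      ⟨S.filter (fun x => g.2 ⬝ᵥ x = -g.1), fun x => mem_filter⟩
    have hset : {x | x ∈ S ∧ g.2 ⬝ᵥ x = -g.1} = (F : Set (Pt d)) := by
      ext x; exact (hF x).symm
    rw [hset, Set.ncard_coe_finset] at h1
    have h2 : Z ⊆ F := by
      intro x hx
      rw [hF]
      refine ⟨hZ hx, ?_⟩
      have := hg x hx
      rw [ev_apply] at this
      linarith
    have := card_le_card h2
    omega
  obtain ⟨x, hx⟩ : Z.Nonempty := card_pos.1 (by omega)
  have h1 := hg x hx
  rw [ev_apply, hw, zero_dotProduct, add_zero] at h1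
  exact Prod.ext h1 hw

theorem GenPos_of_strong {d : ℕ} {S : Finset (Pt d)}
    (hst : ∀ Z ⊆ S, Z.card = d + 1 → ∀ g : ℝ × Pt d, (∀ x ∈ Z, ev x g = 0) → g = 0) :
    GenPos d S := by
  classical
  intro w b hw
  have hset : {x | x ∈ S ∧ w ⬝ᵥ x = b} = ↑(S.filter (fun x => w ⬝ᵥ x = b)) := by
    ext x; simp
  rw [hset, Set.ncard_coe_finset]
  by_contra hcon
  push Not at hcon
  obtain ⟨Z, hZ, hc⟩ := exists_subset_card_eq (show d + 1 ≤ _ from hcon)
  have := hst Z (hZ.trans (filter_subset _ _)) hc (-b, w) (by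
    intro x hx
    have := (mem_filter.1 (hZ hx)).2
    rw [ev_apply]
    show -b + w ⬝ᵥ x = 0
    linarith)
  exact hw (congrArg Prod.snd this)

theorem GP_S {d : ℕ} {S : Finset (Pt d)} (h : GenPos d S) (hs : d + 1 ≤ S.card) :
    GP (ev (d := d)) (d + 1) S :=
  GP_of_strong (finrank_H d) hs (strong_of_GenPos h)

theorem Rel_S {d : ℕ} {S : Finset (Pt d)} : Rel (ev (d := d)) (d + 1) S :=
  Rel_of_finrank (finrank_H d)

theorem dep_iff {d : ℕ} (U : Finset (Pt d)) (c : Pt d → ℝ) :
    Dep (ev (d := d)) U c ↔ ∑ x ∈ U, c x = 0 ∧ ∑ x ∈ U, c x • x = 0 := by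
  constructor
  · intro h
    constructor
    · have := h (1, 0)
      simpa [ev_apply] using this
    · funext i
      have := h (0, Pi.single i 1)
      simp only [ev_apply, zero_add, single_dotProduct, one_mul] at this
      simpa [Finset.sum_apply] using this
  · rintro ⟨h1, h2⟩ g
    have e : ∑ x ∈ U, c x * ev x g = g.1 * ∑ x ∈ U, c x + g.2 ⬝ᵥ ∑ x ∈ U, c x • x := by
      rw [dotProduct_sum, mul_sum, ← sum_add_distrib]
      apply sum_congr rfl
      intro x _
      rw [ev_apply, dotProduct_smul, smul_eq_mul]; ring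
    rw [e, h1, h2]; simp

theorem RadonPair.disj {d : ℕ} {A B : Finset (Pt d)} (h : RadonPair A B) : Disjoint A B :=
  disjoint_left.2 h.2.2.1

theorem RadonPair.symm {d : ℕ} {A B : Finset (Pt d)} (h : RadonPair A B) : RadonPair B A := by
  obtain ⟨h1, h2, h3, h4⟩ := h
  exact ⟨h2, h1, fun x hx hx' => h3 x hx' hx, by rwa [Set.inter_comm]⟩

theorem RadonPair.dep {d : ℕ} {A B : Finset (Pt d)} (h : RadonPair A B) :
    ∃ c : Pt d → ℝ, (∀ x ∈ A, 0 ≤ c x) ∧ (∀ x ∈ B, c x ≤ 0) ∧ Dep (ev (d := d)) (A ∪ B) c ∧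
      ∃ x ∈ A ∪ B, c x ≠ 0 := by
  classical
  have hd := h.disj
  obtain ⟨h1, h2, h3, z, hzA, hzB⟩ := h
  rw [Finset.mem_convexHull'] at hzA hzB
  obtain ⟨w, hw0, hw1, hwz⟩ := hzA
  obtain ⟨v, hv0, hv1, hvz⟩ := hzB
  have hBA : ∀ x ∈ B, x ∉ A := fun x hx hx' => h3 x hx' hx
  refine ⟨fun x => if x ∈ A then w x else -(v x), ?_, ?_, ?_, ?_⟩
  · intro x hx
    simp only [hx, if_true]
    exact hw0 x hx
  · intro x hx
    simp only [hBA x hx, if_false]
    linarith [hv0 x hx]
  · rw [dep_iff, sum_union hd, sum_union hd]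
    have e1 : ∑ x ∈ A, (if x ∈ A then w x else -(v x)) = 1 := by
      rw [← hw1]; exact sum_congr rfl (fun x hx => by simp [hx])
    have e2 : ∑ x ∈ B, (if x ∈ A then w x else -(v x)) = -1 := by
      rw [← hv1, ← sum_neg_distrib]; exact sum_congr rfl (fun x hx => by simp [hBA x hx])
    have e3 : ∑ x ∈ A, (if x ∈ A then w x else -(v x)) • x = z := by
      rw [← hwz]; exact sum_congr rfl (fun x hx => by simp [hx])
    have e4 : ∑ x ∈ B, (if x ∈ A then w x else -(v x)) • x = -z := by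
      rw [← hvz, ← sum_neg_distrib]; exact sum_congr rfl (fun x hx => by simp [hBA x hx])
    rw [e1, e2, e3, e4]
    simp
  · by_contra hcon
    push Not at hcon
    have : ∑ x ∈ A, w x = 0 := by
      apply sum_eq_zero
      intro x hx
      have := hcon x (mem_union_left _ hx)
      simpa [hx] using this
    rw [hw1] at this
    exact one_ne_zero this

theorem Circ.radon {d : ℕ} {A B : Finset (Pt d)} (h : Circ (ev (d := d)) A B)
    (hc : 0 < A.card + B.card) : RadonPair A B := by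
  classical
  have hdj := h.disj
  obtain ⟨c, hA, hB, hd⟩ := h
  rw [dep_iff, sum_union hdj, sum_union hdj] at hd
  obtain ⟨h1, h2⟩ := hd
  have hAne : A.Nonempty := by
    by_contra hcon
    rw [not_nonempty_iff_eq_empty] at hcon
    subst hcon
    have hBne : B.Nonempty := card_pos.1 (by simpa using hc)
    rw [sum_empty, zero_add] at h1
    have := sum_neg hB hBne
    linarith
  have hBne : B.Nonempty := by
    by_contra hcon
    rw [not_nonempty_iff_eq_empty] at hcon
    subst hcon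
    rw [sum_empty, add_zero] at h1
    have := sum_pos hA hAne
    linarith
  have hpos := sum_pos hA hAne
  set σ := ∑ x ∈ A, c x with hσ
  refine ⟨hAne, hBne, fun x hx => disjoint_left.1 hdj hx, ∑ x ∈ A, (c x / σ) • x, ?_, ?_⟩
  · rw [Finset.mem_convexHull']
    refine ⟨fun x => c x / σ, fun x hx => div_nonneg (hA x hx).le hpos.le, ?_, rfl⟩
    rw [← sum_div, div_self hpos.ne']
  · rw [Finset.mem_convexHull']
    refine ⟨fun x => -(c x) / σ, fun x hx => div_nonneg (by linarith [hB x hx]) hpos.le, ?_, ?_⟩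
    · rw [← sum_div, sum_neg_distrib]
      have : -∑ x ∈ B, c x = σ := by linarith
      rw [this, div_self hpos.ne']
    · have e1 : ∑ x ∈ A, (c x / σ) • x = σ⁻¹ • ∑ x ∈ A, c x • x := by
        rw [smul_sum]; exact sum_congr rfl (fun x _ => by rw [smul_smul]; congr 1; ring)
      have e2 : ∑ x ∈ B, (-(c x) / σ) • x = -(σ⁻¹ • ∑ x ∈ B, c x • x) := by
        rw [smul_sum, ← sum_neg_distrib]
        exact sum_congr rfl (fun x _ => by rw [smul_smul, ← neg_smul]; congr 1; ring)
      rw [e1, e2, ← smul_neg]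
      congr 1
      exact (eq_neg_of_add_eq_zero_left h2).symm

theorem RadonPair.mono {d : ℕ} {A B A' B' : Finset (Pt d)} (h : RadonPair A' B') (hA : A' ⊆ A)
    (hB : B' ⊆ B) (hd : Disjoint A B) : RadonPair A B := by
  obtain ⟨h1, h2, h3, z, hz1, hz2⟩ := h
  exact ⟨h1.mono hA, h2.mono hB, fun x hx => disjoint_left.1 hd hx, z,
    convexHull_mono (by exact_mod_cast hA) hz1, convexHull_mono (by exact_mod_cast hB) hz2⟩

variable {d : ℕ} {S : Finset (Pt d)}

theorem RadonPair.circ (hS : GenPos d S) (hs : d + 1 ≤ S.card) {A B : Finset (Pt d)}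
    (h : RadonPair A B) (hA : A ⊆ S) (hB : B ⊆ S) :
    ∃ A' ⊆ A, ∃ B' ⊆ B, A'.card + B'.card = d + 2 ∧ Circ (ev (d := d)) A' B' := by
  classical
  obtain ⟨c, h1, h2, h3, h4⟩ := h.dep
  exact reduce (GP_S hS hs) Rel_S hA hB h.disj _ c rfl h1 h2 h3 h4

theorem prim_iff (hS : GenPos d S) (hs : d + 1 ≤ S.card) (A B : Finset (Pt d)) :
    (PrimPair A B ∧ A ⊆ S ∧ B ⊆ S ∧ A.card + B.card = d + 2) ↔
      (A, B) ∈ Cs (ev (d := d)) (d + 1) S := by
  classical
  rw [mem_Cs]
  constructor
  · rintro ⟨⟨h1, -⟩, hA, hB, hc⟩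
    refine ⟨hA, hB, by simpa using hc, ?_⟩
    obtain ⟨A', hA', B', hB', hc', hC⟩ := h1.circ hS hs hA hB
    have a1 := card_le_card hA'
    have a2 := card_le_card hB'
    have e1 : A' = A := eq_of_subset_of_card_le hA' (by omega)
    have e2 : B' = B := eq_of_subset_of_card_le hB' (by omega)
    rw [e1, e2] at hC
    exact hC
  · rintro ⟨hA, hB, hc, hC⟩
    simp only at hA hB hc hC
    refine ⟨⟨hC.radon (by omega), ?_⟩, hA, hB, by omega⟩
    intro A1 hA1 B1 hB1 hr
    obtain ⟨A', hA', B', hB', hc', hC'⟩ := hr.circ hS hs (hA1.trans hA) (hB1.trans hB)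
    have a1 := card_le_card hA'
    have a2 := card_le_card hB'
    have a3 := card_le_card hA1
    have a4 := card_le_card hB1
    exact ⟨eq_of_subset_of_card_le hA1 (by omega), eq_of_subset_of_card_le hB1 (by omega)⟩

theorem radon_iff (hS : GenPos d S) (hs : d + 1 ≤ S.card) (T : Finset (Pt d)) (hT : T ⊆ S) :
    RadonPair T (S \ T) ↔ (conf (ev (d := d)) (d + 1) S T).Nonempty := by
  classical
  constructor
  · intro h
    obtain ⟨A', hA', B', hB', hc', hC'⟩ := h.circ hS hs hT sdiff_subset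
    refine ⟨(A', B'), ?_⟩
    rw [mem_conf, mem_Cs]
    exact ⟨⟨hA'.trans hT, hB'.trans sdiff_subset, hc', hC'⟩, hA', hB'⟩
  · rintro ⟨q, hq⟩
    rw [mem_conf, mem_Cs] at hq
    obtain ⟨⟨h3, h4, h5, h6⟩, hA, hB⟩ := hq
    exact (h6.radon (by omega)).mono hA hB disjoint_sdiff

theorem top_iff (hS : GenPos d S) (hs : d + 1 ≤ S.card) (T : Finset (Pt d)) (hT : T ⊆ S) :
    T ∈ Top (ev (d := d)) S ↔ ¬ RadonPair T (S \ T) := by
  classical
  rw [mem_Top]
  constructor
  · rintro ⟨-, g, -, hP, hN⟩ hr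
    obtain ⟨A', hA', B', hB', hc', c, hA, hB, hd⟩ := hr.circ hS hs hT sdiff_subset
    have hdj : Disjoint A' B' := Circ.disj ⟨c, hA, hB, hd⟩
    have h := hd g
    have hnn : ∀ x ∈ A' ∪ B', 0 < c x * ev x g := by
      intro x hx
      rcases mem_union.1 hx with h | h
      · exact mul_pos (hA x h) (hP x (hA' h))
      · exact mul_pos_of_neg_of_neg (hB x h) (hN x (hB' h))
    have hne : (A' ∪ B').Nonempty := card_pos.1 (by rw [card_union_of_disjoint hdj]; omega)
    have := sum_pos hnn hne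
    linarith
  · intro hr
    refine ⟨hT, ?_⟩
    rcases T.eq_empty_or_nonempty with rfl | hTne
    · refine ⟨(-1, 0), by simp, by simp, ?_⟩
      intro x _
      rw [ev_apply]; simp
    · rcases (S \ T).eq_empty_or_nonempty with hE | hTcne
      · refine ⟨(1, 0), by simp, ?_, by rw [hE]; simp⟩
        intro x _
        rw [ev_apply]; simp
      · have hdisj : Disjoint (convexHull ℝ (T : Set (Pt d)))
            (convexHull ℝ ((S \ T : Finset (Pt d)) : Set (Pt d))) := by
          rw [Set.disjoint_iff_inter_eq_empty]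
          by_contra hne
          exact hr ⟨hTne, hTcne, fun x hx hx' => (mem_sdiff.1 hx').2 hx,
            Set.nonempty_iff_ne_empty.2 hne⟩
        obtain ⟨f, u, v, hfu, huv, hfv⟩ := geometric_hahn_banach_compact_closed
          (convex_convexHull ℝ (T : Set (Pt d)))
          (T.finite_toSet.isCompact_convexHull ℝ)
          (convex_convexHull ℝ ((S \ T : Finset (Pt d)) : Set (Pt d)))
          ((S \ T).finite_toSet.isCompact_convexHull ℝ).isClosed hdisj
        have hf : ∀ x : Pt d, f x = (fun i => f (Pi.single i 1)) ⬝ᵥ x := by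
          intro x
          have h1 := LinearMap.pi_apply_eq_sum_univ (f : Pt d →ₗ[ℝ] ℝ) x
          have h2 : f x = ∑ i, x i • f (Pi.single i 1) := by
            have h3 : f x = ∑ i, x i • f (fun j => if i = j then 1 else 0) := h1
            rw [h3]
            apply sum_congr rfl
            intro i _
            congr 2
            funext j
            rw [Pi.single_apply]
            simp only [eq_comm]
          rw [h2, dotProduct]
          exact sum_congr rfl (fun i _ => by rw [smul_eq_mul, mul_comm])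
        refine ⟨((u + v) / 2, -(fun i => f (Pi.single i 1))), by simp, ?_, ?_⟩
        · intro x hx
          rw [ev_apply]
          show 0 < (u + v) / 2 + (-(fun i => f (Pi.single i 1))) ⬝ᵥ x
          rw [neg_dotProduct, ← hf]
          have := hfu x (subset_convexHull ℝ _ (by exact_mod_cast hx))
          linarith
        · intro x hx
          rw [ev_apply]
          show (u + v) / 2 + (-(fun i => f (Pi.single i 1))) ⬝ᵥ x < 0
          rw [neg_dotProduct, ← hf]
          have := hfv x (subset_convexHull ℝ _ (by exact_mod_cast hx))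
          linarith

end Pool.Agent.Helper992.Radon
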