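import Mathlib
import Pool.Agent.Helper992.Radon5
set_option autoImplicit false
open Finset

namespace Pool.Agent.Helper992.Radon

theorem sym_inj {α : Type*} [DecidableEq α] (O : Finset (α × α)) (h : ∀ p ∈ O, p.swap ∉ O) :
    (O.image (fun p => s(p.1, p.2))).card = O.card := by
  apply card_image_of_injOn
  intro p hp q hq hpq
  have h1 : s(p.1, p.2) = s(q.1, q.2) := hpq
  rw [Sym2.eq_iff] at h1
  rcases h1 with h1 | h1
  · exact Prod.ext h1.1 h1.2
  · exfalso
    apply h p hp
    have : p.swap = q := Prod.ext h1.2 h1.1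
    rw [this]; exact hq

theorem sym_two {α : Type*} [DecidableEq α] (O : Finset (α × α))
    (h : ∀ p ∈ O, p.swap ∈ O ∧ p.1 ≠ p.2) :
    2 * (O.image (fun p => s(p.1, p.2))).card = O.card := by
  rw [card_eq_sum_card_image (fun p : α × α => s(p.1, p.2)) O]
  have : ∀ q ∈ O.image (fun p => s(p.1, p.2)), (O.filter (fun p => s(p.1, p.2) = q)).card = 2 := by
    intro q hq
    obtain ⟨p, hp, rfl⟩ := mem_image.1 hq
    have heq : O.filter (fun r => s(r.1, r.2) = s(p.1, p.2)) = {p, p.swap} := by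
      ext r
      rw [mem_filter, mem_insert, mem_singleton, Sym2.eq_iff]
      constructor
      · rintro ⟨_, h1 | h1⟩
        · exact Or.inl (Prod.ext h1.1 h1.2)
        · exact Or.inr (Prod.ext h1.1 h1.2)
      · rintro (rfl | rfl)
        · exact ⟨hp, Or.inl ⟨rfl, rfl⟩⟩
        · exact ⟨(h p hp).1, Or.inr ⟨rfl, rfl⟩⟩
    rw [heq, card_pair]
    intro h2
    exact (h p hp).2 (congrArg Prod.fst h2)
  rw [sum_congr rfl this, sum_const, smul_eq_mul, mul_comm]

variable {d : ℕ} {S : Finset (Pt d)}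

open Classical in
theorem radonNum_aux (hS : GenPos d S) (hs : d + 1 ≤ S.card) (j : ℕ) :
    radonNum S j = ((((S.powersetCard j).filter
      (fun T => (conf (ev (d := d)) (d + 1) S T).Nonempty)).image
        (fun T => (T, S \ T))).image (fun p => s(p.1, p.2))).card := by
  unfold radonNum
  rw [← Set.ncard_coe_finset]
  congr 1
  ext q
  simp only [Set.mem_ofPred_eq, coe_image, Set.mem_image, mem_coe, mem_filter, mem_powersetCard]
  constructor
  · rintro ⟨A, B, rfl, hr, hu, hc⟩
    have hu' : A ∪ B = S := by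
      apply Finset.coe_injective
      rw [coe_union]; exact hu
    have hAS : A ⊆ S := hu' ▸ subset_union_left
    have hB : B = S \ A := by
      ext y
      rw [mem_sdiff, ← hu', mem_union]
      constructor
      · intro h; exact ⟨Or.inr h, fun h' => hr.2.2.1 y h' h⟩
      · rintro ⟨h | h, h'⟩
        · exact absurd h h'
        · exact h
    refine ⟨(A, B), ⟨A, ⟨⟨hAS, hc⟩, ?_⟩, by rw [hB]⟩, rfl⟩
    rw [← radon_iff hS hs A hAS, ← hB]
    exact hr
  · rintro ⟨p, ⟨T, ⟨⟨hTS, hc⟩, hne⟩, rfl⟩, rfl⟩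
    refine ⟨T, S \ T, rfl, (radon_iff hS hs T hTS).2 hne, ?_, hc⟩
    rw [coe_sdiff]
    exact Set.union_sdiff_cancel (by exact_mod_cast hTS)

theorem conf_compl (hS : GenPos d S) (hs : d + 1 ≤ S.card) {T : Finset (Pt d)} (hT : T ⊆ S)
    (h : (conf (ev (d := d)) (d + 1) S T).Nonempty) :
    (conf (ev (d := d)) (d + 1) S (S \ T)).Nonempty := by
  classical
  rw [← radon_iff hS hs _ hT] at h
  rw [← radon_iff hS hs _ sdiff_subset, Finset.sdiff_sdiff_eq_self hT]
  exact h.symm

theorem radonNum_ne (hS : GenPos d S) (hs : d + 1 ≤ S.card) (j : ℕ) (hj : 2 * j ≠ S.card) :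
    radonNum S j = radC (ev (d := d)) (d + 1) S j := by
  classical
  rw [radonNum_aux hS hs, sym_inj]
  · rw [card_image_of_injective]
    · unfold radC
      congr 1
    · intro T T' h
      exact congrArg Prod.fst h
  · rintro p hp hp'
    rw [mem_image] at hp hp'
    obtain ⟨T, hT, rfl⟩ := hp
    obtain ⟨T', hT', h⟩ := hp'
    rw [mem_filter, mem_powersetCard] at hT hT'
    have h1 : T' = S \ T := congrArg Prod.fst h
    have h2 := card_sdiff_of_subset hT.1.1
    have h3 := card_le_card hT.1.1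
    rw [← h1, hT'.1.2, hT.1.2] at h2
    rw [hT.1.2] at h3
    omega

theorem radonNum_eq (hS : GenPos d S) (hs : d + 1 ≤ S.card) (j : ℕ) (hj : 2 * j = S.card) :
    2 * radonNum S j = radC (ev (d := d)) (d + 1) S j := by
  classical
  rw [radonNum_aux hS hs, sym_two]
  · rw [card_image_of_injective]
    · unfold radC
      congr 1
    · intro T T' h
      exact congrArg Prod.fst h
  · rintro p hp
    rw [mem_image] at hp
    obtain ⟨T, hT, rfl⟩ := hp
    rw [mem_filter, mem_powersetCard] at hT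
    obtain ⟨⟨hTS, hTc⟩, hne⟩ := hT
    constructor
    · rw [mem_image]
      refine ⟨S \ T, ?_, ?_⟩
      · rw [mem_filter, mem_powersetCard]
        refine ⟨⟨sdiff_subset, ?_⟩, conf_compl hS hs hTS hne⟩
        rw [card_sdiff_of_subset hTS]; omega
      · show (S \ T, S \ (S \ T)) = (S \ T, T)
        rw [Finset.sdiff_sdiff_eq_self hTS]
    · show T ≠ S \ T
      intro h
      have hr := (radon_iff hS hs T hTS).2 hne
      obtain ⟨x, hx⟩ := hr.1
      exact hr.2.2.1 x hx (h ▸ hx)

open Classical in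
theorem primNum_aux (hS : GenPos d S) (hs : d + 1 ≤ S.card) (i : ℕ) :
    primNum S i = (((Cs (ev (d := d)) (d + 1) S).filter (fun q => q.1.card = i)).image
      (fun p => s(p.1, p.2))).card := by
  unfold primNum
  rw [← Set.ncard_coe_finset]
  congr 1
  ext q
  simp only [Set.mem_ofPred_eq, coe_image, Set.mem_image, mem_coe, mem_filter]
  constructor
  · rintro ⟨A, B, rfl, hp, hA, hB, hi, hc⟩
    exact ⟨(A, B), ⟨(prim_iff hS hs A B).1 ⟨hp, hA, hB, hc⟩, hi⟩, rfl⟩
  · rintro ⟨p, ⟨hp, hi⟩, rfl⟩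
    obtain ⟨h1, h2, h3, h4⟩ := (prim_iff hS hs p.1 p.2).2 hp
    exact ⟨p.1, p.2, rfl, h1, h2, h3, hi, h4⟩

theorem Cs_swap {ι H : Type*} [DecidableEq ι] [AddCommGroup H] [Module ℝ H]
    {L : ι → H →ₗ[ℝ] ℝ} {D : ℕ} {S : Finset ι} {q : Finset ι × Finset ι} (h : q ∈ Cs L D S) :
    q.swap ∈ Cs L D S := by
  obtain ⟨h1, h2, h3, h4⟩ := (mem_Cs q).1 h
  exact (mem_Cs q.swap).2 ⟨h2, h1, by rw [add_comm]; exact h3, h4.symm⟩

theorem primNum_ne (hS : GenPos d S) (hs : d + 1 ≤ S.card) (i : ℕ) (hi : 2 * i ≠ d + 2) :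
    primNum S i = cirC (ev (d := d)) (d + 1) S i := by
  classical
  rw [primNum_aux hS hs, sym_inj]
  · unfold cirC
    congr 1
  · rintro p hp hp'
    rw [mem_filter, mem_Cs] at hp hp'
    have h1 : p.2.card = i := hp'.2
    have h2 := hp.2
    have h3 := hp.1.2.2.1
    omega

theorem primNum_eq (hS : GenPos d S) (hs : d + 1 ≤ S.card) (i : ℕ) (hi : 2 * i = d + 2) :
    2 * primNum S i = cirC (ev (d := d)) (d + 1) S i := by
  classical
  rw [primNum_aux hS hs, sym_two]
  · unfold cirC
    congr 1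
  · rintro p hp
    rw [mem_filter] at hp
    have h4 := (mem_Cs p).1 hp.1
    constructor
    · rw [mem_filter]
      refine ⟨Cs_swap hp.1, ?_⟩
      show p.2.card = i
      have := h4.2.2.1
      omega
    · intro h
      have hd := h4.2.2.2.disj
      rw [h, disjoint_self_iff_empty] at hd
      have h5 := h4.2.2.1
      rw [h, hd] at h5
      simp at h5

/-- Folding a symmetric sum. -/
theorem fold_sum (n : ℕ) (a b f : ℕ → ℝ) (ha0 : a 0 = 0) (ha : ∀ j ≤ n, a j = a (n - j))
    (hf : ∀ j ≤ n, f j = f (n - j)) (hb1 : ∀ j, 2 * j ≠ n → b j = a j)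
    (hb2 : ∀ j, 2 * j = n → 2 * b j = a j) :
    ∑ j ∈ range (n + 1), f j * a j = 2 * ∑ j : Fin (n / 2), f (j + 1) * b (j + 1) := by
  have hF : ∀ j ≤ n, f j * a j = f (n - j) * a (n - j) := by
    intro j hj; rw [← ha j hj, ← hf j hj]
  rw [Fin.sum_univ_eq_sum_range (fun j => f (j + 1) * b (j + 1)) (n / 2)]
  rcases Nat.even_or_odd' n with ⟨k, rfl | rfl⟩
  · rw [Nat.mul_div_cancel_left k (by norm_num)]
    rcases Nat.eq_zero_or_pos k with rfl | hk
    · simp [ha0]
    · have e1 : 2 * k + 1 = (k + 1) + k := by ring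
      rw [e1, sum_range_add, sum_range_succ]
      have e2 : ∑ x ∈ range k, f (k + 1 + x) * a (k + 1 + x) = ∑ x ∈ range k, f x * a x := by
        rw [← sum_range_reflect (fun x => f x * a x) k]
        apply sum_congr rfl
        intro x hx
        rw [mem_range] at hx
        rw [hF (k + 1 + x) (by omega)]
        have : 2 * k - (k + 1 + x) = k - 1 - x := by omega
        rw [this]
      rw [e2]
      obtain ⟨m, rfl⟩ : ∃ m, k = m + 1 := ⟨k - 1, by omega⟩
      rw [sum_range_succ' (fun x => f x * a x) m, sum_range_succ (fun x => f (x + 1) * b (x + 1)) m,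
        ha0, mul_zero, add_zero, ← hb2 (m + 1) rfl]
      have e3 : ∑ x ∈ range m, f (x + 1) * b (x + 1) = ∑ x ∈ range m, f (x + 1) * a (x + 1) := by
        apply sum_congr rfl
        intro x hx
        rw [mem_range] at hx
        rw [hb1 (x + 1) (by omega)]
      rw [e3]; ring
  · have e0 : (2 * k + 1) / 2 = k := by omega
    rw [e0]
    have e1 : 2 * k + 1 + 1 = (k + 1) + (k + 1) := by ring
    rw [e1, sum_range_add]
    have e2 : ∑ x ∈ range (k + 1), f (k + 1 + x) * a (k + 1 + x)
        = ∑ x ∈ range (k + 1), f x * a x := by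
      rw [← sum_range_reflect (fun x => f x * a x) (k + 1)]
      apply sum_congr rfl
      intro x hx
      rw [mem_range] at hx
      rw [hF (k + 1 + x) (by omega)]
      have : 2 * k + 1 - (k + 1 + x) = k + 1 - 1 - x := by omega
      rw [this]
    rw [e2, sum_range_succ' (fun x => f x * a x) k, ha0, mul_zero, add_zero]
    have e3 : ∑ x ∈ range k, f (x + 1) * b (x + 1) = ∑ x ∈ range k, f (x + 1) * a (x + 1) := by
      apply sum_congr rfl
      intro x hx
      rw [hb1 (x + 1) (by omega)]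
    rw [e3]; ring

section General

variable {ι H : Type*} [DecidableEq ι] [AddCommGroup H] [Module ℝ H]
variable {L : ι → H →ₗ[ℝ] ℝ} {D : ℕ} {S : Finset ι}

theorem sum_radC (f : ℕ → ℝ) (n : ℕ) (hn : S.card ≤ n) :
    ∑ j ∈ range (n + 1), f j * radC L D S j
      = ∑ T ∈ S.powerset, (by classical exact if (conf L D S T).Nonempty then f T.card else 0) := by
  classical
  rw [← sum_filter, ← sum_fiberwise_of_maps_to (s := S.powerset.filter
    (fun T => (conf L D S T).Nonempty)) (t := range (n + 1)) (g := fun T => T.card)]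
  · apply sum_congr rfl
    intro j _
    have e1 : ∀ T ∈ (S.powerset.filter (fun T => (conf L D S T).Nonempty)).filter
        (fun T => T.card = j), f T.card = f j := by
      intro T hT
      rw [(mem_filter.1 hT).2]
    rw [sum_congr rfl e1, sum_const, nsmul_eq_mul, mul_comm]
    congr 2
    unfold radC
    congr 1
    ext T
    simp only [mem_filter, mem_powersetCard, mem_powerset]
    tauto
  · intro T hT
    rw [mem_filter, mem_powerset] at hT
    rw [mem_range]
    have := card_le_card hT.1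
    omega

theorem sum_cirC (f : ℕ → ℝ) (n : ℕ) (hn : D + 1 ≤ n) :
    ∑ i ∈ range (n + 1), f i * cirC L D S i = ∑ q ∈ Cs L D S, f q.1.card := by
  classical
  rw [← sum_fiberwise_of_maps_to (s := Cs L D S) (t := range (n + 1)) (g := fun q => q.1.card)]
  · apply sum_congr rfl
    intro i _
    have e1 : ∀ q ∈ (Cs L D S).filter (fun q => q.1.card = i), f q.1.card = f i := by
      intro q hq
      rw [(mem_filter.1 hq).2]
    rw [sum_congr rfl e1, sum_const, nsmul_eq_mul, mul_comm]
    congr 2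
  · intro q hq
    have := ((mem_Cs q).1 hq).2.2.1
    rw [mem_range]
    omega

theorem cirC_symm (i : ℕ) (hi : i ≤ D + 1) : cirC L D S i = cirC L D S (D + 1 - i) := by
  classical
  unfold cirC
  apply card_bij (fun q _ => q.swap)
  · intro q hq
    rw [mem_filter] at hq ⊢
    refine ⟨Cs_swap hq.1, ?_⟩
    have := ((mem_Cs q).1 hq.1).2.2.1
    show q.2.card = _
    omega
  · intro q _ q' _ h
    exact Prod.swap_injective h
  · intro q hq
    rw [mem_filter] at hq
    refine ⟨q.swap, ?_, Prod.swap_swap q⟩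
    rw [mem_filter]
    refine ⟨Cs_swap hq.1, ?_⟩
    have := ((mem_Cs q).1 hq.1).2.2.1
    show q.2.card = _
    omega

theorem conf_compl' {T : Finset ι} (hT : T ⊆ S) (h : (conf L D S T).Nonempty) :
    (conf L D S (S \ T)).Nonempty := by
  obtain ⟨q, hq⟩ := h
  rw [mem_conf] at hq
  refine ⟨q.swap, ?_⟩
  rw [mem_conf]
  refine ⟨Cs_swap hq.1, hq.2.2, ?_⟩
  rw [Finset.sdiff_sdiff_eq_self hT]
  exact hq.2.1

theorem radC_symm (j : ℕ) (hj : j ≤ S.card) : radC L D S j = radC L D S (S.card - j) := by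
  classical
  unfold radC
  apply card_bij (fun T _ => S \ T)
  · intro T hT
    rw [mem_filter, mem_powersetCard] at hT ⊢
    refine ⟨⟨sdiff_subset, ?_⟩, conf_compl' hT.1.1 hT.2⟩
    rw [card_sdiff_of_subset hT.1.1, hT.1.2]
  · intro T hT T' hT' h
    rw [mem_filter, mem_powersetCard] at hT hT'
    have h' : S \ T = S \ T' := h
    rw [← Finset.sdiff_sdiff_eq_self hT.1.1, h', Finset.sdiff_sdiff_eq_self hT'.1.1]
  · intro T hT
    rw [mem_filter, mem_powersetCard] at hT
    refine ⟨S \ T, ?_, Finset.sdiff_sdiff_eq_self hT.1.1⟩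
    rw [mem_filter, mem_powersetCard]
    refine ⟨⟨sdiff_subset, ?_⟩, conf_compl' hT.1.1 hT.2⟩
    rw [card_sdiff_of_subset hT.1.1, hT.1.2]; omega

end General

theorem sum_card_pow {ι : Type*} [DecidableEq ι] (S : Finset ι) :
    2 * ∑ T ∈ S.powerset, (T.card : ℝ) = S.card * 2 ^ S.card ∧
    4 * ∑ T ∈ S.powerset, (T.card : ℝ) ^ 2 = S.card * (S.card + 1) * 2 ^ S.card := by
  induction S using Finset.induction_on with
  | empty => simp
  | insert x S hx ih =>
    obtain ⟨ih1, ih2⟩ := ih
    have e : ∀ T ∈ S.powerset, (insert x T).card = T.card + 1 := by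
      intro T hT
      exact card_insert_of_notMem (fun h => hx (mem_powerset.1 hT h))
    have c0 : ∑ T ∈ S.powerset, (1 : ℝ) = 2 ^ S.card := by simp
    rw [sum_powerset_insert hx, sum_powerset_insert hx, card_insert_of_notMem hx]
    have e1 : ∑ T ∈ S.powerset, ((insert x T).card : ℝ)
        = ∑ T ∈ S.powerset, (T.card : ℝ) + ∑ T ∈ S.powerset, (1 : ℝ) := by
      rw [← sum_add_distrib]
      exact sum_congr rfl (fun T hT => by rw [e T hT]; push_cast; ring)
    have e2 : ∑ T ∈ S.powerset, ((insert x T).card : ℝ) ^ 2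
        = ∑ T ∈ S.powerset, (T.card : ℝ) ^ 2 + 2 * ∑ T ∈ S.powerset, (T.card : ℝ)
          + ∑ T ∈ S.powerset, (1 : ℝ) := by
      rw [mul_sum, ← sum_add_distrib, ← sum_add_distrib]
      exact sum_congr rfl (fun T hT => by rw [e T hT]; push_cast; ring)
    rw [e1, e2, c0]
    push_cast
    constructor
    · rw [pow_succ]; linear_combination 2 * ih1
    · rw [pow_succ]; linear_combination 2 * ih2 + 4 * ih1

end Pool.Agent.Helper992.Radon
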