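import Mathlib
import Pool.Agent.Helper992.Radon6
set_option autoImplicit false
open Finset

namespace Pool.Agent.Helper992.Radon

/-- The coordinate with number `i` (starting from one) of a vector, zero when out of range. -/
noncomputable def Pc {n : ℕ} (y : Fin n → ℝ) (i : ℕ) : ℝ :=
  if h : 1 ≤ i ∧ i ≤ n then y ⟨i - 1, by omega⟩ else 0

/-- The linear system. -/
def IsSol (s d : ℕ) (v : (Fin (s / 2) → ℝ) × (Fin (d / 2 + 1) → ℝ)) : Prop :=
  (∑ j, v.1 j = 2 ^ (s - 1) - ∑ k ∈ range (d + 1), ((s - 1).choose k : ℝ)) ∧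
  (∑ i, v.2 i = (s.choose (d + 2) : ℝ)) ∧
  (∑ j : Fin (s / 2), ((j : ℝ) + 1) * ((s : ℝ) - (j + 1)) * v.1 j
    - ∑ i : Fin (d / 2 + 1), ((i : ℝ) + 1) * ((d : ℝ) + 2 - (i + 1)) * v.2 i
    = (s.choose 2 : ℝ) * (2 ^ (s - 2) - ∑ k ∈ range (d + 1), ((s - 2).choose k : ℝ))) ∧
  (Odd d → Even s → ∑ j : Fin (s / 2), (-1) ^ ((j : ℕ) + 1) * v.1 j = 0) ∧
  (s = d + 2 → ∀ (j : Fin (s / 2)) (i : Fin (d / 2 + 1)), (j : ℕ) = i → v.1 j = v.2 i) ∧
  (s = d + 3 → ∀ j : Fin (s / 2), 2 * v.1 j =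
    Pc v.2 j + (if 2 * ((j : ℕ) + 1) = d + 2 then 2 else 1) * Pc v.2 (j + 1)) ∧
  (d = 1 → ∀ j : Fin (s / 2), v.1 j =
    (if 2 * ((j : ℕ) + 1) = s then 1 / 2 else 1) * ((s.choose (j + 1) : ℝ) - 2))

variable {d : ℕ} {S : Finset (Pt d)}

theorem radC_zero (hS : GenPos d S) (hs : d + 1 ≤ S.card) :
    radC (ev (d := d)) (d + 1) S 0 = 0 := by
  classical
  unfold radC
  rw [card_eq_zero, filter_eq_empty_iff]
  intro T hT hne
  rw [mem_powersetCard] at hT
  have := (radon_iff hS hs T hT.1).2 hne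
  obtain ⟨x, hx⟩ := this.1
  rw [card_eq_zero.1 hT.2] at hx
  simp at hx

theorem cirC_zero : cirC (ev (d := d)) (d + 1) S 0 = 0 := by
  classical
  unfold cirC
  rw [card_eq_zero, filter_eq_empty_iff]
  intro q hq hq0
  obtain ⟨h1, h2, h3, h4⟩ := (mem_Cs q).1 hq
  have := h4.radon (by omega)
  obtain ⟨x, hx⟩ := this.1
  rw [card_eq_zero.1 hq0] at hx
  simp at hx

theorem sum_radon (hS : GenPos d S) (hs : d + 1 ≤ S.card) (f : ℕ → ℝ) :
    ∑ j ∈ range (S.card + 1), f j * radC (ev (d := d)) (d + 1) S j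
      = ∑ T ∈ S.powerset, f T.card - ∑ T ∈ Top (ev (d := d)) S, f T.card := by
  classical
  rw [sum_radC f S.card le_rfl]
  have hsub : Top (ev (d := d)) S ⊆ S.powerset := by unfold Top; exact filter_subset _ _
  have h3 : ∑ T ∈ Top (ev (d := d)) S, f T.card
      = ∑ T ∈ S.powerset, (if T ∈ Top (ev (d := d)) S then f T.card else 0) := by
    rw [← sum_filter]
    congr 1
    ext T
    simp only [mem_filter]
    exact ⟨fun h => ⟨hsub h, h⟩, fun h => h.2⟩
  rw [h3, ← sum_sub_distrib]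
  apply sum_congr rfl
  intro T hT
  have h1 := radon_iff hS hs T (mem_powerset.1 hT)
  have h2 := top_iff hS hs T (mem_powerset.1 hT)
  by_cases h : RadonPair T (S \ T)
  · rw [if_pos (h1.1 h), if_neg (fun h' => (h2.1 h') h), sub_zero]
  · rw [if_neg (fun h' => h (h1.2 h')), if_pos (h2.2 h), sub_self]

theorem fold_radon (hS : GenPos d S) (hs : d + 1 ≤ S.card) (f : ℕ → ℝ)
    (hf : ∀ j ≤ S.card, f j = f (S.card - j)) :
    2 * ∑ j : Fin (S.card / 2), f (j + 1) * radonNum S (j + 1)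
      = ∑ T ∈ S.powerset, f T.card - ∑ T ∈ Top (ev (d := d)) S, f T.card := by
  rw [← sum_radon hS hs f]
  symm
  apply fold_sum S.card (fun j => (radC (ev (d := d)) (d + 1) S j : ℝ))
    (fun j => (radonNum S j : ℝ)) f
  · simp [radC_zero hS hs]
  · intro j hj
    rw [radC_symm j hj]
  · exact hf
  · intro j hj
    rw [radonNum_ne hS hs j hj]
  · intro j hj
    rw [← radonNum_eq hS hs j hj]; push_cast; ring

theorem fold_prim (hS : GenPos d S) (hs : d + 1 ≤ S.card) (f : ℕ → ℝ)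
    (hf : ∀ i ≤ d + 2, f i = f (d + 2 - i)) :
    2 * ∑ i : Fin (d / 2 + 1), f (i + 1) * primNum S (i + 1)
      = ∑ q ∈ Cs (ev (d := d)) (d + 1) S, f q.1.card := by
  rw [← sum_cirC f (d + 2) le_rfl]
  have h := fold_sum (d + 2) (fun j => (cirC (ev (d := d)) (d + 1) S j : ℝ))
    (fun j => (primNum S j : ℝ)) f (by simp [cirC_zero])
    (by
      intro j hj
      rw [cirC_symm j hj])
    hf
    (by
      intro j hj
      rw [primNum_ne hS hs j hj])
    (by
      intro j hj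
      rw [← primNum_eq hS hs j hj]; push_cast; ring)
  rw [h]
  have e : (d + 2) / 2 = d / 2 + 1 := by omega
  rw [Fin.sum_univ_eq_sum_range (fun i => f (i + 1) * (primNum S (i + 1) : ℝ)) (d / 2 + 1),
    Fin.sum_univ_eq_sum_range (fun i => f (i + 1) * (primNum S (i + 1) : ℝ)) ((d + 2) / 2), e]

theorem choose_two_cast (s : ℕ) : (s.choose 2 : ℝ) = s * (s - 1) / 2 := by
  have h := Nat.cast_choose_two ℝ s
  exact h

theorem primC_coord (hS : GenPos d S) (hs : d + 1 ≤ S.card) (i : ℕ) (hi : i ≤ d / 2 + 1) :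
    (cirC (ev (d := d)) (d + 1) S i : ℝ)
      = (if 2 * i = d + 2 then 2 else 1) *
        Pc (fun i : Fin (d / 2 + 1) => (primNum S (i + 1) : ℝ)) i := by
  unfold Pc
  rcases Nat.eq_zero_or_pos i with rfl | hpos
  · rw [cirC_zero]; simp
  · rw [dif_pos ⟨hpos, hi⟩]
    have e : i - 1 + 1 = i := by omega
    simp only [e]
    split_ifs with h
    · rw [← primNum_eq hS hs i h]; push_cast; ring
    · rw [← primNum_ne hS hs i h]; ring

theorem partI (hd : 1 ≤ d) (hS : GenPos d S) (hs : d + 2 ≤ S.card)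
    (hone : d = 1 → ∀ j : ℕ, 1 ≤ j → j < S.card →
      (radC (ev (d := d)) (d + 1) S j : ℝ) = (S.card.choose j : ℝ) - 2) :
    IsSol S.card d (fun j => (radonNum S (j + 1) : ℝ), fun i => (primNum S (i + 1) : ℝ)) := by
  classical
  have hs1 : d + 1 ≤ S.card := by omega
  have hG := GP_S hS hs1
  have hR : Rel (ev (d := d)) (d + 1) S := Rel_S
  have hSne : S.Nonempty := card_pos.1 (by omega)
  have hpow : ∑ T ∈ S.powerset, (1 : ℝ) = 2 ^ S.card := by simp
  refine ⟨?_, ?_, ?_, ?_, ?_, ?_, ?_⟩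
  · have h := fold_radon hS hs1 (fun _ => 1) (fun _ _ => rfl)
    simp only [one_mul] at h
    have h2 := tope_card hG hSne
    have h3 : ((Top (ev (d := d)) S).card : ℝ)
        = 2 * ∑ k ∈ range (d + 1), ((S.card - 1).choose k : ℝ) := by exact_mod_cast h2
    rw [hpow, sum_const, nsmul_eq_mul, mul_one, h3] at h
    have e : (2 : ℝ) ^ S.card = 2 * 2 ^ (S.card - 1) := by
      rw [← pow_succ']; congr 1; omega
    rw [e] at h
    show ∑ j : Fin (S.card / 2), (radonNum S (j + 1) : ℝ) = _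
    linarith
  · have h := fold_prim hS hs1 (fun _ => 1) (fun _ _ => rfl)
    simp only [one_mul] at h
    rw [sum_const, nsmul_eq_mul, mul_one, Cs_card hG hR] at h
    show ∑ i : Fin (d / 2 + 1), (primNum S (i + 1) : ℝ) = _
    push_cast at h
    have e : d + 1 + 1 = d + 2 := rfl
    rw [e] at h
    linarith
  · have h1 := fold_radon hS hs1 (fun j => (j : ℝ) * ((S.card : ℝ) - j)) (by
      intro j hj
      rw [Nat.cast_sub hj]; ring)
    have h2 := fold_prim hS hs1 (fun i => (i : ℝ) * ((d : ℝ) + 2 - i)) (by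
      intro j hj
      rw [Nat.cast_sub hj]; push_cast; ring)
    have h3 := quad_rel hG hR (by omega) (by omega)
    have h3' : ∑ T ∈ Top (ev (d := d)) S, (T.card : ℝ) * ((S.card : ℝ) - T.card)
      + ∑ q ∈ Cs (ev (d := d)) (d + 1) S, (q.1.card : ℝ) * q.2.card
      = (S.card : ℝ) * ((S.card : ℝ) - 1) * ∑ k ∈ range (d + 1), ((S.card - 2).choose k : ℝ) := by
      exact_mod_cast h3
    have h4 : ∑ q ∈ Cs (ev (d := d)) (d + 1) S, (q.1.card : ℝ) * ((d : ℝ) + 2 - q.1.card)
        = ∑ q ∈ Cs (ev (d := d)) (d + 1) S, (q.1.card : ℝ) * q.2.card := by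
      apply sum_congr rfl
      intro q hq
      have := ((mem_Cs q).1 hq).2.2.1
      have h5 : (q.1.card : ℝ) + q.2.card = d + 2 := by exact_mod_cast this
      rw [← h5]; ring
    obtain ⟨h5, h6⟩ := sum_card_pow S
    have h7 : ∑ T ∈ S.powerset, (T.card : ℝ) * ((S.card : ℝ) - T.card)
        = S.card * ∑ T ∈ S.powerset, (T.card : ℝ) - ∑ T ∈ S.powerset, (T.card : ℝ) ^ 2 := by
      rw [mul_sum, ← sum_sub_distrib]
      exact sum_congr rfl (fun T _ => by ring)
    rw [h7] at h1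
    rw [h4] at h2
    have e : (2 : ℝ) ^ S.card = 4 * 2 ^ (S.card - 2) := by
      have : S.card = (S.card - 2) + 2 := by omega
      rw [this, pow_add]; norm_num; ring
    rw [e] at h5 h6
    rw [choose_two_cast]
    have g1 : ∑ j : Fin (S.card / 2), ((j : ℝ) + 1) * ((S.card : ℝ) - (j + 1)) *
        (radonNum S (j + 1) : ℝ) = ∑ j : Fin (S.card / 2), ((((j : ℕ) + 1 : ℕ) : ℝ) *
        ((S.card : ℝ) - (((j : ℕ) + 1 : ℕ) : ℝ))) * (radonNum S (j + 1) : ℝ) := by
      apply sum_congr rfl; intro j _; push_cast; ring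
    have g2 : ∑ i : Fin (d / 2 + 1), ((i : ℝ) + 1) * ((d : ℝ) + 2 - (i + 1)) *
        (primNum S (i + 1) : ℝ) = ∑ i : Fin (d / 2 + 1), ((((i : ℕ) + 1 : ℕ) : ℝ) *
        ((d : ℝ) + 2 - (((i : ℕ) + 1 : ℕ) : ℝ))) * (primNum S (i + 1) : ℝ) := by
      apply sum_congr rfl; intro j _; push_cast; ring
    show ∑ j : Fin (S.card / 2), ((j : ℝ) + 1) * ((S.card : ℝ) - (j + 1)) *
        (radonNum S (j + 1) : ℝ) - ∑ i : Fin (d / 2 + 1), ((i : ℝ) + 1) *
        ((d : ℝ) + 2 - (i + 1)) * (primNum S (i + 1) : ℝ) = _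
    rw [g1, g2]
    linear_combination (1 / 2) * h1 - (1 / 2) * h2 - (1 / 2) * h3' + (S.card / 4) * h5
      - (1 / 8) * h6
  · intro hdo hse
    have hse' := hse
    obtain ⟨k, hk⟩ := hse
    have h1 := fold_radon hS hs1 (fun j => (-1 : ℝ) ^ j) (by
      intro j hj
      have h2 : (-1 : ℝ) ^ (S.card - j) * (-1) ^ j = 1 := by
        rw [← pow_add, Nat.sub_add_cancel hj, hse'.neg_one_pow]
      have h3 : (-1 : ℝ) ^ j * (-1) ^ j = 1 := by
        rw [← mul_pow]; norm_num
      have h4 : ((-1 : ℝ) ^ (S.card - j) - (-1) ^ j) * (-1) ^ j = 0 := by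
        rw [sub_mul, h2, h3, sub_self]
      have h5 : (-1 : ℝ) ^ j ≠ 0 := pow_ne_zero _ (by norm_num)
      have h6 := (mul_eq_zero.1 h4).resolve_right h5
      linarith)
    have h2 := tope_alt hG (by omega) (by exact hdo.add_one) hSne (by omega)
    have h2' : ∑ T ∈ Top (ev (d := d)) S, (-1 : ℝ) ^ T.card = 0 := by exact_mod_cast h2
    have h3 : ∑ T ∈ S.powerset, (-1 : ℝ) ^ T.card = 0 := by
      have := Finset.sum_powerset_neg_one_pow_card_of_nonempty hSne
      exact_mod_cast this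
    rw [h2', h3] at h1
    show ∑ j : Fin (S.card / 2), (-1 : ℝ) ^ ((j : ℕ) + 1) * (radonNum S (j + 1) : ℝ) = 0
    linarith
  · intro hsd j i hji
    show (radonNum S (j + 1) : ℝ) = (primNum S (i + 1) : ℝ)
    rw [← hji]
    have h1 := rel_one (L := ev (d := d)) (S := S) (D := d + 1) hsd (j + 1)
    by_cases h : 2 * ((j : ℕ) + 1) = S.card
    · have h2 := radonNum_eq hS hs1 (j + 1) h
      have h3 := primNum_eq hS hs1 (j + 1) (by omega)
      have : radonNum S (j + 1) = primNum S (j + 1) := by omega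
      rw [this]
    · rw [radonNum_ne hS hs1 _ h, primNum_ne hS hs1 _ (by omega), h1]
  · intro hsd j
    show 2 * (radonNum S (j + 1) : ℝ) = _
    have h1 := rel_two (L := ev (d := d)) hG hR (by omega) hsd j
    have h1' : 2 * (radC (ev (d := d)) (d + 1) S (j + 1) : ℝ)
        = cirC (ev (d := d)) (d + 1) S (j + 1) + cirC (ev (d := d)) (d + 1) S j := by
      exact_mod_cast h1
    have hj := j.2
    have hjd : (j : ℕ) ≤ d / 2 + 1 := by omega
    have c1 := primC_coord hS hs1 j hjd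
    by_cases h : 2 * ((j : ℕ) + 1) = S.card
    · have h2 := radonNum_eq hS hs1 (j + 1) h
      have h2' : 2 * (radonNum S (j + 1) : ℝ) = radC (ev (d := d)) (d + 1) S (j + 1) := by
        exact_mod_cast h2
      have hne : ¬ 2 * ((j : ℕ) + 1) = d + 2 := by omega
      have hsym : cirC (ev (d := d)) (d + 1) S (j + 1) = cirC (ev (d := d)) (d + 1) S j := by
        rw [cirC_symm ((j : ℕ) + 1) (by omega)]
        congr 1
        omega
      have hout : Pc (fun i : Fin (d / 2 + 1) => (primNum S (i + 1) : ℝ)) (j + 1) = 0 := by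
        unfold Pc
        rw [dif_neg]
        omega
      rw [if_neg (by omega), one_mul] at c1
      rw [hout, mul_zero, add_zero, ← c1]
      rw [hsym] at h1'
      linarith
    · have h2 := radonNum_ne hS hs1 (j + 1) h
      have c2 := primC_coord hS hs1 (j + 1) (by omega)
      rw [if_neg (by omega), one_mul] at c1
      rw [h2, h1', c1, c2]
      ring
  · intro h1 j
    show (radonNum S (j + 1) : ℝ) = _
    have hj := j.2
    have h2 := hone h1 (j + 1) (by omega) (by omega)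
    split_ifs with h
    · have h3 := radonNum_eq hS hs1 (j + 1) h
      have h3' : 2 * (radonNum S (j + 1) : ℝ) = radC (ev (d := d)) (d + 1) S (j + 1) := by
        exact_mod_cast h3
      rw [h2] at h3'
      linarith
    · rw [radonNum_ne hS hs1 _ h, h2]; ring

end Pool.Agent.Helper992.Radon
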