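import Mathlib
import Pool.Agent.Helper992.Radon7
set_option autoImplicit false
open Finset

namespace Pool.Agent.Helper992.Radon

/-- In dimension one the number of non Radon partitions is determined. -/
theorem one_dim {S : Finset (Pt 1)} (hS : GenPos 1 S) (hs : 3 ≤ S.card) (j : ℕ) (hj1 : 1 ≤ j)
    (hjs : j < S.card) :
    (radC (ev (d := 1)) (1 + 1) S j : ℝ) = (S.card.choose j : ℝ) - 2 := by
  classical
  have hG := GP_S hS (by omega)
  have hSne : S.Nonempty := card_pos.1 (by omega)
  set N : ℕ → ℕ := fun j => ((S.powersetCard j).filter (fun T => T ∈ Top (ev (d := 1)) S)).card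
    with hN
  have hle : ∀ T T' : Finset (Pt 1), T ⊆ S → T' ⊆ S → T.card = T'.card →
      ∀ h h' : ℝ × Pt 1, (∀ x ∈ T, 0 < ev x h) → (∀ x ∈ S \ T, ev x h < 0) →
      (∀ x ∈ T', 0 < ev x h') → (∀ x ∈ S \ T', ev x h' < 0) → 0 < h.2 0 * h'.2 0 → T = T' := by
    intro T T' hT hT' hc h h' hP hN hP' hN' hpos
    have hev : ∀ (x : Pt 1) (g : ℝ × Pt 1), ev x g = g.1 + g.2 0 * x 0 := by
      intro x g
      rw [ev_apply, dotProduct, Fin.sum_univ_one]
    by_contra hne
    have h1 : ∃ x ∈ T, x ∉ T' := by
      by_contra hcon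
      push Not at hcon
      exact hne (eq_of_subset_of_card_le hcon (by omega))
    have h2 : ∃ x ∈ T', x ∉ T := by
      by_contra hcon
      push Not at hcon
      exact hne (eq_of_subset_of_card_le hcon (by omega)).symm
    obtain ⟨x, hx, hx'⟩ := h1
    obtain ⟨y, hy, hy'⟩ := h2
    have a1 := hP x hx
    have a2 := hN y (mem_sdiff.2 ⟨hT' hy, hy'⟩)
    have a3 := hP' y hy
    have a4 := hN' x (mem_sdiff.2 ⟨hT hx, hx'⟩)
    rw [hev] at a1 a2 a3 a4
    have b1 : 0 < h.2 0 * (x 0 - y 0) := by linarith
    have b2 : h'.2 0 * (x 0 - y 0) < 0 := by linarith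
    nlinarith [mul_neg_of_pos_of_neg b1 b2, sq_nonneg (x 0 - y 0)]
  have hbound : ∀ i ∈ range (S.card + 1), N i ≤ (if i = 0 ∨ i = S.card then 1 else 2) := by
    intro i hi
    rw [mem_range] at hi
    split_ifs with hcase
    · have : (S.powersetCard i).card = 1 := by
        rw [card_powersetCard]
        rcases hcase with h | h
        · rw [h, Nat.choose_zero_right]
        · rw [h, Nat.choose_self]
      rw [← this]
      exact card_filter_le _ _
    · push Not at hcase
      set A := (S.powersetCard i).filter (fun T => ∃ h : ℝ × Pt 1, (∀ x ∈ T, 0 < ev x h) ∧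
        (∀ x ∈ S \ T, ev x h < 0) ∧ 0 < h.2 0) with hA
      set B := (S.powersetCard i).filter (fun T => ∃ h : ℝ × Pt 1, (∀ x ∈ T, 0 < ev x h) ∧
        (∀ x ∈ S \ T, ev x h < 0) ∧ h.2 0 < 0) with hB
      have hA1 : A.card ≤ 1 := by
        rw [card_le_one]
        intro T hT T' hT'
        rw [hA, mem_filter, mem_powersetCard] at hT hT'
        obtain ⟨⟨hTS, hTc⟩, h, h1, h2, h3⟩ := hT
        obtain ⟨⟨hTS', hTc'⟩, h', h1', h2', h3'⟩ := hT'
        exact hle T T' hTS hTS' (by omega) h h' h1 h2 h1' h2' (mul_pos h3 h3')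
      have hB1 : B.card ≤ 1 := by
        rw [card_le_one]
        intro T hT T' hT'
        rw [hB, mem_filter, mem_powersetCard] at hT hT'
        obtain ⟨⟨hTS, hTc⟩, h, h1, h2, h3⟩ := hT
        obtain ⟨⟨hTS', hTc'⟩, h', h1', h2', h3'⟩ := hT'
        exact hle T T' hTS hTS' (by omega) h h' h1 h2 h1' h2' (mul_pos_of_neg_of_neg h3 h3')
      have hsub : (S.powersetCard i).filter (fun T => T ∈ Top (ev (d := 1)) S) ⊆ A ∪ B := by
        intro T hT
        rw [mem_filter, mem_powersetCard, mem_Top] at hT
        obtain ⟨⟨hTS, hTc⟩, -, h, -, h1, h2⟩ := hT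
        have hev : ∀ (x : Pt 1), ev x h = h.1 + h.2 0 * x 0 := by
          intro x
          rw [ev_apply, dotProduct, Fin.sum_univ_one]
        rcases lt_trichotomy (h.2 0) 0 with h0 | h0 | h0
        · exact mem_union_right _ (mem_filter.2 ⟨mem_powersetCard.2 ⟨hTS, hTc⟩, h, h1, h2, h0⟩)
        · exfalso
          obtain ⟨x, hx⟩ : T.Nonempty := card_pos.1 (by omega)
          obtain ⟨y, hy⟩ : (S \ T).Nonempty := card_pos.1 (by
            rw [card_sdiff_of_subset hTS]; omega)
          have a1 := h1 x hx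
          have a2 := h2 y hy
          rw [hev, h0] at a1 a2
          linarith
        · exact mem_union_left _ (mem_filter.2 ⟨mem_powersetCard.2 ⟨hTS, hTc⟩, h, h1, h2, h0⟩)
      calc N i ≤ (A ∪ B).card := card_le_card hsub
        _ ≤ A.card + B.card := card_union_le _ _
        _ ≤ 2 := by omega
  have hsum : ∑ i ∈ range (S.card + 1), N i = 2 * S.card := by
    have h1 : (Top (ev (d := 1)) S).card = ∑ i ∈ range (S.card + 1), N i := by
      rw [card_eq_sum_card_fiberwise (s := Top (ev (d := 1)) S) (t := range (S.card + 1))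
        (f := fun T => T.card)]
      · apply sum_congr rfl
        intro i _
        congr 1
        ext T
        rw [mem_filter, mem_filter, mem_powersetCard]
        constructor
        · rintro ⟨h1, h2⟩
          exact ⟨⟨((mem_Top T).1 h1).1, h2⟩, h1⟩
        · rintro ⟨⟨_, h2⟩, h1⟩
          exact ⟨h1, h2⟩
      · intro T hT
        have h2 := card_le_card ((mem_Top T).1 hT).1
        simp only [coe_range, Set.mem_Iio]
        omega
    have h2 := tope_card hG hSne
    rw [sum_range_succ, sum_range_succ, sum_range_zero] at h2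
    simp only [Nat.choose_zero_right, Nat.choose_one_right, zero_add] at h2
    rw [← h1]
    omega
  have hM : ∑ i ∈ range (S.card + 1), (if i = 0 ∨ i = S.card then 1 else 2) = 2 * S.card := by
    obtain ⟨n, hn⟩ : ∃ n, S.card = n + 1 := ⟨S.card - 1, by omega⟩
    rw [hn, sum_range_succ, sum_range_succ']
    have : ∑ k ∈ range n, (if k + 1 = 0 ∨ k + 1 = n + 1 then 1 else 2) = ∑ k ∈ range n, 2 := by
      apply sum_congr rfl
      intro k hk
      rw [mem_range] at hk
      rw [if_neg]
      omega
    rw [this]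
    simp
    ring
  have hall := (sum_eq_sum_iff_of_le hbound).1 (hsum.trans hM.symm)
  have hNj : N j = 2 := by
    have := hall j (mem_range.2 (by omega))
    rw [if_neg (by omega)] at this
    exact this
  have hsplit : radC (ev (d := 1)) (1 + 1) S j + N j = S.card.choose j := by
    rw [← card_powersetCard, hN]
    unfold radC
    rw [← card_filter_add_card_filter_not (s := S.powersetCard j)
      (fun T => (conf (ev (d := 1)) (1 + 1) S T).Nonempty)]
    congr 1
    show ((S.powersetCard j).filter (fun T => T ∈ Top (ev (d := 1)) S)).card = _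
    congr 1
    apply filter_congr
    intro T hT
    rw [mem_powersetCard] at hT
    rw [top_iff hS (by omega) T hT.1, radon_iff hS (by omega) T hT.1]
  rw [hNj] at hsplit
  rw [← hsplit]
  push_cast
  ring

theorem partI' {d : ℕ} {S : Finset (Pt d)} (hd : 1 ≤ d) (hS : GenPos d S)
    (hs : d + 2 ≤ S.card) :
    IsSol S.card d (fun j => (radonNum S (j + 1) : ℝ), fun i => (primNum S (i + 1) : ℝ)) := by
  apply partI hd hS hs
  intro h1 j hj1 hjs
  subst h1
  exact one_dim hS (by omega) j hj1 hjs

end Pool.Agent.Helper992.Radon
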