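import Mathlib
import Pool.Agent.Helper992.Radon8
set_option autoImplicit false
open Finset

namespace Pool.Agent.Helper992.Radon

section Mutation

variable {ι H : Type*} [DecidableEq ι] [AddCommGroup H] [Module ℝ H]

/-- Two families differing by the reversal of one simplex. -/
structure Mut (L M : ι → H →ₗ[ℝ] ℝ) (D : ℕ) (S R A0 B0 K K' : Finset ι) : Prop where
  gpL : GP L D S
  gpM : GP M D S
  relL : Rel L D S
  relM : Rel M D S
  hAB : A0 ∪ B0 = R
  hdAB : Disjoint A0 B0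
  hRc : R.card = D
  hRS : R ⊆ S
  hA : A0.Nonempty
  hB : B0.Nonempty
  hK : K ∪ K' = S \ R
  hdK : Disjoint K K'
  hKne : (K ∪ K').Nonempty
  rob : ∀ A B : Finset ι, A ⊆ S → B ⊆ S → A.card + B.card = D + 1 → ¬ R ⊆ A ∪ B →
    (Circ L A B ↔ Circ M A B)
  nonconf : ∀ A B : Finset ι, A ⊆ S → B ⊆ S → A.card + B.card = D + 1 → ¬ R ⊆ A ∪ B →
    Circ L A B → ¬ (A ⊆ A0 ∪ K ∧ B ⊆ B0 ∪ K') ∧ ¬ (A ⊆ A0 ∪ K' ∧ B ⊆ B0 ∪ K)
  cK : ∀ x ∈ K, Circ L A0 (insert x B0) ∧ Circ M (insert x A0) B0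
  cK' : ∀ x ∈ K', Circ L (insert x A0) B0 ∧ Circ M A0 (insert x B0)

variable {L M : ι → H →ₗ[ℝ] ℝ} {D : ℕ} {S R A0 B0 K K' : Finset ι}

theorem Mut.symm (h : Mut L M D S R A0 B0 K K') : Mut M L D S R A0 B0 K' K where
  gpL := h.gpM
  gpM := h.gpL
  relL := h.relM
  relM := h.relL
  hAB := h.hAB
  hdAB := h.hdAB
  hRc := h.hRc
  hRS := h.hRS
  hA := h.hA
  hB := h.hB
  hK := by rw [union_comm]; exact h.hK
  hdK := h.hdK.symm
  hKne := by rw [union_comm]; exact h.hKne
  rob := fun A B hA hB hc hR => (h.rob A B hA hB hc hR).symm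
  nonconf := fun A B hA hB hc hR hC =>
    (h.nonconf A B hA hB hc hR ((h.rob A B hA hB hc hR).2 hC)).symm
  cK := fun x hx => (h.cK' x hx).symm
  cK' := fun x hx => (h.cK x hx).symm

theorem Mut.memK (h : Mut L M D S R A0 B0 K K') {x : ι} :
    (x ∈ K ∨ x ∈ K') ↔ (x ∈ S ∧ x ∉ R) := by
  rw [← mem_union, h.hK, mem_sdiff]

theorem Mut.memR (h : Mut L M D S R A0 B0 K K') {x : ι} : (x ∈ A0 ∨ x ∈ B0) ↔ x ∈ R := by
  rw [← mem_union, h.hAB]

/-- Circuits whose support contains `R`. -/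
theorem Mut.circR (h : Mut L M D S R A0 B0 K K') {q : Finset ι × Finset ι} (hq : q ∈ Cs L D S)
    (hR : R ⊆ q.1 ∪ q.2) :
    (∃ x ∈ K, q = (A0, insert x B0) ∨ q = (insert x B0, A0)) ∨
    (∃ x ∈ K', q = (insert x A0, B0) ∨ q = (B0, insert x A0)) := by
  obtain ⟨h1, h2, h3, h4⟩ := (mem_Cs q).1 hq
  have hU : q.1 ∪ q.2 ⊆ S := union_subset h1 h2
  have hUc : (q.1 ∪ q.2).card = D + 1 := by rw [card_union_of_disjoint h4.disj, h3]
  obtain ⟨x, hx⟩ : ∃ x, (q.1 ∪ q.2) \ R = {x} := by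
    rw [← card_eq_one, card_sdiff_of_subset hR, hUc, h.hRc]; omega
  have hxU : x ∈ (q.1 ∪ q.2) \ R := by rw [hx]; exact mem_singleton_self x
  rw [mem_sdiff] at hxU
  have hUx : q.1 ∪ q.2 = insert x R := by
    rw [← sdiff_union_of_subset hR, hx, insert_eq]
  have hxS : x ∈ S := hU hxU.1
  have hins1 : A0 ∪ insert x B0 = insert x R := by rw [union_insert, h.hAB]
  have hins2 : insert x A0 ∪ B0 = insert x R := by rw [insert_union, h.hAB]
  have hxA : x ∉ A0 := fun hh => hxU.2 (h.memR.1 (Or.inl hh))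
  have hxB : x ∉ B0 := fun hh => hxU.2 (h.memR.1 (Or.inr hh))
  have hcAB : A0.card + B0.card = D := by
    rw [← card_union_of_disjoint h.hdAB, h.hAB, h.hRc]
  rcases h.memK.2 ⟨hxS, hxU.2⟩ with hxK | hxK
  · left
    refine ⟨x, hxK, ?_⟩
    have hC := (h.cK x hxK).1
    have := circ_unique h.gpL (A := A0) (B := insert x B0) (A' := q.1) (B' := q.2)
      (by rw [hins1, ← hUx]; exact hU) (by rw [card_insert_of_notMem hxB]; omega) hC h4
      (by rw [hins1, hUx])
    rcases this with hh | hh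
    · exact Or.inl (Prod.ext hh.1 hh.2)
    · exact Or.inr (Prod.ext hh.1 hh.2)
  · right
    refine ⟨x, hxK, ?_⟩
    have hC := (h.cK' x hxK).1
    have := circ_unique h.gpL (A := insert x A0) (B := B0) (A' := q.1) (B' := q.2)
      (by rw [hins2, ← hUx]; exact hU) (by rw [card_insert_of_notMem hxA]; omega) hC h4
      (by rw [hins2, hUx])
    rcases this with hh | hh
    · exact Or.inl (Prod.ext hh.1 hh.2)
    · exact Or.inr (Prod.ext hh.1 hh.2)

theorem Mut.sub (h : Mut L M D S R A0 B0 K K') : A0 ⊆ S ∧ B0 ⊆ S ∧ K ⊆ S ∧ K' ⊆ S := by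
  refine ⟨fun x hx => h.hRS (h.memR.1 (Or.inl hx)), fun x hx => h.hRS (h.memR.1 (Or.inr hx)),
    fun x hx => (h.memK.1 (Or.inl hx)).1, fun x hx => (h.memK.1 (Or.inr hx)).1⟩

theorem Mut.compl (h : Mut L M D S R A0 B0 K K') : S \ (A0 ∪ K) = B0 ∪ K' := by
  ext x
  have e1 := h.memK (x := x)
  have e2 := h.memR (x := x)
  have e3 : x ∈ A0 → x ∉ B0 := fun hx => disjoint_left.1 h.hdAB hx
  have e4 : x ∈ K → x ∉ K' := fun hx => disjoint_left.1 h.hdK hx
  have e5 : x ∈ R → x ∈ S := fun hx => h.hRS hx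
  rw [mem_sdiff, mem_union, mem_union]
  tauto

theorem Mut.cardAB (h : Mut L M D S R A0 B0 K K') : A0.card + B0.card = D := by
  rw [← card_union_of_disjoint h.hdAB, h.hAB, h.hRc]

/-- The partition `(A0 ∪ K', B0 ∪ K)` has a conformal circuit of `L`. -/
theorem Mut.conf_T2 (h : Mut L M D S R A0 B0 K K') : (conf L D S (A0 ∪ K')).Nonempty := by
  obtain ⟨sA, sB, sK, sK'⟩ := h.sub
  have hcomp : S \ (A0 ∪ K') = B0 ∪ K := h.symm.compl
  have hc := h.cardAB
  obtain ⟨x, hx⟩ := h.hKne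
  have hxR : x ∉ R := (h.memK.1 (mem_union.1 hx)).2
  have hxA : x ∉ A0 := fun hh => hxR (h.memR.1 (Or.inl hh))
  have hxB : x ∉ B0 := fun hh => hxR (h.memR.1 (Or.inr hh))
  rcases mem_union.1 hx with hxK | hxK
  · refine ⟨(A0, insert x B0), ?_⟩
    rw [mem_conf, mem_Cs]
    refine ⟨⟨sA, insert_subset (sK hxK) sB, ?_, (h.cK x hxK).1⟩, subset_union_left, ?_⟩
    · show A0.card + (insert x B0).card = D + 1
      rw [card_insert_of_notMem hxB]; omega
    · rw [hcomp]
      exact insert_subset (mem_union_right _ hxK) subset_union_left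
  · refine ⟨(insert x A0, B0), ?_⟩
    rw [mem_conf, mem_Cs]
    refine ⟨⟨insert_subset (sK' hxK) sA, sB, ?_, (h.cK' x hxK).1⟩, ?_, ?_⟩
    · show (insert x A0).card + B0.card = D + 1
      rw [card_insert_of_notMem hxA]; omega
    · exact insert_subset (mem_union_right _ hxK) subset_union_left
    · rw [hcomp]; exact subset_union_left

/-- The partition `(A0 ∪ K, B0 ∪ K')` has no conformal circuit of `L`. -/
theorem Mut.conf_T1 (h : Mut L M D S R A0 B0 K K') : ¬ (conf L D S (A0 ∪ K)).Nonempty := by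
  rintro ⟨q, hq⟩
  rw [mem_conf, h.compl] at hq
  obtain ⟨hq0, hq1, hq2⟩ := hq
  obtain ⟨h1, h2, h3, h4⟩ := (mem_Cs q).1 hq0
  have hB0K : ∀ y ∈ B0, y ∉ A0 ∪ K := by
    intro y hy hy'
    rcases mem_union.1 hy' with hh | hh
    · exact disjoint_left.1 h.hdAB hh hy
    · exact (h.memK.1 (Or.inl hh)).2 (h.memR.1 (Or.inr hy))
  by_cases hR : R ⊆ q.1 ∪ q.2
  · obtain ⟨b, hb⟩ := h.hB
    rcases h.circR hq0 hR with ⟨x, hx, rfl | rfl⟩ | ⟨x, hx, rfl | rfl⟩
    · have : x ∈ B0 ∪ K' := hq2 (mem_insert_self _ _)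
      rcases mem_union.1 this with hh | hh
      · exact (h.memK.1 (Or.inl hx)).2 (h.memR.1 (Or.inr hh))
      · exact disjoint_left.1 h.hdK hx hh
    · exact hB0K b hb (hq1 (mem_insert_of_mem hb))
    · have : x ∈ A0 ∪ K := hq1 (mem_insert_self _ _)
      rcases mem_union.1 this with hh | hh
      · exact (h.memK.1 (Or.inr hx)).2 (h.memR.1 (Or.inl hh))
      · exact disjoint_left.1 h.hdK hh hx
    · exact hB0K b hb (hq1 hb)
  · exact (h.nonconf q.1 q.2 h1 h2 h3 hR h4).1 ⟨hq1, hq2⟩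

theorem Mut.step (h : Mut L M D S R A0 B0 K K') {T : Finset ι} (hT : T ⊆ S) (hA : A0 ⊆ T)
    (hB : B0 ⊆ S \ T) (hne : T ≠ A0 ∪ K') : (conf M D S T).Nonempty := by
  obtain ⟨sA, sB, sK, sK'⟩ := h.sub
  have hc := h.cardAB
  have hex : ∃ y, (y ∈ K ∧ y ∈ T) ∨ (y ∈ K' ∧ y ∉ T) := by
    by_contra hcon
    push Not at hcon
    apply hne
    ext y
    rw [mem_union]
    constructor
    · intro hy
      by_cases hyR : y ∈ R
      · rcases h.memR.2 hyR with hh | hh
        · exact Or.inl hh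
        · exact absurd hy (mem_sdiff.1 (hB hh)).2
      · rcases h.memK.2 ⟨hT hy, hyR⟩ with hh | hh
        · exact absurd hy ((hcon y).1 hh)
        · exact Or.inr hh
    · rintro (hh | hh)
      · exact hA hh
      · exact (hcon y).2 hh
  obtain ⟨y, hy | hy⟩ := hex
  · have hyR : y ∉ R := (h.memK.1 (Or.inl hy.1)).2
    have hyA : y ∉ A0 := fun hh => hyR (h.memR.1 (Or.inl hh))
    refine ⟨(insert y A0, B0), ?_⟩
    rw [mem_conf, mem_Cs]
    refine ⟨⟨insert_subset (sK hy.1) sA, sB, ?_, (h.cK y hy.1).2⟩, insert_subset hy.2 hA, hB⟩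
    show (insert y A0).card + B0.card = D + 1
    rw [card_insert_of_notMem hyA]; omega
  · have hyR : y ∉ R := (h.memK.1 (Or.inr hy.1)).2
    have hyB : y ∉ B0 := fun hh => hyR (h.memR.1 (Or.inr hh))
    refine ⟨(A0, insert y B0), ?_⟩
    rw [mem_conf, mem_Cs]
    refine ⟨⟨sA, insert_subset (sK' hy.1) sB, ?_, (h.cK' y hy.1).2⟩, hA,
      insert_subset (mem_sdiff.2 ⟨sK' hy.1, hy.2⟩) hB⟩
    show A0.card + (insert y B0).card = D + 1
    rw [card_insert_of_notMem hyB]; omega

theorem Mut.imp (h : Mut L M D S R A0 B0 K K') {T : Finset ι} (hT : T ⊆ S)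
    (hne : T ≠ A0 ∪ K') (hne' : T ≠ B0 ∪ K) (hc : (conf L D S T).Nonempty) :
    (conf M D S T).Nonempty := by
  obtain ⟨sA, sB, sK, sK'⟩ := h.sub
  obtain ⟨q, hq⟩ := hc
  obtain ⟨hq0, hq1, hq2⟩ := (mem_conf T q).1 hq
  obtain ⟨h1, h2, h3, h4⟩ := (mem_Cs q).1 hq0
  by_cases hR : R ⊆ q.1 ∪ q.2
  · have key2 : ∀ T, T ⊆ S → B0 ⊆ T → A0 ⊆ S \ T → T ≠ B0 ∪ K → (conf M D S T).Nonempty := by
      intro T hT hB hA hne'
      have := h.step (T := S \ T) sdiff_subset hA (by rwa [Finset.sdiff_sdiff_eq_self hT]) (by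
        intro hh
        apply hne'
        have h5 : S \ (A0 ∪ K') = B0 ∪ K := h.symm.compl
        rw [← h5, ← hh, Finset.sdiff_sdiff_eq_self hT])
      have h6 := conf_compl' (S := S) sdiff_subset this
      rwa [Finset.sdiff_sdiff_eq_self hT] at h6
    rcases h.circR hq0 hR with ⟨x, hx, rfl | rfl⟩ | ⟨x, hx, rfl | rfl⟩
    · exact h.step hT hq1 ((subset_insert _ _).trans hq2) hne
    · exact key2 T hT ((subset_insert _ _).trans hq1) hq2 hne'
    · exact h.step hT ((subset_insert _ _).trans hq1) hq2 hne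
    · exact key2 T hT hq1 ((subset_insert _ _).trans hq2) hne'
  · refine ⟨q, ?_⟩
    rw [mem_conf, mem_Cs]
    exact ⟨⟨h1, h2, h3, (h.rob q.1 q.2 h1 h2 h3 hR).1 h4⟩, hq1, hq2⟩

theorem Mut.ne12 (h : Mut L M D S R A0 B0 K K') : A0 ∪ K ≠ A0 ∪ K' := by
  intro heq
  obtain ⟨x, hx⟩ := h.hKne
  have hxR : x ∉ R := (h.memK.1 (mem_union.1 hx)).2
  have hxA : x ∉ A0 := fun hh => hxR (h.memR.1 (Or.inl hh))
  rcases mem_union.1 hx with hh | hh
  · have : x ∈ A0 ∪ K' := heq ▸ mem_union_right _ hh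
    rcases mem_union.1 this with h1 | h1
    · exact hxA h1
    · exact disjoint_left.1 h.hdK hh h1
  · have : x ∈ A0 ∪ K := heq.symm ▸ mem_union_right _ hh
    rcases mem_union.1 this with h1 | h1
    · exact hxA h1
    · exact disjoint_left.1 h.hdK h1 hh

theorem Mut.neAB (h : Mut L M D S R A0 B0 K K') (X Y : Finset ι) (hX : X ⊆ S \ R)
    (hY : Y ⊆ S \ R) : A0 ∪ X ≠ B0 ∪ Y := by
  intro heq
  obtain ⟨a, ha⟩ := h.hA
  have : a ∈ B0 ∪ Y := heq ▸ mem_union_left _ ha
  rcases mem_union.1 this with h1 | h1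
  · exact disjoint_left.1 h.hdAB ha h1
  · exact (mem_sdiff.1 (hY h1)).2 (h.memR.1 (Or.inl ha))

theorem Mut.radC_diff (h : Mut L M D S R A0 B0 K K') (j : ℕ) :
    (radC L D S j : ℤ) - radC M D S j
      = (if (A0 ∪ K').card = j then 1 else 0) + (if (B0 ∪ K).card = j then 1 else 0)
        - (if (A0 ∪ K).card = j then 1 else 0) - (if (B0 ∪ K').card = j then 1 else 0) := by
  classical
  obtain ⟨sA, sB, sK, sK'⟩ := h.sub
  have kK : K ⊆ S \ R := by rw [← h.hK]; exact subset_union_left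
  have kK' : K' ⊆ S \ R := by rw [← h.hK]; exact subset_union_right
  have n1 := h.ne12
  have n2 : B0 ∪ K ≠ B0 ∪ K' := by
    intro heq
    obtain ⟨x, hx⟩ := h.hKne
    have hxR : x ∉ R := (h.memK.1 (mem_union.1 hx)).2
    have hxB : x ∉ B0 := fun hh => hxR (h.memR.1 (Or.inr hh))
    rcases mem_union.1 hx with hh | hh
    · have : x ∈ B0 ∪ K' := heq ▸ mem_union_right _ hh
      rcases mem_union.1 this with h1 | h1
      · exact hxB h1
      · exact disjoint_left.1 h.hdK hh h1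
    · have : x ∈ B0 ∪ K := heq.symm ▸ mem_union_right _ hh
      rcases mem_union.1 this with h1 | h1
      · exact hxB h1
      · exact disjoint_left.1 h.hdK h1 hh
  have n3 := h.neAB K K kK kK
  have n4 := h.neAB K K' kK kK'
  have n5 := h.neAB K' K kK' kK
  have n6 := h.neAB K' K' kK' kK'
  have hL2 := h.conf_T2
  have hL1 := h.conf_T1
  have hM2 : (conf M D S (A0 ∪ K)).Nonempty := h.symm.conf_T2
  have hM1 : ¬ (conf M D S (A0 ∪ K')).Nonempty := h.symm.conf_T1
  have c1 : S \ (A0 ∪ K) = B0 ∪ K' := h.compl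
  have c2 : S \ (A0 ∪ K') = B0 ∪ K := h.symm.compl
  have sT1 : A0 ∪ K ⊆ S := union_subset sA sK
  have sT2 : A0 ∪ K' ⊆ S := union_subset sA sK'
  have sT1c : B0 ∪ K' ⊆ S := union_subset sB sK'
  have sT2c : B0 ∪ K ⊆ S := union_subset sB sK
  have hL2c : (conf L D S (B0 ∪ K)).Nonempty := by rw [← c2]; exact conf_compl' sT2 hL2
  have hM2c : (conf M D S (B0 ∪ K')).Nonempty := by rw [← c1]; exact conf_compl' sT1 hM2
  have hL1c : ¬ (conf L D S (B0 ∪ K')).Nonempty := by
    intro hh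
    apply hL1
    have := conf_compl' sT1c hh
    rwa [← c1, Finset.sdiff_sdiff_eq_self sT1] at this
  have hM1c : ¬ (conf M D S (B0 ∪ K)).Nonempty := by
    intro hh
    apply hM1
    have := conf_compl' sT2c hh
    rwa [← c2, Finset.sdiff_sdiff_eq_self sT2] at this
  have hpt : ∀ T ∈ S.powersetCard j, ((if (conf L D S T).Nonempty then (1 : ℤ) else 0)
      - (if (conf M D S T).Nonempty then 1 else 0))
      = (if T = A0 ∪ K' then 1 else 0) + (if T = B0 ∪ K then 1 else 0)
        - (if T = A0 ∪ K then 1 else 0) - (if T = B0 ∪ K' then 1 else 0) := by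
    intro T hT
    rw [mem_powersetCard] at hT
    by_cases e1 : T = A0 ∪ K'
    · subst e1
      rw [if_pos hL2, if_neg hM1, if_pos rfl, if_neg n5, if_neg n1.symm, if_neg n6]; norm_num
    · by_cases e2 : T = B0 ∪ K
      · subst e2
        rw [if_pos hL2c, if_neg hM1c, if_neg n5.symm, if_pos rfl, if_neg n3.symm, if_neg n2]
        norm_num
      · by_cases e3 : T = A0 ∪ K
        · subst e3
          rw [if_neg hL1, if_pos hM2, if_neg n1, if_neg n3, if_pos rfl, if_neg n4]; norm_num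
        · by_cases e4 : T = B0 ∪ K'
          · subst e4
            rw [if_neg hL1c, if_pos hM2c, if_neg n6.symm, if_neg n2.symm, if_neg n4.symm,
              if_pos rfl]
            norm_num
          · rw [if_neg e1, if_neg e2, if_neg e3, if_neg e4]
            by_cases hc : (conf L D S T).Nonempty
            · have := h.imp hT.1 e1 e2 hc
              rw [if_pos hc, if_pos this]; norm_num
            · have : ¬ (conf M D S T).Nonempty := by
                intro hh
                exact hc (h.symm.imp hT.1 e3 e4 hh)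
              rw [if_neg hc, if_neg this]; norm_num
  have hsum : (radC L D S j : ℤ) - radC M D S j
      = ∑ T ∈ S.powersetCard j, ((if (conf L D S T).Nonempty then (1 : ℤ) else 0)
      - (if (conf M D S T).Nonempty then 1 else 0)) := by
    unfold radC
    rw [sum_sub_distrib, card_filter, card_filter]
    push_cast
    rfl
  rw [hsum, sum_congr rfl hpt, sum_sub_distrib, sum_sub_distrib, sum_add_distrib]
  have hone : ∀ X : Finset ι, X ⊆ S →
      ∑ T ∈ S.powersetCard j, (if T = X then (1 : ℤ) else 0) = if X.card = j then 1 else 0 := by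
    intro X hX
    rw [sum_ite_eq' (S.powersetCard j) X]
    by_cases hc : X.card = j
    · rw [if_pos (mem_powersetCard.2 ⟨hX, hc⟩), if_pos hc]
    · rw [if_neg (fun hh => hc (mem_powersetCard.1 hh).2), if_neg hc]
  rw [hone _ sT2, hone _ sT2c, hone _ sT1, hone _ sT1c]

/-- The ordered circuits on one support, by first size. -/
theorem circ_fibre (hG : GP L D S) {A B : Finset ι} (hA : A ⊆ S) (hB : B ⊆ S)
    (hc : A.card + B.card = D + 1) (hC : Circ L A B) (i : ℕ) :
    ((((Cs L D S).filter (fun q => q.1.card = i)).filter (fun q => q.1 ∪ q.2 = A ∪ B)).card : ℤ)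
      = (if A.card = i then 1 else 0) + (if B.card = i then 1 else 0) := by
  classical
  have heq : ((Cs L D S).filter (fun q => q.1.card = i)).filter (fun q => q.1 ∪ q.2 = A ∪ B)
      = ({(A, B), (B, A)} : Finset (Finset ι × Finset ι)).filter (fun q => q.1.card = i) := by
    ext q
    rw [mem_filter, mem_filter, mem_Cs, mem_filter, mem_insert, mem_singleton]
    constructor
    · rintro ⟨⟨⟨h1, h2, h3, h4⟩, h5⟩, h6⟩
      refine ⟨?_, h5⟩
      rcases circ_unique hG (union_subset hA hB) hc hC h4 h6 with h | h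
      · exact Or.inl (Prod.ext h.1 h.2)
      · exact Or.inr (Prod.ext h.1 h.2)
    · rintro ⟨rfl | rfl, h5⟩
      · exact ⟨⟨⟨hA, hB, hc, hC⟩, h5⟩, rfl⟩
      · exact ⟨⟨⟨hB, hA, by rw [add_comm]; exact hc, hC.symm⟩, h5⟩, union_comm _ _⟩
  have hne : (A, B) ≠ (B, A) := by
    intro h
    have h1 : A = B := congrArg Prod.fst h
    have h2 := hC.disj
    rw [h1, disjoint_self_iff_empty] at h2
    rw [h1, h2] at hc
    simp at hc
  rw [heq, card_filter, sum_pair hne]
  push_cast
  rfl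

theorem cirC_fibres (i : ℕ) : (cirC L D S i : ℤ) = ∑ U ∈ S.powersetCard (D + 1),
    ((by classical exact (((Cs L D S).filter (fun q => q.1.card = i)).filter
      (fun q => q.1 ∪ q.2 = U)).card : ℕ) : ℤ) := by
  classical
  unfold cirC
  rw [card_eq_sum_card_fiberwise (t := S.powersetCard (D + 1)) (f := fun q => q.1 ∪ q.2)]
  · push_cast
    rfl
  · intro q hq
    rw [mem_coe, mem_filter] at hq
    obtain ⟨h1, h2, h3, h4⟩ := (mem_Cs q).1 hq.1
    rw [mem_coe, mem_powersetCard]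
    exact ⟨union_subset h1 h2, by rw [card_union_of_disjoint h4.disj, h3]⟩

theorem Mut.cirC_diff (h : Mut L M D S R A0 B0 K K') (i : ℕ) :
    (cirC L D S i : ℤ) - cirC M D S i
      = ((K.card : ℤ) - K'.card) * ((if A0.card = i then 1 else 0)
        + (if B0.card + 1 = i then 1 else 0) - (if A0.card + 1 = i then 1 else 0)
        - (if B0.card = i then 1 else 0)) := by
  classical
  obtain ⟨sA, sB, sK, sK'⟩ := h.sub
  have hc := h.cardAB
  rw [cirC_fibres, cirC_fibres, ← sum_sub_distrib]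
  set g : Finset ι → ℤ := fun U =>
    (((((Cs L D S).filter (fun q => q.1.card = i)).filter (fun q => q.1 ∪ q.2 = U)).card : ℕ) : ℤ)
    - (((((Cs M D S).filter (fun q => q.1.card = i)).filter (fun q => q.1 ∪ q.2 = U)).card : ℕ) : ℤ)
    with hg
  show ∑ U ∈ S.powersetCard (D + 1), g U = _
  have hrob : ∀ U ∈ S.powersetCard (D + 1), ¬ R ⊆ U → g U = 0 := by
    intro U hU hRU
    have : ((Cs L D S).filter (fun q => q.1.card = i)).filter (fun q => q.1 ∪ q.2 = U)
        = ((Cs M D S).filter (fun q => q.1.card = i)).filter (fun q => q.1 ∪ q.2 = U) := by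
      ext q
      rw [mem_filter, mem_filter, mem_Cs, mem_filter, mem_filter, mem_Cs]
      constructor
      · rintro ⟨⟨⟨h1, h2, h3, h4⟩, h5⟩, h6⟩
        exact ⟨⟨⟨h1, h2, h3, (h.rob _ _ h1 h2 h3 (by rw [h6]; exact hRU)).1 h4⟩, h5⟩, h6⟩
      · rintro ⟨⟨⟨h1, h2, h3, h4⟩, h5⟩, h6⟩
        exact ⟨⟨⟨h1, h2, h3, (h.rob _ _ h1 h2 h3 (by rw [h6]; exact hRU)).2 h4⟩, h5⟩, h6⟩
    rw [hg]
    simp only [this, sub_self]
  have hsplit : ∑ U ∈ S.powersetCard (D + 1), g U
      = ∑ U ∈ (S \ R).image (fun x => insert x R), g U := by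
    symm
    apply sum_subset
    · intro U hU
      rw [mem_image] at hU
      obtain ⟨x, hx, rfl⟩ := hU
      rw [mem_sdiff] at hx
      rw [mem_powersetCard]
      exact ⟨insert_subset hx.1 h.hRS, by rw [card_insert_of_notMem hx.2, h.hRc]⟩
    · intro U hU hUn
      apply hrob U hU
      intro hRU
      apply hUn
      rw [mem_powersetCard] at hU
      obtain ⟨x, hx⟩ : ∃ x, U \ R = {x} := by
        rw [← card_eq_one, card_sdiff_of_subset hRU, hU.2, h.hRc]; omega
      have hxU : x ∈ U \ R := by rw [hx]; exact mem_singleton_self x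
      rw [mem_sdiff] at hxU
      rw [mem_image]
      refine ⟨x, mem_sdiff.2 ⟨hU.1 hxU.1, hxU.2⟩, ?_⟩
      rw [← sdiff_union_of_subset hRU, hx, insert_eq]
  rw [hsplit, sum_image]
  · rw [← h.hK, sum_union h.hdK]
    have hxK : ∀ x ∈ K, g (insert x R) = (if A0.card = i then 1 else 0)
        + (if B0.card + 1 = i then 1 else 0) - (if A0.card + 1 = i then 1 else 0)
        - (if B0.card = i then 1 else 0) := by
      intro x hx
      have hxR : x ∉ R := (h.memK.1 (Or.inl hx)).2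
      have hxA : x ∉ A0 := fun hh => hxR (h.memR.1 (Or.inl hh))
      have hxB : x ∉ B0 := fun hh => hxR (h.memR.1 (Or.inr hh))
      have e1 : A0 ∪ insert x B0 = insert x R := by rw [union_insert, h.hAB]
      have e2 : insert x A0 ∪ B0 = insert x R := by rw [insert_union, h.hAB]
      have f1 := circ_fibre h.gpL sA (insert_subset (sK hx) sB)
        (by rw [card_insert_of_notMem hxB]; omega) (h.cK x hx).1 i
      have f2 := circ_fibre h.gpM (insert_subset (sK hx) sA) sB
        (by rw [card_insert_of_notMem hxA]; omega) (h.cK x hx).2 i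
      rw [e1, card_insert_of_notMem hxB] at f1
      rw [e2, card_insert_of_notMem hxA] at f2
      rw [hg]
      simp only [f1, f2]
      ring
    have hxK' : ∀ x ∈ K', g (insert x R) = -((if A0.card = i then 1 else 0)
        + (if B0.card + 1 = i then 1 else 0) - (if A0.card + 1 = i then 1 else 0)
        - (if B0.card = i then 1 else 0)) := by
      intro x hx
      have hxR : x ∉ R := (h.memK.1 (Or.inr hx)).2
      have hxA : x ∉ A0 := fun hh => hxR (h.memR.1 (Or.inl hh))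
      have hxB : x ∉ B0 := fun hh => hxR (h.memR.1 (Or.inr hh))
      have e1 : A0 ∪ insert x B0 = insert x R := by rw [union_insert, h.hAB]
      have e2 : insert x A0 ∪ B0 = insert x R := by rw [insert_union, h.hAB]
      have f1 := circ_fibre h.gpM sA (insert_subset (sK' hx) sB)
        (by rw [card_insert_of_notMem hxB]; omega) (h.cK' x hx).2 i
      have f2 := circ_fibre h.gpL (insert_subset (sK' hx) sA) sB
        (by rw [card_insert_of_notMem hxA]; omega) (h.cK' x hx).1 i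
      rw [e1, card_insert_of_notMem hxB] at f1
      rw [e2, card_insert_of_notMem hxA] at f2
      rw [hg]
      simp only [f1, f2]
      ring
    rw [sum_congr rfl hxK, sum_congr rfl hxK', sum_const, sum_const, nsmul_eq_mul, nsmul_eq_mul]
    ring
  · intro x hx y hy hxy
    rw [mem_coe, mem_sdiff] at hx hy
    have hxy' : insert x R = insert y R := hxy
    have : x ∈ insert y R := hxy' ▸ mem_insert_self x R
    rcases mem_insert.1 this with h1 | h1
    · exact h1
    · exact absurd h1 hx.2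

end Mutation

end Pool.Agent.Helper992.Radon
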