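import Mathlib
import Pool.Agent.Helper992.Radon9
set_option autoImplicit false
open Finset

namespace Pool.Agent.Helper992.Radon

theorem unif {κ : Type*} [DecidableEq κ] (F : Finset κ) (P : κ → ℝ → Prop)
    (h : ∀ k ∈ F, ∃ δ : ℝ, 0 < δ ∧ ∀ ε : ℝ, |ε| < δ → P k ε) :
    ∃ δ : ℝ, 0 < δ ∧ ∀ k ∈ F, ∀ ε : ℝ, |ε| < δ → P k ε := by
  induction F using Finset.induction_on with
  | empty => exact ⟨1, one_pos, by simp⟩
  | insert a F _ ih =>
    obtain ⟨δ1, h1, h2⟩ := ih (fun k hk => h k (mem_insert_of_mem hk))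
    obtain ⟨δ2, h3, h4⟩ := h a (mem_insert_self _ _)
    refine ⟨min δ1 δ2, lt_min h1 h3, ?_⟩
    intro k hk ε hε
    rcases mem_insert.1 hk with rfl | hk
    · exact h4 ε (lt_of_lt_of_le hε (min_le_right _ _))
    · exact h2 k hk ε (lt_of_lt_of_le hε (min_le_left _ _))

section Perturb

variable {ι H : Type*} [DecidableEq ι] [AddCommGroup H] [Module ℝ H] [FiniteDimensional ℝ H]

omit [DecidableEq ι] in
theorem exists_coeff {L : ι → H →ₗ[ℝ] ℝ} {D : ℕ} (hD : Module.finrank ℝ H = D) (Z : Finset ι)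
    (hZ : Z.card = D) (hst : ∀ g : H, (∀ x ∈ Z, L x g = 0) → g = 0) (E : H →ₗ[ℝ] ℝ) :
    ∃ e : ι → ℝ, ∀ g : H, E g = ∑ y ∈ Z, e y * L y g := by
  classical
  let Φ : H →ₗ[ℝ] (Z → ℝ) := LinearMap.pi (fun y => L y.1)
  have hinj : Function.Injective Φ := by
    rw [← LinearMap.ker_eq_bot, LinearMap.ker_eq_bot']
    intro g hg
    apply hst g
    intro y hy
    exact congrFun hg ⟨y, hy⟩
  have hfr : Module.finrank ℝ H = Module.finrank ℝ (Z → ℝ) := by
    rw [hD, Module.finrank_fintype_fun_eq_card, Fintype.card_coe, hZ]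
  let e' := LinearEquiv.ofInjectiveOfFinrankEq Φ hinj hfr
  have he' : ∀ g, e' g = Φ g := fun g => rfl
  let F : (Z → ℝ) →ₗ[ℝ] ℝ := E.comp (e'.symm : (Z → ℝ) →ₗ[ℝ] H)
  have hF : ∀ g, E g = F (Φ g) := by
    intro g
    show E g = E (e'.symm (Φ g))
    rw [← he' g, e'.symm_apply_apply]
  refine ⟨fun y => if h : y ∈ Z then F (Pi.single ⟨y, h⟩ 1) else 0, ?_⟩
  intro g
  rw [hF g, LinearMap.pi_apply_eq_sum_univ F (Φ g), ← sum_attach Z, univ_eq_attach]
  apply sum_congr rfl
  intro y _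
  have h1 : (fun j : Z => if y = j then (1 : ℝ) else 0) = Pi.single y 1 := by
    funext j
    rw [Pi.single_apply]
    simp only [eq_comm]
  rw [h1, smul_eq_mul, mul_comm]
  have h2 : Φ g y = L y.1 g := rfl
  rw [h2]
  simp

/-- The perturbed family. -/
def Lp (L : ι → H →ₗ[ℝ] ℝ) (a : ι) (E : H →ₗ[ℝ] ℝ) (ε : ℝ) (x : ι) : H →ₗ[ℝ] ℝ :=
  L x + (if x = a then ε • E else 0)

omit [FiniteDimensional ℝ H] in
theorem Lp_ne {L : ι → H →ₗ[ℝ] ℝ} {a : ι} {E : H →ₗ[ℝ] ℝ} {ε : ℝ} {x : ι} (h : x ≠ a) (g : H) :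
    Lp L a E ε x g = L x g := by
  simp [Lp, h]

omit [FiniteDimensional ℝ H] in
theorem Lp_self {L : ι → H →ₗ[ℝ] ℝ} {a : ι} {E : H →ₗ[ℝ] ℝ} {ε : ℝ} (g : H) :
    Lp L a E ε a g = L a g + ε * E g := by
  simp [Lp]

variable {L : ι → H →ₗ[ℝ] ℝ} {D : ℕ} {S R A0 B0 K K' : Finset ι} {a : ι} {E : H →ₗ[ℝ] ℝ} {h0 : H}
  {c0 : ι → ℝ}

theorem strong_ne (hD : Module.finrank ℝ H = D) {Z : Finset ι} (hZc : Z.card = D)
    (hst : ∀ g : H, (∀ x ∈ Z, L x g = 0) → g = 0) :
    ∃ δ : ℝ, 0 < δ ∧ ∀ ε : ℝ, |ε| < δ → ∀ g : H, (∀ x ∈ Z, Lp L a E ε x g = 0) → g = 0 := by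
  by_cases haZ : a ∈ Z
  · obtain ⟨e, he⟩ := exists_coeff hD Z hZc hst E
    refine ⟨1 / (|e a| + 1), by positivity, ?_⟩
    intro ε hε g hg
    have h1 : ∀ y ∈ Z.erase a, L y g = 0 := by
      intro y hy
      rw [mem_erase] at hy
      rw [← Lp_ne (L := L) (E := E) (ε := ε) hy.1 g]
      exact hg y hy.2
    have h2 := hg a haZ
    rw [Lp_self, he g, ← add_sum_erase Z _ haZ,
      sum_eq_zero (fun y hy => by rw [h1 y hy, mul_zero]), add_zero] at h2
    have h3 : (1 + ε * e a) * L a g = 0 := by linarith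
    have h4 : |ε * e a| < 1 := by
      rw [abs_mul]
      have h5 : |ε| * (|e a| + 1) < 1 := by
        have := mul_lt_mul_of_pos_right hε (show 0 < |e a| + 1 by positivity)
        rwa [one_div, inv_mul_cancel₀ (by positivity)] at this
      nlinarith [abs_nonneg ε]
    have h6 : 1 + ε * e a ≠ 0 := by
      have := (abs_lt.1 h4).1
      intro h
      linarith
    have h7 := (mul_eq_zero.1 h3).resolve_left h6
    apply hst g
    intro x hx
    by_cases hxa : x = a
    · rw [hxa]; exact h7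
    · exact h1 x (mem_erase.2 ⟨hxa, hx⟩)
  · refine ⟨1, one_pos, ?_⟩
    intro ε _ g hg
    apply hst g
    intro x hx
    have hxa : x ≠ a := by rintro rfl; exact haZ hx
    rw [← Lp_ne (L := L) (E := E) (ε := ε) hxa g]
    exact hg x hx

theorem circ_rob (hD : Module.finrank ℝ H = D) (haR : a ∈ R)
    (hm1 : ∀ Z ⊆ S, Z.card = D → Z ≠ R → ∀ g : H, (∀ x ∈ Z, L x g = 0) → g = 0)
    {U : Finset ι} (hU : U ⊆ S) (hUc : U.card = D + 1) (hRU : ¬ R ⊆ U) :
    ∃ A B : Finset ι, A ∪ B = U ∧ A.card + B.card = D + 1 ∧ Circ L A B ∧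
      ∃ δ : ℝ, 0 < δ ∧ ∀ ε : ℝ, |ε| < δ → Circ (Lp L a E ε) A B := by
  have hst : ∀ Z ⊆ U, Z.card = D → ∀ g : H, (∀ x ∈ Z, L x g = 0) → g = 0 := by
    intro Z hZ hZc
    apply hm1 Z (hZ.trans hU) hZc
    rintro rfl
    exact hRU hZ
  have hGU : GP L D U := GP_of_strong hD (by omega) hst
  have hRel : Rel L D U := Rel_of_finrank hD
  obtain ⟨u, hu⟩ : U.Nonempty := card_pos.1 (by omega)
  obtain ⟨A, B, hAB, hc, hC, -⟩ := exists_circ hGU hRel (Subset.refl U) hUc u hu
  refine ⟨A, B, hAB, hc, hC, ?_⟩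
  obtain ⟨c, hA, hB, hd⟩ := hC
  by_cases haU : a ∈ U
  · have hZc : (U.erase a).card = D := by rw [card_erase_of_mem haU]; omega
    obtain ⟨e, he⟩ := exists_coeff hD (U.erase a) hZc (hst _ (erase_subset _ _) hZc) E
    obtain ⟨δ, hδ, hs⟩ := exists_small U (fun y => |c y|) (fun y => c a * e y) (by
      intro y hy
      rw [← hAB, mem_union] at hy
      rcases hy with h | h
      · exact abs_pos.2 (hA y h).ne'
      · exact abs_pos.2 (hB y h).ne)
    refine ⟨δ, hδ, fun ε hε => ⟨fun y => if y = a then c a else c y - ε * (c a * e y), ?_, ?_, ?_⟩⟩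
    · intro y hy
      show 0 < if y = a then c a else c y - ε * (c a * e y)
      split_ifs with h
      · subst h; exact hA y hy
      · have h1 := hs y (by rw [← hAB]; exact mem_union_left _ hy)
        rw [abs_of_pos (hA y hy)] at h1
        have h2 : |ε * (c a * e y)| ≤ δ * |c a * e y| := by
          rw [abs_mul]; exact mul_le_mul_of_nonneg_right hε.le (abs_nonneg _)
        have := le_abs_self (ε * (c a * e y))
        linarith
    · intro y hy
      show (if y = a then c a else c y - ε * (c a * e y)) < 0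
      split_ifs with h
      · subst h; exact hB y hy
      · have h1 := hs y (by rw [← hAB]; exact mem_union_right _ hy)
        rw [abs_of_neg (hB y hy)] at h1
        have h2 : |ε * (c a * e y)| ≤ δ * |c a * e y| := by
          rw [abs_mul]; exact mul_le_mul_of_nonneg_right hε.le (abs_nonneg _)
        have := neg_abs_le (ε * (c a * e y))
        linarith
    · intro g
      rw [hAB]
      have h1 := hd g
      rw [hAB, ← add_sum_erase U _ haU] at h1
      rw [← add_sum_erase U _ haU]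
      simp only [if_true]
      rw [Lp_self]
      have h2 : ∑ y ∈ U.erase a, (if y = a then c a else c y - ε * (c a * e y)) * Lp L a E ε y g
          = ∑ y ∈ U.erase a, c y * L y g - ε * c a * ∑ y ∈ U.erase a, e y * L y g := by
        rw [mul_sum, ← sum_sub_distrib]
        apply sum_congr rfl
        intro y hy
        have hya := (mem_erase.1 hy).1
        rw [if_neg hya, Lp_ne hya]
        ring
      rw [h2, ← he g]
      linarith
  · refine ⟨1, one_pos, fun ε _ => ⟨c, hA, hB, ?_⟩⟩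
    intro g
    rw [← hd g]
    apply sum_congr rfl
    intro y hy
    rw [hAB] at hy
    have hya : y ≠ a := by rintro rfl; exact haU hy
    rw [Lp_ne hya]

theorem circ_R (hD : Module.finrank ℝ H = D)
    (hm1 : ∀ Z ⊆ S, Z.card = D → Z ≠ R → ∀ g : H, (∀ x ∈ Z, L x g = 0) → g = 0)
    (hRS : R ⊆ S) (hRc : R.card = D) (hAB : A0 ∪ B0 = R) (hdAB : Disjoint A0 B0) (ha : a ∈ A0)
    (hcA : ∀ x ∈ A0, 0 < c0 x) (hcB : ∀ x ∈ B0, c0 x < 0) (hdep : Dep L R c0)
    (hR0 : ∀ x ∈ R, L x h0 = 0) (hE : E h0 = 1) {x : ι} (hx : x ∈ S) (hxR : x ∉ R) :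
    ∃ δ : ℝ, 0 < δ ∧ ∀ ε : ℝ, |ε| < δ →
      (0 < -(ε * L x h0) → Circ (Lp L a E ε) (insert x A0) B0) ∧
      (-(ε * L x h0) < 0 → Circ (Lp L a E ε) A0 (insert x B0)) := by
  have haR : a ∈ R := hAB ▸ mem_union_left _ ha
  have hDpos : 0 < D := by rw [← hRc]; exact card_pos.2 ⟨a, haR⟩
  have hxe : x ∉ R.erase a := fun h => hxR (mem_of_mem_erase h)
  have hxa : x ≠ a := by rintro rfl; exact hxR haR
  have hZc : (insert x (R.erase a)).card = D := by
    rw [card_insert_of_notMem hxe, card_erase_of_mem haR]; omega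
  have hZS : insert x (R.erase a) ⊆ S := insert_subset hx ((erase_subset _ _).trans hRS)
  have hZR : insert x (R.erase a) ≠ R := by
    intro h
    exact hxR (h ▸ mem_insert_self _ _)
  obtain ⟨e, he⟩ := exists_coeff hD _ hZc (hm1 _ hZS hZc hZR) E
  have hex : e x * L x h0 = 1 := by
    have := he h0
    rw [hE, sum_insert hxe, sum_eq_zero (s := R.erase a)
      (fun y hy => by rw [hR0 y (mem_of_mem_erase hy), mul_zero]), add_zero] at this
    exact this.symm
  have hca := hcA a ha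
  obtain ⟨δ, hδ, hs⟩ := exists_small R (fun y => |c0 y|) (fun y => c0 a * e y) (by
    intro y hy
    rw [← hAB, mem_union] at hy
    rcases hy with h | h
    · exact abs_pos.2 (hcA y h).ne'
    · exact abs_pos.2 (hcB y h).ne)
  refine ⟨δ, hδ, fun ε hε => ?_⟩
  set c : ι → ℝ := fun y => if y = x then -(ε * (c0 a * e x)) else
    (if y = a then c0 a else c0 y - ε * (c0 a * e y)) with hc
  have hcx : c x = -(ε * (c0 a * e x)) := by simp [hc]
  have hcy : ∀ y ∈ R, c y = if y = a then c0 a else c0 y - ε * (c0 a * e y) := by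
    intro y hy
    have : y ≠ x := by rintro rfl; exact hxR hy
    simp [hc, this]
  have hposA : ∀ y ∈ A0, 0 < c y := by
    intro y hy
    have hyR : y ∈ R := hAB ▸ mem_union_left _ hy
    rw [hcy y hyR]
    split_ifs with h
    · exact hca
    · have h1 := hs y hyR
      rw [abs_of_pos (hcA y hy)] at h1
      have h2 : |ε * (c0 a * e y)| ≤ δ * |c0 a * e y| := by
        rw [abs_mul]; exact mul_le_mul_of_nonneg_right hε.le (abs_nonneg _)
      have := le_abs_self (ε * (c0 a * e y))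
      linarith
  have hnegB : ∀ y ∈ B0, c y < 0 := by
    intro y hy
    have hyR : y ∈ R := hAB ▸ mem_union_right _ hy
    have hya : y ≠ a := by rintro rfl; exact disjoint_left.1 hdAB ha hy
    rw [hcy y hyR, if_neg hya]
    have h1 := hs y hyR
    rw [abs_of_neg (hcB y hy)] at h1
    have h2 : |ε * (c0 a * e y)| ≤ δ * |c0 a * e y| := by
      rw [abs_mul]; exact mul_le_mul_of_nonneg_right hε.le (abs_nonneg _)
    have := neg_abs_le (ε * (c0 a * e y))
    linarith
  have hdc : Dep (Lp L a E ε) (insert x R) c := by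
    intro g
    rw [sum_insert hxR, hcx, Lp_ne hxa, ← add_sum_erase R _ haR, hcy a haR, if_pos rfl, Lp_self]
    have h1 := hdep g
    rw [← add_sum_erase R _ haR] at h1
    have h2 : ∑ y ∈ R.erase a, c y * Lp L a E ε y g
        = ∑ y ∈ R.erase a, c0 y * L y g - ε * c0 a * ∑ y ∈ R.erase a, e y * L y g := by
      rw [mul_sum, ← sum_sub_distrib]
      apply sum_congr rfl
      intro y hy
      have hya := (mem_erase.1 hy).1
      rw [hcy y (mem_of_mem_erase hy), if_neg hya, Lp_ne hya]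
      ring
    have h3 := he g
    rw [sum_insert hxe] at h3
    rw [h2]
    linear_combination h1 + (ε * c0 a) * h3
  have hins1 : A0 ∪ insert x B0 = insert x R := by rw [union_insert, hAB]
  have hins2 : insert x A0 ∪ B0 = insert x R := by rw [insert_union, hAB]
  have hsq : 0 < (e x) ^ 2 := by
    have : e x ≠ 0 := left_ne_zero_of_mul (by rw [hex]; exact one_ne_zero)
    positivity
  have hkey : c x = -(ε * L x h0) * (c0 a * (e x) ^ 2) := by
    rw [hcx]
    linear_combination (ε * c0 a * e x) * hex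
  have hpos2 : 0 < c0 a * (e x) ^ 2 := mul_pos hca hsq
  constructor
  · intro h
    refine ⟨c, ?_, hnegB, by rw [hins2]; exact hdc⟩
    intro y hy
    rcases mem_insert.1 hy with rfl | hy
    · rw [hkey]; exact mul_pos h hpos2
    · exact hposA y hy
  · intro h
    refine ⟨c, hposA, ?_, by rw [hins1]; exact hdc⟩
    intro y hy
    rcases mem_insert.1 hy with rfl | hy
    · rw [hkey]; exact mul_neg_of_neg_of_pos h hpos2
    · exact hnegB y hy

/-- The perturbation lemma. -/
theorem perturb (hD : Module.finrank ℝ H = D)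
    (hm1 : ∀ Z ⊆ S, Z.card = D → Z ≠ R → ∀ g : H, (∀ x ∈ Z, L x g = 0) → g = 0)
    (hm2 : ∀ g : H, (∀ x ∈ R, L x g = 0) → ∃ r : ℝ, g = r • h0)
    (hRS : R ⊆ S) (hRc : R.card = D) (hAB : A0 ∪ B0 = R) (hdAB : Disjoint A0 B0) (ha : a ∈ A0)
    (hBne : B0.Nonempty)
    (hcA : ∀ x ∈ A0, 0 < c0 x) (hcB : ∀ x ∈ B0, c0 x < 0) (hdep : Dep L R c0)
    (hR0 : ∀ x ∈ R, L x h0 = 0) (hE : E h0 = 1)
    (hK : K ∪ K' = S \ R) (hdK : Disjoint K K') (hKne : (K ∪ K').Nonempty)
    (hKp : ∀ x ∈ K, 0 < L x h0) (hKn : ∀ x ∈ K', L x h0 < 0) :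
    ∃ ε : ℝ, 0 < ε ∧ Mut (Lp L a E ε) (Lp L a E (-ε)) D S R A0 B0 K K' ∧
      (∀ Z ⊆ S, Z.card = D → ∀ g : H, (∀ x ∈ Z, Lp L a E ε x g = 0) → g = 0) ∧
      (∀ Z ⊆ S, Z.card = D → ∀ g : H, (∀ x ∈ Z, Lp L a E (-ε) x g = 0) → g = 0) := by
  classical
  have haR : a ∈ R := hAB ▸ mem_union_left _ ha
  -- thresholds
  obtain ⟨δ1, hδ1, H1⟩ := unif ((S.powersetCard D).filter (fun Z => Z ≠ R))
    (fun Z ε => ∀ g : H, (∀ x ∈ Z, Lp L a E ε x g = 0) → g = 0) (by
      intro Z hZ
      rw [mem_filter, mem_powersetCard] at hZ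
      exact strong_ne hD hZ.1.2 (hm1 Z hZ.1.1 hZ.1.2 hZ.2))
  obtain ⟨δ2, hδ2, H2⟩ := unif ((S.powersetCard (D + 1)).filter (fun U => ¬ R ⊆ U))
    (fun U ε => ∀ A B : Finset ι, A ∪ B = U → A.card + B.card = D + 1 → Circ L A B →
      Circ (Lp L a E ε) A B) (by
      intro U hU
      rw [mem_filter, mem_powersetCard] at hU
      obtain ⟨A, B, hABU, hc, hC, δ, hδ, hs⟩ := circ_rob (a := a) (E := E) hD haR hm1 hU.1.1
        hU.1.2 hU.2
      refine ⟨δ, hδ, fun ε hε A' B' hU' hc' hC' => ?_⟩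
      have hst : ∀ Z ⊆ U, Z.card = D → ∀ g : H, (∀ x ∈ Z, L x g = 0) → g = 0 := by
        intro Z hZ hZc
        apply hm1 Z (hZ.trans hU.1.1) hZc
        rintro rfl
        exact hU.2 hZ
      have hGU : GP L D U := GP_of_strong hD (by omega) hst
      rcases circ_unique hGU hABU.subset hc hC hC' (by rw [hU', hABU]) with h | h
      · rw [h.1, h.2]; exact hs ε hε
      · rw [h.1, h.2]; exact (hs ε hε).symm)
  obtain ⟨δ3, hδ3, H3⟩ := unif (S \ R)
    (fun x ε => (0 < -(ε * L x h0) → Circ (Lp L a E ε) (insert x A0) B0) ∧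
      (-(ε * L x h0) < 0 → Circ (Lp L a E ε) A0 (insert x B0))) (by
      intro x hx
      rw [mem_sdiff] at hx
      exact circ_R hD hm1 hRS hRc hAB hdAB ha hcA hcB hdep hR0 hE hx.1 hx.2)
  set ε := min δ1 (min δ2 δ3) / 2 with hεdef
  have hmin : 0 < min δ1 (min δ2 δ3) := lt_min hδ1 (lt_min hδ2 hδ3)
  have hε : 0 < ε := by rw [hεdef]; linarith
  have hεlt : ε < min δ1 (min δ2 δ3) := by rw [hεdef]; linarith
  have l1 : ε < δ1 := lt_of_lt_of_le hεlt (min_le_left _ _)
  have l2 : ε < δ2 := lt_of_lt_of_le hεlt ((min_le_right _ _).trans (min_le_left _ _))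
  have l3 : ε < δ3 := lt_of_lt_of_le hεlt ((min_le_right _ _).trans (min_le_right _ _))
  have strong : ∀ η : ℝ, η ≠ 0 → |η| = ε → ∀ Z ⊆ S, Z.card = D → ∀ g : H,
      (∀ x ∈ Z, Lp L a E η x g = 0) → g = 0 := by
    intro η hη hηε Z hZ hZc g hg
    by_cases hZR : Z = R
    · subst hZR
      have h1 : η * E g = 0 := by
        have h2 : ∑ x ∈ Z, c0 x * Lp L a E η x g = 0 :=
          sum_eq_zero (fun x hx => by rw [hg x hx, mul_zero])
        rw [← add_sum_erase Z _ haR, Lp_self] at h2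
        have h3 : ∑ x ∈ Z.erase a, c0 x * Lp L a E η x g = ∑ x ∈ Z.erase a, c0 x * L x g :=
          sum_congr rfl (fun x hx => by rw [Lp_ne (mem_erase.1 hx).1])
        have h4 := hdep g
        rw [← add_sum_erase Z _ haR] at h4
        rw [h3] at h2
        have h5 : c0 a * (η * E g) = 0 := by linarith
        exact (mul_eq_zero.1 h5).resolve_left (hcA a ha).ne'
      have h2 : ∀ x ∈ Z, L x g = 0 := by
        intro x hx
        by_cases hxa : x = a
        · subst hxa
          have := hg x hx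
          rw [Lp_self, h1, add_zero] at this
          exact this
        · rw [← Lp_ne (L := L) (E := E) (ε := η) hxa g]
          exact hg x hx
      obtain ⟨r, hr⟩ := hm2 g h2
      have h3 : E g = 0 := (mul_eq_zero.1 h1).resolve_left hη
      rw [hr, map_smul, hE, smul_eq_mul, mul_one] at h3
      rw [hr, h3, zero_smul]
    · exact H1 Z (mem_filter.2 ⟨mem_powersetCard.2 ⟨hZ, hZc⟩, hZR⟩) η (by rw [hηε]; exact l1) g hg
  have hSc : D ≤ S.card := by rw [← hRc]; exact card_le_card hRS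
  have sp := strong ε hε.ne' (abs_of_pos hε)
  have sn := strong (-ε) (neg_ne_zero.2 hε.ne') (by rw [abs_neg, abs_of_pos hε])
  have gp := GP_of_strong hD hSc sp
  have gn := GP_of_strong hD hSc sn
  -- robust circuits
  have hU2 : ∀ (η : ℝ), |η| = ε → GP (Lp L a E η) D S → ∀ A B : Finset ι, A ⊆ S → B ⊆ S →
      A.card + B.card = D + 1 → ¬ R ⊆ A ∪ B → (Circ (Lp L a E η) A B ↔ Circ L A B) := by
    intro η hη hGη A B hA hB hc hRU
    constructor
    · intro hC
      have hUc : (A ∪ B).card = D + 1 := by rw [card_union_of_disjoint hC.disj, hc]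
      obtain ⟨A', B', hABU, hc', hC', -⟩ := circ_rob (a := a) (E := E) hD haR hm1
        (union_subset hA hB) hUc hRU
      have hC2 := H2 (A ∪ B) (mem_filter.2 ⟨mem_powersetCard.2 ⟨union_subset hA hB, hUc⟩, hRU⟩)
        η (by rw [hη]; exact l2) A' B' hABU hc' hC'
      rcases circ_unique hGη (by rw [hABU]; exact union_subset hA hB) hc' hC2 hC
        hABU.symm with h | h
      · rw [h.1, h.2]; exact hC'
      · rw [h.1, h.2]; exact hC'.symm
    · intro hC
      have hUc : (A ∪ B).card = D + 1 := by rw [card_union_of_disjoint hC.disj, hc]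
      exact H2 (A ∪ B) (mem_filter.2 ⟨mem_powersetCard.2 ⟨union_subset hA hB, hUc⟩, hRU⟩)
        η (by rw [hη]; exact l2) A B rfl hc hC
  refine ⟨ε, hε, ?_, sp, sn⟩
  have rp := hU2 ε (abs_of_pos hε) gp
  have rn := hU2 (-ε) (by rw [abs_neg, abs_of_pos hε]) gn
  have hKsub : ∀ x, x ∈ K → x ∈ S \ R := fun x hx => hK ▸ mem_union_left _ hx
  have hKsub' : ∀ x, x ∈ K' → x ∈ S \ R := fun x hx => hK ▸ mem_union_right _ hx
  refine
    { gpL := gp
      gpM := gn
      relL := Rel_of_finrank hD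
      relM := Rel_of_finrank hD
      hAB := hAB
      hdAB := hdAB
      hRc := hRc
      hRS := hRS
      hA := ⟨a, ha⟩
      hB := hBne
      hK := hK
      hdK := hdK
      hKne := hKne
      rob := fun A B hA hB hc hRU => (rp A B hA hB hc hRU).trans (rn A B hA hB hc hRU).symm
      nonconf := ?_
      cK := ?_
      cK' := ?_ }
  · intro A B hA hB hc hRU hC
    have hC0 := (rp A B hA hB hc hRU).1 hC
    have hdj := hC0.disj
    obtain ⟨c, hcA', hcB', hd⟩ := hC0
    have hdh := hd h0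
    have hUc : (A ∪ B).card = D + 1 := by rw [card_union_of_disjoint hdj, hc]
    obtain ⟨y, hyU, hyR⟩ : ∃ y ∈ A ∪ B, y ∉ R := by
      by_contra hcon
      push Not at hcon
      have := card_le_card (show A ∪ B ⊆ R from hcon)
      omega
    constructor
    · rintro ⟨hAs, hBs⟩
      have hnn : ∀ z ∈ A ∪ B, 0 ≤ c z * L z h0 := by
        intro z hz
        rcases mem_union.1 hz with h | h
        · rcases mem_union.1 (hAs h) with h1 | h1
          · rw [hR0 z (hAB ▸ mem_union_left _ h1), mul_zero]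
          · exact (mul_pos (hcA' z h) (hKp z h1)).le
        · rcases mem_union.1 (hBs h) with h1 | h1
          · rw [hR0 z (hAB ▸ mem_union_right _ h1), mul_zero]
          · exact (mul_pos_of_neg_of_neg (hcB' z h) (hKn z h1)).le
      have hz := (sum_eq_zero_iff_of_nonneg hnn).1 hdh y hyU
      rcases mem_union.1 hyU with h | h
      · rcases mem_union.1 (hAs h) with h1 | h1
        · exact hyR (hAB ▸ mem_union_left _ h1)
        · exact (mul_pos (hcA' y h) (hKp y h1)).ne' hz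
      · rcases mem_union.1 (hBs h) with h1 | h1
        · exact hyR (hAB ▸ mem_union_right _ h1)
        · exact (mul_pos_of_neg_of_neg (hcB' y h) (hKn y h1)).ne' hz
    · rintro ⟨hAs, hBs⟩
      have hnn : ∀ z ∈ A ∪ B, 0 ≤ -(c z * L z h0) := by
        intro z hz
        rcases mem_union.1 hz with h | h
        · rcases mem_union.1 (hAs h) with h1 | h1
          · rw [hR0 z (hAB ▸ mem_union_left _ h1), mul_zero, neg_zero]
          · have := mul_neg_of_pos_of_neg (hcA' z h) (hKn z h1)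
            linarith
        · rcases mem_union.1 (hBs h) with h1 | h1
          · rw [hR0 z (hAB ▸ mem_union_right _ h1), mul_zero, neg_zero]
          · have := mul_neg_of_neg_of_pos (hcB' z h) (hKp z h1)
            linarith
      have hsum0 : ∑ z ∈ A ∪ B, -(c z * L z h0) = 0 := by
        rw [sum_neg_distrib, hdh, neg_zero]
      have hz := (sum_eq_zero_iff_of_nonneg hnn).1 hsum0 y hyU
      rcases mem_union.1 hyU with h | h
      · rcases mem_union.1 (hAs h) with h1 | h1
        · exact hyR (hAB ▸ mem_union_left _ h1)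
        · have := mul_neg_of_pos_of_neg (hcA' y h) (hKn y h1)
          linarith
      · rcases mem_union.1 (hBs h) with h1 | h1
        · exact hyR (hAB ▸ mem_union_right _ h1)
        · have := mul_neg_of_neg_of_pos (hcB' y h) (hKp y h1)
          linarith
  · intro x hx
    have hxS := hKsub x hx
    have hLx := hKp x hx
    have hpos : 0 < ε * L x h0 := mul_pos hε hLx
    refine ⟨(H3 x hxS ε (by rw [abs_of_pos hε]; exact l3)).2 (by linarith),
      (H3 x hxS (-ε) (by rw [abs_neg, abs_of_pos hε]; exact l3)).1 (by linarith)⟩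
  · intro x hx
    have hxS := hKsub' x hx
    have hLx := hKn x hx
    have hneg : ε * L x h0 < 0 := mul_neg_of_pos_of_neg hε hLx
    refine ⟨(H3 x hxS ε (by rw [abs_of_pos hε]; exact l3)).1 (by linarith),
      (H3 x hxS (-ε) (by rw [abs_neg, abs_of_pos hε]; exact l3)).2 (by linarith)⟩

end Perturb

end Pool.Agent.Helper992.Radon
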