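import Mathlib
import Pool.Agent.Helper992.Radon10
set_option autoImplicit false
open Finset

namespace Pool.Agent.Helper992.Radon

/-- A point avoiding finitely many hyperplanes with prescribed sign of the last coordinate. -/
theorem avoid {n : ℕ} (F : Finset (ℝ × Pt (n + 1))) (hF : ∀ u ∈ F, u ≠ 0) (σ : ℝ) (hσ : σ ≠ 0) :
    ∃ q : Pt (n + 1), 0 < σ * q (Fin.last n) ∧ ∀ u ∈ F, ev q u ≠ 0 := by
  classical
  let w : Fin (n + 1) → ℝ := fun t => if t = Fin.last n then σ else 1
  have hw : ∀ t, w t ≠ 0 := by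
    intro t
    simp only [w]
    split_ifs
    · exact hσ
    · exact one_ne_zero
  let P : (ℝ × Pt (n + 1)) → Polynomial ℝ := fun u =>
    Polynomial.C u.1 + ∑ t : Fin (n + 1), Polynomial.C (u.2 t * w t) * Polynomial.X ^ ((t : ℕ) + 1)
  have hP : ∀ u ∈ F, P u ≠ 0 := by
    intro u hu h0
    apply hF u hu
    have hc0 : (P u).coeff 0 = u.1 := by
      simp [P, Polynomial.coeff_X_pow]
    have hct : ∀ t : Fin (n + 1), (P u).coeff ((t : ℕ) + 1) = u.2 t * w t := by
      intro t
      simp only [P, Polynomial.coeff_add, Polynomial.finsetSum_coeff, Polynomial.coeff_C_mul,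
        Polynomial.coeff_X_pow]
      rw [Polynomial.coeff_C_of_ne_zero (by omega), zero_add, Finset.sum_eq_single t]
      · simp
      · intro b _ hb
        rw [if_neg, mul_zero]
        intro h
        exact hb (Fin.ext (by omega))
      · intro h
        exact absurd (mem_univ t) h
    refine Prod.ext ?_ ?_
    · rw [← hc0, h0]; rfl
    · funext t
      have := hct t
      rw [h0, Polynomial.coeff_zero] at this
      exact (mul_eq_zero.1 this.symm).resolve_right (hw t)
  have hprod : ∏ u ∈ F, P u ≠ 0 := prod_ne_zero_iff.2 hP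
  obtain ⟨τ, hτ, hτr⟩ : ∃ τ ∈ Set.Ioi (0 : ℝ), τ ∉ (↑(∏ u ∈ F, P u).roots.toFinset : Set ℝ) := by
    by_contra hcon
    push Not at hcon
    exact (Set.Ioi_infinite (0 : ℝ)) ((Finset.finite_toSet _).subset hcon)
  have hτ0 : 0 < τ := hτ
  have heval : ∀ u ∈ F, (P u).eval τ ≠ 0 := by
    intro u hu h0
    apply hτr
    rw [mem_coe, Multiset.mem_toFinset, Polynomial.mem_roots hprod, Polynomial.IsRoot.def,
      Polynomial.eval_prod]
    exact prod_eq_zero hu h0
  refine ⟨fun t => w t * τ ^ ((t : ℕ) + 1), ?_, ?_⟩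
  · simp only [w, if_true]
    have : 0 < σ * σ := mul_self_pos.2 hσ
    rw [← mul_assoc]
    positivity
  · intro u hu h0
    apply heval u hu
    rw [← h0, ev_apply]
    simp only [P, Polynomial.eval_add, Polynomial.eval_C, Polynomial.eval_finsetSum,
      Polynomial.eval_mul, Polynomial.eval_pow, Polynomial.eval_X, dotProduct]
    congr 1
    apply sum_congr rfl
    intro t _
    ring

section Build

variable {n : ℕ}

/-- In a family spanning nicely except on `R`, the functions vanishing on `d` members form a line. -/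
theorem line_of {H : Type*} [AddCommGroup H] [Module ℝ H] {L : ℕ → H →ₗ[ℝ] ℝ} {D : ℕ}
    {T R : Finset ℕ} {c0 : ℕ → ℝ} {h0 : H} (hRc : R.card = D) (hRT : R ⊆ T)
    (hc0 : ∀ x ∈ R, c0 x ≠ 0) (hdep : Dep L R c0) (hh0 : h0 ≠ 0)
    (hm1 : ∀ Z ⊆ T, Z.card = D → Z ≠ R → ∀ g : H, (∀ x ∈ Z, L x g = 0) → g = 0)
    (hm2 : ∀ g : H, (∀ x ∈ R, L x g = 0) → ∃ r : ℝ, g = r • h0)
    (F : Finset ℕ) (hF : F ⊆ T) (hFc : F.card + 1 = D) :
    ∃ u : H, u ≠ 0 ∧ ∀ g : H, (∀ x ∈ F, L x g = 0) → ∃ r : ℝ, g = r • u := by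
  classical
  by_cases hFR : F ⊆ R
  · refine ⟨h0, hh0, fun g hg => hm2 g ?_⟩
    obtain ⟨x, hx⟩ : ∃ x, R \ F = {x} := by
      rw [← card_eq_one, card_sdiff_of_subset hFR]; omega
    have hxR : x ∈ R ∧ x ∉ F := by
      rw [← mem_sdiff, hx]; exact mem_singleton_self x
    have h1 := hdep g
    rw [← sum_sdiff hFR, hx, sum_singleton,
      sum_eq_zero (s := F) (fun y hy => by rw [hg y hy, mul_zero]), add_zero] at h1
    have hLx := (mul_eq_zero.1 h1).resolve_left (hc0 x hxR.1)
    intro y hy
    by_cases hyF : y ∈ F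
    · exact hg y hyF
    · have : y ∈ R \ F := mem_sdiff.2 ⟨hy, hyF⟩
      rw [hx, mem_singleton] at this
      rw [this]; exact hLx
  · by_cases hall : ∀ g : H, (∀ x ∈ F, L x g = 0) → g = 0
    · exact ⟨h0, hh0, fun g hg => ⟨0, by rw [hall g hg, zero_smul]⟩⟩
    · push Not at hall
      obtain ⟨g0, hg0, hg0ne⟩ := hall
      obtain ⟨x, hxT, hxF⟩ : ∃ x ∈ T, x ∉ F := by
        by_contra hcon
        push Not at hcon
        have h1 := card_le_card (show T ⊆ F from hcon)
        have h2 := card_le_card hRT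
        omega
      have hZ : ∀ g : H, (∀ y ∈ F, L y g = 0) → L x g = 0 → g = 0 := by
        intro g hg hgx
        apply hm1 (insert x F) (insert_subset hxT hF)
          (by rw [card_insert_of_notMem hxF]; omega)
        · intro h
          apply hFR
          rw [← h]; exact subset_insert _ _
        · intro y hy
          rcases mem_insert.1 hy with rfl | hy
          · exact hgx
          · exact hg y hy
      have hx0 : L x g0 ≠ 0 := fun h => hg0ne (hZ g0 hg0 h)
      refine ⟨g0, hg0ne, fun g hg => ⟨L x g / L x g0, ?_⟩⟩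
      have := hZ (g - (L x g / L x g0) • g0) (by
        intro y hy
        rw [map_sub, map_smul, hg y hy, hg0 y hy, smul_zero, sub_zero]) (by
        rw [map_sub, map_smul, smul_eq_mul, div_mul_cancel₀ _ hx0, sub_self])
      exact sub_eq_zero.1 this

/-- Adding points one by one. -/
theorem build (n : ℕ) (p0 : ℕ → Pt (n + 1)) (c0 : ℕ → ℝ) (σ : ℕ → ℝ) (hσ : ∀ j, σ j ≠ 0)
    (hc0 : ∀ x ∈ range (n + 2), c0 x ≠ 0)
    (hdep : Dep (fun x => ev (p0 x)) (range (n + 2)) c0)
    (hm2 : ∀ g : ℝ × Pt (n + 1), (∀ x ∈ range (n + 2), ev (p0 x) g = 0) →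
      ∃ r : ℝ, g = r • ((0, Pi.single (Fin.last n) 1) : ℝ × Pt (n + 1))) (m : ℕ) :
    ∃ p : ℕ → Pt (n + 1), (∀ j < n + 2, p j = p0 j) ∧
      (∀ j, n + 2 ≤ j → j < n + 2 + m → 0 < σ j * p j (Fin.last n)) ∧
      (∀ Z ⊆ range (n + 2 + m), Z.card = n + 2 → Z ≠ range (n + 2) →
        ∀ g : ℝ × Pt (n + 1), (∀ x ∈ Z, ev (p x) g = 0) → g = 0) := by
  classical
  induction m with
  | zero =>
    refine ⟨p0, fun _ _ => rfl, fun j h1 h2 => by omega, ?_⟩
    intro Z hZ hZc hne
    exfalso
    apply hne
    exact eq_of_subset_of_card_le (by simpa using hZ) (by rw [card_range, hZc])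
  | succ m ih =>
    obtain ⟨p, hp0, hpσ, hpZ⟩ := ih
    set h0 : ℝ × Pt (n + 1) := (0, Pi.single (Fin.last n) 1) with hh0
    have h0ne : h0 ≠ 0 := by
      intro h
      have := congrFun (congrArg Prod.snd h) (Fin.last n)
      simp [hh0] at this
    have hdep' : Dep (fun x => ev (p x)) (range (n + 2)) c0 := by
      intro g
      rw [← hdep g]
      apply sum_congr rfl
      intro x hx
      show c0 x * ev (p x) g = c0 x * ev (p0 x) g
      rw [hp0 x (mem_range.1 hx)]
    have hm2' : ∀ g : ℝ × Pt (n + 1), (∀ x ∈ range (n + 2), (fun x => ev (p x)) x g = 0) →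
        ∃ r : ℝ, g = r • h0 := by
      intro g hg
      apply hm2 g
      intro x hx
      rw [← hp0 x (mem_range.1 hx)]
      exact hg x hx
    have hline := fun F hF hFc => line_of (L := fun x => ev (p x)) (D := n + 2)
      (T := range (n + 2 + m)) (R := range (n + 2)) (c0 := c0) (h0 := h0) (card_range _)
      (range_subset_range.2 (by omega)) hc0 hdep' h0ne hpZ hm2' F hF hFc
    choose! u hu hu' using hline
    set Fs := (range (n + 2 + m)).powersetCard (n + 1) with hFs
    obtain ⟨q, hq1, hq2⟩ := avoid (Fs.image u) (by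
      intro v hv
      obtain ⟨F, hF, rfl⟩ := mem_image.1 hv
      rw [hFs, mem_powersetCard] at hF
      exact hu F hF.1 (by omega)) (σ (n + 2 + m)) (hσ _)
    refine ⟨Function.update p (n + 2 + m) q, ?_, ?_, ?_⟩
    · intro j hj
      rw [Function.update_of_ne (by omega)]
      exact hp0 j hj
    · intro j h1 h2
      by_cases hj : j = n + 2 + m
      · subst hj
        rw [Function.update_self]; exact hq1
      · rw [Function.update_of_ne hj]
        exact hpσ j h1 (by omega)
    · intro Z hZ hZc hne g hg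
      by_cases hmem : n + 2 + m ∈ Z
      · set F := Z.erase (n + 2 + m) with hF
        have hFsub : F ⊆ range (n + 2 + m) := by
          intro x hx
          have h1 := mem_range.1 (hZ (mem_of_mem_erase hx))
          have h2 := (mem_erase.1 hx).1
          rw [mem_range]; omega
        have hFc : F.card + 1 = n + 2 := by
          rw [hF, card_erase_of_mem hmem, hZc]; omega
        have hgF : ∀ x ∈ F, ev (p x) g = 0 := by
          intro x hx
          have := hg x (mem_of_mem_erase hx)
          rwa [Function.update_of_ne (mem_erase.1 hx).1] at this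
        obtain ⟨r, hr⟩ := hu' F hFsub hFc g hgF
        have h1 := hg _ hmem
        rw [Function.update_self, hr, map_smul, smul_eq_mul] at h1
        have h2 : ev q (u F) ≠ 0 := hq2 (u F) (mem_image_of_mem _ (by
          rw [hFs, mem_powersetCard]; exact ⟨hFsub, by omega⟩))
        rw [hr, (mul_eq_zero.1 h1).resolve_right h2, zero_smul]
      · apply hpZ Z _ hZc hne g
        · intro x hx
          have := hg x hx
          rwa [Function.update_of_ne (by rintro rfl; exact hmem hx)] at this
        · intro x hx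
          have h1 := mem_range.1 (hZ hx)
          have h2 : x ≠ n + 2 + m := by rintro rfl; exact hmem hx
          rw [mem_range]; omega

end Build

end Pool.Agent.Helper992.Radon
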