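import Mathlib
import Pool.Agent.Helper992.Radon11
set_option autoImplicit false
open Finset

namespace Pool.Agent.Helper992.Radon

section Relabel

variable {ι κ H : Type*} [DecidableEq ι] [DecidableEq κ] [AddCommGroup H] [Module ℝ H]
variable {M : κ → H →ₗ[ℝ] ℝ} {f : ι → κ} {S : Finset ι} {D : ℕ}

theorem circ_image (hf : Set.InjOn f (S : Set ι)) {A B : Finset ι} (hA : A ⊆ S) (hB : B ⊆ S) :
    Circ M (A.image f) (B.image f) ↔ Circ (fun x => M (f x)) A B := by
  classical
  have hU : Set.InjOn f ((A ∪ B : Finset ι) : Set ι) := by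
    apply hf.mono
    exact_mod_cast union_subset hA hB
  constructor
  · rintro ⟨c, h1, h2, h3⟩
    refine ⟨fun x => c (f x), fun x hx => h1 _ (mem_image_of_mem f hx),
      fun x hx => h2 _ (mem_image_of_mem f hx), ?_⟩
    intro g
    have := h3 g
    rw [← image_union, sum_image hU] at this
    exact this
  · rintro ⟨c, h1, h2, h3⟩
    have key : ∃ c' : κ → ℝ, ∀ x ∈ S, c' (f x) = c x := by
      by_cases hS : S.Nonempty
      · obtain ⟨s0, hs0⟩ := hS
        have : Nonempty ι := ⟨s0⟩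
        refine ⟨fun y => c (Function.invFunOn f (S : Set ι) y), fun x hx => ?_⟩
        have := hf.leftInvOn_invFunOn (show x ∈ (S : Set ι) from hx)
        show c (Function.invFunOn f (S : Set ι) (f x)) = c x
        rw [this]
      · refine ⟨fun _ => 0, fun x hx => absurd ⟨x, hx⟩ hS⟩
    obtain ⟨c', hc'⟩ := key
    refine ⟨c', ?_, ?_, ?_⟩
    · intro y hy
      obtain ⟨x, hx, rfl⟩ := mem_image.1 hy
      rw [hc' x (hA hx)]; exact h1 x hx
    · intro y hy
      obtain ⟨x, hx, rfl⟩ := mem_image.1 hy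
      rw [hc' x (hB hx)]; exact h2 x hx
    · intro g
      rw [← image_union, sum_image hU, ← h3 g]
      apply sum_congr rfl
      intro x hx
      rw [hc' x (union_subset hA hB hx)]

theorem image_inj (hf : Set.InjOn f (S : Set ι)) {A B : Finset ι} (hA : A ⊆ S) (hB : B ⊆ S)
    (h : A.image f = B.image f) : A = B := by
  have hsub : ∀ {A B : Finset ι}, A ⊆ S → B ⊆ S → A.image f = B.image f → A ⊆ B := by
    intro A B hA hB h x hx
    have : f x ∈ B.image f := h ▸ mem_image_of_mem f hx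
    obtain ⟨y, hy, hyx⟩ := mem_image.1 this
    rw [← hf (hB hy) (hA hx) hyx]; exact hy
  exact Subset.antisymm (hsub hA hB h) (hsub hB hA h.symm)

theorem card_im (hf : Set.InjOn f (S : Set ι)) {A : Finset ι} (hA : A ⊆ S) :
    (A.image f).card = A.card :=
  card_image_of_injOn (hf.mono (by exact_mod_cast hA))

theorem Cs_image (hf : Set.InjOn f (S : Set ι)) {A B : Finset ι} (hA : A ⊆ S) (hB : B ⊆ S) :
    (A.image f, B.image f) ∈ Cs M D (S.image f) ↔ (A, B) ∈ Cs (fun x => M (f x)) D S := by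
  rw [mem_Cs, mem_Cs]
  simp only
  rw [card_im hf hA, card_im hf hB, circ_image hf hA hB]
  constructor
  · rintro ⟨_, _, h3, h4⟩
    exact ⟨hA, hB, h3, h4⟩
  · rintro ⟨_, _, h3, h4⟩
    exact ⟨image_subset_image hA, image_subset_image hB, h3, h4⟩

theorem exists_pre {B : Finset κ} (hB : B ⊆ S.image f) : ∃ A ⊆ S, A.image f = B := by
  refine ⟨S.filter (fun x => f x ∈ B), filter_subset _ _, ?_⟩
  ext y
  rw [mem_image]
  constructor
  · rintro ⟨x, hx, rfl⟩
    exact (mem_filter.1 hx).2
  · intro hy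
    obtain ⟨x, hx, rfl⟩ := mem_image.1 (hB hy)
    exact ⟨x, mem_filter.2 ⟨hx, hy⟩, rfl⟩

theorem cirC_image (hf : Set.InjOn f (S : Set ι)) (i : ℕ) :
    cirC M D (S.image f) i = cirC (fun x => M (f x)) D S i := by
  classical
  unfold cirC
  symm
  apply card_bij (fun q _ => (q.1.image f, q.2.image f))
  · intro q hq
    rw [mem_filter] at hq ⊢
    have h := (mem_Cs q).1 hq.1
    refine ⟨(Cs_image hf h.1 h.2.1).2 hq.1, ?_⟩
    show (q.1.image f).card = i
    rw [card_im hf h.1]; exact hq.2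
  · intro q hq q' hq' heq
    have h := (mem_Cs q).1 (mem_filter.1 hq).1
    have h' := (mem_Cs q').1 (mem_filter.1 hq').1
    exact Prod.ext (image_inj hf h.1 h'.1 (congrArg Prod.fst heq))
      (image_inj hf h.2.1 h'.2.1 (congrArg Prod.snd heq))
  · intro q hq
    rw [mem_filter] at hq
    have h := (mem_Cs q).1 hq.1
    obtain ⟨A, hA, hA'⟩ := exists_pre h.1
    obtain ⟨B, hB, hB'⟩ := exists_pre h.2.1
    have hq' : q = (A.image f, B.image f) := Prod.ext hA'.symm hB'.symm
    refine ⟨(A, B), ?_, hq'.symm⟩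
    rw [mem_filter]
    refine ⟨(Cs_image (M := M) (D := D) hf hA hB).1 (hq' ▸ hq.1), ?_⟩
    show A.card = i
    rw [← card_im hf hA, hA']; exact hq.2

theorem conf_image (hf : Set.InjOn f (S : Set ι)) {T : Finset ι} (hT : T ⊆ S) :
    (conf M D (S.image f) (T.image f)).Nonempty ↔
      (conf (fun x => M (f x)) D S T).Nonempty := by
  classical
  have hsd : S.image f \ T.image f = (S \ T).image f := by
    ext y
    rw [mem_sdiff]
    constructor
    · rintro ⟨hy1, hy⟩
      obtain ⟨x, hx, rfl⟩ := mem_image.1 hy1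
      exact mem_image.2 ⟨x, mem_sdiff.2 ⟨hx, fun h => hy (mem_image_of_mem f h)⟩, rfl⟩
    · intro hy1
      obtain ⟨x, hx, rfl⟩ := mem_image.1 hy1
      rw [mem_sdiff] at hx
      refine ⟨mem_image_of_mem f hx.1, fun h => ?_⟩
      obtain ⟨z, hz, hzx⟩ := mem_image.1 h
      exact hx.2 (hf (hT hz) hx.1 hzx ▸ hz)
  constructor
  · rintro ⟨q, hq⟩
    rw [mem_conf, hsd] at hq
    have h := (mem_Cs q).1 hq.1
    obtain ⟨A, hA, hA'⟩ := exists_pre hq.2.1
    obtain ⟨B, hB, hB'⟩ := exists_pre hq.2.2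
    have hq' : q = (A.image f, B.image f) := Prod.ext hA'.symm hB'.symm
    refine ⟨(A, B), ?_⟩
    rw [mem_conf]
    exact ⟨(Cs_image (M := M) (D := D) hf (hA.trans hT) (hB.trans sdiff_subset)).1 (hq' ▸ hq.1),
      hA, hB⟩
  · rintro ⟨q, hq⟩
    rw [mem_conf] at hq
    have h := (mem_Cs q).1 hq.1
    refine ⟨(q.1.image f, q.2.image f), ?_⟩
    rw [mem_conf, hsd]
    exact ⟨(Cs_image hf h.1 h.2.1).2 hq.1, image_subset_image hq.2.1, image_subset_image hq.2.2⟩

theorem radC_image (hf : Set.InjOn f (S : Set ι)) (j : ℕ) :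
    radC M D (S.image f) j = radC (fun x => M (f x)) D S j := by
  classical
  unfold radC
  symm
  apply card_bij (fun T _ => T.image f)
  · intro T hT
    rw [mem_filter, mem_powersetCard] at hT ⊢
    exact ⟨⟨image_subset_image hT.1.1, by rw [card_im hf hT.1.1]; exact hT.1.2⟩,
      (conf_image hf hT.1.1).2 hT.2⟩
  · intro T hT T' hT' h
    rw [mem_filter, mem_powersetCard] at hT hT'
    exact image_inj hf hT.1.1 hT'.1.1 h
  · intro T hT
    rw [mem_filter, mem_powersetCard] at hT
    obtain ⟨A, hA, hA'⟩ := exists_pre hT.1.1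
    refine ⟨A, ?_, hA'⟩
    rw [mem_filter, mem_powersetCard]
    refine ⟨⟨hA, by rw [← card_im hf hA, hA']; exact hT.1.2⟩, ?_⟩
    rw [← conf_image (M := M) hf hA, hA']; exact hT.2

end Relabel

/-- From a labelled family in strong general position to a point set. -/
theorem realize {d s : ℕ} (hd : 1 ≤ d) (hs : d + 1 ≤ s) (p : ℕ → Pt d)
    (hst : ∀ Z ⊆ range s, Z.card = d + 1 → ∀ g : ℝ × Pt d, (∀ x ∈ Z, ev (p x) g = 0) → g = 0) :
    ∃ S : Finset (Pt d), S.card = s ∧ GenPos d S ∧
      (∀ j, radC (ev (d := d)) (d + 1) S j = radC (fun x => ev (p x)) (d + 1) (range s) j) ∧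
      (∀ i, cirC (ev (d := d)) (d + 1) S i = cirC (fun x => ev (p x)) (d + 1) (range s) i) := by
  classical
  have hGP : GP (fun x => ev (p x)) (d + 1) (range s) :=
    GP_of_strong (finrank_H d) (by rw [card_range]; exact hs) hst
  have hinj : Set.InjOn p (range s : Set ℕ) := by
    intro x hx y hy hxy
    by_contra hne
    obtain ⟨g, h1, h2⟩ := hGP.indep {y} (singleton_subset_iff.2 hy) x hx
      (by rw [mem_singleton]; exact hne) (by rw [card_singleton]; omega)
    apply h2
    show ev (p x) g = 0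
    rw [hxy]
    exact h1 y (mem_singleton_self y)
  refine ⟨(range s).image p, ?_, ?_, ?_, ?_⟩
  · rw [card_image_of_injOn hinj, card_range]
  · apply GenPos_of_strong
    intro Z hZ hZc g hg
    obtain ⟨A, hA, hA'⟩ := exists_pre hZ
    apply hst A hA (by rw [← card_im hinj hA, hA', hZc])
    intro x hx
    exact hg (p x) (hA' ▸ mem_image_of_mem p hx)
  · intro j
    exact radC_image hinj j
  · intro i
    exact cirC_image hinj i

end Pool.Agent.Helper992.Radon
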