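import Mathlib
import Pool.Agent.Helper992.Radon12
set_option autoImplicit false
open Finset

namespace Pool.Agent.Helper992.Radon

theorem sum_sg (a N : ℕ) :
    ∑ x ∈ range N, (if x < a then (1 : ℝ) else -1) = 2 * (min a N : ℕ) - N := by
  induction N with
  | zero => simp
  | succ N ih =>
    rw [sum_range_succ, ih]
    by_cases h : N < a
    · rw [if_pos h, min_eq_right (by omega), min_eq_right (by omega)]
      push_cast; ring
    · rw [if_neg h, min_eq_left (by omega), min_eq_left (by omega)]
      push_cast; ring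

/-- Coefficients of the degenerate simplex. -/
noncomputable def cf (n i : ℕ) (x : ℕ) : ℝ :=
  if x = 0 then (n : ℝ) + 3 - 2 * i else if x < i then 1 else -1

/-- Vertices of the degenerate simplex. -/
noncomputable def vt (n i : ℕ) (x : ℕ) : Pt (n + 1) := fun t =>
  if t = Fin.last n then 0 else if x = n + 1 then cf n i (t + 1) else if x = t + 1 then 1 else 0

theorem cf_succ (n i x : ℕ) : cf n i (x + 1) = if x < i - 1 then 1 else -1 := by
  unfold cf
  rw [if_neg (by omega)]
  by_cases h : x + 1 < i
  · rw [if_pos h, if_pos (by omega)]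
  · rw [if_neg h, if_neg (by omega)]

theorem sum_cf (n i : ℕ) (hi1 : 1 ≤ i) (hi : i ≤ n + 1) : ∑ x ∈ range (n + 2), cf n i x = 0 := by
  rw [sum_range_succ']
  simp only [cf_succ]
  rw [sum_sg, min_eq_left (by omega)]
  unfold cf
  rw [if_pos rfl]
  obtain ⟨j, rfl⟩ : ∃ j, i = j + 1 := ⟨i - 1, by omega⟩
  push_cast
  ring

theorem sum_cf_vt (n i : ℕ) (hi1 : 1 ≤ i) (hi : i ≤ n + 1) (t : Fin (n + 1)) :
    ∑ x ∈ range (n + 2), cf n i x * vt n i x t = 0 := by
  by_cases ht : t = Fin.last n
  · apply sum_eq_zero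
    intro x _
    rw [vt, if_pos ht, mul_zero]
  · have htn : (t : ℕ) < n := Fin.val_lt_last ht
    rw [sum_range_succ]
    have h1 : ∀ x ∈ range (n + 1), cf n i x * vt n i x t
        = if x = (t : ℕ) + 1 then cf n i x else 0 := by
      intro x hx
      rw [mem_range] at hx
      rw [vt, if_neg ht, if_neg (by omega)]
      split_ifs <;> ring
    rw [sum_congr rfl h1, sum_ite_eq', if_pos (mem_range.2 (by omega)), vt, if_neg ht, if_pos rfl]
    have h2 : cf n i (n + 1) = -1 := by rw [cf_succ, if_neg (by omega)]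
    rw [h2]
    ring

theorem dep_vt (n i : ℕ) (hi1 : 1 ≤ i) (hi : i ≤ n + 1) :
    Dep (fun x => ev (vt n i x)) (range (n + 2)) (cf n i) := by
  intro g
  have e : ∑ x ∈ range (n + 2), cf n i x * ev (vt n i x) g
      = g.1 * ∑ x ∈ range (n + 2), cf n i x
        + ∑ t, g.2 t * ∑ x ∈ range (n + 2), cf n i x * vt n i x t := by
    simp only [ev_apply, dotProduct, mul_sum, mul_add]
    rw [sum_comm (s := univ) (t := range (n + 2)), ← sum_add_distrib]
    apply sum_congr rfl
    intro x _
    congr 1
    · ring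
    · apply sum_congr rfl
      intro t _
      ring
  show ∑ x ∈ range (n + 2), cf n i x * ev (vt n i x) g = 0
  rw [e, sum_cf n i hi1 hi]
  simp only [sum_cf_vt n i hi1 hi]
  simp

theorem hm2_vt (n i : ℕ) (g : ℝ × Pt (n + 1)) (hg : ∀ x ∈ range (n + 2), ev (vt n i x) g = 0) :
    ∃ r : ℝ, g = r • ((0, Pi.single (Fin.last n) 1) : ℝ × Pt (n + 1)) := by
  have h0 : g.1 = 0 := by
    have := hg 0 (mem_range.2 (by omega))
    rw [ev_apply] at this
    have hz : vt n i 0 = 0 := by
      funext t
      simp [vt]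
    rw [hz, dotProduct_zero, add_zero] at this
    exact this
  have ht : ∀ t : Fin (n + 1), t ≠ Fin.last n → g.2 t = 0 := by
    intro t ht
    have htn : (t : ℕ) < n := Fin.val_lt_last ht
    have := hg (t + 1) (mem_range.2 (by omega))
    rw [ev_apply, h0, zero_add] at this
    have hz : vt n i (t + 1) = Pi.single t 1 := by
      funext u
      rw [vt, Pi.single_apply]
      by_cases hu : u = Fin.last n
      · rw [if_pos hu, if_neg]
        rintro rfl
        exact ht hu
      · rw [if_neg hu, if_neg (by omega)]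
        by_cases hut : u = t
        · subst hut; simp
        · rw [if_neg hut, if_neg]
          intro h
          exact hut (Fin.ext (by omega))
    rw [hz, dotProduct_single, mul_one] at this
    exact this
  refine ⟨g.2 (Fin.last n), ?_⟩
  refine Prod.ext ?_ ?_
  · rw [h0]; simp
  · funext t
    by_cases h : t = Fin.last n
    · subst h; simp
    · rw [ht t h]
      simp [h]

theorem exists_mut {n m i k : ℕ} (hi1 : 1 ≤ i) (hi : 2 * i ≤ n + 1) (hm : 1 ≤ m)
    (hk : k ≤ m) : ∃ S T : Finset (Pt (n + 1)), S.card = n + 2 + m ∧ T.card = n + 2 + m ∧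
      GenPos (n + 1) S ∧ GenPos (n + 1) T ∧
      (∀ j, (radC (ev (d := n + 1)) (n + 2) S j : ℤ) - radC (ev (d := n + 1)) (n + 2) T j
        = (if i + (m - k) = j then 1 else 0) + (if n + 2 - i + k = j then 1 else 0)
        - (if i + k = j then 1 else 0) - (if n + 2 - i + (m - k) = j then 1 else 0)) ∧
      (∀ j, (cirC (ev (d := n + 1)) (n + 2) S j : ℤ) - cirC (ev (d := n + 1)) (n + 2) T j
        = (2 * (k : ℤ) - m) * ((if i = j then 1 else 0)
        + (if n + 2 - i + 1 = j then 1 else 0) - (if i + 1 = j then 1 else 0)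
        - (if n + 2 - i = j then 1 else 0))) := by
  classical
  have hcf0 : ∀ x ∈ range (n + 2), cf n i x ≠ 0 := by
    intro x _
    unfold cf
    split_ifs
    · have : (2 : ℝ) * i ≤ n + 1 := by exact_mod_cast hi
      linarith
    · norm_num
    · norm_num
  obtain ⟨p, hp0, hpσ, hpZ⟩ := build n (vt n i) (cf n i) (fun j => if j < n + 2 + k then 1 else -1)
    (by intro j; show (if j < n + 2 + k then (1 : ℝ) else -1) ≠ 0; split_ifs <;> norm_num)
    hcf0 (dep_vt n i hi1 (by omega)) (hm2_vt n i) m
  set h0 : ℝ × Pt (n + 1) := (0, Pi.single (Fin.last n) 1) with hh0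
  let E : (ℝ × Pt (n + 1)) →ₗ[ℝ] ℝ :=
    (LinearMap.proj (Fin.last n)).comp (LinearMap.snd ℝ ℝ (Pt (n + 1)))
  have hE : ∀ g, E g = g.2 (Fin.last n) := fun g => rfl
  have hev : ∀ x, ev (p x) h0 = p x (Fin.last n) := by
    intro x
    rw [ev_apply, hh0]
    simp
  obtain ⟨ε, hε, hMut, hst1, hst2⟩ := perturb (L := fun x => ev (p x)) (D := n + 2)
    (S := range (n + 2 + m)) (R := range (n + 2)) (A0 := range i) (B0 := Ico i (n + 2))
    (K := Ico (n + 2) (n + 2 + k)) (K' := Ico (n + 2 + k) (n + 2 + m)) (a := 0) (E := E)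
    (h0 := h0) (c0 := cf n i) (finrank_H (n + 1)) hpZ
    (by
      intro g hg
      apply hm2_vt n i g
      intro x hx
      rw [← hp0 x (mem_range.1 hx)]
      exact hg x hx)
    (range_subset_range.2 (by omega)) (card_range _)
    (by
      ext x
      rw [mem_union, mem_range, mem_Ico, mem_range]
      omega)
    (by
      rw [disjoint_left]
      intro x hx hx'
      rw [mem_range] at hx
      rw [mem_Ico] at hx'
      omega)
    (mem_range.2 hi1) ⟨i, mem_Ico.2 ⟨le_rfl, by omega⟩⟩
    (by
      intro x hx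
      rw [mem_range] at hx
      unfold cf
      split_ifs
      · have : (2 : ℝ) * i ≤ n + 1 := by exact_mod_cast hi
        linarith
      · exact one_pos)
    (by
      intro x hx
      rw [mem_Ico] at hx
      unfold cf
      rw [if_neg (by omega), if_neg (by omega)]
      norm_num)
    (by
      intro g
      rw [← dep_vt n i hi1 (by omega) g]
      apply sum_congr rfl
      intro x hx
      show cf n i x * ev (p x) g = cf n i x * ev (vt n i x) g
      rw [hp0 x (mem_range.1 hx)])
    (by
      intro x hx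
      show ev (p x) h0 = 0
      rw [hev, hp0 x (mem_range.1 hx), vt, if_pos rfl])
    (by rw [hE, hh0]; simp)
    (by
      ext x
      rw [mem_union, mem_Ico, mem_Ico, mem_sdiff, mem_range, mem_range]
      omega)
    (by
      rw [disjoint_left]
      intro x hx hx'
      rw [mem_Ico] at hx hx'
      omega)
    (by
      by_cases hk0 : k = 0
      · refine ⟨n + 2, mem_union_right _ (mem_Ico.2 (by omega))⟩
      · refine ⟨n + 2, mem_union_left _ (mem_Ico.2 (by omega))⟩)
    (by
      intro x hx
      rw [mem_Ico] at hx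
      show 0 < ev (p x) h0
      rw [hev]
      have := hpσ x hx.1 (by omega)
      rw [if_pos hx.2, one_mul] at this
      exact this)
    (by
      intro x hx
      rw [mem_Ico] at hx
      show ev (p x) h0 < 0
      rw [hev]
      have := hpσ x (by omega) hx.2
      rw [if_neg (by omega)] at this
      linarith)
  have hLp : ∀ η : ℝ, (fun x => ev (p x + if x = 0 then η • Pi.single (Fin.last n) 1 else 0))
      = Lp (fun x => ev (p x)) 0 E η := by
    intro η
    funext x
    apply LinearMap.ext
    intro g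
    by_cases hx : x = 0
    · subst hx
      rw [Lp_self, hE, if_pos rfl, ev_apply, ev_apply, dotProduct_add, dotProduct_smul,
        dotProduct_single, smul_eq_mul, mul_one]
      ring
    · rw [Lp_ne hx, if_neg hx, add_zero]
  obtain ⟨S, hSc, hSg, hSr, hSk⟩ := realize (d := n + 1) (s := n + 2 + m) (by omega) (by omega)
    (fun x => p x + if x = 0 then ε • Pi.single (Fin.last n) 1 else 0)
    (by
      intro Z hZ hZc g hg
      apply hst1 Z hZ hZc g
      intro x hx
      rw [← hLp]
      exact hg x hx)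
  obtain ⟨T, hTc, hTg, hTr, hTk⟩ := realize (d := n + 1) (s := n + 2 + m) (by omega) (by omega)
    (fun x => p x + if x = 0 then (-ε) • Pi.single (Fin.last n) 1 else 0)
    (by
      intro Z hZ hZc g hg
      apply hst2 Z hZ hZc g
      intro x hx
      rw [← hLp]
      exact hg x hx)
  rw [hLp] at hSr hSk hTr hTk
  have cA : (range i).card = i := card_range i
  have cB : (Ico i (n + 2)).card = n + 2 - i := Nat.card_Ico _ _
  have cK : (Ico (n + 2) (n + 2 + k)).card = k := by rw [Nat.card_Ico]; omega
  have cK' : (Ico (n + 2 + k) (n + 2 + m)).card = m - k := by rw [Nat.card_Ico]; omega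
  have dj : ∀ {X Y : Finset ℕ}, (∀ x ∈ X, x < n + 2) → (∀ x ∈ Y, n + 2 ≤ x) →
      (X ∪ Y).card = X.card + Y.card := by
    intro X Y hX hY
    apply card_union_of_disjoint
    rw [disjoint_left]
    intro x hx hx'
    have := hX x hx
    have := hY x hx'
    omega
  have bA : ∀ x ∈ range i, x < n + 2 := fun x hx => by rw [mem_range] at hx; omega
  have bB : ∀ x ∈ Ico i (n + 2), x < n + 2 := fun x hx => by rw [mem_Ico] at hx; omega
  have bK : ∀ x ∈ Ico (n + 2) (n + 2 + k), n + 2 ≤ x := fun x hx => by rw [mem_Ico] at hx; omega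
  have bK' : ∀ x ∈ Ico (n + 2 + k) (n + 2 + m), n + 2 ≤ x :=
    fun x hx => by rw [mem_Ico] at hx; omega
  refine ⟨S, T, hSc, hTc, hSg, hTg, ?_, ?_⟩
  · intro j
    have h1 := hMut.radC_diff j
    rw [dj bA bK, dj bA bK', dj bB bK, dj bB bK', cA, cB, cK, cK'] at h1
    have h2 := hSr j
    have h3 := hTr j
    rw [← h1, ← h2, ← h3]
  · intro j
    have h1 := hMut.cirC_diff j
    rw [cA, cB, cK, cK'] at h1
    have h2 := hSk j
    have h3 := hTk j
    have h4 : ((m - k : ℕ) : ℤ) = m - k := by push_cast [Nat.cast_sub hk]; ring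
    rw [h4] at h1
    have h5 : (k : ℤ) - (m - k) = 2 * k - m := by ring
    rw [h5] at h1
    rw [← h1, ← h2, ← h3]

end Pool.Agent.Helper992.Radon
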