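import Mathlib
import Pool.Agent.Helper992.Radon13
set_option autoImplicit false
open Finset

namespace Pool.Agent.Helper992.Radon

theorem mut_vec {n m i k : ℕ} (hi1 : 1 ≤ i) (hi : 2 * i ≤ n + 1) (hm : 1 ≤ m)
    (hk : k ≤ m) : ∃ S T : Finset (Pt (n + 1)), S.card = n + 2 + m ∧ T.card = n + 2 + m ∧
      GenPos (n + 1) S ∧ GenPos (n + 1) T ∧
      (∀ j, 1 ≤ j → 2 * j ≤ n + 2 + m → (radonNum S j : ℤ) - radonNum T j
        = (if min (n + 2 - i + k) (n + 2 + m - (n + 2 - i + k)) = j then 1 else 0)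
        - (if min (i + k) (n + 2 + m - (i + k)) = j then 1 else 0)) ∧
      (∀ j, 1 ≤ j → 2 * j ≤ n + 3 → (primNum S j : ℤ) - primNum T j
        = (2 * (k : ℤ) - m) * ((if i = j then 1 else 0) - (if i + 1 = j then 1 else 0))) := by
  classical
  obtain ⟨S, T, hSc, hTc, hS, hT, h1, h2⟩ := exists_mut (n := n) (m := m) (k := k) hi1 hi hm hk
  refine ⟨S, T, hSc, hTc, hS, hT, ?_, ?_⟩
  · intro j hj1 hj2
    have h := h1 j
    by_cases hj : 2 * j = n + 2 + m
    · have e1 := radonNum_eq hS (by omega) j (by omega)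
      have e2 := radonNum_eq hT (by omega) j (by omega)
      have e1' : 2 * (radonNum S j : ℤ) = radC (ev (d := n + 1)) (n + 2) S j := by
        exact_mod_cast e1
      have e2' : 2 * (radonNum T j : ℤ) = radC (ev (d := n + 1)) (n + 2) T j := by
        exact_mod_cast e2
      rw [← e1', ← e2'] at h
      split_ifs at h ⊢ <;> omega
    · have e1 := radonNum_ne hS (by omega) j (by omega)
      have e2 := radonNum_ne hT (by omega) j (by omega)
      have e1' : (radonNum S j : ℤ) = radC (ev (d := n + 1)) (n + 2) S j := by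
        exact_mod_cast e1
      have e2' : (radonNum T j : ℤ) = radC (ev (d := n + 1)) (n + 2) T j := by
        exact_mod_cast e2
      rw [← e1', ← e2'] at h
      split_ifs at h ⊢ <;> omega
  · intro j hj1 hj2
    have h := h2 j
    by_cases hj : 2 * j = n + 3
    · have e1 := primNum_eq hS (by omega) j (by omega)
      have e2 := primNum_eq hT (by omega) j (by omega)
      have e1' : 2 * (primNum S j : ℤ) = cirC (ev (d := n + 1)) (n + 2) S j := by
        exact_mod_cast e1
      have e2' : 2 * (primNum T j : ℤ) = cirC (ev (d := n + 1)) (n + 2) T j := by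
        exact_mod_cast e2
      rw [← e1', ← e2'] at h
      have e3 : ((if i = j then (1 : ℤ) else 0) + (if n + 2 - i + 1 = j then 1 else 0)
          - (if i + 1 = j then 1 else 0) - (if n + 2 - i = j then 1 else 0))
          = 2 * ((if i = j then 1 else 0) - (if i + 1 = j then 1 else 0)) := by
        split_ifs <;> omega
      rw [e3] at h
      linarith
    · have e1 := primNum_ne hS (by omega) j (by omega)
      have e2 := primNum_ne hT (by omega) j (by omega)
      have e1' : (primNum S j : ℤ) = cirC (ev (d := n + 1)) (n + 2) S j := by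
        exact_mod_cast e1
      have e2' : (primNum T j : ℤ) = cirC (ev (d := n + 1)) (n + 2) T j := by
        exact_mod_cast e2
      rw [← e1', ← e2'] at h
      have e3 : ((if i = j then (1 : ℤ) else 0) + (if n + 2 - i + 1 = j then 1 else 0)
          - (if i + 1 = j then 1 else 0) - (if n + 2 - i = j then 1 else 0))
          = ((if i = j then 1 else 0) - (if i + 1 = j then 1 else 0)) := by
        split_ifs <;> omega
      rw [e3] at h
      exact h

theorem sum_delta (N t : ℕ) (f : ℕ → ℝ) (h1 : 1 ≤ t) (h2 : t ≤ N) :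
    ∑ j : Fin N, f (j + 1) * (if t = (j : ℕ) + 1 then 1 else 0) = f t := by
  rw [Finset.sum_eq_single (⟨t - 1, by omega⟩ : Fin N)]
  · rw [if_pos (by show t = t - 1 + 1; omega), mul_one]
    congr 1
    show t - 1 + 1 = t
    omega
  · intro b _ hb
    rw [if_neg, mul_zero]
    intro h
    apply hb
    apply Fin.ext
    show (b : ℕ) = t - 1
    omega
  · intro h
    exact absurd (mem_univ _) h

/-- The vector of a point set. -/
noncomputable def vec (s d : ℕ) (S : Finset (Pt d)) : (Fin (s / 2) → ℝ) × (Fin (d / 2 + 1) → ℝ) :=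
  (fun j => (radonNum S (j + 1) : ℝ), fun i => (primNum S (i + 1) : ℝ))

/-- The functional with coefficients `α`, `β`. -/
noncomputable def fn (s d : ℕ) (α β : ℕ → ℝ) (v : (Fin (s / 2) → ℝ) × (Fin (d / 2 + 1) → ℝ)) : ℝ :=
  ∑ j : Fin (s / 2), α (j + 1) * v.1 j + ∑ i : Fin (d / 2 + 1), β (i + 1) * v.2 i

theorem fn_sub (s d : ℕ) (α β : ℕ → ℝ) (u v : (Fin (s / 2) → ℝ) × (Fin (d / 2 + 1) → ℝ)) :
    fn s d α β (u - v) = fn s d α β u - fn s d α β v := by
  unfold fn
  simp only [Prod.fst_sub, Prod.snd_sub, Pi.sub_apply, mul_sub, sum_sub_distrib]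
  ring

theorem mut_fn {n m i k : ℕ} (hi1 : 1 ≤ i) (hi : 2 * i ≤ n + 1) (hm : 1 ≤ m)
    (hk : k ≤ m) : ∃ S T : Finset (Pt (n + 1)), S.card = n + 2 + m ∧ T.card = n + 2 + m ∧
      GenPos (n + 1) S ∧ GenPos (n + 1) T ∧ ∀ α β : ℕ → ℝ,
      fn (n + 2 + m) (n + 1) α β (vec (n + 2 + m) (n + 1) S - vec (n + 2 + m) (n + 1) T)
        = α (min (n + 2 - i + k) (n + 2 + m - (n + 2 - i + k)))
          - α (min (i + k) (n + 2 + m - (i + k))) + (2 * k - m) * (β i - β (i + 1)) := by
  obtain ⟨S, T, hSc, hTc, hS, hT, h1, h2⟩ := mut_vec (n := n) (m := m) (k := k) hi1 hi hm hk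
  refine ⟨S, T, hSc, hTc, hS, hT, ?_⟩
  intro α β
  unfold fn vec
  have e1 : ∀ j : Fin ((n + 2 + m) / 2), α (j + 1)
      * ((radonNum S ((j : ℕ) + 1) : ℝ) - (radonNum T ((j : ℕ) + 1) : ℝ))
      = α (j + 1) * (if min (n + 2 - i + k) (n + 2 + m - (n + 2 - i + k)) = (j : ℕ) + 1
        then 1 else 0)
      - α (j + 1) * (if min (i + k) (n + 2 + m - (i + k)) = (j : ℕ) + 1 then 1 else 0) := by
    intro j
    have hj := j.2
    have h := h1 (j + 1) (by omega) (by omega)
    have h' : (radonNum S ((j : ℕ) + 1) : ℝ) - (radonNum T ((j : ℕ) + 1) : ℝ)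
        = (if min (n + 2 - i + k) (n + 2 + m - (n + 2 - i + k)) = (j : ℕ) + 1 then 1 else 0)
        - (if min (i + k) (n + 2 + m - (i + k)) = (j : ℕ) + 1 then 1 else 0) := by
      exact_mod_cast h
    rw [h', mul_sub]
  have e2 : ∀ j : Fin ((n + 1) / 2 + 1), β (j + 1)
      * ((primNum S ((j : ℕ) + 1) : ℝ) - (primNum T ((j : ℕ) + 1) : ℝ))
      = (2 * k - m) * (β (j + 1) * (if i = (j : ℕ) + 1 then 1 else 0)
        - β (j + 1) * (if i + 1 = (j : ℕ) + 1 then 1 else 0)) := by
    intro j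
    have hj := j.2
    have h := h2 (j + 1) (by omega) (by omega)
    have h' : (primNum S ((j : ℕ) + 1) : ℝ) - (primNum T ((j : ℕ) + 1) : ℝ)
        = (2 * k - m) * ((if i = (j : ℕ) + 1 then 1 else 0)
          - (if i + 1 = (j : ℕ) + 1 then 1 else 0)) := by
      exact_mod_cast h
    rw [h']
    ring
  simp only [Prod.fst_sub, Prod.snd_sub, Pi.sub_apply]
  simp only [e1, e2]
  rw [sum_sub_distrib, ← mul_sum, sum_sub_distrib, sum_delta _ _ _ (by omega) (by omega),
    sum_delta _ _ _ (by omega) (by omega), sum_delta _ _ _ (by omega) (by omega),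
    sum_delta _ _ _ (by omega) (by omega)]

end Pool.Agent.Helper992.Radon
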