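import Mathlib
import Pool.Agent.Helper992.Radon14
set_option autoImplicit false
open Finset

namespace Pool.Agent.Helper992.Radon

/-- Solving the recursion satisfied by a functional that kills all mutation vectors. -/
theorem solve {d m s : ℕ} (hd : 2 ≤ d) (hm : 3 ≤ m) (hs : s = d + 1 + m) (A β : ℕ → ℝ)
    (hsym : ∀ t ≤ s, A t = A (s - t))
    (hrec : ∀ i k, 1 ≤ i → 2 * i ≤ d → k ≤ m →
      A (d + 1 - i + k) - A (i + k) + (2 * k - m) * (β i - β (i + 1)) = 0) :
    ∃ c u w b : ℝ, (¬ (d % 2 = 1 ∧ s % 2 = 0) → u = w) ∧
      (∀ t, 1 ≤ t → t < s → A t = c * (t * (s - t)) + if t % 2 = 0 then u else w) ∧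
      (∀ i, 1 ≤ i → 2 * i ≤ d + 2 → β i = b - c * (i * (d + 2 - i))) := by
  classical
  obtain ⟨e, he, hed⟩ : ∃ e, e = d / 2 ∧ 1 ≤ e := ⟨d / 2, rfl, by omega⟩
  have hde : ((d : ℝ) + 1 - 2 * e) ≠ 0 := by
    have h1 : (2 * e : ℝ) ≤ d := by exact_mod_cast (by omega : 2 * e ≤ d)
    linarith
  obtain ⟨c, hc⟩ : ∃ c : ℝ, β e - β (e + 1) = c * (d + 1 - 2 * e) :=
    ⟨(β e - β (e + 1)) / (d + 1 - 2 * e), by field_simp⟩
  set B : ℕ → ℝ := fun t => A t - c * (t * (s - t)) with hB
  have hBsym : ∀ t ≤ s, B t = B (s - t) := by
    intro t ht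
    simp only [hB]
    rw [hsym t ht, Nat.cast_sub ht]
    ring
  set δ : ℕ → ℝ := fun i => β i - β (i + 1) - c * (d + 1 - 2 * i) with hδ
  have hδe : δ e = 0 := by simp only [hδ]; linarith
  have hrecB : ∀ i k, 1 ≤ i → 2 * i ≤ d → k ≤ m →
      B (d + 1 - i + k) - B (i + k) + (2 * k - m) * δ i = 0 := by
    intro i k h1 h2 h3
    have h := hrec i k h1 h2 h3
    simp only [hB, hδ]
    have hsr : (s : ℝ) = d + 1 + m := by rw [hs]; push_cast; ring
    push_cast [Nat.cast_sub (show i ≤ d + 1 by omega)]
    rw [hsr]
    linear_combination h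
  -- base
  obtain ⟨u, w, huw, hbase⟩ : ∃ u w : ℝ, (¬ (d % 2 = 1 ∧ s % 2 = 0) → u = w) ∧
      ∀ t, e ≤ t → t ≤ s - e → B t = if t % 2 = 0 then u else w := by
    rcases Nat.even_or_odd' d with ⟨r, hr | hr⟩
    · have her : e = r := by omega
      subst her
      refine ⟨B e, B e, fun _ => rfl, ?_⟩
      have hstep : ∀ k ≤ m + 1, B (e + k) = B e := by
        intro k
        induction k with
        | zero => intro _; rfl
        | succ k ih =>
          intro hk
          have h := hrecB e k hed (by omega) (by omega)
          rw [hδe, mul_zero, add_zero] at h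
          have h1 : d + 1 - e + k = e + (k + 1) := by omega
          rw [h1] at h
          rw [← ih (by omega)]
          linarith
      intro t h1 h2
      obtain ⟨k, rfl⟩ : ∃ k, t = e + k := ⟨t - e, by omega⟩
      rw [hstep k (by omega)]
      simp
    · have her : e = r := by omega
      subst her
      have hstep : ∀ k, k ≤ m + 2 → B (e + k) = if k % 2 = 0 then B e else B (e + 1) := by
        intro k
        induction k using Nat.strong_induction_on with
        | _ k ih =>
          intro hk
          rcases Nat.lt_or_ge k 2 with h2 | h2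
          · interval_cases k
            · simp
            · simp
          · obtain ⟨k', rfl⟩ : ∃ k', k = k' + 2 := ⟨k - 2, by omega⟩
            have h := hrecB e k' hed (by omega) (by omega)
            rw [hδe, mul_zero, add_zero] at h
            have h1 : d + 1 - e + k' = e + (k' + 2) := by omega
            rw [h1] at h
            have h3 := ih k' (by omega) (by omega)
            have h4 : (k' + 2) % 2 = k' % 2 := by omega
            rw [h4, ← h3]
            linarith
      refine ⟨if e % 2 = 0 then B e else B (e + 1), if e % 2 = 0 then B (e + 1) else B e, ?_, ?_⟩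
      · intro hns
        have hsodd : s % 2 = 1 := by omega
        have h1 := hBsym e (by omega)
        have h2 : s - e = e + (s - 2 * e) := by omega
        rw [h2, hstep (s - 2 * e) (by omega), if_neg (by omega)] at h1
        rw [h1]
      · intro t h1 h2
        obtain ⟨k, rfl⟩ : ∃ k, t = e + k := ⟨t - e, by omega⟩
        rw [hstep k (by omega)]
        split_ifs <;> first | rfl | omega
  have hψ : ∀ t t', (d % 2 = 1 → s % 2 = 0 → t % 2 = t' % 2) →
      (if t % 2 = 0 then u else w) = (if t' % 2 = 0 then u else w) := by
    intro t t' h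
    by_cases hc : d % 2 = 1 ∧ s % 2 = 0
    · rw [h hc.1 hc.2]
    · rw [huw hc]; simp
  -- downward induction
  have hdown : ∀ a, a < e → (∀ i, e - a ≤ i → i ≤ e → δ i = 0) ∧
      ∀ t, e - a ≤ t → t ≤ s - (e - a) → B t = if t % 2 = 0 then u else w := by
    intro a
    induction a with
    | zero =>
      intro _
      refine ⟨fun i h1 h2 => ?_, fun t h1 h2 => hbase t (by omega) (by omega)⟩
      have : i = e := by omega
      rw [this]; exact hδe
    | succ a ih =>
      intro ha
      obtain ⟨ih1, ih2⟩ := ih (by omega)
      obtain ⟨i, hi⟩ : ∃ i, i = e - (a + 1) := ⟨_, rfl⟩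
      have hi1 : 1 ≤ i := by omega
      have hia : e - a = i + 1 := by omega
      rw [← hi]
      rw [hia] at ih1 ih2
      have hδi : δ i = 0 := by
        have h := hrecB i 1 hi1 (by omega) (by omega)
        have h1 := ih2 (d + 1 - i + 1) (by omega) (by omega)
        have h2 := ih2 (i + 1) (by omega) (by omega)
        have h3 := hψ (d + 1 - i + 1) (i + 1) (by intro _ _; omega)
        rw [h1, h2, h3, sub_self, zero_add] at h
        have hm3 : (3 : ℝ) ≤ m := by exact_mod_cast hm
        have h4 : (2 * ((1 : ℕ) : ℝ) - m) ≠ 0 := by push_cast; linarith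
        exact (mul_eq_zero.1 h).resolve_left h4
      have hBi : B i = if i % 2 = 0 then u else w := by
        have h := hrecB i 0 hi1 (by omega) (by omega)
        rw [hδi, mul_zero, add_zero, add_zero, add_zero] at h
        have h1 := ih2 (d + 1 - i) (by omega) (by omega)
        have h3 := hψ (d + 1 - i) i (by intro _ _; omega)
        rw [h1, h3] at h
        linarith
      refine ⟨?_, ?_⟩
      · intro j h1 h2
        by_cases hj : j = i
        · rw [hj]; exact hδi
        · exact ih1 j (by omega) h2
      · intro t h1 h2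
        by_cases ht : t = i
        · rw [ht]; exact hBi
        · by_cases ht' : t = s - i
          · rw [ht', ← hBsym i (by omega), hBi]
            exact hψ _ _ (by intro _ _; omega)
          · exact ih2 t (by omega) (by omega)
  obtain ⟨f1, f2⟩ := hdown (e - 1) (by omega)
  have he1 : e - (e - 1) = 1 := by omega
  rw [he1] at f1 f2
  refine ⟨c, u, w, β 1 + c * (d + 1), huw, ?_, ?_⟩
  · intro t h1 h2
    have := f2 t h1 (by omega)
    simp only [hB] at this
    linarith
  · intro i
    induction i with
    | zero => intro h; omega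
    | succ i ih =>
      intro _ h2
      by_cases hi : i = 0
      · subst hi
        push_cast
        ring
      · have h3 := ih (by omega) (by omega)
        have h4 := f1 i (by omega) (by omega)
        simp only [hδ] at h4
        push_cast
        linear_combination h3 - h4

end Pool.Agent.Helper992.Radon
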