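import Mathlib
import Pool.Agent.Helper992.Radon15
set_option autoImplicit false
open Finset

namespace Pool.Agent.Helper992.Radon

/-- The homogeneous linear system. -/
def HomSol (s d : ℕ) (z : (Fin (s / 2) → ℝ) × (Fin (d / 2 + 1) → ℝ)) : Prop :=
  (∑ j, z.1 j = 0) ∧
  (∑ i, z.2 i = 0) ∧
  (∑ j : Fin (s / 2), ((j : ℝ) + 1) * ((s : ℝ) - (j + 1)) * z.1 j
    - ∑ i : Fin (d / 2 + 1), ((i : ℝ) + 1) * ((d : ℝ) + 2 - (i + 1)) * z.2 i = 0) ∧
  (Odd d → Even s → ∑ j : Fin (s / 2), (-1) ^ ((j : ℕ) + 1) * z.1 j = 0) ∧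
  (s = d + 2 → ∀ (j : Fin (s / 2)) (i : Fin (d / 2 + 1)), (j : ℕ) = i → z.1 j = z.2 i) ∧
  (s = d + 3 → ∀ j : Fin (s / 2), 2 * z.1 j =
    Pc z.2 j + (if 2 * ((j : ℕ) + 1) = d + 2 then 2 else 1) * Pc z.2 (j + 1)) ∧
  (d = 1 → ∀ j : Fin (s / 2), z.1 j = 0)

theorem Pc_sub {n : ℕ} (x y : Fin n → ℝ) (i : ℕ) : Pc (x - y) i = Pc x i - Pc y i := by
  unfold Pc
  split_ifs
  · rfl
  · simp

theorem Pc_add {n : ℕ} (x y : Fin n → ℝ) (i : ℕ) : Pc (x + y) i = Pc x i + Pc y i := by
  unfold Pc
  split_ifs
  · rfl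
  · simp

theorem Pc_smul {n : ℕ} (c : ℝ) (x : Fin n → ℝ) (i : ℕ) : Pc (c • x) i = c * Pc x i := by
  unfold Pc
  split_ifs
  · rfl
  · simp

variable {s d : ℕ} {u v z : (Fin (s / 2) → ℝ) × (Fin (d / 2 + 1) → ℝ)}

theorem hom_sub (hu : IsSol s d u) (hv : IsSol s d v) : HomSol s d (u - v) := by
  obtain ⟨u1, u2, u3, u4, u5, u6, u7⟩ := hu
  obtain ⟨v1, v2, v3, v4, v5, v6, v7⟩ := hv
  refine ⟨?_, ?_, ?_, ?_, ?_, ?_, ?_⟩
  · simp only [Prod.fst_sub, Pi.sub_apply, sum_sub_distrib]
    rw [u1, v1, sub_self]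
  · simp only [Prod.snd_sub, Pi.sub_apply, sum_sub_distrib]
    rw [u2, v2, sub_self]
  · simp only [Prod.fst_sub, Prod.snd_sub, Pi.sub_apply, mul_sub, sum_sub_distrib]
    simp only [mul_sub] at u3 v3
    linarith
  · intro h1 h2
    simp only [Prod.fst_sub, Pi.sub_apply, mul_sub, sum_sub_distrib]
    rw [u4 h1 h2, v4 h1 h2, sub_self]
  · intro h j i hji
    simp only [Prod.fst_sub, Prod.snd_sub, Pi.sub_apply]
    rw [u5 h j i hji, v5 h j i hji]
  · intro h j
    have e1 := u6 h j
    have e2 := v6 h j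
    simp only [Prod.fst_sub, Prod.snd_sub, Pi.sub_apply, Pc_sub]
    rw [mul_sub, e1, e2]
    ring
  · intro h j
    simp only [Prod.fst_sub, Pi.sub_apply]
    rw [u7 h j, v7 h j, sub_self]

theorem hom_smul (c : ℝ) (hz : HomSol s d z) : HomSol s d (c • z) := by
  obtain ⟨u1, u2, u3, u4, u5, u6, u7⟩ := hz
  refine ⟨?_, ?_, ?_, ?_, ?_, ?_, ?_⟩
  · simp only [Prod.smul_fst, Pi.smul_apply, smul_eq_mul, ← mul_sum]
    rw [u1, mul_zero]
  · simp only [Prod.smul_snd, Pi.smul_apply, smul_eq_mul, ← mul_sum]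
    rw [u2, mul_zero]
  · simp only [Prod.smul_fst, Prod.smul_snd, Pi.smul_apply, smul_eq_mul, mul_left_comm _ c,
      ← mul_sum]
    rw [← mul_sub, u3, mul_zero]
  · intro h1 h2
    simp only [Prod.smul_fst, Pi.smul_apply, smul_eq_mul, mul_left_comm _ c, ← mul_sum]
    rw [u4 h1 h2, mul_zero]
  · intro h j i hji
    simp only [Prod.smul_fst, Prod.smul_snd, Pi.smul_apply]
    rw [u5 h j i hji]
  · intro h j
    have e1 := u6 h j
    simp only [Prod.smul_fst, Prod.smul_snd, Pi.smul_apply, Pc_smul, smul_eq_mul]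
    linear_combination c * e1
  · intro h j
    simp only [Prod.smul_fst, Pi.smul_apply]
    rw [u7 h j, smul_zero]

theorem hom_add (hz : HomSol s d z) (hv : IsSol s d v) : IsSol s d (z + v) := by
  obtain ⟨u1, u2, u3, u4, u5, u6, u7⟩ := hz
  obtain ⟨v1, v2, v3, v4, v5, v6, v7⟩ := hv
  refine ⟨?_, ?_, ?_, ?_, ?_, ?_, ?_⟩
  · simp only [Prod.fst_add, Pi.add_apply, sum_add_distrib]
    rw [u1, v1, zero_add]
  · simp only [Prod.snd_add, Pi.add_apply, sum_add_distrib]
    rw [u2, v2, zero_add]
  · simp only [Prod.fst_add, Prod.snd_add, Pi.add_apply, mul_add, sum_add_distrib]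
    linarith
  · intro h1 h2
    simp only [Prod.fst_add, Pi.add_apply, mul_add, sum_add_distrib]
    rw [u4 h1 h2, v4 h1 h2, zero_add]
  · intro h j i hji
    simp only [Prod.fst_add, Prod.snd_add, Pi.add_apply]
    rw [u5 h j i hji, v5 h j i hji]
  · intro h j
    have e1 := u6 h j
    have e2 := v6 h j
    simp only [Prod.fst_add, Prod.snd_add, Pi.add_apply, Pc_add]
    rw [mul_add, e1, e2]
    ring
  · intro h j
    simp only [Prod.fst_add, Pi.add_apply]
    rw [u7 h j, v7 h j, zero_add]

theorem Pc_succ {n : ℕ} (x : Fin n → ℝ) (j : Fin n) : Pc x (j + 1) = x j := by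
  unfold Pc
  rw [dif_pos ⟨by omega, by have := j.2; omega⟩]
  rfl

theorem Pc_out {n : ℕ} (x : Fin n → ℝ) (i : ℕ) (h : n < i) : Pc x i = 0 := by
  unfold Pc
  rw [dif_neg (by omega)]

theorem Pc_zero {n : ℕ} (x : Fin n → ℝ) : Pc x 0 = 0 := by
  unfold Pc
  rw [dif_neg (by omega)]

theorem sum_Pc (n : ℕ) (f : ℕ → ℝ) (x : Fin n → ℝ) :
    ∑ j : Fin n, f (j + 1) * x j = ∑ j ∈ range n, f (j + 1) * Pc x (j + 1) := by
  rw [← Fin.sum_univ_eq_sum_range (fun j => f (j + 1) * Pc x (j + 1)) n]
  apply sum_congr rfl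
  intro j _
  rw [Pc_succ]

theorem kill {m : ℕ} (hd : 2 ≤ d) (hm : 1 ≤ m) (hs : s = d + 1 + m) (α β : ℕ → ℝ)
    (hrec : ∀ i k, 1 ≤ i → 2 * i ≤ d → k ≤ m →
      α (min (d + 1 - i + k) (s - (d + 1 - i + k))) - α (min (i + k) (s - (i + k)))
        + (2 * k - m) * (β i - β (i + 1)) = 0) (hz : HomSol s d z) : fn s d α β z = 0 := by
  classical
  obtain ⟨z1, z2, z3, z4, z5, z6, z7⟩ := hz
  rcases Nat.lt_or_ge m 3 with hm3 | hm3
  · obtain ⟨X, hX⟩ : ∃ X, X = Pc z.1 := ⟨_, rfl⟩
    obtain ⟨Y, hY⟩ : ∃ Y, Y = Pc z.2 := ⟨_, rfl⟩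
    have hYsum : ∑ j ∈ range (d / 2 + 1), Y (j + 1) = 0 := by
      have := sum_Pc (d / 2 + 1) (fun _ => 1) z.2
      simp only [one_mul] at this
      rw [hY, ← this, z2]
    have hY0 : Y 0 = 0 := by rw [hY, Pc_zero]
    have hYout : ∀ i, d / 2 + 1 < i → Y i = 0 := fun i hi => by rw [hY, Pc_out _ _ hi]
    have hfn : fn s d α β z = ∑ j ∈ range (s / 2), α (j + 1) * X (j + 1)
        + ∑ j ∈ range (d / 2 + 1), β (j + 1) * Y (j + 1) := by
      unfold fn
      rw [sum_Pc, sum_Pc, hX, hY]
    rw [hfn]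
    have hm12 : m = 1 ∨ m = 2 := by omega
    rcases hm12 with rfl | rfl
    · -- s = d + 2
      have hab : ∀ j, j ≤ d / 2 → α (j + 1) + β (j + 1) = α 1 + β 1 := by
        intro j
        induction j with
        | zero => intro _; rfl
        | succ j ih =>
          intro hj
          have h := hrec (j + 1) 0 (by omega) (by omega) (by omega)
          have e1 : min (d + 1 - (j + 1) + 0) (s - (d + 1 - (j + 1) + 0)) = j + 1 + 1 := by omega
          have e2 : min (j + 1 + 0) (s - (j + 1 + 0)) = j + 1 := by omega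
          rw [e1, e2] at h
          rw [← ih (by omega)]
          push_cast at h
          linarith
      have hlen : s / 2 = d / 2 + 1 := by omega
      have hx : ∀ j ∈ range (s / 2), X (j + 1) = Y (j + 1) := by
        intro j hj
        rw [mem_range] at hj
        have h1 := Pc_succ z.1 (⟨j, hj⟩ : Fin (s / 2))
        have h2 := Pc_succ z.2 (⟨j, by omega⟩ : Fin (d / 2 + 1))
        have h3 := z5 (by omega) ⟨j, hj⟩ ⟨j, by omega⟩ rfl
        simp only at h1 h2
        rw [hX, hY, h1, h2, h3]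
      rw [sum_congr rfl (fun j hj => by rw [hx j hj])]
      clear hx hfn hX z1 z2 z3 z4 z5 z6 z7 hY
      rw [hlen, ← sum_add_distrib]
      have h4 : ∀ j ∈ range (d / 2 + 1), α (j + 1) * Y (j + 1) + β (j + 1) * Y (j + 1)
          = (α 1 + β 1) * Y (j + 1) := by
        intro j hj
        rw [mem_range] at hj
        rw [← hab j (by omega)]
        ring
      rw [sum_congr rfl h4, ← mul_sum, hYsum, mul_zero]
    · -- s = d + 3
      set A : ℕ → ℝ := fun t => α (min t (s - t)) with hA
      have hu : ∀ j, j ≤ d / 2 → (A (j + 1) + A (j + 2)) / 2 + β (j + 1)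
          = (A 1 + A 2) / 2 + β 1 := by
        intro j
        induction j with
        | zero => intro _; rfl
        | succ j ih =>
          intro hj
          have h := hrec (j + 1) 0 (by omega) (by omega) (by omega)
          have e1 : min (d + 1 - (j + 1) + 0) (s - (d + 1 - (j + 1) + 0))
              = min (j + 3) (s - (j + 3)) := by omega
          rw [e1, add_zero] at h
          have h' : A (j + 3) - A (j + 1) + (2 * ((0 : ℕ) : ℝ) - ((2 : ℕ) : ℝ))
            * (β (j + 1) - β (j + 1 + 1)) = 0 := h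
          rw [← ih (by omega)]
          push_cast at h'
          have e3 : j + 1 + 1 = j + 2 := rfl
          have e4 : j + 1 + 2 = j + 3 := rfl
          rw [e3] at h'
          rw [e3, e4]
          linarith
      have h6 : ∀ j ∈ range (s / 2), 2 * X (j + 1) =
          Y j + (if 2 * (j + 1) = d + 2 then 2 else 1) * Y (j + 1) := by
        intro j hj
        rw [mem_range] at hj
        have h1 := Pc_succ z.1 (⟨j, hj⟩ : Fin (s / 2))
        simp only at h1
        rw [hX, hY, h1]
        exact z6 (by omega) ⟨j, hj⟩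
      have hα : ∀ j ∈ range (s / 2), α (j + 1) = A (j + 1) := by
        intro j hj
        rw [mem_range] at hj
        simp only [hA]
        congr 1
        omega
      clear hfn hX z1 z2 z3 z4 z5 z6 z7 hY
      have hmain : 2 * ∑ j ∈ range (s / 2), α (j + 1) * X (j + 1)
          = ∑ j ∈ range (d / 2 + 1), (A (j + 1) + A (j + 2)) * Y (j + 1) := by
        rw [mul_sum]
        have h7 : ∀ j ∈ range (s / 2), 2 * (α (j + 1) * X (j + 1))
            = A (j + 1) * Y j + (if 2 * (j + 1) = d + 2 then A (j + 1) * Y (j + 1) else 0)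
              + A (j + 1) * Y (j + 1) := by
          intro j hj
          have h8 := h6 j hj
          rw [hα j hj]
          split_ifs at h8 ⊢
          · linear_combination A (j + 1) * h8
          · linear_combination A (j + 1) * h8
        rw [sum_congr rfl h7, sum_add_distrib, sum_add_distrib]
        rcases Nat.even_or_odd' d with ⟨r, hr | hr⟩
        · have l1 : s / 2 = r + 1 := by omega
          have l2 : d / 2 = r := by omega
          rw [l1, l2]
          have h9 : ∑ j ∈ range (r + 1), (if 2 * (j + 1) = d + 2 then A (j + 1) * Y (j + 1)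
              else 0) = A (r + 2) * Y (r + 1) := by
            rw [Finset.sum_eq_single r]
            · rw [if_pos (by omega)]
              congr 1
              simp only [hA]
              congr 1
              omega
            · intro b _ hb
              rw [if_neg (by omega)]
            · intro h
              exact absurd (mem_range.2 (by omega)) h
          rw [h9, sum_range_succ' (fun j => A (j + 1) * Y j) r, hY0, mul_zero, add_zero]
          have h10 : ∑ j ∈ range (r + 1), (A (j + 1) + A (j + 2)) * Y (j + 1)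
              = ∑ j ∈ range (r + 1), A (j + 2) * Y (j + 1)
                + ∑ j ∈ range (r + 1), A (j + 1) * Y (j + 1) := by
            rw [← sum_add_distrib]
            apply sum_congr rfl
            intro j _
            ring
          rw [h10, sum_range_succ (fun j => A (j + 2) * Y (j + 1)) r]
        · have l1 : s / 2 = r + 2 := by omega
          have l2 : d / 2 = r := by omega
          have hYr := hYout (r + 1 + 1) (by omega)
          rw [l1, l2]
          have h9 : ∑ j ∈ range (r + 2), (if 2 * (j + 1) = d + 2 then A (j + 1) * Y (j + 1)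
              else 0) = 0 := by
            apply sum_eq_zero
            intro j _
            rw [if_neg (by omega)]
          rw [h9, add_zero, sum_range_succ' (fun j => A (j + 1) * Y j) (r + 1), hY0,
            mul_zero, add_zero, sum_range_succ (fun j => A (j + 1) * Y (j + 1)) (r + 1),
            hYr, mul_zero, add_zero, ← sum_add_distrib]
          apply sum_congr rfl
          intro j _
          ring
      have h11 : ∑ j ∈ range (s / 2), α (j + 1) * X (j + 1)
          = ∑ j ∈ range (d / 2 + 1), ((A (j + 1) + A (j + 2)) / 2) * Y (j + 1) := by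
        have : ∑ j ∈ range (d / 2 + 1), ((A (j + 1) + A (j + 2)) / 2) * Y (j + 1)
            = (∑ j ∈ range (d / 2 + 1), (A (j + 1) + A (j + 2)) * Y (j + 1)) / 2 := by
          rw [sum_div]
          apply sum_congr rfl
          intro j _
          ring
        rw [this, ← hmain]
        ring
      rw [h11, ← sum_add_distrib]
      have h12 : ∀ j ∈ range (d / 2 + 1), ((A (j + 1) + A (j + 2)) / 2) * Y (j + 1)
          + β (j + 1) * Y (j + 1) = ((A 1 + A 2) / 2 + β 1) * Y (j + 1) := by
        intro j hj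
        rw [mem_range] at hj
        rw [← hu j (by omega)]
        ring
      rw [sum_congr rfl h12, ← mul_sum, hYsum, mul_zero]
  · obtain ⟨c, a, w, b, haw, hA, hβ⟩ := solve hd hm3 hs (fun t => α (min t (s - t))) β
      (by
        intro t ht
        show α _ = α _
        congr 1
        omega)
      hrec
    have hα : ∀ j : Fin (s / 2), α (j + 1) * z.1 j
        = c * (((j : ℝ) + 1) * ((s : ℝ) - (j + 1)) * z.1 j) + (a + w) / 2 * z.1 j
          + (a - w) / 2 * ((-1) ^ ((j : ℕ) + 1) * z.1 j) := by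
      intro j
      have hj := j.2
      have h := hA (j + 1) (by omega) (by omega)
      have e : min ((j : ℕ) + 1) (s - (j + 1)) = (j : ℕ) + 1 := by omega
      simp only [e] at h
      rw [h]
      rcases Nat.even_or_odd ((j : ℕ) + 1) with hp | hp
      · rw [if_pos (Nat.even_iff.1 hp), hp.neg_one_pow]
        push_cast
        ring
      · rw [if_neg (by have := Nat.odd_iff.1 hp; omega), hp.neg_one_pow]
        push_cast
        ring
    have hβ' : ∀ i : Fin (d / 2 + 1), β (i + 1) * z.2 i
        = b * z.2 i - c * (((i : ℝ) + 1) * ((d : ℝ) + 2 - (i + 1)) * z.2 i) := by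
      intro i
      have hi := i.2
      rw [hβ (i + 1) (by omega) (by omega)]
      push_cast
      ring
    have h4' : (a - w) / 2 * ∑ j : Fin (s / 2), (-1) ^ ((j : ℕ) + 1) * z.1 j = 0 := by
      by_cases hc : d % 2 = 1 ∧ s % 2 = 0
      · rw [z4 (Nat.odd_iff.2 hc.1) (Nat.even_iff.2 hc.2), mul_zero]
      · rw [haw hc]; simp
    unfold fn
    simp only [hα, hβ']
    rw [sum_add_distrib, sum_add_distrib, sum_sub_distrib, ← mul_sum, ← mul_sum, ← mul_sum,
      ← mul_sum, ← mul_sum, h4', z1, z2]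
    linear_combination c * z3

theorem kill_one (hd : d = 1) (α β : ℕ → ℝ) (hz : HomSol s d z) : fn s d α β z = 0 := by
  obtain ⟨z1, z2, z3, z4, z5, z6, z7⟩ := hz
  unfold fn
  have h1 : ∀ j : Fin (s / 2), α (j + 1) * z.1 j = 0 := fun j => by rw [z7 hd j, mul_zero]
  have h2 : ∀ i : Fin (d / 2 + 1), β (i + 1) * z.2 i = β 1 * z.2 i := by
    intro i
    have hi := i.2
    have : (i : ℕ) = 0 := by omega
    rw [this]
  simp only [h1, h2]
  rw [← mul_sum, z2]
  simp

end Pool.Agent.Helper992.Radon
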