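import Mathlib
import Pool.Agent.Helper992.Radon16
set_option autoImplicit false
open Finset

namespace Pool.Agent.Helper992.Radon

/-- The set of all vectors. -/
def Vset (s d : ℕ) : Set ((Fin (s / 2) → ℝ) × (Fin (d / 2 + 1) → ℝ)) :=
  {v | ∃ S : Finset (Pt d), S.card = s ∧ GenPos d S ∧
    v = (fun j : Fin (s / 2) => (radonNum S ((j : ℕ) + 1) : ℝ),
      fun i : Fin (d / 2 + 1) => (primNum S ((i : ℕ) + 1) : ℝ))}

theorem vec_mem {s d : ℕ} {S : Finset (Pt d)} (hc : S.card = s) (hS : GenPos d S) :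
    vec s d S ∈ Vset s d := ⟨S, hc, hS, rfl⟩

theorem vec_sol {s d : ℕ} (hd : 1 ≤ d) (hs : d + 2 ≤ s) {v : (Fin (s / 2) → ℝ) × (Fin (d / 2 + 1) → ℝ)}
    (hv : v ∈ Vset s d) : IsSol s d v := by
  obtain ⟨S, rfl, hS, rfl⟩ := hv
  exact partI' hd hS hs

theorem line_genpos (s : ℕ) : ∃ S : Finset (Pt 1), S.card = s ∧ GenPos 1 S := by
  classical
  refine ⟨(range s).image (fun j : ℕ => (fun _ => (j : ℝ) : Pt 1)), ?_, ?_⟩
  · rw [card_image_of_injective, card_range]
    intro a b h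
    have h' : (a : ℝ) = (b : ℝ) := congrFun h 0
    exact_mod_cast h'
  · intro w b hw
    have hw0 : w 0 ≠ 0 := by
      intro h
      apply hw
      funext i
      have : i = 0 := Subsingleton.elim _ _
      rw [this, h]; rfl
    rw [Set.ncard_le_one_iff_eq (hs := ((range s).image
      (fun j : ℕ => (fun _ => (j : ℝ) : Pt 1))).finite_toSet.subset (fun x hx => hx.1))]
    by_cases hne : {x : Pt 1 | x ∈ (range s).image (fun j : ℕ => (fun _ => (j : ℝ) : Pt 1)) ∧
        w ⬝ᵥ x = b} = ∅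
    · exact Or.inl hne
    · right
      obtain ⟨x, hx⟩ := Set.nonempty_iff_ne_empty.2 hne
      refine ⟨x, ?_⟩
      apply Set.eq_singleton_iff_unique_mem.2
      refine ⟨hx, fun y hy => ?_⟩
      have h1 : w ⬝ᵥ x = b := hx.2
      have h2 : w ⬝ᵥ y = b := hy.2
      simp only [dotProduct, Fin.sum_univ_one, Fin.isValue] at h1 h2
      have h3 : w 0 * (y 0 - x 0) = 0 := by linarith
      have h4 := (mul_eq_zero.1 h3).resolve_left hw0
      funext i
      have : i = 0 := Subsingleton.elim _ _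
      rw [this]
      linarith

theorem exists_vec {s d : ℕ} (hd : 1 ≤ d) (hs : d + 2 ≤ s) :
    ∃ S : Finset (Pt d), S.card = s ∧ GenPos d S := by
  rcases Nat.lt_or_ge d 2 with h | h
  · have : d = 1 := by omega
    subst this
    exact line_genpos s
  · obtain ⟨n, rfl⟩ : ∃ n, d = n + 1 := ⟨d - 1, by omega⟩
    obtain ⟨m, rfl⟩ : ∃ m, s = n + 2 + m := ⟨s - (n + 2), by omega⟩
    obtain ⟨S, -, hc, -, hS, -⟩ := mut_vec (n := n) (m := m) (i := 1) (k := 0) le_rfl (by omega)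
      (by omega) (by omega)
    exact ⟨S, hc, hS⟩

theorem dual_fn {s d : ℕ} (φ : Module.Dual ℝ ((Fin (s / 2) → ℝ) × (Fin (d / 2 + 1) → ℝ))) :
    ∃ α β : ℕ → ℝ, ∀ v, φ v = fn s d α β v := by
  classical
  refine ⟨fun j => if h : j - 1 < s / 2 then φ (Pi.single ⟨j - 1, h⟩ 1, 0) else 0,
    fun i => if h : i - 1 < d / 2 + 1 then φ (0, Pi.single ⟨i - 1, h⟩ 1) else 0, ?_⟩
  intro v
  have h1 : φ v = φ.comp (LinearMap.inl ℝ _ _) v.1 + φ.comp (LinearMap.inr ℝ _ _) v.2 := by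
    rw [LinearMap.comp_apply, LinearMap.comp_apply, ← map_add]
    congr 1
    simp
  rw [h1, LinearMap.pi_apply_eq_sum_univ, LinearMap.pi_apply_eq_sum_univ]
  unfold fn
  congr 1
  · apply sum_congr rfl
    intro j _
    have hj := j.2
    have e : (fun i => if j = i then (1 : ℝ) else 0) = Pi.single j 1 := by
      funext i
      rw [Pi.single_apply]
      simp only [eq_comm]
    have e2 : (j : ℕ) + 1 - 1 < s / 2 := by omega
    show _ = (if h : (j : ℕ) + 1 - 1 < s / 2 then φ (Pi.single ⟨(j : ℕ) + 1 - 1, h⟩ 1, 0) else 0)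
      * v.1 j
    rw [e, dif_pos e2, smul_eq_mul, mul_comm]
    rfl
  · apply sum_congr rfl
    intro j _
    have hj := j.2
    have e : (fun i => if j = i then (1 : ℝ) else 0) = Pi.single j 1 := by
      funext i
      rw [Pi.single_apply]
      simp only [eq_comm]
    have e2 : (j : ℕ) + 1 - 1 < d / 2 + 1 := by omega
    show _ = (if h : (j : ℕ) + 1 - 1 < d / 2 + 1 then φ (0, Pi.single ⟨(j : ℕ) + 1 - 1, h⟩ 1)
      else 0) * v.2 j
    rw [e, dif_pos e2, smul_eq_mul, mul_comm]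
    rfl

theorem hom_mem {s d : ℕ} (hd : 1 ≤ d) (hs : d + 2 ≤ s)
    {z : (Fin (s / 2) → ℝ) × (Fin (d / 2 + 1) → ℝ)} (hz : HomSol s d z) :
    z ∈ vectorSpan ℝ (Vset s d) := by
  classical
  by_contra hcon
  obtain ⟨φ, hφz, hφ⟩ := Submodule.exists_dual_map_eq_bot_of_notMem hcon inferInstance
  have hφ0 : ∀ w ∈ vectorSpan ℝ (Vset s d), φ w = 0 := by
    intro w hw
    have : φ w ∈ (vectorSpan ℝ (Vset s d)).map φ := Submodule.mem_map_of_mem hw
    rw [hφ, Submodule.mem_bot] at this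
    exact this
  obtain ⟨α, β, hαβ⟩ := dual_fn φ
  apply hφz
  rw [hαβ]
  rcases Nat.lt_or_ge d 2 with h | h
  · exact kill_one (by omega) α β hz
  · obtain ⟨n, rfl⟩ : ∃ n, d = n + 1 := ⟨d - 1, by omega⟩
    obtain ⟨m, rfl⟩ : ∃ m, s = n + 2 + m := ⟨s - (n + 2), by omega⟩
    apply kill (m := m) h (by omega) (by omega) α β _ hz
    intro i k hi1 hi hk
    obtain ⟨S, T, hSc, hTc, hS, hT, hfn⟩ := mut_fn (n := n) (m := m) (k := k) hi1 hi (by omega) hk
    have h1 := hfn α β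
    rw [← hαβ] at h1
    have h2 := hφ0 _ (vsub_mem_vectorSpan ℝ (vec_mem hSc hS) (vec_mem hTc hT))
    rw [vsub_eq_sub] at h2
    rw [h2] at h1
    exact h1.symm

theorem final (d s : ℕ) (hd : 1 ≤ d) (hs : d + 2 ≤ s) :
    (affineSpan ℝ (Vset s d) : Set ((Fin (s / 2) → ℝ) × (Fin (d / 2 + 1) → ℝ)))
      = {v | IsSol s d v} := by
  apply Set.Subset.antisymm
  · intro v hv
    rw [SetLike.mem_coe] at hv
    rw [Set.mem_ofPred_eq]
    refine affineSpan_induction hv (fun x hx => vec_sol hd hs hx) ?_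
    intro c x y w hx hy hw
    exact hom_add (hom_smul c (hom_sub hx hy)) hw
  · intro v hv
    rw [Set.mem_ofPred_eq] at hv
    obtain ⟨S, hc, hS⟩ := exists_vec hd hs
    have h0 := vec_mem hc hS
    have h1 := hom_mem hd hs (hom_sub hv (vec_sol hd hs h0))
    rw [SetLike.mem_coe]
    have h2 : v = (v - vec s d S) +ᵥ vec s d S := by
      rw [vadd_eq_add, sub_add_cancel]
    rw [h2]
    apply AffineSubspace.vadd_mem_of_mem_direction
    · rw [direction_affineSpan]; exact h1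
    · exact subset_affineSpan ℝ _ h0

end Pool.Agent.Helper992.Radon
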