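import Mathlib

/-!
Helper module for MP_ccd76d_co: almost symmetries of a separated family of sets.
-/

set_option autoImplicit false
set_option linter.unusedSectionVars false

namespace Pool.Agent.Helper992.Solid

open Set Metric

variable {E : Type*} [NormedAddCommGroup E] [InnerProductSpace ℝ E]

/-- image of a set under an isometry -/
def im (g : E ≃ᵃⁱ[ℝ] E) (K : Set E) : Set E := g '' K

/-- two sets are within `δ` of each other -/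
def Cl (δ : ℝ) (A B : Set E) : Prop :=
  (∀ x ∈ A, ∃ y ∈ B, dist x y ≤ δ) ∧ (∀ y ∈ B, ∃ x ∈ A, dist x y ≤ δ)

lemma Cl.symm {δ : ℝ} {A B : Set E} (h : Cl δ A B) : Cl δ B A := by
  refine ⟨fun x hx => ?_, fun y hy => ?_⟩
  · obtain ⟨y, hy, hd⟩ := h.2 x hx
    exact ⟨y, hy, by rwa [dist_comm]⟩
  · obtain ⟨x, hx, hd⟩ := h.1 y hy
    exact ⟨x, hx, by rwa [dist_comm]⟩

lemma Cl.trans {δ δ' : ℝ} {A B C : Set E} (h : Cl δ A B) (h' : Cl δ' B C) :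
    Cl (δ + δ') A C := by
  refine ⟨fun x hx => ?_, fun y hy => ?_⟩
  · obtain ⟨y, hy, hd⟩ := h.1 x hx
    obtain ⟨z, hz, hd'⟩ := h'.1 y hy
    exact ⟨z, hz, (dist_triangle _ _ _).trans (add_le_add hd hd')⟩
  · obtain ⟨z, hz, hd⟩ := h'.2 y hy
    obtain ⟨x, hx, hd'⟩ := h.2 z hz
    exact ⟨x, hx, (dist_triangle _ _ _).trans (add_le_add hd' hd)⟩

lemma Cl.refl (A : Set E) : Cl 0 A A :=
  ⟨fun x hx => ⟨x, hx, by simp⟩, fun x hx => ⟨x, hx, by simp⟩⟩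

lemma Cl.mono {δ δ' : ℝ} {A B : Set E} (h : Cl δ A B) (hd : δ ≤ δ') : Cl δ' A B :=
  ⟨fun x hx => by
      obtain ⟨y, hy, h1⟩ := h.1 x hx
      exact ⟨y, hy, h1.trans hd⟩,
    fun x hx => by
      obtain ⟨y, hy, h1⟩ := h.2 x hx
      exact ⟨y, hy, h1.trans hd⟩⟩

lemma Cl.image {δ : ℝ} {A B : Set E} (h : Cl δ A B) (g : E ≃ᵃⁱ[ℝ] E) :
    Cl δ (im g A) (im g B) := by
  refine ⟨?_, ?_⟩
  · rintro _ ⟨x, hx, rfl⟩
    obtain ⟨y, hy, hd⟩ := h.1 x hx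
    exact ⟨g y, ⟨y, hy, rfl⟩, by rwa [g.dist_map]⟩
  · rintro _ ⟨x, hx, rfl⟩
    obtain ⟨y, hy, hd⟩ := h.2 x hx
    exact ⟨g y, ⟨y, hy, rfl⟩, by rwa [g.dist_map]⟩

lemma eq_of_Cl_all {A B : Set E} (hA : IsClosed A) (hB : IsClosed B)
    (h : ∀ η : ℝ, 0 < η → Cl η A B) : A = B := by
  apply Set.Subset.antisymm
  · intro x hx
    rw [← hB.closure_eq, Metric.mem_closure_iff]
    intro ε hε
    obtain ⟨y, hy, hd⟩ := (h (ε / 2) (by positivity)).1 x hx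
    exact ⟨y, hy, by linarith⟩
  · intro x hx
    rw [← hA.closure_eq, Metric.mem_closure_iff]
    intro ε hε
    obtain ⟨y, hy, hd⟩ := (h (ε / 2) (by positivity)).2 x hx
    exact ⟨y, hy, by rw [dist_comm]; linarith⟩

/-- the hypotheses on the family -/
structure Hyp (F : Set (Set E)) (c D R : ℝ) : Prop where
  c_pos : 0 < c
  D_nonneg : 0 ≤ D
  R_nonneg : 0 ≤ R
  nonempty : ∀ K ∈ F, K.Nonempty
  closed : ∀ K ∈ F, IsClosed K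
  diam : ∀ K ∈ F, ∀ x ∈ K, ∀ y ∈ K, dist x y ≤ D
  sep : ∀ K ∈ F, ∀ K' ∈ F, ∀ δ : ℝ, δ < c → Cl δ K K' → K = K'
  dense : ∀ x : E, ∃ K ∈ F, ∃ y ∈ K, dist x y ≤ R

/-- exact symmetry up to finitely many members -/
def Exact (F : Set (Set E)) (g : E ≃ᵃⁱ[ℝ] E) : Prop :=
  {K | K ∈ F ∧ im g K ∉ F}.Finite ∧ {K | K ∈ F ∧ im g⁻¹ K ∉ F}.Finite

/-- near symmetry -/
def Nr (F : Set (Set E)) (ε : ℝ) (g : E ≃ᵃⁱ[ℝ] E) : Prop :=
  (∀ K ∈ F, ∃ K' ∈ F, Cl ε (im g K) K') ∧ (∀ K ∈ F, ∃ K' ∈ F, Cl ε (im g⁻¹ K) K')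

/-- symmetry -/
def Inv (F : Set (Set E)) (g : E ≃ᵃⁱ[ℝ] E) : Prop :=
  (∀ K ∈ F, im g K ∈ F) ∧ (∀ K ∈ F, im g⁻¹ K ∈ F)

lemma image_mul (g h : E ≃ᵃⁱ[ℝ] E) (K : Set E) : im (g * h) K = im g (im h K) := by
  unfold im
  rw [AffineIsometryEquiv.coe_mul, Set.image_comp]

lemma image_one (K : Set E) : im (1 : E ≃ᵃⁱ[ℝ] E) K = K := by
  unfold im
  rw [AffineIsometryEquiv.coe_one, Set.image_id]

lemma image_inv_image (g : E ≃ᵃⁱ[ℝ] E) (K : Set E) : im g⁻¹ (im g K) = K := by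
  rw [← image_mul, inv_mul_cancel, image_one]

lemma image_image_inv (g : E ≃ᵃⁱ[ℝ] E) (K : Set E) : im g (im g⁻¹ K) = K := by
  rw [← image_mul, mul_inv_cancel, image_one]

lemma image_inj (g : E ≃ᵃⁱ[ℝ] E) : Function.Injective (fun K : Set E => im g K) := by
  intro A B h
  have := congrArg (fun K : Set E => im g⁻¹ K) h
  simpa [image_inv_image] using this

variable {F : Set (Set E)}

lemma Exact.inv {g : E ≃ᵃⁱ[ℝ] E} (h : Exact F g) : Exact F g⁻¹ := by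
  refine ⟨h.2, ?_⟩
  rw [inv_inv]
  exact h.1

lemma exact_aux {g h : E ≃ᵃⁱ[ℝ] E} (hg : {K | K ∈ F ∧ im g K ∉ F}.Finite)
    (hh : {K | K ∈ F ∧ im h K ∉ F}.Finite) : {K | K ∈ F ∧ im (g * h) K ∉ F}.Finite := by
  have h1 : {K | K ∈ F ∧ im (g * h) K ∉ F} ⊆
      {K | K ∈ F ∧ im h K ∉ F} ∪ (fun K : Set E => im h K) ⁻¹' {K | K ∈ F ∧ im g K ∉ F} := by
    rintro K ⟨hK, hn⟩
    by_cases hc : im h K ∈ F
    · right
      refine ⟨hc, ?_⟩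
      rwa [image_mul] at hn
    · left
      exact ⟨hK, hc⟩
  exact (hh.union (hg.preimage (image_inj h).injOn)).subset h1

lemma Exact.mul {g h : E ≃ᵃⁱ[ℝ] E} (hg : Exact F g) (hh : Exact F h) : Exact F (g * h) := by
  refine ⟨exact_aux hg.1 hh.1, ?_⟩
  rw [mul_inv_rev]
  exact exact_aux hh.2 hg.2

lemma Nr.inv {ε : ℝ} {g : E ≃ᵃⁱ[ℝ] E} (h : Nr F ε g) : Nr F ε g⁻¹ := by
  refine ⟨h.2, ?_⟩
  rw [inv_inv]
  exact h.1

lemma nr_aux {ε ε' : ℝ} {g h : E ≃ᵃⁱ[ℝ] E} (hg : ∀ K ∈ F, ∃ K' ∈ F, Cl ε (im g K) K')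
    (hh : ∀ K ∈ F, ∃ K' ∈ F, Cl ε' (im h K) K') :
    ∀ K ∈ F, ∃ K' ∈ F, Cl (ε + ε') (im (g * h) K) K' := by
  intro K hK
  obtain ⟨K1, hK1, h1⟩ := hh K hK
  obtain ⟨K2, hK2, h2⟩ := hg K1 hK1
  refine ⟨K2, hK2, ?_⟩
  rw [image_mul, add_comm]
  exact (h1.image g).trans h2

lemma Nr.mul {ε ε' : ℝ} {g h : E ≃ᵃⁱ[ℝ] E} (hg : Nr F ε g) (hh : Nr F ε' h) :
    Nr F (ε + ε') (g * h) := by
  refine ⟨nr_aux hg.1 hh.1, ?_⟩
  rw [mul_inv_rev, add_comm]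
  exact nr_aux hh.2 hg.2

lemma Nr.mono {ε ε' : ℝ} {g : E ≃ᵃⁱ[ℝ] E} (h : Nr F ε g) (hle : ε ≤ ε') : Nr F ε' g :=
  ⟨fun K hK => by
      obtain ⟨K', h1, h2⟩ := h.1 K hK
      exact ⟨K', h1, h2.mono hle⟩,
    fun K hK => by
      obtain ⟨K', h1, h2⟩ := h.2 K hK
      exact ⟨K', h1, h2.mono hle⟩⟩

lemma Inv.nr {g : E ≃ᵃⁱ[ℝ] E} (h : Inv F g) : Nr F 0 g :=
  ⟨fun K hK => ⟨_, h.1 K hK, Cl.refl _⟩, fun K hK => ⟨_, h.2 K hK, Cl.refl _⟩⟩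

lemma Inv.inv {g : E ≃ᵃⁱ[ℝ] E} (h : Inv F g) : Inv F g⁻¹ := by
  refine ⟨h.2, ?_⟩
  rw [inv_inv]
  exact h.1

/-- if a set is arbitrarily near to members then it is a member -/
lemma Hyp.mem_of_Cl {c D R : ℝ} (hF : Hyp F c D R) {A : Set E} (hA : IsClosed A)
    (h : ∀ η : ℝ, 0 < η → ∃ K ∈ F, Cl η A K) : A ∈ F := by
  obtain ⟨K0, hK0, h0⟩ := h (c / 4) (by have := hF.c_pos; positivity)
  have : A = K0 := by
    apply eq_of_Cl_all hA (hF.closed K0 hK0)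
    intro η hη
    obtain ⟨K1, hK1, h1⟩ := h (min η (c / 4)) (by have := hF.c_pos; positivity)
    have h2 : K1 = K0 := by
      apply hF.sep K1 hK1 K0 hK0 (min η (c / 4) + c / 4)
      · have := hF.c_pos
        have := min_le_right η (c / 4)
        linarith
      · exact h1.symm.trans h0
    rw [← h2]
    exact h1.mono (min_le_left _ _)
  rw [this]
  exact hK0

lemma Hyp.inv_of_nr {c D R : ℝ} (hF : Hyp F c D R) {g : E ≃ᵃⁱ[ℝ] E}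
    (h : ∀ η : ℝ, 0 < η → Nr F η g) : Inv F g := by
  refine ⟨fun K hK => ?_, fun K hK => ?_⟩
  · apply hF.mem_of_Cl
    · exact (g.toHomeomorph.isClosed_image).2 (hF.closed K hK)
    · intro η hη
      exact (h η hη).1 K hK
  · apply hF.mem_of_Cl
    · exact (g⁻¹.toHomeomorph.isClosed_image).2 (hF.closed K hK)
    · intro η hη
      exact (h η hη).2 K hK

/-- linear part -/
noncomputable def L (g : E ≃ᵃⁱ[ℝ] E) : E →L[ℝ] E :=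
  (g.linearIsometryEquiv.toContinuousLinearEquiv : E →L[ℝ] E)

lemma L_apply (g : E ≃ᵃⁱ[ℝ] E) (x : E) : L g x = g.linearIsometryEquiv x := rfl

lemma L_norm (g : E ≃ᵃⁱ[ℝ] E) (x : E) : ‖L g x‖ = ‖x‖ := by
  rw [L_apply]; exact g.linearIsometryEquiv.norm_map x

lemma map_eq (g : E ≃ᵃⁱ[ℝ] E) (x : E) : g x = L g x + g 0 := by
  have := g.map_vadd 0 x
  simpa [L_apply] using this

lemma map_sub (g : E ≃ᵃⁱ[ℝ] E) (x y : E) : g x - g y = L g (x - y) := by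
  have := g.map_vsub x y
  simpa [L_apply] using this.symm

lemma L_mul (g h : E ≃ᵃⁱ[ℝ] E) : L (g * h) = L g * L h := by
  ext x
  have h1 : L (g * h) x = (g * h) x - (g * h) 0 := by rw [map_sub]; simp
  have h2 : L g (L h x) = g (h x) - g (h 0) := by rw [map_sub, map_sub]; simp
  rw [h1]
  change _ = L g (L h x)
  rw [h2]
  rfl

lemma L_one : L (1 : E ≃ᵃⁱ[ℝ] E) = 1 := by
  ext x
  have h1 : L (1 : E ≃ᵃⁱ[ℝ] E) x = (1 : E ≃ᵃⁱ[ℝ] E) x - (1 : E ≃ᵃⁱ[ℝ] E) 0 := by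
    rw [map_sub]; simp
  rw [h1]
  simp

lemma L_inv_mul (g : E ≃ᵃⁱ[ℝ] E) : L g⁻¹ * L g = 1 := by
  rw [← L_mul, inv_mul_cancel, L_one]

lemma L_mul_inv (g : E ≃ᵃⁱ[ℝ] E) : L g * L g⁻¹ = 1 := by
  rw [← L_mul, mul_inv_cancel, L_one]

lemma L_inv_apply (g : E ≃ᵃⁱ[ℝ] E) (x : E) : L g⁻¹ (L g x) = x := by
  have := congrArg (fun T : E →L[ℝ] E => T x) (L_inv_mul g)
  simpa using this

lemma L_apply_inv (g : E ≃ᵃⁱ[ℝ] E) (x : E) : L g (L g⁻¹ x) = x := by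
  have := congrArg (fun T : E →L[ℝ] E => T x) (L_mul_inv g)
  simpa using this

lemma L_inner (g : E ≃ᵃⁱ[ℝ] E) (x y : E) : inner ℝ (L g x) (L g y) = inner ℝ x y := by
  simp only [L_apply]
  exact g.linearIsometryEquiv.inner_map_map x y

/-- size of the rotational part -/
noncomputable def rho (g : E ≃ᵃⁱ[ℝ] E) : ℝ := ‖L g - 1‖

lemma rho_nonneg (g : E ≃ᵃⁱ[ℝ] E) : 0 ≤ rho g := norm_nonneg _

lemma rho_apply (g : E ≃ᵃⁱ[ℝ] E) (x : E) : ‖L g x - x‖ ≤ rho g * ‖x‖ := by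
  have := (L g - 1).le_opNorm x
  simpa [rho] using this

lemma norm_L_mul (g : E ≃ᵃⁱ[ℝ] E) (T : E →L[ℝ] E) : ‖L g * T‖ ≤ ‖T‖ := by
  apply ContinuousLinearMap.opNorm_le_bound _ (norm_nonneg _)
  intro x
  change ‖L g (T x)‖ ≤ _
  rw [L_norm]
  exact T.le_opNorm x

lemma norm_mul_L (g : E ≃ᵃⁱ[ℝ] E) (T : E →L[ℝ] E) : ‖T * L g‖ ≤ ‖T‖ := by
  apply ContinuousLinearMap.opNorm_le_bound _ (norm_nonneg _)
  intro x
  change ‖T (L g x)‖ ≤ _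
  have := T.le_opNorm (L g x)
  rwa [L_norm] at this

lemma rho_inv (g : E ≃ᵃⁱ[ℝ] E) : rho g⁻¹ = rho g := by
  have key : ∀ g : E ≃ᵃⁱ[ℝ] E, rho g⁻¹ ≤ rho g := by
    intro g
    have h : L g⁻¹ - 1 = -(L g⁻¹ * (L g - 1)) := by
      rw [mul_sub, L_inv_mul, mul_one]; abel
    rw [rho, h, norm_neg]
    exact norm_L_mul _ _
  apply le_antisymm (key g)
  have := key g⁻¹
  rwa [inv_inv] at this

lemma rho_mul (g h : E ≃ᵃⁱ[ℝ] E) : rho (g * h) ≤ rho g + rho h := by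
  have h1 : L (g * h) - 1 = L g * (L h - 1) + (L g - 1) := by
    rw [L_mul, mul_sub, mul_one]; abel
  rw [rho, h1]
  refine (norm_add_le _ _).trans ?_
  have := norm_L_mul g (L h - 1)
  unfold rho
  linarith

lemma rho_inv_mul (g h : E ≃ᵃⁱ[ℝ] E) : rho (g⁻¹ * h) ≤ ‖L h - L g‖ := by
  have h1 : L (g⁻¹ * h) - 1 = L g⁻¹ * (L h - L g) := by
    rw [L_mul, mul_sub, L_inv_mul]
  rw [rho, h1]
  exact norm_L_mul _ _

/-- the commutator -/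
noncomputable def cm (g h : E ≃ᵃⁱ[ℝ] E) : E ≃ᵃⁱ[ℝ] E := g * h * g⁻¹ * h⁻¹

lemma cm_mul (g h : E ≃ᵃⁱ[ℝ] E) : cm g h * (h * g) = g * h := by
  unfold cm; group

lemma rho_cm (g h : E ≃ᵃⁱ[ℝ] E) : rho (cm g h) ≤ 2 * rho g * rho h := by
  have h1 : L (cm g h) - 1 = (L g * L h - L h * L g) * L (g⁻¹ * h⁻¹) := by
    have e1 : cm g h = (g * h) * (g⁻¹ * h⁻¹) := by unfold cm; group
    have e2 : (1 : E ≃ᵃⁱ[ℝ] E) = (h * g) * (g⁻¹ * h⁻¹) := by group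
    rw [e1, ← L_one, e2, L_mul, L_mul (h * g), sub_mul, L_mul g h, L_mul h g]
  have h2 : L g * L h - L h * L g = (L g - 1) * (L h - 1) - (L h - 1) * (L g - 1) := by
    noncomm_ring
  rw [rho, h1]
  refine (norm_mul_L _ _).trans ?_
  rw [h2]
  refine (norm_sub_le _ _).trans ?_
  have a1 := norm_mul_le (L g - 1) (L h - 1)
  have a2 := norm_mul_le (L h - 1) (L g - 1)
  unfold rho
  nlinarith

lemma cm_zero_bound (g h : E ≃ᵃⁱ[ℝ] E) :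
    ‖cm g h 0‖ ≤ rho g * ‖h 0‖ + rho h * ‖g 0‖ + rho (cm g h) * (‖g 0‖ + ‖h 0‖) := by
  have h1 : cm g h ((h * g) 0) = (g * h) 0 := by
    rw [← cm_mul g h]
    rfl
  have h2 : cm g h ((h * g) 0) = L (cm g h) (h (g 0)) + cm g h 0 := by
    rw [map_eq (cm g h) ((h * g) 0)]
    rfl
  have h3 : (g * h) 0 = L g (h 0) + g 0 := by
    change g (h 0) = _
    exact map_eq g (h 0)
  have h4 : h (g 0) = L h (g 0) + h 0 := map_eq h (g 0)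
  have h5 : cm g h 0 = (L g (h 0) - h 0) - (L h (g 0) - g 0)
      - (L (cm g h) (h (g 0)) - h (g 0)) := by
    have e : cm g h 0 = (g * h) 0 - L (cm g h) (h (g 0)) := by
      rw [← h1, h2]; abel
    rw [e, h3, h4]
    abel
  rw [h5]
  have b1 := rho_apply g (h 0)
  have b2 := rho_apply h (g 0)
  have b3 := rho_apply (cm g h) (h (g 0))
  have b4 : ‖h (g 0)‖ ≤ ‖g 0‖ + ‖h 0‖ := by
    rw [h4]
    refine (norm_add_le _ _).trans ?_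
    rw [L_norm]
  have b5 : rho (cm g h) * ‖h (g 0)‖ ≤ rho (cm g h) * (‖g 0‖ + ‖h 0‖) :=
    mul_le_mul_of_nonneg_left b4 (rho_nonneg _)
  calc _ ≤ ‖(L g (h 0) - h 0) - (L h (g 0) - g 0)‖ + ‖L (cm g h) (h (g 0)) - h (g 0)‖ :=
        norm_sub_le _ _
    _ ≤ ‖L g (h 0) - h 0‖ + ‖L h (g 0) - g 0‖ + ‖L (cm g h) (h (g 0)) - h (g 0)‖ := by
        gcongr
        exact norm_sub_le _ _
    _ ≤ _ := by linarith

end Pool.Agent.Helper992.Solid
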