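import Pool.Agent.Helper992.Solid1

/-!
Helper module for MP_ccd76d_co: displacement estimates.
-/

set_option autoImplicit false
set_option linter.unusedSectionVars false

namespace Pool.Agent.Helper992.Solid

open Set Metric

variable {E : Type*} [NormedAddCommGroup E] [InnerProductSpace ℝ E]
variable {F : Set (Set E)} {c D R : ℝ}

lemma disp_diff (g : E ≃ᵃⁱ[ℝ] E) (x y : E) :
    g y - y = (g x - x) + (L g (y - x) - (y - x)) := by
  have h : g y - g x = L g (y - x) := map_sub g y x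
  rw [← h]
  abel

lemma disp_le (g : E ≃ᵃⁱ[ℝ] E) (x y : E) {r : ℝ} (h : dist x y ≤ r) :
    ‖g y - y‖ ≤ ‖g x - x‖ + rho g * r := by
  rw [disp_diff g x y]
  refine (norm_add_le _ _).trans ?_
  have h1 := rho_apply g (y - x)
  have h2 : ‖y - x‖ ≤ r := by rwa [← dist_eq_norm, dist_comm]
  have h3 := mul_le_mul_of_nonneg_left h2 (rho_nonneg g)
  linarith

lemma disp_upper (hF : Hyp F c D R) (g : E ≃ᵃⁱ[ℝ] E) {K : Set E} (hK : K ∈ F) {x : E}
    (hx : x ∈ K) : Cl (‖g x - x‖ + rho g * D) (im g K) K := by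
  have key : ∀ y ∈ K, dist (g y) y ≤ ‖g x - x‖ + rho g * D := by
    intro y hy
    rw [dist_eq_norm]
    exact disp_le g x y (hF.diam K hK x hx y hy)
  refine ⟨?_, ?_⟩
  · rintro _ ⟨y, hy, rfl⟩
    exact ⟨y, hy, key y hy⟩
  · intro y hy
    exact ⟨g y, ⟨y, hy, rfl⟩, key y hy⟩

lemma disp_lower (hF : Hyp F c D R) (g : E ≃ᵃⁱ[ℝ] E) {K : Set E} (hK : K ∈ F) {x : E}
    (hx : x ∈ K) {δ : ℝ} (h : Cl δ (im g K) K) : ‖g x - x‖ ≤ δ + rho g * D := by
  by_contra hcon
  push Not at hcon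
  set v := g x - x with hv
  have hδ : 0 ≤ δ := by
    obtain ⟨y, _, hd⟩ := h.1 (g x) ⟨x, hx, rfl⟩
    exact dist_nonneg.trans hd
  have hρD : 0 ≤ rho g * D := mul_nonneg (rho_nonneg g) hF.D_nonneg
  have hvpos : 0 < ‖v‖ := by linarith
  set u := (‖v‖)⁻¹ • v with hu
  have hun : ‖u‖ = 1 := by
    rw [hu, norm_smul, norm_inv, norm_norm, inv_mul_cancel₀ hvpos.ne']
  have huv : inner ℝ u v = ‖v‖ := by
    rw [hu, inner_smul_left, real_inner_self_eq_norm_sq]
    simp only [conj_trivial]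
    field_simp
  have hbdd : BddAbove ((fun y => inner ℝ u y) '' K) := by
    refine ⟨‖x‖ + D, ?_⟩
    rintro _ ⟨y, hy, rfl⟩
    have h1 : inner ℝ u y ≤ ‖u‖ * ‖y‖ := real_inner_le_norm u y
    rw [hun, one_mul] at h1
    have h2 : ‖y‖ ≤ ‖x‖ + D := by
      have := hF.diam K hK x hx y hy
      rw [dist_eq_norm] at this
      have h3 : ‖y‖ ≤ ‖x‖ + ‖x - y‖ := by
        calc ‖y‖ = ‖x - (x - y)‖ := by congr 1; abel
          _ ≤ _ := norm_sub_le _ _
      linarith
    simp only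
    linarith
  have hne : ((fun y => inner ℝ u y) '' K).Nonempty := ⟨_, ⟨x, hx, rfl⟩⟩
  set s := sSup ((fun y => inner ℝ u y) '' K) with hs
  set θ := ‖v‖ - (δ + rho g * D) with hθ
  have hθpos : 0 < θ := by rw [hθ]; linarith
  obtain ⟨_, ⟨y, hy, rfl⟩, hys⟩ := exists_lt_of_lt_csSup hne (show s - θ < s by linarith)
  simp only at hys
  obtain ⟨y1, hy1, hd1⟩ := h.1 (g y) ⟨y, hy, rfl⟩
  have h1 : inner ℝ u y1 ≤ s := le_csSup hbdd ⟨y1, hy1, rfl⟩
  have h2 : inner ℝ u (g y - y) ≥ ‖v‖ - rho g * D := by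
    rw [disp_diff g x y, inner_add_right, ← hv, huv]
    have h3 : -(inner ℝ u (L g (y - x) - (y - x))) ≤ ‖u‖ * ‖L g (y - x) - (y - x)‖ := by
      have := abs_real_inner_le_norm u (L g (y - x) - (y - x))
      exact (neg_le_abs _).trans this
    rw [hun, one_mul] at h3
    have h4 := rho_apply g (y - x)
    have h5 : ‖y - x‖ ≤ D := by
      rw [← dist_eq_norm, dist_comm]
      exact hF.diam K hK x hx y hy
    have h6 := mul_le_mul_of_nonneg_left h5 (rho_nonneg g)
    linarith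
  have h3 : inner ℝ u (y1 - g y) ≥ -δ := by
    have h4 : -(inner ℝ u (y1 - g y)) ≤ ‖u‖ * ‖y1 - g y‖ := by
      have := abs_real_inner_le_norm u (y1 - g y)
      exact (neg_le_abs _).trans this
    rw [hun, one_mul, ← dist_eq_norm, dist_comm] at h4
    linarith
  have h4 : inner ℝ u y1 = inner ℝ u y + inner ℝ u (g y - y) + inner ℝ u (y1 - g y) := by
    rw [← inner_add_right, ← inner_add_right]
    congr 1
    abel
  linarith

/-- near symmetries with small rotation have a fixed direction -/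
lemma exists_fixed [FiniteDimensional ℝ E] [Nontrivial E] (hF : Hyp F c D R) {κ : ℝ}
    (hκ : κ * (R + D) ≤ c / 16) {g : E ≃ᵃⁱ[ℝ] E} (hρ : rho g ≤ κ) (hn : Nr F (c / 16) g) :
    ∃ e : E, e ≠ 0 ∧ L g e = e := by
  by_contra hcon
  push Not at hcon
  have hc := hF.c_pos
  have hinj : Function.Injective (L g - 1 : E →L[ℝ] E).toLinearMap := by
    rw [← LinearMap.ker_eq_bot, LinearMap.ker_eq_bot']
    intro e he
    by_contra hne
    apply hcon e hne
    have : L g e - e = 0 := by simpa using he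
    exact sub_eq_zero.1 this
  have hsurj := LinearMap.injective_iff_surjective.1 hinj
  obtain ⟨v, hv⟩ := exists_norm_eq E (show (0 : ℝ) ≤ 3 * c / 8 by positivity)
  obtain ⟨x0, hx0⟩ := hsurj (v - g 0)
  have hx1 : L g x0 - x0 = v - g 0 := by simpa using hx0
  have hx2 : g x0 - x0 = v := by
    rw [map_eq g x0]
    have : L g x0 + g 0 - x0 = (L g x0 - x0) + g 0 := by abel
    rw [this, hx1]; abel
  obtain ⟨K, hK, y, hy, hd⟩ := hF.dense x0
  have hρ0 := rho_nonneg g
  have hup : ‖g y - y‖ ≤ 3 * c / 8 + rho g * R := by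
    have := disp_le g x0 y hd
    rwa [hx2, hv] at this
  have hlo : 3 * c / 8 ≤ ‖g y - y‖ + rho g * R := by
    have := disp_le g y x0 (r := R) (by rw [dist_comm]; exact hd)
    rwa [hx2, hv] at this
  have hR : rho g * R + rho g * D ≤ c / 16 := by
    have h1 : rho g * (R + D) ≤ κ * (R + D) :=
      mul_le_mul_of_nonneg_right hρ (add_nonneg hF.R_nonneg hF.D_nonneg)
    linarith
  have hRR : 0 ≤ rho g * R := mul_nonneg hρ0 hF.R_nonneg
  have hDD : 0 ≤ rho g * D := mul_nonneg hρ0 hF.D_nonneg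
  obtain ⟨K', hK', hcl⟩ := hn.1 K hK
  have h1 := (disp_upper hF g hK hy).symm.trans hcl
  have h2 : K = K' := hF.sep K hK K' hK' _ (by linarith) h1
  rw [← h2] at hcl
  have h3 := disp_lower hF g hK hy hcl
  linarith

lemma bounded_of_finite (hF : Hyp F c D R) {S : Set (Set E)} (hS : S.Finite) (hSF : S ⊆ F) :
    ∃ B : ℝ, ∀ K ∈ S, ∀ y ∈ K, ‖y‖ ≤ B := by
  have h1 : Bornology.IsBounded (⋃ K ∈ S, K) := by
    rw [Bornology.isBounded_biUnion hS]
    intro K hK
    rw [Metric.isBounded_iff]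
    exact ⟨D, fun x hx y hy => hF.diam K (hSF hK) x hx y hy⟩
  obtain ⟨B, hB⟩ := h1.exists_norm_le
  refine ⟨B, fun K hK y hy => hB y ?_⟩
  exact Set.mem_biUnion hK hy

lemma exact_disp (hF : Hyp F c D R) {w : E ≃ᵃⁱ[ℝ] E}
    (hw : {K | K ∈ F ∧ im w K ∉ F}.Finite) {e : E} (he : e ≠ 0) (hfix : L w e = e) {z : E}
    {r : ℝ} (hr : ‖w z - z‖ = r) (h1 : rho w * (R + D) < r) (h2 : r + rho w * (R + D) < c) :
    False := by
  obtain ⟨B, hB⟩ := bounded_of_finite hF hw (fun K hK => hK.1)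
  have hρ0 := rho_nonneg w
  have hRR : 0 ≤ rho w * R := mul_nonneg hρ0 hF.R_nonneg
  have hDD : 0 ≤ rho w * D := mul_nonneg hρ0 hF.D_nonneg
  have hen : 0 < ‖e‖ := norm_pos_iff.2 he
  -- choose t large
  set t : ℝ := (|B| + R + ‖z‖ + 1) / ‖e‖ with ht
  have htpos : 0 ≤ t := by
    have := hF.R_nonneg
    positivity
  obtain ⟨K, hK, y, hy, hd⟩ := hF.dense (z + t • e)
  have hdisp : ‖w (z + t • e) - (z + t • e)‖ = r := by
    rw [disp_diff w z (z + t • e)]
    have : z + t • e - z = t • e := by abel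
    rw [this, map_smul, hfix, sub_self, add_zero, hr]
  have hup : ‖w y - y‖ ≤ r + rho w * R := by
    have := disp_le w _ y hd
    rwa [hdisp] at this
  have hlo : r ≤ ‖w y - y‖ + rho w * R := by
    have := disp_le w y (z + t • e) (r := R) (by rw [dist_comm]; exact hd)
    rwa [hdisp] at this
  by_cases hmem : im w K ∈ F
  · have h3 := disp_upper hF w hK hy
    have h4 : im w K = K := hF.sep _ hmem K hK _ (by linarith) h3
    have h5 : Cl 0 (im w K) K := by
      rw [h4]; exact Cl.refl K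
    have h6 := disp_lower hF w hK hy h5
    linarith
  · have h3 := hB K ⟨hK, hmem⟩ y hy
    have h4 : ‖z + t • e‖ ≤ ‖y‖ + R := by
      rw [dist_eq_norm] at hd
      calc ‖z + t • e‖ = ‖y + (z + t • e - y)‖ := by congr 1; abel
        _ ≤ ‖y‖ + ‖z + t • e - y‖ := norm_add_le _ _
        _ ≤ _ := by linarith
    have h5 : t * ‖e‖ ≤ ‖z + t • e‖ + ‖z‖ := by
      calc t * ‖e‖ = ‖t • e‖ := by rw [norm_smul, Real.norm_eq_abs, abs_of_nonneg htpos]
        _ = ‖(z + t • e) - z‖ := by congr 1; abel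
        _ ≤ _ := norm_sub_le _ _
    have h6 : t * ‖e‖ = |B| + R + ‖z‖ + 1 := by
      rw [ht]; field_simp
    have h7 := le_abs_self B
    linarith

/-- an almost exact symmetry with a fixed direction, near the identity, is the identity -/
lemma eq_one_of_small (hF : Hyp F c D R) {κ : ℝ}
    (hκ : κ * (R + D) ≤ c / 16) {w : E ≃ᵃⁱ[ℝ] E} (hw : {K | K ∈ F ∧ im w K ∉ F}.Finite)
    {e : E} (he : e ≠ 0) (hfix : L w e = e) (hρ : rho w ≤ κ) (h0 : ‖w 0‖ < c / 4) : w = 1 := by
  have hc := hF.c_pos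
  by_cases hL : L w = 1
  · by_cases hw0 : w 0 = 0
    · ext1 x
      rw [map_eq w x, hL, hw0]
      simp
    · exfalso
      have hρ0 : rho w = 0 := by rw [rho, hL, sub_self, norm_zero]
      apply exact_disp hF hw he hfix (z := 0) (r := ‖w 0‖) (by simp)
      · rw [hρ0, zero_mul]; exact norm_pos_iff.2 hw0
      · rw [hρ0, zero_mul]; linarith
  · exfalso
    have h1 : ∃ y0 : E, L w y0 - y0 ≠ 0 := by
      by_contra hcon
      push Not at hcon
      apply hL
      ext x
      have := hcon x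
      rw [sub_eq_zero] at this
      simpa using this
    obtain ⟨y0, hy0⟩ := h1
    have hform : ∀ s : ℝ, w (s • y0) - s • y0 = s • (L w y0 - y0) + w 0 := by
      intro s
      rw [map_eq w (s • y0), map_smul, smul_sub]
      abel
    set f : ℝ → ℝ := fun s => ‖s • (L w y0 - y0) + w 0‖ with hf
    have hcont : Continuous f := by
      rw [hf]; fun_prop
    set T : ℝ := (3 * c / 8 + ‖w 0‖) / ‖L w y0 - y0‖ with hT
    have hn : 0 < ‖L w y0 - y0‖ := norm_pos_iff.2 hy0
    have hT0 : 0 ≤ T := by positivity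
    have hfT : 3 * c / 8 ≤ f T := by
      have h2 : ‖T • (L w y0 - y0)‖ ≤ f T + ‖w 0‖ := by
        calc ‖T • (L w y0 - y0)‖ = ‖(T • (L w y0 - y0) + w 0) - w 0‖ := by congr 1; abel
          _ ≤ _ := norm_sub_le _ _
      rw [norm_smul, Real.norm_eq_abs, abs_of_nonneg hT0] at h2
      have h3 : T * ‖L w y0 - y0‖ = 3 * c / 8 + ‖w 0‖ := by
        rw [hT]; field_simp
      linarith
    have hf0 : f 0 ≤ 3 * c / 8 := by
      rw [hf]
      simp only [zero_smul, zero_add]
      linarith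
    obtain ⟨s, _, hs⟩ := intermediate_value_Icc hT0 hcont.continuousOn ⟨hf0, hfT⟩
    have hRD : rho w * (R + D) ≤ c / 16 :=
      (mul_le_mul_of_nonneg_right hρ (add_nonneg hF.R_nonneg hF.D_nonneg)).trans hκ
    apply exact_disp hF hw he hfix (z := s • y0) (r := 3 * c / 8)
    · rw [hform]; exact hs
    · linarith
    · linarith

end Pool.Agent.Helper992.Solid
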