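import Pool.Agent.Helper992.Solid2

/-!
Helper module for MP_ccd76d_co: iterated commutators and the Hilbert basis argument.
-/

set_option autoImplicit false
set_option linter.unusedSectionVars false

namespace Pool.Agent.Helper992.Solid

open Set Metric

section iter

variable {E : Type*} [NormedAddCommGroup E] [InnerProductSpace ℝ E]

/-- iterated commutators `h, [g,h], [g,[g,h]], ...` -/
noncomputable def it (g h : E ≃ᵃⁱ[ℝ] E) : ℕ → (E ≃ᵃⁱ[ℝ] E)
  | 0 => h
  | (k + 1) => cm g (it g h k)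

/-- there is a nonzero vector fixed by the linear part -/
def FixDir (g : E ≃ᵃⁱ[ℝ] E) : Prop := ∃ e : E, e ≠ 0 ∧ L g e = e

end iter

section noeth

variable (d : ℕ)

abbrev Rg := MvPolynomial (Fin 4 × Fin d × Fin d) ℝ

/-- the four generic matrices -/
noncomputable def gen (i : Fin 4) : Matrix (Fin d) (Fin d) (Rg d) :=
  Matrix.of fun a b => MvPolynomial.X (i, a, b)

/-- generic iterated commutators together with their inverses -/
noncomputable def Wp : ℕ → Matrix (Fin d) (Fin d) (Rg d) × Matrix (Fin d) (Fin d) (Rg d)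
  | 0 => (gen d 2, gen d 3)
  | (k + 1) => (gen d 0 * (Wp k).1 * gen d 1 * (Wp k).2, (Wp k).1 * gen d 0 * (Wp k).2 * gen d 1)

noncomputable def pp (k : ℕ) : Rg d := ((Wp d k).1 - 1).det

lemma exists_k0 : ∃ k0 : ℕ, ∀ k : ℕ, pp d k ∈ Ideal.span (pp d '' {j | j ≤ k0}) := by
  have hN : IsNoetherian (Rg d) (Rg d) := inferInstance
  have hmono : Monotone (fun n : ℕ => (Ideal.span (pp d '' {j | j ≤ n}) : Ideal (Rg d))) := by
    intro m n hmn
    apply Ideal.span_mono
    apply Set.image_mono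
    intro j hj
    exact le_trans hj hmn
  obtain ⟨n, hn⟩ := (monotone_stabilizes_iff_noetherian.2 hN)
    ⟨fun n : ℕ => (Ideal.span (pp d '' {j | j ≤ n}) : Ideal (Rg d)), hmono⟩
  refine ⟨n, fun k => ?_⟩
  have h1 : pp d k ∈ Ideal.span (pp d '' {j | j ≤ max n k}) := by
    apply Ideal.subset_span
    exact ⟨k, show k ≤ max n k from le_max_right _ _, rfl⟩
  have h2 := hn (max n k) (le_max_left _ _)
  simp only [OrderHom.coe_mk] at h2
  rw [h2]
  exact h1

/-- a bound for the number of commutators that have to be tested -/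
noncomputable def k0 : ℕ := (exists_k0 d).choose

variable {d}

/-- evaluation at four matrices -/
noncomputable def ev (m : Fin 4 → Matrix (Fin d) (Fin d) ℝ) : Rg d →+* ℝ :=
  MvPolynomial.eval fun x => m x.1 x.2.1 x.2.2

lemma ev_gen (m : Fin 4 → Matrix (Fin d) (Fin d) ℝ) (i : Fin 4) :
    (gen d i).map (ev m) = m i := by
  ext a b
  simp [gen, ev]

/-- numerical iterated commutators -/
noncomputable def Wn (m : Fin 4 → Matrix (Fin d) (Fin d) ℝ) :
    ℕ → Matrix (Fin d) (Fin d) ℝ × Matrix (Fin d) (Fin d) ℝ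
  | 0 => (m 2, m 3)
  | (k + 1) => (m 0 * (Wn m k).1 * m 1 * (Wn m k).2, (Wn m k).1 * m 0 * (Wn m k).2 * m 1)

lemma ev_Wp (m : Fin 4 → Matrix (Fin d) (Fin d) ℝ) (k : ℕ) :
    ((Wp d k).1.map (ev m)) = (Wn m k).1 ∧ ((Wp d k).2.map (ev m)) = (Wn m k).2 := by
  induction k with
  | zero => exact ⟨ev_gen m 2, ev_gen m 3⟩
  | succ k ih =>
    constructor
    · change (gen d 0 * (Wp d k).1 * gen d 1 * (Wp d k).2).map (ev m) = _
      rw [Matrix.map_mul, Matrix.map_mul, Matrix.map_mul, ih.1, ih.2, ev_gen, ev_gen]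
      rfl
    · change ((Wp d k).1 * gen d 0 * (Wp d k).2 * gen d 1).map (ev m) = _
      rw [Matrix.map_mul, Matrix.map_mul, Matrix.map_mul, ih.1, ih.2, ev_gen, ev_gen]
      rfl

lemma ev_pp (m : Fin 4 → Matrix (Fin d) (Fin d) ℝ) (k : ℕ) :
    ev m (pp d k) = ((Wn m k).1 - 1).det := by
  unfold pp
  rw [RingHom.map_det]
  congr 1
  have h1 : (ev m).mapMatrix ((Wp d k).1 - 1) = (Wp d k).1.map (ev m) - 1 := by
    rw [_root_.map_sub, _root_.map_one]
    rfl
  rw [h1, (ev_Wp m k).1]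

lemma det_zero_all (m : Fin 4 → Matrix (Fin d) (Fin d) ℝ)
    (h : ∀ j ≤ k0 d, ((Wn m j).1 - 1).det = 0) (k : ℕ) : ((Wn m k).1 - 1).det = 0 := by
  rw [← ev_pp]
  have h1 := (exists_k0 d).choose_spec k
  have h2 : Ideal.span (pp d '' {j | j ≤ (exists_k0 d).choose}) ≤ RingHom.ker (ev m) := by
    rw [Ideal.span_le]
    rintro _ ⟨j, hj, rfl⟩
    rw [SetLike.mem_coe, RingHom.mem_ker, ev_pp]
    exact h j hj
  exact RingHom.mem_ker.1 (h2 h1)

end noeth


section app

variable {d : ℕ}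

/-- matrix of the linear part -/
noncomputable def Mt (g : EuclideanSpace ℝ (Fin d) ≃ᵃⁱ[ℝ] EuclideanSpace ℝ (Fin d)) :
    Matrix (Fin d) (Fin d) ℝ :=
  LinearMap.toMatrix (EuclideanSpace.basisFun (Fin d) ℝ).toBasis
    (EuclideanSpace.basisFun (Fin d) ℝ).toBasis (L g).toLinearMap

lemma Mt_mul (g h : EuclideanSpace ℝ (Fin d) ≃ᵃⁱ[ℝ] EuclideanSpace ℝ (Fin d)) :
    Mt (g * h) = Mt g * Mt h := by
  unfold Mt
  rw [← LinearMap.toMatrix_mul, L_mul]
  rfl

lemma fixDir_iff (g : EuclideanSpace ℝ (Fin d) ≃ᵃⁱ[ℝ] EuclideanSpace ℝ (Fin d)) :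
    FixDir g ↔ (Mt g - 1).det = 0 := by
  have h1 : Mt g - 1 = LinearMap.toMatrix (EuclideanSpace.basisFun (Fin d) ℝ).toBasis
      (EuclideanSpace.basisFun (Fin d) ℝ).toBasis ((L g).toLinearMap - 1) := by
    unfold Mt
    rw [_root_.map_sub, LinearMap.toMatrix_one]
  rw [h1, LinearMap.det_toMatrix, LinearMap.det_eq_zero_iff_ker_ne_bot, Submodule.ne_bot_iff]
  constructor
  · rintro ⟨e, he, hfix⟩
    refine ⟨e, ?_, he⟩
    rw [LinearMap.mem_ker]
    change L g e - e = 0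
    rw [hfix, sub_self]
  · rintro ⟨e, he, hne⟩
    refine ⟨e, hne, ?_⟩
    rw [LinearMap.mem_ker] at he
    have : L g e - e = 0 := he
    exact sub_eq_zero.1 this

/-- the four matrices attached to a pair of isometries -/
noncomputable def four (g h : EuclideanSpace ℝ (Fin d) ≃ᵃⁱ[ℝ] EuclideanSpace ℝ (Fin d)) :
    Fin 4 → Matrix (Fin d) (Fin d) ℝ := ![Mt g, Mt g⁻¹, Mt h, Mt h⁻¹]

lemma Wn_four (g h : EuclideanSpace ℝ (Fin d) ≃ᵃⁱ[ℝ] EuclideanSpace ℝ (Fin d)) (k : ℕ) :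
    (Wn (four g h) k).1 = Mt (it g h k) ∧ (Wn (four g h) k).2 = Mt (it g h k)⁻¹ := by
  induction k with
  | zero => exact ⟨rfl, rfl⟩
  | succ k ih =>
    constructor
    · change four g h 0 * (Wn (four g h) k).1 * four g h 1 * (Wn (four g h) k).2 = _
      rw [ih.1, ih.2]
      change Mt g * Mt (it g h k) * Mt g⁻¹ * Mt (it g h k)⁻¹ = Mt (cm g (it g h k))
      unfold cm
      rw [Mt_mul, Mt_mul, Mt_mul]
    · change (Wn (four g h) k).1 * four g h 0 * (Wn (four g h) k).2 * four g h 1 = _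
      rw [ih.1, ih.2]
      change Mt (it g h k) * Mt g * Mt (it g h k)⁻¹ * Mt g⁻¹ = Mt (cm g (it g h k))⁻¹
      have : (cm g (it g h k))⁻¹ = it g h k * g * (it g h k)⁻¹ * g⁻¹ := by
        unfold cm; group
      rw [this, Mt_mul, Mt_mul, Mt_mul]

/-- if the first iterated commutators have fixed directions then all of them do -/
lemma fixDir_all (g h : EuclideanSpace ℝ (Fin d) ≃ᵃⁱ[ℝ] EuclideanSpace ℝ (Fin d))
    (H : ∀ j ≤ k0 d, FixDir (it g h j)) (k : ℕ) : FixDir (it g h k) := by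
  rw [fixDir_iff, ← (Wn_four g h k).1]
  apply det_zero_all
  intro j hj
  rw [(Wn_four g h j).1, ← fixDir_iff]
  exact H j hj

end app

end Pool.Agent.Helper992.Solid
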