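import Pool.Agent.Helper992.Solid3

/-!
Helper module for MP_ccd76d_co: near symmetries with small rotation commute.
-/

set_option autoImplicit false
set_option linter.unusedSectionVars false

namespace Pool.Agent.Helper992.Solid

open Set Metric Filter Topology

variable {E : Type*} [NormedAddCommGroup E] [InnerProductSpace ℝ E]
variable {F : Set (Set E)} {c D R : ℝ}

lemma rho_conj (g y : E ≃ᵃⁱ[ℝ] E) : rho (g * y * g⁻¹) ≤ rho y := by
  have h1 : L (g * y * g⁻¹) - 1 = L g * ((L y - 1) * L g⁻¹) := by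
    rw [L_mul, L_mul, sub_mul, one_mul, mul_sub, L_mul_inv]
    rw [mul_assoc]
  rw [rho, h1]
  exact (norm_L_mul _ _).trans (norm_mul_L _ _)

lemma rho_cm' (g y : E ≃ᵃⁱ[ℝ] E) : rho (cm g y) ≤ 2 * rho y := by
  have h1 : cm g y = (g * y * g⁻¹) * y⁻¹ := rfl
  rw [h1]
  have := rho_mul (g * y * g⁻¹) y⁻¹
  have h2 := rho_conj g y
  rw [rho_inv] at this
  linarith

/-- an operator all of whose powers are near the identity is the identity -/
lemma eq_one_of_powers (T : E →L[ℝ] E) (h : ∀ n : ℕ, ‖T ^ n - 1‖ ≤ 1 / 2) : T = 1 := by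
  ext v
  have key : ∀ n : ℕ, (3 / 2 : ℝ) ^ n * ‖T v - v‖ ≤ ‖(T ^ (2 ^ n)) v - v‖ := by
    intro n
    induction n with
    | zero => simp
    | succ n ih =>
      set S := T ^ (2 ^ n) with hS
      have h1 : T ^ (2 ^ (n + 1)) = S * S := by
        rw [hS, ← pow_add]; congr 1; ring
      have h2 : (T ^ (2 ^ (n + 1))) v - v = (2 : ℝ) • (S v - v) + (S - 1) (S v - v) := by
        rw [h1]
        have e1 : (S * S) v = S (S v) := rfl
        have e2 : (S - 1) (S v - v) = (S (S v) - S v) - (S v - v) := by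
          change S (S v - v) - (S v - v) = _
          rw [_root_.map_sub]
        rw [e1, e2, two_smul]
        abel
      have h3 : ‖(S - 1) (S v - v)‖ ≤ 1 / 2 * ‖S v - v‖ := by
        refine ((S - 1).le_opNorm _).trans ?_
        exact mul_le_mul_of_nonneg_right (h _) (norm_nonneg _)
      have h4 : 2 * ‖S v - v‖ ≤ ‖(T ^ (2 ^ (n + 1))) v - v‖ + ‖(S - 1) (S v - v)‖ := by
        have : (2 : ℝ) • (S v - v) = ((T ^ (2 ^ (n + 1))) v - v) - (S - 1) (S v - v) := by
          rw [h2]; abel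
        calc 2 * ‖S v - v‖ = ‖(2 : ℝ) • (S v - v)‖ := by
              rw [norm_smul]; norm_num
          _ ≤ _ := by rw [this]; exact norm_sub_le _ _
      rw [pow_succ]
      nlinarith [norm_nonneg (T v - v)]
  have hb : ∀ n : ℕ, (3 / 2 : ℝ) ^ n * ‖T v - v‖ ≤ 1 / 2 * ‖v‖ := by
    intro n
    refine (key n).trans ?_
    have h1 := (T ^ (2 ^ n) - 1).le_opNorm v
    have h2 : (T ^ (2 ^ n) - 1 : E →L[ℝ] E) v = (T ^ (2 ^ n)) v - v := rfl
    rw [h2] at h1
    exact h1.trans (mul_le_mul_of_nonneg_right (h _) (norm_nonneg _))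
  have hz : ‖T v - v‖ = 0 := by
    by_contra hne
    have hpos : 0 < ‖T v - v‖ := lt_of_le_of_ne (norm_nonneg _) (Ne.symm hne)
    obtain ⟨n, hn⟩ := pow_unbounded_of_one_lt (1 / 2 * ‖v‖ / ‖T v - v‖)
      (show (1 : ℝ) < 3 / 2 by norm_num)
    have := hb n
    rw [div_lt_iff₀ hpos] at hn
    linarith
  have := norm_eq_zero.1 hz
  simpa [sub_eq_zero] using this

/-- Frobenius type lemma -/
lemma frobenius (g y : E ≃ᵃⁱ[ℝ] E) (hy : rho y ≤ 1 / 4) (h : L (cm g (cm g y)) = 1) :
    L (cm g y) = 1 := by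
  set w := cm g y with hw
  have hcomm : L g * L w = L w * L g := by
    have := cm_mul g w
    have h1 : L (cm g w * (w * g)) = L (g * w) := by rw [this]
    rw [L_mul, h, one_mul, L_mul, L_mul] at h1
    exact h1.symm
  have hz : ∀ n : ℕ, L (cm (g ^ n) y) = (L w) ^ n := by
    intro n
    induction n with
    | zero =>
      have : cm (g ^ 0) y = 1 := by unfold cm; group
      rw [this, L_one, pow_zero]
    | succ n ih =>
      have e1 : cm (g ^ (n + 1)) y = (g * cm (g ^ n) y * g⁻¹) * w := by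
        rw [hw]; unfold cm; rw [pow_succ']; group
      have hc2 : L g * (L w) ^ n = (L w) ^ n * L g :=
        (show Commute (L g) (L w) from hcomm).pow_right n
      rw [e1, L_mul, L_mul, L_mul, ih, hc2, mul_assoc ((L w) ^ n), L_mul_inv, mul_one, pow_succ]
  apply eq_one_of_powers
  intro n
  rw [← hz n]
  have := rho_cm' (g ^ n) y
  unfold rho at this hy
  linarith

lemma it_bounds (g h : E ≃ᵃⁱ[ℝ] E) (hg : rho g ≤ 1 / 8) (hh : rho h ≤ 1 / 8) (k : ℕ) :
    rho (it g h k) ≤ rho h ∧ rho (it g h k) ≤ 1 / 8 * (1 / 4) ^ k ∧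
      ‖it g h k 0‖ ≤ (‖g 0‖ + ‖h 0‖) * (1 / 2) ^ k := by
  induction k with
  | zero =>
    refine ⟨le_refl _, ?_, ?_⟩
    · simpa [it] using hh
    · have := norm_nonneg (g 0)
      simp only [it, pow_zero, mul_one]
      linarith
  | succ k ih =>
    obtain ⟨h1, h2, h3⟩ := ih
    have e1 : rho (it g h (k + 1)) ≤ 2 * rho g * rho (it g h k) := rho_cm g (it g h k)
    have n1 := rho_nonneg g
    have n2 := rho_nonneg (it g h k)
    have e2 : rho (it g h (k + 1)) ≤ 1 / 4 * rho (it g h k) := by nlinarith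
    refine ⟨by linarith, ?_, ?_⟩
    · rw [pow_succ]; linarith
    · have e3 := cm_zero_bound g (it g h k)
      change ‖cm g (it g h k) 0‖ ≤ _
      have e4 : rho (cm g (it g h k)) ≤ 1 / 4 * rho (it g h k) := e2
      have n3 := norm_nonneg (g 0)
      have n4 := norm_nonneg (h 0)
      have n5 := norm_nonneg (it g h k 0)
      have n6 := rho_nonneg (cm g (it g h k))
      have p1 : (0 : ℝ) < (1 / 2) ^ k := by positivity
      have p2 : ((1 : ℝ) / 4) ^ k ≤ (1 / 2) ^ k := by
        apply pow_le_pow_left₀ <;> norm_num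
      have p3 : (0 : ℝ) < (1 / 4) ^ k := by positivity
      have q1 : rho g * ‖it g h k 0‖ ≤ 1 / 8 * ((‖g 0‖ + ‖h 0‖) * (1 / 2) ^ k) := by
        apply mul_le_mul hg h3 n5 (by norm_num)
      have q2 : rho (it g h k) * ‖g 0‖ ≤ 1 / 8 * (1 / 2) ^ k * (‖g 0‖ + ‖h 0‖) := by
        apply mul_le_mul _ (by linarith) n3 (by positivity)
        calc _ ≤ 1 / 8 * (1 / 4) ^ k := h2
          _ ≤ _ := by linarith
      have q0 : rho (cm g (it g h k)) ≤ 1 / 32 * (1 / 2) ^ k := by
        calc _ ≤ 1 / 4 * rho (it g h k) := e4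
          _ ≤ 1 / 4 * (1 / 8 * (1 / 4) ^ k) := by linarith
          _ ≤ _ := by linarith
      have q3 : rho (cm g (it g h k)) * ‖g 0‖ ≤ 1 / 32 * (1 / 2) ^ k * (‖g 0‖ + ‖h 0‖) := by
        apply mul_le_mul q0 (by linarith) n3 (by positivity)
      have q4 : rho (cm g (it g h k)) * ‖it g h k 0‖ ≤
          1 / 32 * ((‖g 0‖ + ‖h 0‖) * (1 / 2) ^ k) := by
        apply mul_le_mul _ h3 n5 (by norm_num)
        calc _ ≤ 1 / 4 * rho (it g h k) := e4
          _ ≤ 1 / 4 * (1 / 8 * (1 / 4) ^ k) := by linarith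
          _ ≤ 1 / 4 * (1 / 8 * 1) := by
            have : ((1 : ℝ) / 4) ^ k ≤ 1 := pow_le_one₀ (by norm_num) (by norm_num)
            linarith
          _ = _ := by norm_num
      rw [pow_succ]
      nlinarith

lemma it_nr {g h : E ≃ᵃⁱ[ℝ] E} {δ : ℝ} (hg : Nr F δ g) (hh : Nr F δ h) (k : ℕ) :
    Nr F ((3 * 2 ^ k - 2) * δ) (it g h k) := by
  induction k with
  | zero =>
    have : (3 * 2 ^ 0 - 2) * δ = δ := by ring
    rw [this]; exact hh
  | succ k ih =>
    have h1 := ((hg.mul ih).mul hg.inv).mul ih.inv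
    have : (3 * 2 ^ (k + 1) - 2) * δ =
        δ + (3 * 2 ^ k - 2) * δ + δ + (3 * 2 ^ k - 2) * δ := by ring
    rw [this]
    exact h1

lemma it_exact {g h : E ≃ᵃⁱ[ℝ] E} (hg : Exact F g) (hh : Exact F h) (k : ℕ) :
    Exact F (it g h k) := by
  induction k with
  | zero => exact hh
  | succ k ih => exact ((hg.mul ih).mul hg.inv).mul ih.inv

/-- pure translations among the almost symmetries are fixed by the small rotations -/
lemma trans_fixed [Nontrivial E] (hF : Hyp F c D R) {κ : ℝ} (hκ0 : 0 ≤ κ)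
    (hκ : κ * (R + D) ≤ c / 16) {h : E ≃ᵃⁱ[ℝ] E} (hh : Exact F h) (hρ : rho h ≤ 1 / 8)
    {x : E ≃ᵃⁱ[ℝ] E} (hx : Exact F x) (hLx : L x = 1) : L h (x 0) = x 0 := by
  -- the sequence of iterated commutators
  have key : ∀ k : ℕ, L (it h x k) = 1 ∧
      (it h x (k + 1)) 0 = L h ((it h x k) 0) - (it h x k) 0 := by
    have step : ∀ y : E ≃ᵃⁱ[ℝ] E, L y = 1 → L (cm h y) = 1 ∧
        (cm h y) 0 = L h (y 0) - y 0 := by
      intro y hy
      have h1 : L (cm h y) = 1 := by
        have e : cm h y = h * y * h⁻¹ * y⁻¹ := rfl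
        have e2 : L y⁻¹ = 1 := by
          have := L_inv_mul y
          rwa [hy, mul_one] at this
        rw [e, L_mul, L_mul, L_mul, hy, e2, mul_one, mul_one, L_mul_inv]
      refine ⟨h1, ?_⟩
      have h2 : cm h y ((y * h) 0) = (h * y) 0 := by
        rw [← cm_mul h y]; rfl
      rw [map_eq (cm h y) ((y * h) 0), h1] at h2
      have h3 : (y * h) 0 = h 0 + y 0 := by
        change y (h 0) = _
        rw [map_eq y (h 0), hy]; rfl
      have h4 : (h * y) 0 = L h (y 0) + h 0 := by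
        change h (y 0) = _
        exact map_eq h (y 0)
      rw [h3, h4] at h2
      have h5 : (1 : E →L[ℝ] E) (h 0 + y 0) = h 0 + y 0 := rfl
      rw [h5] at h2
      have h6 : cm h y 0 = (h 0 + y 0 + cm h y 0) - (h 0 + y 0) := by abel
      rw [h6, h2]
      abel
    intro k
    have hL : ∀ k, L (it h x k) = 1 := by
      intro k
      induction k with
      | zero => exact hLx
      | succ k ih => exact (step _ ih).1
    exact ⟨hL k, (step _ (hL k)).2⟩
  have hρx : rho x ≤ 1 / 8 := by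
    rw [rho, hLx, sub_self, norm_zero]; norm_num
  have hzero : ∃ k : ℕ, (it h x k) 0 = 0 := by
    have hc := hF.c_pos
    obtain ⟨k, hk⟩ := exists_pow_lt_of_lt_one
      (show (0 : ℝ) < (c / 4) / (‖h 0‖ + ‖x 0‖ + 1) by positivity)
      (show (1 / 2 : ℝ) < 1 by norm_num)
    refine ⟨k, ?_⟩
    have h1 := (it_bounds h x hρ hρx k).2.2
    have h2 : ‖it h x k 0‖ < c / 4 := by
      rw [lt_div_iff₀ (by positivity)] at hk
      have : (‖h 0‖ + ‖x 0‖) * (1 / 2) ^ k ≤ (1 / 2) ^ k * (‖h 0‖ + ‖x 0‖ + 1) := by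
        have : (0 : ℝ) < (1 / 2) ^ k := by positivity
        nlinarith
      linarith
    obtain ⟨e, he⟩ := exists_ne (0 : E)
    have h3 : it h x k = 1 := by
      apply eq_one_of_small hF hκ (it_exact hh hx k).1 he
      · rw [(key k).1]; rfl
      · rw [rho, (key k).1, sub_self, norm_zero]; exact hκ0
      · exact h2
    rw [h3]; rfl
  classical
  by_contra hne
  have hmin := Nat.find_spec hzero
  set m := Nat.find hzero with hm
  have hmin' : ∀ j < m, (it h x j) 0 ≠ 0 := fun j hj => Nat.find_min hzero hj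
  rcases m with _ | _ | m
  · -- x 0 = 0
    apply hne
    have : x 0 = 0 := hmin
    rw [this, map_zero]
  · apply hne
    have h1 := (key 0).2
    have h2 : it h x (0 + 1) 0 = 0 := hmin
    rw [h2] at h1
    have h3 : it h x 0 0 = x 0 := rfl
    rw [h3] at h1
    exact (sub_eq_zero.1 h1.symm)
  · -- (B-1)^2 u = 0
    set u := (it h x m) 0 with hu
    have h1 := (key m).2
    have h2 := (key (m + 1)).2
    have h3 : it h x (m + 1 + 1) 0 = 0 := hmin
    rw [h3] at h2
    set v := (it h x (m + 1)) 0 with hv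
    have h4 : L h v = v := sub_eq_zero.1 h2.symm
    have h5 : inner ℝ v v = (0 : ℝ) := by
      calc inner ℝ v v = inner ℝ (L h u - u) v := by rw [← h1]
        _ = inner ℝ (L h u) v - inner ℝ u v := inner_sub_left _ _ _
        _ = inner ℝ (L h u) (L h v) - inner ℝ u v := by rw [h4]
        _ = 0 := by rw [L_inner, sub_self]
    have h6 : v = 0 := by
      rwa [inner_self_eq_zero] at h5
    exact hmin' (m + 1) (by omega) h6

lemma descend (g h : E ≃ᵃⁱ[ℝ] E) (hg : rho g ≤ 1 / 8) (hh : rho h ≤ 1 / 8) (k : ℕ)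
    (hk : L (it g h (k + 1)) = 1) : L (it g h 1) = 1 := by
  induction k with
  | zero => exact hk
  | succ k ih =>
    apply ih
    have h1 : rho (it g h k) ≤ 1 / 4 := by
      have := (it_bounds g h hg hh k).1
      linarith
    exact frobenius g (it g h k) h1 hk

lemma eq_one_of_L {x : E ≃ᵃⁱ[ℝ] E} (h1 : L x = 1) (h2 : x 0 = 0) : x = 1 := by
  ext1 y
  rw [map_eq x y, h1, h2]
  simp

/-- near symmetries with small rotations commute -/
theorem commute_of_near {d : ℕ} (hd : 0 < d) {F : Set (Set (EuclideanSpace ℝ (Fin d)))}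
    {c D R : ℝ} (hF : Hyp F c D R) {κ : ℝ} (hκ0 : 0 ≤ κ) (hκ8 : κ ≤ 1 / 8)
    (hκ : κ * (R + D) ≤ c / 16) {δ : ℝ} (hδ0 : 0 ≤ δ) (hδ : 3 * 2 ^ (k0 d) * δ ≤ c / 16)
    {g h : EuclideanSpace ℝ (Fin d) ≃ᵃⁱ[ℝ] EuclideanSpace ℝ (Fin d)}
    (hg : Nr F δ g) (hgE : Exact F g) (hgρ : rho g ≤ κ)
    (hh : Nr F δ h) (hhE : Exact F h) (hhρ : rho h ≤ κ) : g * h = h * g := by
  haveI : Nonempty (Fin d) := ⟨⟨0, hd⟩⟩
  haveI : Nontrivial (EuclideanSpace ℝ (Fin d)) := inferInstance
  have hc := hF.c_pos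
  -- all iterated commutators have fixed directions
  have hfix : ∀ k, FixDir (it g h k) := by
    apply fixDir_all
    intro j hj
    apply exists_fixed hF hκ
    · exact ((it_bounds g h (by linarith) (by linarith) j).1).trans hhρ
    · apply (it_nr hg hh j).mono
      have h1 : (2 : ℝ) ^ j ≤ 2 ^ (k0 d) := pow_le_pow_right₀ (by norm_num) hj
      have h2 : (3 * 2 ^ j - 2) * δ ≤ 3 * 2 ^ (k0 d) * δ := by
        apply mul_le_mul_of_nonneg_right _ hδ0
        linarith
      linarith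
  -- so they are eventually trivial
  have htriv : ∃ k : ℕ, it g h (k + 1) = 1 := by
    obtain ⟨k, hk⟩ := exists_pow_lt_of_lt_one
      (show (0 : ℝ) < (c / 4) / (‖g 0‖ + ‖h 0‖ + 1) by positivity)
      (show (1 / 2 : ℝ) < 1 by norm_num)
    refine ⟨k, ?_⟩
    have hb := it_bounds g h (by linarith) (by linarith) (k + 1)
    obtain ⟨e, he, hfe⟩ := hfix (k + 1)
    apply eq_one_of_small hF hκ (it_exact hgE hhE (k + 1)).1 he hfe
    · exact hb.1.trans hhρ
    · rw [lt_div_iff₀ (by positivity)] at hk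
      have p1 : (0 : ℝ) < (1 / 2) ^ k := by positivity
      have : (‖g 0‖ + ‖h 0‖) * (1 / 2) ^ (k + 1) ≤ (1 / 2) ^ k * (‖g 0‖ + ‖h 0‖ + 1) := by
        rw [pow_succ]
        nlinarith [norm_nonneg (g 0), norm_nonneg (h 0)]
      linarith [hb.2.2]
  obtain ⟨k, hk⟩ := htriv
  have hL1 : L (cm g h) = 1 := by
    have : L (it g h 1) = 1 := by
      apply descend g h (by linarith) (by linarith) k
      rw [hk, L_one]
    exact this
  have hxE : Exact F (cm g h) := it_exact hgE hhE 1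
  have hB := trans_fixed hF hκ0 hκ hhE (by linarith) hxE hL1
  have hA := trans_fixed hF hκ0 hκ hgE (by linarith) hxE hL1
  set v := cm g h 0 with hv
  have h1 : cm g h ((h * g) 0) = (g * h) 0 := by
    rw [← cm_mul g h]; rfl
  rw [map_eq (cm g h) ((h * g) 0), hL1] at h1
  have h3 : (h * g) 0 = L h (g 0) + h 0 := by
    change h (g 0) = _
    exact map_eq h (g 0)
  have h4 : (g * h) 0 = L g (h 0) + g 0 := by
    change g (h 0) = _
    exact map_eq g (h 0)
  rw [h3, h4] at h1
  have h5 : (1 : EuclideanSpace ℝ (Fin d) →L[ℝ] EuclideanSpace ℝ (Fin d)) (L h (g 0) + h 0)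
      = L h (g 0) + h 0 := rfl
  rw [h5, ← hv] at h1
  have h6 : v = (L g (h 0) - h 0) - (L h (g 0) - g 0) := by
    have : v = (L h (g 0) + h 0 + v) - (L h (g 0) + h 0) := by abel
    rw [this, h1]; abel
  have h7 : inner ℝ v v = (0 : ℝ) := by
    calc inner ℝ v v = inner ℝ ((L g (h 0) - h 0) - (L h (g 0) - g 0)) v := by rw [← h6]
      _ = (inner ℝ (L g (h 0)) v - inner ℝ (h 0) v) - (inner ℝ (L h (g 0)) v - inner ℝ (g 0) v) := by
        rw [inner_sub_left, inner_sub_left, inner_sub_left]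
      _ = (inner ℝ (L g (h 0)) (L g v) - inner ℝ (h 0) v)
          - (inner ℝ (L h (g 0)) (L h v) - inner ℝ (g 0) v) := by rw [hA, hB]
      _ = 0 := by rw [L_inner, L_inner]; ring
  have h8 : v = 0 := by rwa [inner_self_eq_zero] at h7
  have h9 : cm g h = 1 := eq_one_of_L hL1 h8
  have h10 := cm_mul g h
  rw [h9, one_mul] at h10
  exact h10.symm

end Pool.Agent.Helper992.Solid
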