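import Pool.Agent.Helper992.Solid4

/-!
Helper module for MP_ccd76d_co: near symmetries are symmetries.
-/

set_option autoImplicit false
set_option linter.unusedSectionVars false

namespace Pool.Agent.Helper992.Solid

open Set Metric Filter Topology

variable {d : ℕ} {F : Set (Set (EuclideanSpace ℝ (Fin d)))} {c D R : ℝ}

/-- isometries of the space -/
abbrev Iso (d : ℕ) := EuclideanSpace ℝ (Fin d) ≃ᵃⁱ[ℝ] EuclideanSpace ℝ (Fin d)

lemma norm_L_le (g : Iso d) : ‖L g‖ ≤ 1 := by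
  apply ContinuousLinearMap.opNorm_le_bound _ zero_le_one
  intro x
  rw [L_norm, one_mul]

lemma norm_inv_zero (g : Iso d) : ‖g⁻¹ 0‖ = ‖g 0‖ := by
  have h1 : dist (g⁻¹ 0) (g⁻¹ (g 0)) = dist (0 : EuclideanSpace ℝ (Fin d)) (g 0) :=
    (g⁻¹).dist_map _ _
  have h2 : g⁻¹ (g 0) = 0 := by
    change (g⁻¹ * g) 0 = 0
    rw [inv_mul_cancel]; rfl
  rw [h2] at h1
  rw [dist_zero_right, dist_comm, dist_zero_right] at h1
  exact h1

lemma norm_inv_mul_zero (g h : Iso d) : ‖(g⁻¹ * h) 0‖ = ‖h 0 - g 0‖ := by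
  have h1 : dist (g⁻¹ (h 0)) (g⁻¹ (g 0)) = dist (h 0) (g 0) := (g⁻¹).dist_map _ _
  have h2 : g⁻¹ (g 0) = 0 := by
    change (g⁻¹ * g) 0 = 0
    rw [inv_mul_cancel]; rfl
  rw [h2, dist_zero_right, dist_eq_norm] at h1
  exact h1

lemma stepA (hF : Hyp F c D R) {κ : ℝ} (hκpos : 0 < κ)
    (hcon : ∀ ε : ℝ, 0 < ε → ∃ g : Iso d, Nr F ε g ∧ Exact F g ∧ ¬ Inv F g)
    {η : ℝ} (hη : 0 < η) :
    ∃ x : Iso d, Nr F η x ∧ Exact F x ∧ ¬ Inv F x ∧ rho x ≤ κ := by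
  have hcon' : ∀ n : ℕ, ∃ g : Iso d, Nr F (1 / ((n : ℝ) + 1)) g ∧ Exact F g ∧ ¬ Inv F g :=
    fun n => hcon _ Nat.one_div_pos_of_nat
  choose g hg1 hg2 hg3 using hcon'
  haveI : ProperSpace (EuclideanSpace ℝ (Fin d) →L[ℝ] EuclideanSpace ℝ (Fin d)) :=
    FiniteDimensional.proper ℝ _
  have hmem : ∀ n, L (g n) ∈ Metric.closedBall
      (0 : EuclideanSpace ℝ (Fin d) →L[ℝ] EuclideanSpace ℝ (Fin d)) 1 := by
    intro n
    rw [mem_closedBall, dist_zero_right]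
    exact norm_L_le _
  obtain ⟨A, _, φ, hφ, hlim⟩ := (isCompact_closedBall
    (0 : EuclideanSpace ℝ (Fin d) →L[ℝ] EuclideanSpace ℝ (Fin d)) 1).tendsto_subseq hmem
  rw [Metric.tendsto_atTop] at hlim
  obtain ⟨N, hN⟩ := hlim (κ / 2) (by positivity)
  have hsmall : ∀ ε : ℝ, 0 < ε → ∃ n ≥ N, 1 / ((φ n : ℝ) + 1) ≤ ε := by
    intro ε hε
    obtain ⟨m, hm⟩ := exists_nat_one_div_lt hε
    refine ⟨max N m, le_max_left _ _, ?_⟩
    have h1 : m ≤ φ (max N m) := (le_max_right N m).trans (hφ.id_le _)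
    have h2 : (m : ℝ) ≤ φ (max N m) := by exact_mod_cast h1
    refine le_trans ?_ hm.le
    apply one_div_le_one_div_of_le (by positivity)
    linarith
  obtain ⟨n1, hn1, he1⟩ := hsmall (η / 2) (by positivity)
  have hμ : ∃ μ : ℝ, 0 < μ ∧ ¬ Nr F μ (g (φ n1)) := by
    by_contra hall
    push Not at hall
    exact hg3 (φ n1) (hF.inv_of_nr hall)
  obtain ⟨μ, hμpos, hμn⟩ := hμ
  obtain ⟨n2, hn2, he2⟩ := hsmall (min μ (η / 2)) (by positivity)
  refine ⟨(g (φ n1))⁻¹ * g (φ n2), ?_, ?_, ?_, ?_⟩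
  · have h1 := ((hg1 (φ n1)).inv).mul (hg1 (φ n2))
    apply h1.mono
    have := min_le_right μ (η / 2)
    linarith
  · exact (hg2 _).inv.mul (hg2 _)
  · intro hinv
    apply hμn
    have h1 : g (φ n1) = g (φ n2) * ((g (φ n1))⁻¹ * g (φ n2))⁻¹ := by group
    rw [h1]
    apply ((hg1 (φ n2)).mul hinv.inv.nr).mono
    have := min_le_left μ (η / 2)
    linarith
  · refine (rho_inv_mul _ _).trans ?_
    have h1 := hN n1 hn1
    have h2 := hN n2 hn2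
    simp only [Function.comp_apply] at h1 h2
    have h3 := dist_triangle_right (L (g (φ n2))) (L (g (φ n1))) A
    rw [← dist_eq_norm]
    linarith

lemma stepB (hd : 0 < d) (hF : Hyp F c D R) {κ : ℝ} (hκpos : 0 < κ)
    (hκ : κ * (R + D) ≤ c / 16)
    (hcon : ∀ ε : ℝ, 0 < ε → ∃ g : Iso d, Nr F ε g ∧ Exact F g ∧ ¬ Inv F g)
    {η : ℝ} (hη : 0 < η) (M : ℝ) :
    ∃ x : Iso d, Nr F η x ∧ Exact F x ∧ ¬ Inv F x ∧ rho x ≤ κ ∧ M < ‖x 0‖ := by
  haveI : Nonempty (Fin d) := ⟨⟨0, hd⟩⟩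
  haveI : Nontrivial (EuclideanSpace ℝ (Fin d)) := inferInstance
  have hc := hF.c_pos
  by_contra hno
  push Not at hno
  set η' := min η (c / 32) with hη'
  have hη'pos : 0 < η' := by positivity
  have hex : ∀ n : ℕ, ∃ x : Iso d, Nr F (η' / ((n : ℝ) + 1)) x ∧ Exact F x ∧ ¬ Inv F x ∧
      rho x ≤ κ := by
    intro n
    exact stepA hF hκpos hcon (by positivity)
  choose x hx1 hx2 hx3 hx4 using hex
  have hle : ∀ n : ℕ, η' / ((n : ℝ) + 1) ≤ η' := by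
    intro n
    apply div_le_self hη'pos.le
    have : (0 : ℝ) ≤ n := Nat.cast_nonneg n
    linarith
  have hbd : ∀ n, ‖x n 0‖ ≤ M := by
    intro n
    apply hno (x n) _ (hx2 n) (hx3 n) (hx4 n)
    exact (hx1 n).mono ((hle n).trans (min_le_left _ _))
  haveI : ProperSpace (EuclideanSpace ℝ (Fin d) →L[ℝ] EuclideanSpace ℝ (Fin d)) :=
    FiniteDimensional.proper ℝ _
  have hmem : ∀ n, ((L (x n), x n 0) :
      (EuclideanSpace ℝ (Fin d) →L[ℝ] EuclideanSpace ℝ (Fin d)) × EuclideanSpace ℝ (Fin d)) ∈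
      Metric.closedBall (0 : EuclideanSpace ℝ (Fin d) →L[ℝ] EuclideanSpace ℝ (Fin d)) 1 ×ˢ
        Metric.closedBall (0 : EuclideanSpace ℝ (Fin d)) M := by
    intro n
    refine ⟨?_, ?_⟩
    · rw [mem_closedBall, dist_zero_right]
      exact norm_L_le _
    · rw [mem_closedBall, dist_zero_right]
      exact hbd n
  obtain ⟨A, _, φ, hφ, hlim⟩ := ((isCompact_closedBall
    (0 : EuclideanSpace ℝ (Fin d) →L[ℝ] EuclideanSpace ℝ (Fin d)) 1).prod
    (isCompact_closedBall (0 : EuclideanSpace ℝ (Fin d)) M)).tendsto_subseq hmem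
  rw [Metric.tendsto_atTop] at hlim
  obtain ⟨N, hN⟩ := hlim (min (κ / 2) (c / 16)) (by positivity)
  have hdist : ∀ n ≥ N, dist (L (x (φ n))) A.1 < κ / 2 ∧ dist (x (φ n) 0) A.2 < c / 16 := by
    intro n hn
    have h1 := hN n hn
    rw [Prod.dist_eq, max_lt_iff] at h1
    exact ⟨h1.1.trans_le (min_le_left _ _), h1.2.trans_le (min_le_right _ _)⟩
  have heq : ∀ n ≥ N, x (φ n) = x (φ N) := by
    intro n hn
    have h1 := hdist n hn
    have h2 := hdist N le_rfl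
    have hu1 : Nr F (c / 16) ((x (φ N))⁻¹ * x (φ n)) := by
      apply ((hx1 (φ N)).inv.mul (hx1 (φ n))).mono
      have e1 := hle (φ N)
      have e2 := hle (φ n)
      have e3 : η' ≤ c / 32 := min_le_right _ _
      linarith
    have hu2 : rho ((x (φ N))⁻¹ * x (φ n)) ≤ κ := by
      refine (rho_inv_mul _ _).trans ?_
      have h3 := dist_triangle_right (L (x (φ n))) (L (x (φ N))) A.1
      rw [← dist_eq_norm]
      linarith [h1.1, h2.1]
    obtain ⟨e, he, hfe⟩ := exists_fixed hF hκ hu2 hu1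
    have hu3 : (x (φ N))⁻¹ * x (φ n) = 1 := by
      apply eq_one_of_small hF hκ ((hx2 _).inv.mul (hx2 _)).1 he hfe hu2
      rw [norm_inv_mul_zero, ← dist_eq_norm]
      have h3 := dist_triangle_right (x (φ n) 0) (x (φ N) 0) A.2
      linarith [h1.2, h2.2]
    exact (inv_mul_eq_one.1 hu3).symm
  apply hx3 (φ N)
  apply hF.inv_of_nr
  intro ε hε
  obtain ⟨m, hm⟩ := exists_nat_one_div_lt (show (0 : ℝ) < ε / η' by positivity)
  have h1 : m ≤ φ (max N m) := (le_max_right N m).trans (hφ.id_le _)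
  have h2 : (m : ℝ) ≤ φ (max N m) := by exact_mod_cast h1
  rw [← heq (max N m) (le_max_left _ _)]
  apply (hx1 _).mono
  have h3 : 1 / ((φ (max N m) : ℝ) + 1) ≤ 1 / ((m : ℝ) + 1) := by
    apply one_div_le_one_div_of_le (by positivity)
    linarith
  have h4 : η' / ((φ (max N m) : ℝ) + 1) = η' * (1 / ((φ (max N m) : ℝ) + 1)) := by ring
  rw [h4]
  calc _ ≤ η' * (ε / η') := mul_le_mul_of_nonneg_left (h3.trans hm.le) hη'pos.le
    _ = ε := by field_simp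

lemma stepC (hd : 0 < d) (hF : Hyp F c D R) {κ : ℝ} (hκpos : 0 < κ) (hκ8 : κ ≤ 1 / 8)
    (hκ : κ * (R + D) ≤ c / 16) {δ : ℝ} (hδpos : 0 < δ) (hδ : 3 * 2 ^ (k0 d) * δ ≤ c / 16)
    (hcon : ∀ ε : ℝ, 0 < ε → ∃ g : Iso d, Nr F ε g ∧ Exact F g ∧ ¬ Inv F g)
    {g : Iso d} (hg : Nr F δ g) (hgE : Exact F g) (hgρ : rho g ≤ κ) :
    ∀ K ∈ F, im g K ∈ F := by
  intro K0 hK0
  apply hF.mem_of_Cl
  · exact (g.toHomeomorph.isClosed_image).2 (hF.closed K0 hK0)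
  intro η hη
  obtain ⟨B, hB⟩ := bounded_of_finite hF hgE.1 (fun K hK => hK.1)
  obtain ⟨p, hp⟩ := hF.nonempty K0 hK0
  set η1 := min (min (η / 2) δ) 1 with hη1
  have hη1pos : 0 < η1 := by positivity
  obtain ⟨x, hx1, hx2, _, hx4, hx5⟩ := stepB hd hF hκpos hκ hcon hη1pos (B + ‖p‖ + 1)
  have h1δ : η1 ≤ δ := (min_le_left _ _).trans (min_le_right _ _)
  have h1η : η1 ≤ η / 2 := (min_le_left _ _).trans (min_le_left _ _)
  have h11 : η1 ≤ 1 := min_le_right _ _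
  have hcomm : x * g = g * x :=
    commute_of_near hd hF hκpos.le hκ8 hκ hδpos.le hδ (hx1.mono h1δ) hx2 hx4 hg hgE hgρ
  obtain ⟨Q, hQ, hcl⟩ := hx1.2 K0 hK0
  have hQg : im g Q ∈ F := by
    by_contra hne
    obtain ⟨q, hq, hdq⟩ := hcl.1 (x⁻¹ p) ⟨p, hp, rfl⟩
    have h3 := hB Q ⟨hQ, hne⟩ q hq
    have h4 : ‖x⁻¹ p‖ ≤ ‖q‖ + 1 := by
      rw [dist_eq_norm] at hdq
      calc ‖x⁻¹ p‖ = ‖q + (x⁻¹ p - q)‖ := by congr 1; abel
        _ ≤ ‖q‖ + ‖x⁻¹ p - q‖ := norm_add_le _ _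
        _ ≤ _ := by linarith
    have h5 : ‖x⁻¹ 0‖ ≤ ‖x⁻¹ p‖ + ‖p‖ := by
      have e1 : dist (x⁻¹ 0) (x⁻¹ p) = dist 0 p := (x⁻¹).dist_map _ _
      rw [dist_eq_norm, dist_comm, dist_zero_right] at e1
      calc ‖x⁻¹ 0‖ = ‖x⁻¹ p + (x⁻¹ 0 - x⁻¹ p)‖ := by congr 1; abel
        _ ≤ ‖x⁻¹ p‖ + ‖x⁻¹ 0 - x⁻¹ p‖ := norm_add_le _ _
        _ = _ := by rw [e1]
    rw [norm_inv_zero] at h5
    linarith
  obtain ⟨K2, hK2, hcl2⟩ := hx1.1 _ hQg
  refine ⟨K2, hK2, ?_⟩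
  have h6 : im x (im g Q) = im g (im x Q) := by
    rw [← image_mul, hcomm, image_mul]
  have h7 : Cl η1 K0 (im x Q) := by
    have := hcl.image x
    rwa [image_image_inv] at this
  have h8 := h7.image g
  rw [h6] at hcl2
  exact (h8.trans hcl2).mono (by linarith)

/-- near symmetries that are exact up to finitely many members are symmetries -/
theorem core (hd : 0 < d) (hF : Hyp F c D R) :
    ∃ ε : ℝ, 0 < ε ∧ ∀ g : Iso d, Nr F ε g → Exact F g → Inv F g := by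
  by_contra hno
  push Not at hno
  have hcon : ∀ ε : ℝ, 0 < ε → ∃ g : Iso d, Nr F ε g ∧ Exact F g ∧ ¬ Inv F g := hno
  have hc := hF.c_pos
  have hR := hF.R_nonneg
  have hD := hF.D_nonneg
  set κ := min (1 / 8 : ℝ) (c / (16 * (R + D + 1))) with hκdef
  have hκpos : 0 < κ := by positivity
  have hκ8 : κ ≤ 1 / 8 := min_le_left _ _
  have hκ : κ * (R + D) ≤ c / 16 := by
    have h1 : κ ≤ c / (16 * (R + D + 1)) := min_le_right _ _
    have h2 : κ * (R + D) ≤ c / (16 * (R + D + 1)) * (R + D + 1) := by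
      apply mul_le_mul h1 (by linarith) (by positivity) (by positivity)
    have h3 : c / (16 * (R + D + 1)) * (R + D + 1) = c / 16 := by
      field_simp
    linarith
  set δ : ℝ := c / 16 / (3 * 2 ^ (k0 d)) with hδdef
  have hδpos : 0 < δ := by positivity
  have hδ : 3 * 2 ^ (k0 d) * δ ≤ c / 16 := by
    rw [hδdef]
    apply le_of_eq
    field_simp
  obtain ⟨g, hg1, hg2, hg3, hg4⟩ := stepA hF hκpos hcon hδpos
  apply hg3
  refine ⟨?_, ?_⟩
  · exact stepC hd hF hκpos hκ8 hκ hδpos hδ hcon hg1 hg2 hg4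
  · apply stepC hd hF hκpos hκ8 hκ hδpos hδ hcon hg1.inv hg2.inv
    rw [rho_inv]; exact hg4

end Pool.Agent.Helper992.Solid
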