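import Pool.Agent.Helper992.Solid5

/-!
Helper module for MP_ccd76d_co: packings by congruent convex bodies, and the main theorem.
-/

set_option autoImplicit false
set_option linter.unusedSectionVars false

namespace Pool.Agent.Helper992.Solid

open Set Metric Filter Topology

abbrev Es (d : ℕ) := EuclideanSpace ℝ (Fin d)

def IsConvexBody {d : ℕ} (K : Set (Es d)) : Prop :=
  IsCompact K ∧ Convex ℝ K ∧ (interior K).Nonempty

def Congr {d : ℕ} (A B : Set (Es d)) : Prop := ∃ g : Es d ≃ᵢ Es d, g '' A = B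

def IsPacking {d : ℕ} {ι : Type*} (K : Set (Es d)) (C : ι → Set (Es d)) : Prop :=
  (∀ i, Congr K (C i)) ∧ ∀ i j, i ≠ j → Disjoint (interior (C i)) (interior (C j))

def IsSolid {d : ℕ} {ι : Type*} (K : Set (Es d)) (C : ι → Set (Es d)) : Prop :=
  IsPacking K C ∧ ∀ C' : ι → Set (Es d), {i | C' i ≠ C i}.Finite → IsPacking K C' →
    ∃ g : Es d ≃ᵢ Es d, (fun A => g '' A) '' Set.range C = Set.range C'

def UFS {d : ℕ} {ι : Type*} (K : Set (Es d)) (C : ι → Set (Es d)) : Prop :=
  ∃ ε : ℝ, 0 < ε ∧ ∀ C' : ι → Set (Es d), {i | C' i ≠ C i}.Finite → IsPacking K C' →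
    (∀ i, Metric.hausdorffDist (C i) (C' i) < ε) → C' = C

section basic

variable {d : ℕ} {ι : Type*} {K : Set (Es d)} {C : ι → Set (Es d)}

lemma Congr.compact {A B : Set (Es d)} (h : Congr A B) (hA : IsCompact A) : IsCompact B := by
  obtain ⟨g, rfl⟩ := h
  exact hA.image g.continuous

lemma Congr.nonempty {A B : Set (Es d)} (h : Congr A B) (hA : A.Nonempty) : B.Nonempty := by
  obtain ⟨g, rfl⟩ := h
  exact hA.image g

lemma Congr.convex {A B : Set (Es d)} (h : Congr A B) (hA : Convex ℝ A) : Convex ℝ B := by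
  obtain ⟨g, rfl⟩ := h
  exact hA.affine_image (g.toRealAffineIsometryEquiv.toAffineEquiv : Es d →ᵃ[ℝ] Es d)

lemma Congr.trans {A B B' : Set (Es d)} (h : Congr A B) (h' : Congr B B') : Congr A B' := by
  obtain ⟨g, rfl⟩ := h
  obtain ⟨g', rfl⟩ := h'
  refine ⟨g.trans g', ?_⟩
  rw [← Set.image_comp]
  rfl

lemma Congr.symm {A B : Set (Es d)} (h : Congr A B) : Congr B A := by
  obtain ⟨g, rfl⟩ := h
  refine ⟨g.symm, ?_⟩
  rw [← Set.image_comp]
  have : (g.symm ∘ g : Es d → Es d) = id := by
    funext x; simp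
  rw [this, Set.image_id]

lemma Congr.diam {A B : Set (Es d)} (h : Congr A B) {D : ℝ}
    (hA : ∀ x ∈ A, ∀ y ∈ A, dist x y ≤ D) : ∀ x ∈ B, ∀ y ∈ B, dist x y ≤ D := by
  obtain ⟨g, rfl⟩ := h
  rintro _ ⟨x, hx, rfl⟩ _ ⟨y, hy, rfl⟩
  rw [g.isometry.dist_eq]
  exact hA x hx y hy

lemma Congr.ball {A B : Set (Es d)} (h : Congr A B) {z : Es d} {c : ℝ}
    (hz : closedBall z c ⊆ A) : ∃ z', closedBall z' c ⊆ B := by
  obtain ⟨g, rfl⟩ := h
  refine ⟨g z, ?_⟩
  have h1 : g '' closedBall z c = closedBall (g z) c := g.image_closedBall z c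
  rw [← h1]
  exact Set.image_mono hz

/-- translation by a vector, as an isometry -/
lemma congr_translate (A : Set (Es d)) (v : Es d) : Congr A ((fun y => y + v) '' A) :=
  ⟨IsometryEquiv.addRight v, rfl⟩

/-- a closed convex set that is `δ`-near to every point of a ball of radius `c > δ` contains the
centre in its interior -/
lemma mem_interior_of_near {A B : Set (Es d)} {z : Es d} {c δ : ℝ} (hδ0 : 0 ≤ δ) (hδ : δ < c)
    (hz : closedBall z c ⊆ A) (hBc : Convex ℝ B) (hBcl : IsClosed B)
    (h : ∀ x ∈ A, ∃ y ∈ B, dist x y ≤ δ) : z ∈ interior B := by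
  rw [mem_interior_iff_mem_nhds]
  apply Filter.mem_of_superset (ball_mem_nhds z (show 0 < c - δ by linarith))
  intro p hp
  by_contra hpB
  have hBne : B.Nonempty := by
    obtain ⟨y, hy, _⟩ := h z (hz (mem_closedBall_self (by linarith)))
    exact ⟨y, hy⟩
  obtain ⟨q, hq, hmin⟩ := exists_norm_eq_iInf_of_complete_convex hBne hBcl.isComplete hBc p
  rw [norm_eq_iInf_iff_real_inner_le_zero hBc hq] at hmin
  have hpq : p - q ≠ 0 := by
    intro h0
    rw [sub_eq_zero] at h0
    exact hpB (h0 ▸ hq)
  have hn : 0 < ‖p - q‖ := norm_pos_iff.2 hpq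
  set u := (‖p - q‖)⁻¹ • (p - q) with hu
  have hun : ‖u‖ = 1 := by
    rw [hu, norm_smul, norm_inv, norm_norm, inv_mul_cancel₀ hn.ne']
  have hp' : p + δ • u ∈ closedBall z c := by
    rw [mem_closedBall]
    have h1 : dist (p + δ • u) p = δ := by
      rw [dist_eq_norm]
      have : p + δ • u - p = δ • u := by abel
      rw [this, norm_smul, hun, mul_one, Real.norm_eq_abs, abs_of_nonneg hδ0]
    have h2 : dist p z < c - δ := hp
    have := dist_triangle (p + δ • u) p z
    linarith
  obtain ⟨b, hb, hd⟩ := h _ (hz hp')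
  have h1 : inner ℝ u (p + δ • u - b) ≤ δ := by
    have h2 := real_inner_le_norm u (p + δ • u - b)
    rw [hun, one_mul, ← dist_eq_norm] at h2
    linarith
  have h2 : inner ℝ u (p + δ • u - b) = inner ℝ u (p - q) + δ + inner ℝ u (q - b) := by
    have e : p + δ • u - b = (p - q) + δ • u + (q - b) := by abel
    rw [e, inner_add_right, inner_add_right, inner_smul_right, real_inner_self_eq_norm_sq, hun]
    ring
  have h3 : inner ℝ u (p - q) = ‖p - q‖ := by
    rw [hu, inner_smul_left, real_inner_self_eq_norm_sq]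
    simp only [conj_trivial]
    field_simp
  have h4 : 0 ≤ inner ℝ u (q - b) := by
    have h5 := hmin b hb
    have h6 : inner ℝ u (q - b) = -((‖p - q‖)⁻¹ * inner ℝ (p - q) (b - q)) := by
      rw [hu, inner_smul_left]
      simp only [conj_trivial]
      have : q - b = -(b - q) := by abel
      rw [this, inner_neg_right]
      ring
    rw [h6]
    have h7 : (‖p - q‖)⁻¹ * inner ℝ (p - q) (b - q) ≤ 0 :=
      mul_nonpos_of_nonneg_of_nonpos (by positivity) h5
    linarith
  linarith

lemma packing_sep (hK : IsConvexBody K) (hP : IsPacking K C) {z : Es d} {c : ℝ}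
    (hz : closedBall z c ⊆ K) {i j : ι} {δ : ℝ} (hδ : δ < c) (hc : 0 < c)
    (h : Cl δ (C i) (C j)) : i = j := by
  by_contra hij
  obtain ⟨z', hz'⟩ := (hP.1 i).ball hz
  have h1 : z' ∈ interior (C j) := by
    apply mem_interior_of_near (A := C i) (c := c) (δ := max δ 0) (le_max_right _ _)
      (max_lt hδ hc) hz' ((hP.1 j).convex hK.2.1) ((hP.1 j).compact hK.1).isClosed
    exact (h.mono (le_max_left _ _)).1
  have h2 : z' ∈ interior (C i) := by
    rw [mem_interior_iff_mem_nhds]
    exact Filter.mem_of_superset (closedBall_mem_nhds z' hc) hz'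
  exact (Set.disjoint_left.1 (hP.2 i j hij)) h2 h1

lemma Congr.interior_nonempty {A B : Set (Es d)} (h : Congr A B) (hA : (interior A).Nonempty) :
    (interior B).Nonempty := by
  obtain ⟨g, rfl⟩ := h
  have : g '' interior A = interior (g '' A) := g.toHomeomorph.image_interior A
  rw [← this]
  exact hA.image g

lemma packing_countable (hK : IsConvexBody K) (hP : IsPacking K C) : Countable ι := by
  have h1 : Pairwise (Function.onFun Disjoint fun i => interior (C i)) := fun i j hij => hP.2 i j hij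
  exact h1.countable_of_isOpen_disjoint (fun i => isOpen_interior)
    (fun i => (hP.1 i).interior_nonempty hK.2.2)

lemma edist_ne_top {A B : Set (Es d)} (hA : A.Nonempty) (hB : B.Nonempty) (hA' : IsCompact A)
    (hB' : IsCompact B) : Metric.hausdorffEDist A B ≠ ⊤ :=
  Metric.hausdorffEDist_ne_top_of_nonempty_of_bounded hA hB hA'.isBounded hB'.isBounded

/-- a solid packing with at least two members is relatively dense -/
lemma solid_dense (hK : IsConvexBody K) [Nontrivial ι] (hS : IsSolid K C) {D : ℝ} (hD : 0 ≤ D)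
    (hdiam : ∀ x ∈ K, ∀ y ∈ K, dist x y ≤ D) :
    ∀ x : Es d, ∃ i, ∃ y ∈ C i, dist x y ≤ 3 * D + 1 := by
  classical
  intro x
  by_contra hno
  push Not at hno
  obtain ⟨a, b, hab⟩ := exists_pair_ne ι
  have hP := hS.1
  have hKne : K.Nonempty := hK.2.2.mono interior_subset
  obtain ⟨ka, hka⟩ := (hP.1 a).nonempty hKne
  obtain ⟨kb, hkb⟩ := (hP.1 b).nonempty hKne
  have hxkb : 3 * D + 1 < dist x kb := hno b kb hkb
  have hn : 0 < ‖x - kb‖ := by rw [← dist_eq_norm]; linarith
  set u := (‖x - kb‖)⁻¹ • (x - kb) with hu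
  have hun : ‖u‖ = 1 := by
    rw [hu, norm_smul, norm_inv, norm_norm, inv_mul_cancel₀ hn.ne']
  set T : ℝ → Set (Es d) := fun t => (fun y => y + (x + t • u - ka)) '' C a with hT
  have hTcongr : ∀ t, Congr (C a) (T t) := fun t => congr_translate _ _
  have hTcompact : ∀ t, IsCompact (T t) := fun t =>
    (hTcongr t).compact ((hP.1 a).compact hK.1)
  have hTne : ∀ t, (T t).Nonempty := fun t => (hTcongr t).nonempty ⟨ka, hka⟩
  have hTmem : ∀ t, x + t • u ∈ T t := by
    intro t
    refine ⟨ka, hka, ?_⟩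
    simp only
    abel
  have hTdist : ∀ t, ∀ q ∈ T t, dist q (x + t • u) ≤ D := by
    rintro t _ ⟨y, hy, rfl⟩
    have h1 := (hP.1 a).diam hdiam y hy ka hka
    rw [dist_eq_norm] at h1 ⊢
    have : y + (x + t • u - ka) - (x + t • u) = y - ka := by abel
    simp only [this]
    exact h1
  have hCb : IsCompact (C b) := (hP.1 b).compact hK.1
  -- the function
  set f : ℝ → ℝ := fun t => hausdorffDist (C b) (T t) with hf
  have hTT : ∀ s t : ℝ, hausdorffDist (T s) (T t) ≤ |s - t| := by
    intro s t
    apply hausdorffDist_le_of_mem_dist (abs_nonneg _)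
    · rintro _ ⟨y, hy, rfl⟩
      refine ⟨_, ⟨y, hy, rfl⟩, ?_⟩
      rw [dist_eq_norm]
      have : y + (x + s • u - ka) - (y + (x + t • u - ka)) = (s - t) • u := by
        rw [sub_smul]; abel
      simp only [this]
      rw [norm_smul, hun, mul_one, Real.norm_eq_abs]
    · rintro _ ⟨y, hy, rfl⟩
      refine ⟨_, ⟨y, hy, rfl⟩, ?_⟩
      rw [dist_eq_norm]
      have : y + (x + t • u - ka) - (y + (x + s • u - ka)) = (t - s) • u := by
        rw [sub_smul]; abel
      simp only [this]
      rw [norm_smul, hun, mul_one, Real.norm_eq_abs, abs_sub_comm]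
  have hLip : LipschitzWith 1 f := by
    apply LipschitzWith.of_le_add
    intro s t
    rw [Real.dist_eq]
    have h1 := hausdorffDist_triangle (s := C b) (t := T t) (u := T s)
      (edist_ne_top ⟨kb, hkb⟩ (hTne t) hCb (hTcompact t))
    have h2 := hTT t s
    rw [abs_sub_comm] at h2
    simp only [hf]
    linarith
  -- values are in a countable set
  have hcount : Countable ι := packing_countable hK hP
  set S : Set ℝ := Set.range fun p : ι × ι => hausdorffDist (C p.1) (C p.2) with hS'
  have hScount : S.Countable := Set.countable_range _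
  have hfS : ∀ t, 0 ≤ t → t ≤ 2 * D + 1 → f t ∈ S := by
    intro t ht0 ht1
    set C' := Function.update C a (T t) with hC'
    have hfar : ∀ i, Disjoint (T t) (C i) := by
      intro i
      rw [Set.disjoint_left]
      intro q hq hqi
      have h1 := hno i q hqi
      have h2 := hTdist t q hq
      have h3 : dist x (x + t • u) = t := by
        rw [dist_eq_norm]
        have : x - (x + t • u) = -(t • u) := by abel
        rw [this, norm_neg, norm_smul, hun, mul_one, Real.norm_eq_abs, abs_of_nonneg ht0]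
      have h4 := dist_triangle x (x + t • u) q
      rw [dist_comm (x + t • u) q] at h4
      linarith
    have hfin : {i | C' i ≠ C i}.Finite := by
      apply (Set.finite_singleton a).subset
      intro i hi
      by_contra hne
      apply hi
      rw [hC', Function.update_of_ne hne]
    have hP' : IsPacking K C' := by
      refine ⟨?_, ?_⟩
      · intro i
        by_cases hi : i = a
        · subst hi
          rw [hC', Function.update_self]
          exact (hP.1 i).trans (hTcongr t)
        · rw [hC', Function.update_of_ne hi]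
          exact hP.1 i
      · intro i j hij
        by_cases hi : i = a
        · subst hi
          rw [hC', Function.update_self, Function.update_of_ne (Ne.symm hij)]
          exact (hfar j).mono interior_subset interior_subset
        · by_cases hj : j = a
          · subst hj
            rw [hC', Function.update_self, Function.update_of_ne hi]
            exact ((hfar i).mono interior_subset interior_subset).symm
          · rw [hC', Function.update_of_ne hi, Function.update_of_ne hj]
            exact hP.2 i j hij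
    obtain ⟨g, hg⟩ := hS.2 C' hfin hP'
    have hb : C' b ∈ (fun A => g '' A) '' Set.range C := by rw [hg]; exact ⟨b, rfl⟩
    have ha : C' a ∈ (fun A => g '' A) '' Set.range C := by rw [hg]; exact ⟨a, rfl⟩
    obtain ⟨_, ⟨i, rfl⟩, hi⟩ := hb
    obtain ⟨_, ⟨j, rfl⟩, hj⟩ := ha
    simp only at hi hj
    have hi' : g '' C i = C b := by rw [hi, hC', Function.update_of_ne (Ne.symm hab)]
    have hj' : g '' C j = T t := by rw [hj, hC', Function.update_self]
    refine ⟨(i, j), ?_⟩
    simp only [hf]
    rw [← hi', ← hj', hausdorffDist_image g.isometry]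
  -- values at the end points
  have hf0 : f 0 ≤ D + dist x kb := by
    apply hausdorffDist_le_of_mem_dist (by positivity)
    · intro p hp
      refine ⟨x + (0 : ℝ) • u, hTmem 0, ?_⟩
      rw [zero_smul, add_zero]
      have h1 := (hP.1 b).diam hdiam p hp kb hkb
      have h2 := dist_triangle p kb x
      rw [dist_comm kb x] at h2
      linarith
    · intro q hq
      refine ⟨kb, hkb, ?_⟩
      have h1 := hTdist 0 q hq
      rw [zero_smul, add_zero] at h1
      have h2 := dist_triangle q x kb
      linarith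
  have hf1 : dist x kb + (2 * D + 1) - D ≤ f (2 * D + 1) := by
    by_contra hlt
    push Not at hlt
    obtain ⟨p, hp, hd⟩ := exists_dist_lt_of_hausdorffDist_lt' (hTmem (2 * D + 1)) hlt
      (edist_ne_top ⟨kb, hkb⟩ (hTne _) hCb (hTcompact _))
    have h1 := (hP.1 b).diam hdiam p hp kb hkb
    have h2 : dist (x + (2 * D + 1) • u) kb = dist x kb + (2 * D + 1) := by
      rw [dist_eq_norm, dist_eq_norm]
      have e1 : x + (2 * D + 1) • u - kb = (‖x - kb‖ + (2 * D + 1)) • u := by
        have e2 : ‖x - kb‖ • u = x - kb := by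
          rw [hu, smul_smul, mul_inv_cancel₀ hn.ne', one_smul]
        rw [add_smul ‖x - kb‖ (2 * D + 1) u, e2]
        abel
      rw [e1, norm_smul, hun, mul_one, Real.norm_eq_abs, abs_of_nonneg (by positivity)]
    have h3 := dist_triangle (x + (2 * D + 1) • u) p kb
    rw [dist_comm (x + (2 * D + 1) • u) p] at h3
    linarith
  have hlt : f 0 < f (2 * D + 1) := by linarith
  have hIcc : Set.Icc (f 0) (f (2 * D + 1)) ⊆ S := by
    intro v hv
    obtain ⟨t, ht, rfl⟩ := intermediate_value_Icc (show (0 : ℝ) ≤ 2 * D + 1 by positivity)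
      hLip.continuous.continuousOn hv
    exact hfS t ht.1 ht.2
  have hnull : MeasureTheory.volume (Set.Icc (f 0) (f (2 * D + 1))) = 0 :=
    (hScount.mono hIcc).measure_zero _
  rw [Real.volume_Icc] at hnull
  have : 0 < f (2 * D + 1) - f 0 := by linarith
  rw [ENNReal.ofReal_eq_zero] at hnull
  linarith

end basic

section main

variable {d : ℕ} {ι : Type*} {K : Set (Es d)} {C : ι → Set (Es d)}

lemma cl_of_hausdorffDist {A B : Set (Es d)} {ε : ℝ} (h : hausdorffDist A B < ε)
    (hfin : Metric.hausdorffEDist A B ≠ ⊤) : Cl ε A B := by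
  refine ⟨fun x hx => ?_, fun y hy => ?_⟩
  · obtain ⟨y, hy, hd⟩ := exists_dist_lt_of_hausdorffDist_lt hx h hfin
    exact ⟨y, hy, hd.le⟩
  · obtain ⟨x, hx, hd⟩ := exists_dist_lt_of_hausdorffDist_lt' hy h hfin
    exact ⟨x, hx, hd.le⟩

theorem solid_ufs (hK : IsConvexBody K) [Nontrivial ι] (hS : IsSolid K C) : UFS K C := by
  have hP := hS.1
  have hKne : K.Nonempty := hK.2.2.mono interior_subset
  -- constants
  obtain ⟨z, hz⟩ := hK.2.2
  obtain ⟨c, hc, hzc⟩ := (Metric.nhds_basis_closedBall.mem_iff).1 (mem_interior_iff_mem_nhds.1 hz)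
  set D := Metric.diam K with hD
  have hD0 : 0 ≤ D := Metric.diam_nonneg
  have hdiam : ∀ x ∈ K, ∀ y ∈ K, dist x y ≤ D := fun x hx y hy =>
    Metric.dist_le_diam_of_mem hK.1.isBounded hx hy
  have hdense := solid_dense hK hS hD0 hdiam
  have hd : 0 < d := by
    rcases Nat.eq_zero_or_pos d with h0 | h0
    · exfalso
      subst h0
      obtain ⟨a, b, hab⟩ := exists_pair_ne ι
      obtain ⟨p, hp⟩ := (hP.1 a).interior_nonempty hK.2.2
      obtain ⟨q, hq⟩ := (hP.1 b).interior_nonempty hK.2.2
      have hpq : p = q := Subsingleton.elim _ _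
      rw [← hpq] at hq
      exact (Set.disjoint_left.1 (hP.2 a b hab)) hp hq
    · exact h0
  have hF : Hyp (Set.range C) c D (3 * D + 1) := by
    refine ⟨hc, hD0, by positivity, ?_, ?_, ?_, ?_, ?_⟩
    · rintro _ ⟨i, rfl⟩
      exact (hP.1 i).nonempty hKne
    · rintro _ ⟨i, rfl⟩
      exact ((hP.1 i).compact hK.1).isClosed
    · rintro _ ⟨i, rfl⟩
      exact (hP.1 i).diam hdiam
    · rintro _ ⟨i, rfl⟩ _ ⟨j, rfl⟩ δ hδ hcl
      rw [packing_sep hK hP hzc hδ hc hcl]
    · intro x
      obtain ⟨i, y, hy, hxy⟩ := hdense x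
      exact ⟨C i, ⟨i, rfl⟩, y, hy, hxy⟩
  obtain ⟨ε, hε, hcore⟩ := core hd hF
  refine ⟨min ε (c / 2), by positivity, ?_⟩
  intro C' hfin hP' hdist
  have hne : ∀ i, Metric.hausdorffEDist (C i) (C' i) ≠ ⊤ := fun i =>
    edist_ne_top ((hP.1 i).nonempty hKne) ((hP'.1 i).nonempty hKne) ((hP.1 i).compact hK.1)
      ((hP'.1 i).compact hK.1)
  have hcl : ∀ i, Cl (min ε (c / 2)) (C i) (C' i) := fun i =>
    cl_of_hausdorffDist (hdist i) (hne i)
  obtain ⟨g0, hg0⟩ := hS.2 C' hfin hP'
  set g : Iso d := g0.toRealAffineIsometryEquiv with hg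
  have him : ∀ A : Set (Es d), im g A = g0 '' A := fun A => rfl
  have hmem1 : ∀ A ∈ Set.range C, im g A ∈ Set.range C' := by
    intro A hA
    rw [← hg0]
    exact ⟨A, hA, rfl⟩
  have hmem2 : ∀ A ∈ Set.range C', ∃ B ∈ Set.range C, im g B = A := by
    intro A hA
    rw [← hg0] at hA
    obtain ⟨B, hB, hBA⟩ := hA
    exact ⟨B, hB, hBA⟩
  have hnr : Nr (Set.range C) ε g := by
    refine ⟨?_, ?_⟩
    · intro A hA
      obtain ⟨i, hi⟩ := hmem1 A hA
      refine ⟨C i, ⟨i, rfl⟩, ?_⟩
      rw [← hi]
      exact ((hcl i).mono (min_le_left _ _)).symm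
    · rintro _ ⟨i, rfl⟩
      obtain ⟨B, hB, hBi⟩ := hmem2 (C' i) ⟨i, rfl⟩
      refine ⟨B, hB, ?_⟩
      have h1 : B = im g⁻¹ (C' i) := by rw [← hBi, image_inv_image]
      rw [h1]
      exact ((hcl i).mono (min_le_left _ _)).image g⁻¹
  have hex : Exact (Set.range C) g := by
    refine ⟨?_, ?_⟩
    · have h1 : {A | A ∈ Set.range C ∧ im g A ∉ Set.range C} ⊆
          (fun A : Set (Es d) => im g A) ⁻¹' (C' '' {i | C' i ≠ C i}) := by
        rintro A ⟨hA, hnA⟩
        obtain ⟨i, hi⟩ := hmem1 A hA
        refine ⟨i, ?_, hi⟩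
        intro heq
        apply hnA
        rw [← hi, heq]
        exact ⟨i, rfl⟩
      exact ((hfin.image C').preimage (image_inj g).injOn).subset h1
    · have h1 : {A | A ∈ Set.range C ∧ im g⁻¹ A ∉ Set.range C} ⊆ C '' {i | C' i ≠ C i} := by
        rintro _ ⟨⟨i, rfl⟩, hnA⟩
        refine ⟨i, ?_, rfl⟩
        intro heq
        apply hnA
        obtain ⟨B, hB, hBi⟩ := hmem2 (C' i) ⟨i, rfl⟩
        rw [← heq, ← hBi, image_inv_image]
        exact hB
      exact (hfin.image C).subset h1
  have hinv := hcore g hnr hex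
  funext i
  obtain ⟨B, hB, hBi⟩ := hmem2 (C' i) ⟨i, rfl⟩
  have h1 : C' i ∈ Set.range C := by
    rw [← hBi]
    exact hinv.1 B hB
  refine (hF.sep (C i) ⟨i, rfl⟩ (C' i) h1 (min ε (c / 2)) ?_ (hcl i)).symm
  have := min_le_right ε (c / 2)
  linarith

/-- a family consisting of one body is solid but can be moved -/
theorem single_body (hd : 1 ≤ d) (hK : IsConvexBody K) (i0 : ι) (hι : ∀ j : ι, j = i0)
    (hC : Congr K (C i0)) : IsSolid K C ∧ ¬ UFS K C := by
  have hpack : ∀ C' : ι → Set (Es d), Congr K (C' i0) → IsPacking K C' := by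
    intro C' h
    refine ⟨fun i => ?_, fun i j hij => ?_⟩
    · rw [hι i]; exact h
    · exact absurd ((hι i).trans (hι j).symm) hij
  have hrange : ∀ C' : ι → Set (Es d), Set.range C' = {C' i0} := by
    intro C'
    ext A
    constructor
    · rintro ⟨j, rfl⟩
      rw [hι j]; rfl
    · rintro rfl
      exact ⟨i0, rfl⟩
  constructor
  · refine ⟨hpack C hC, ?_⟩
    intro C' _ hP'
    obtain ⟨g, hg⟩ := hC.symm.trans (hP'.1 i0)
    refine ⟨g, ?_⟩
    rw [hrange, hrange, Set.image_singleton]
    simp only [hg]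
  · rintro ⟨ε, hε, H⟩
    have : Nonempty (Fin d) := ⟨⟨0, hd⟩⟩
    have : Nontrivial (Es d) := inferInstance
    obtain ⟨v, hv⟩ := exists_norm_eq (Es d) (show (0 : ℝ) ≤ ε / 2 by positivity)
    set C' : ι → Set (Es d) := fun i => (fun y => y + v) '' C i with hC'
    have h1 : C' = C := by
      apply H C'
      · have : Finite ι := ⟨⟨fun _ => (0 : Fin 1), fun _ => i0, fun j => (hι j).symm, fun x =>
          Subsingleton.elim _ _⟩⟩
        exact Set.toFinite _
      · exact hpack C' (hC.trans (congr_translate _ _))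
      · intro i
        have h2 : hausdorffDist (C i) (C' i) ≤ ε / 2 := by
          apply hausdorffDist_le_of_mem_dist (by positivity)
          · intro y hy
            refine ⟨y + v, ⟨y, hy, rfl⟩, ?_⟩
            rw [dist_eq_norm]
            have : y - (y + v) = -v := by abel
            rw [this, norm_neg, hv]
          · rintro _ ⟨y, hy, rfl⟩
            refine ⟨y, hy, ?_⟩
            rw [dist_eq_norm]
            have : y + v - y = v := by abel
            simp only [this]
            exact hv.le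
        linarith
    have h2 : (fun y => y + v) '' C i0 = C i0 := congrFun h1 i0
    have hKne : K.Nonempty := hK.2.2.mono interior_subset
    obtain ⟨p, hp⟩ := hC.nonempty hKne
    have h3 : ∀ n : ℕ, p + (n : ℝ) • v ∈ C i0 := by
      intro n
      induction n with
      | zero => simpa using hp
      | succ n ih =>
        rw [← h2]
        refine ⟨_, ih, ?_⟩
        push_cast
        rw [add_smul, one_smul]
        abel
    obtain ⟨B, hB⟩ := (hC.compact hK.1).isBounded.exists_norm_le
    obtain ⟨n, hn⟩ := exists_nat_gt ((B + ‖p‖) / (ε / 2))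
    have h4 := hB _ (h3 n)
    have h5 : (n : ℝ) * (ε / 2) ≤ ‖p + (n : ℝ) • v‖ + ‖p‖ := by
      calc (n : ℝ) * (ε / 2) = ‖(n : ℝ) • v‖ := by
            rw [norm_smul, hv, Real.norm_natCast]
        _ = ‖(p + (n : ℝ) • v) - p‖ := by congr 1; abel
        _ ≤ _ := norm_sub_le _ _
    rw [div_lt_iff₀ (by positivity)] at hn
    linarith

end main

end Pool.Agent.Helper992.Solid
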